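import Pool.Agent.H54.ND.Cfg2

/-!
# Copies of configurations: partial data of the other lines

`cfg_gen2`: everything in the first configuration is as free given `E` of it and the partial data `l`
of all copies as given `(E, l)` of it, up to the loss `CH l x - CH l y`. `nd_law2`: for the
configurations `cfg p r l m k` and the line number `j`, with the level-free data `ell` of the lines;
the loss is small if `ell` has at most as much entropy as the far digits `Uf` of the point, and these
are full given the closed data of the point.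
-/

set_option autoImplicit false

namespace Pool.ND54

open Finset Real
open Pool.Agent.H49.Ent Pool.Agent.H32.Dense Pool.STK
open Pool.BFL (Pb)
open Pool.K2S (cpn)
open Pool.CLU (cpn_law cpn_pos cpn_marg)
open Pool.H52.TIE (CH_cpn CH_cpn_zero)

section

variable {Ω R T Λ X U Y S Z N' L' V S' W' : Type} [Fintype Ω]

/-- **Copies of configurations, partial data.** -/
theorem cfg_gen2 {q : Ω → ℝ} (hq : IsLaw q) (l : Ω → Λ) (x : Ω → X) (y : Ω → Y) (D : Ω → S)
    (E : Ω → R) (n : ℕ) (hyx : Det q y x) (hlx : Det q l x) :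
    CH q D (fun v => (E v, l v)) - n * (CH q l x - CH q l y) ≤
      CH (cpn q y n) (fun w => D (w 0)) (fun w => (E (w 0), fun i => l (w i))) := by
  classical
  have hQ := cpn_law hq y n
  have Q0 := hQ.nonneg
  have b1 := CH_chain Q0 (fun w => D (w 0)) (fun w => (E (w 0), fun (i : Fin (n + 1)) => l (w i)))
    (fun w => x (w 0))
  have b2 : CH (cpn q y n) (fun w => D (w 0))
      (fun w => ((E (w 0), fun (i : Fin (n + 1)) => l (w i)), x (w 0))) ≤
      CH (cpn q y n) (fun w => D (w 0)) (fun w => (E (w 0), fun i => l (w i))) :=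
    CH_mono_cond Q0 fun w w' _ _ h => (Prod.ext_iff.1 h).1
  have b3 : CH (cpn q y n) (fun w => (E (w 0), fun (i : Fin (n + 1)) => l (w i)))
      (fun w => x (w 0)) ≤ n * CH q l x + CH q (fun v => (E v, l v)) x := by
    have h1 : CH (cpn q y n) (fun w => (E (w 0), fun (i : Fin (n + 1)) => l (w i)))
        (fun w => x (w 0)) ≤ CH (cpn q y n) (fun w => ((fun (j : Fin n) => l (w j.succ)),
          (E (w 0), l (w 0)))) (fun w => x (w 0)) := by
      refine CH_mono_left Q0 fun w w' _ _ h => ?_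
      have h' := Prod.ext_iff.1 (Prod.ext_iff.1 h).1
      have h'' := Prod.ext_iff.1 h'.2
      simp only at h' h''
      refine Prod.ext h''.1 ?_
      funext i
      refine Fin.cases ?_ (fun j => ?_) i
      · exact h''.2
      · exact congrFun h'.1 j
    refine h1.trans ((CH_subadd Q0 _ _ _).trans ?_)
    refine add_le_add ?_ (le_of_eq ?_)
    · refine (Pool.KS3.CH_pi_le Q0 (fun w : Fin (n + 1) → Ω => fun (j : Fin n) => l (w j.succ))
        (fun w => x (w 0))).trans ?_
      rw [Finset.sum_congr rfl fun (j : Fin n) _ => CH_cpn_zero hq y n j.succ l x hyx,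
        Finset.sum_const, Finset.card_univ, Fintype.card_fin, nsmul_eq_mul]
    · exact CH_cpn hq y n 0 (fun v => (E v, l v)) x
  have b4 : CH (cpn q y n) (fun w => (((fun (j : Fin n) => l (w j.succ)),
      (D (w 0), (E (w 0), l (w 0)))))) (fun w => x (w 0)) ≤
      CH (cpn q y n) (fun w => (D (w 0), (E (w 0), fun (i : Fin (n + 1)) => l (w i))))
      (fun w => x (w 0)) := by
    refine CH_mono_left Q0 fun w w' _ _ h => ?_
    have h' := Prod.ext_iff.1 (Prod.ext_iff.1 h).1
    have h'' := Prod.ext_iff.1 h'.2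
    simp only at h' h''
    refine Prod.ext ?_ (Prod.ext h'.1 (Prod.ext h''.1 (congrFun h''.2 0)))
    funext j
    exact congrFun h''.2 j.succ
  have b5 := CH_chain Q0 (fun w (j : Fin n) => l (w j.succ))
    (fun w => (D (w 0), (E (w 0), l (w 0)))) (fun w => x (w 0))
  have b6 : n * CH q l y ≤ CH (cpn q y n) (fun w (j : Fin n) => l (w j.succ))
      (fun w => ((D (w 0), (E (w 0), l (w 0))), x (w 0))) := by
    refine (cpn_tail hq y l n).trans (CH_mono_cond Q0 fun w w' _ _ h => ?_)
    have h' : w 0 = w' 0 := h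
    rw [h']
  have b7 : CH (cpn q y n) (fun w => (D (w 0), (E (w 0), l (w 0)))) (fun w => x (w 0)) =
      CH q (fun ω => (D ω, (E ω, l ω))) x :=
    CH_cpn hq y n 0 (fun ω => (D ω, (E ω, l ω))) x
  have b8 := CH_chain hq.nonneg D (fun ω => (E ω, l ω)) x
  have b9 : CH q D (fun ω => (E ω, l ω)) ≤ CH q D (fun ω => ((E ω, l ω), x ω)) := by
    refine CH_mono_cond hq.nonneg fun ω ω' hω hω' h => ?_
    exact Prod.ext h (hlx _ _ hω hω' (Prod.ext_iff.1 h).2)
  have b10 : (n : ℝ) * (CH q l x - CH q l y) = n * CH q l x - n * CH q l y := by ring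
  rw [b10]
  linarith

/-- **The copies of configurations with the level-free data of the lines.** -/
theorem nd_law2 {p : Ω → ℝ} (hp : IsLaw p) (r : Ω → R) (l : Ω → Λ) (m k n : ℕ)
    (j : Fin (m + 1)) (ell : Ω → L') (x : Ω → X) (t : Ω → T) (sT : Ω → S') (Uf : Ω → V)
    (ud : Ω → U) (zw : Ω → Z) (tn : Ω → N') (y : (Fin (m + 1) → Fin (k + 1) → Ω) → Y)
    {cU ef eo eU cn en e₀ e₂ : ℝ} (hrz : Det p r zw)
    (hxz : Det p (fun ω => (t ω, (sT ω, x ω))) zw) (hrU : Det p r Uf)
    (hrt : Det p r t) (hex : Det p ell x)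
    (hyx : Det (cfg p r l m k) y (fun v => x (v j 0)))
    (hyt : Det (cfg p r l m k) y (fun v => t (v 0 0)))
    (hf : CH p ell x ≤ cU + ef) (ho : CH p Uf (fun ω => (ell ω, t ω)) ≤ eo)
    (hU : cU - eU ≤ CH p Uf (fun ω => (t ω, (sT ω, x ω))))
    (h0 : CH p ud zw ≤ CH p ud r + e₀) (hn : cn - en ≤ CH p tn l) (htn : H p tn ≤ cn)
    (hy : CH (cfg p r l m k) y (fun v => ((t (v 0 0), (sT (v 0 0), x (v 0 0))),
      fun (j : Fin m) => (ud (v j.succ 0), fun (i : Fin k) => tn (v j.succ i.succ)))) ≤ e₂)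
    (D : (Fin (m + 1) → Fin (k + 1) → Ω) → S)
    (E : (Fin (m + 1) → Fin (k + 1) → Ω) → W') :
    CH (cfg p r l m k) D (fun v => (E v, ell (v j 0))) -
      n * (ef + eo + eU + m * (e₀ + k * en) + e₂) ≤
      CH (cpn (cfg p r l m k) y n) (fun w => D (w 0))
        (fun w => (E (w 0), fun i => ell (w i j 0))) := by
  classical
  have hc := cfg_law hp r l m k
  have c0 := hc.nonneg
  have hm := cfg_one hp r l m k 0 0
  have hj := cfg_one hp r l m k j 0
  have hlx' : Det (cfg p r l m k) (fun v => ell (v j 0)) (fun v => x (v j 0)) :=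
    fun v v' hv hv' h => hex _ _ ((cfg_pos hp r l hv).1 j 0) ((cfg_pos hp r l hv').1 j 0) h
  have h1 := cfg_gen2 hc (fun v => ell (v j 0)) (fun v => x (v j 0)) y D E n hyx hlx'
  -- freedom of the other lines
  have h2 := cfg_free hp r l m k ud zw tn (fun ω => (t ω, (sT ω, x ω))) hrz hxz h0 hn htn
  have h3 := cfg_keep hc (fun v => Uf (v 0 0)) (fun v => (t (v 0 0), (sT (v 0 0), x (v 0 0))))
    (fun v => fun (j : Fin m) => (ud (v j.succ 0), fun (i : Fin k) => tn (v j.succ i.succ))) y
    (fun v => v 0 0) (e₁ := m * (e₀ + k * en)) (e₂ := e₂) (fun v v' _ _ h => by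
      have h' : v 0 0 = v' 0 0 := h
      show Uf (v 0 0) = Uf (v' 0 0)
      rw [h']) (fun v v' _ _ h => by
      have h' : v 0 0 = v' 0 0 := h
      show (t (v 0 0), (sT (v 0 0), x (v 0 0))) = (t (v' 0 0), (sT (v' 0 0), x (v' 0 0)))
      rw [h']) hy h2
  have h4 : CH (cfg p r l m k) (fun v => Uf (v 0 0))
      (fun v => (t (v 0 0), (sT (v 0 0), x (v 0 0)))) =
      CH p Uf (fun ω => (t ω, (sT ω, x ω))) := hm.CH Uf (fun ω => (t ω, (sT ω, x ω)))
  have h5 : CH (cfg p r l m k) (fun v => ell (v j 0)) (fun v => x (v j 0)) = CH p ell x :=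
    hj.CH ell x
  -- the far digits of the point from the line number `j`
  have h6 : CH (cfg p r l m k) (fun v => Uf (v 0 0)) (fun v => (ell (v j 0), y v)) ≤ eo := by
    have e1 : CH (cfg p r l m k) (fun v => Uf (v 0 0)) (fun v => (ell (v j 0), y v)) ≤
        CH (cfg p r l m k) (fun v => Uf (v 0 0)) (fun v => (ell (v j 0), t (v j 0))) := by
      refine CH_mono_cond c0 fun v v' hv hv' h => ?_
      have h' := Prod.ext_iff.1 h
      refine Prod.ext h'.1 ?_
      have a1 := cfg_pos hp r l hv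
      have a2 := cfg_pos hp r l hv'
      show t (v j 0) = t (v' j 0)
      rw [hrt _ _ (a1.1 j 0) (a1.1 0 0) (a1.2.2 j), hrt _ _ (a2.1 j 0) (a2.1 0 0) (a2.2.2 j)]
      exact hyt _ _ hv hv' h'.2
    have e2 : CH (cfg p r l m k) (fun v => Uf (v 0 0)) (fun v => (ell (v j 0), t (v j 0))) ≤
        CH (cfg p r l m k) (fun v => Uf (v j 0)) (fun v => (ell (v j 0), t (v j 0))) := by
      refine CH_mono_left c0 fun v v' hv hv' h => ?_
      have h' := (Prod.ext_iff.1 h).1
      have a1 := cfg_pos hp r l hv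
      have a2 := cfg_pos hp r l hv'
      show Uf (v 0 0) = Uf (v' 0 0)
      rw [← hrU _ _ (a1.1 j 0) (a1.1 0 0) (a1.2.2 j), ← hrU _ _ (a2.1 j 0) (a2.1 0 0) (a2.2.2 j)]
      exact h'
    have e3 : CH (cfg p r l m k) (fun v => Uf (v j 0)) (fun v => (ell (v j 0), t (v j 0))) =
        CH p Uf (fun ω => (ell ω, t ω)) := hj.CH Uf (fun ω => (ell ω, t ω))
    linarith
  have h7 := CH_le_add c0 (fun v => Uf (v 0 0)) (fun v => ell (v j 0)) y
  have h8 : CH (cfg p r l m k) (fun v => ell (v j 0)) (fun v => x (v j 0)) -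
      CH (cfg p r l m k) (fun v => ell (v j 0)) y ≤
      ef + eo + eU + m * (e₀ + k * en) + e₂ := by linarith
  have h9 := mul_le_mul_of_nonneg_left h8 (Nat.cast_nonneg n)
  linarith

/-- **The copies of configurations, any law `q` of the configurations**: `ell` is the level-free data
of one of the lines, `x` its base data (known in `y`), `Uf` the far digits of the point, which are full
given the near data `y` of the configuration. -/
theorem nd_core {q : Ω → ℝ} (hq : IsLaw q) (ell : Ω → L') (x : Ω → X) (Uf : Ω → V) (y : Ω → Y)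
    (n : ℕ) {cU ef eo eU : ℝ} (hyx : Det q y x) (hex : Det q ell x)
    (hf : CH q ell x ≤ cU + ef) (ho : CH q Uf (fun v => (ell v, y v)) ≤ eo)
    (hU : cU - eU ≤ CH q Uf y) (D : Ω → S) (E : Ω → R) :
    CH q D (fun v => (E v, ell v)) - n * (ef + eo + eU) ≤
      CH (cpn q y n) (fun w => D (w 0)) (fun w => (E (w 0), fun i => ell (w i))) := by
  have h1 := cfg_gen2 hq ell x y D E n hyx hex
  have h2 := CH_le_add hq.nonneg Uf ell y
  have h3 : CH q ell x - CH q ell y ≤ ef + eo + eU := by linarith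
  have h4 := mul_le_mul_of_nonneg_left h3 (Nat.cast_nonneg n)
  linarith

end

end Pool.ND54
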