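import Pool.Agent.H54.ND.Evl

/-!
# The near-dead step, event level

`nd_evt`: off a small mass of the copies of configurations, the divided difference of the slopes of
the own lines of the tuple is small, if there is no linear relation (`RelO`) with a large last
coefficient.
-/

set_option autoImplicit false

namespace Pool.ND54

open Finset Real MvPolynomial
open Pool.Agent.H49.Ent Pool.Agent.H32.Dense Pool.STK Pool.KA Pool.KSAT Pool.K2S Pool.PB Pool.S6C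
open Pool.GEN hiding Det
open Pool.CHT Pool.D2R Pool.LA91 Pool.RCD
open Pool.PB.Trl (rt rt_mem t_rt)
open Pool.V0F (cR det_cR)
open Pool.NDC42
open Pool.BFL (Pb)
open Pool.STB (Pb_mono Pb_or)
open Pool.CLU (cpn_law cpn_pos cpn_marg)
open Pool.NDD66 (op op_at op_deg op_der ov mu Lam Lam_le RelO det3o ov_near)

variable {m J : ℕ}

/-- **The three relations of a tuple**, from its sheets. -/
theorem tup_rel (D D₂ : ℕ) : ∃ Cd : ℕ, 1 ≤ Cd ∧ ∀ {m J : ℕ} {F : Fam m J} {A : F.Ω → Prop}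
    (_ : 0 < Pe F.p A) {c : ℕ → Fin m} {w t x' : ℝ} {n : ℕ → ℝ} {nt : ℝ}
    {H Hr : LnT F → ℕ → MvPolynomial (Option (Fin m)) ℝ},
    w ≤ x' → t ≤ x' → x' ≤ 1 → ⌊w * J⌋₊ < J → nt ≤ n 2 →
    (∀ s l, (H s l).totalDegree ≤ D) →
    (∀ ω ω', A ω → A ω' → cR F A w ω = cR F A w ω' →
      H (slam F ⌊w * J⌋₊ ω) = H (slam F ⌊w * J⌋₊ ω')) →
    ∀ {δv : ℕ → ℝ} {El : ℝ}, LinE F A c D₂ ⌊w * J⌋₊ H Hr
      (fun a b => rP F A c w x' n H a = rP F A c w x' n H b) δv El →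
    ∀ {L : Type} {ell : F.Ω → L} {hL : L → ℝ} {NR : ℕ → L → Polynomial ℝ} {δ : ℕ → ℝ},
    (∀ i, 0 ≤ δ i) → (∀ ω, hL (ell ω) = hh F c D w (n 2) H ω) →
    (∀ ω, A ω → ∀ i, ∀ τ ∈ Set.Icc (0 : ℝ) 1,
      |(grP F c D₂ ⌊w * J⌋₊ H Hr (slam F ⌊w * J⌋₊ ω) i).eval τ - (NR i (ell ω)).eval τ| ≤ δ i) →
    ∀ {Uv : ℕ → ℝ}, (∀ ω, A ω → ∀ l ≤ 2, |ov F c (H (slam F ⌊w * J⌋₊ ω)) ω l| ≤ Uv l) →
    0 ≤ El → ∀ {s Su Bc η₃ Lm εR : ℝ}, 0 < s → Su = 3 / 2 ^ (nt * J) →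
    (2 * (D : ℝ) + 8) / 2 ^ (n 2 * J) ≤ Su →
    (∀ ω, A ω → ∀ τ ∈ Set.Icc (0 : ℝ) 1,
      |(grP F c D₂ ⌊w * J⌋₊ H Hr (slam F ⌊w * J⌋₊ ω) 2).eval τ| ≤ Bc) →
    (∀ l ≤ 2, 2 ^ Cd * 2 ^ ⌊w * J⌋₊ * (((D : ℝ) + 2) / 2 ^ (n l * J)) ≤ δv l) →
    Lm = (D + 2) * (Su / s) ^ (D + 1) → 0 ≤ η₃ →
    2 ^ Cd * 2 ^ ⌊w * J⌋₊ * (Lm * (η₃ + D * ((2 * Su / s) ^ (D - 1) *
      ((2 * D + 8) / 2 ^ (n 2 * J)) * Bc))) + Lm * (El + δ 3 + ∑ l ∈ range 3, δ l * Uv l) ≤ εR →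
    ∀ v, 0 < ndQ F A c D w t x' n nt H v →
    (∀ j, ((∀ i i', i ≠ i' →
        s ≤ |hh F c D w (n 2) H (v i j 0) - hh F c D w (n 2) H (v i' j 0)| ∧
          |hh F c D w (n 2) H (v i j 0) - hh F c D w (n 2) H (v i' j 0)| ≤ Su) ∧
      ∀ i, ∀ τ ∈ Set.Icc (0 : ℝ) 1, |(opl F c ⌊w * J⌋₊ H 3 (v i j 0)).eval τ -
        (opl F c ⌊w * J⌋₊ H 3 (v 0 j 0)).eval τ - ∑ k : Fin D,
        (Pool.NDD66.Qk (fun k => hh F c D w (n 2) H (v (ai k) j 0))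
          (hh F c D w (n 2) H (v 0 j 0)) k).eval (hh F c D w (n 2) H (v i j 0)) *
          (grP F c D₂ ⌊w * J⌋₊ H Hr (slam F ⌊w * J⌋₊ (v (ai k) j 0)) 2).eval τ| ≤ η₃)) →
    ∀ j, |(PAr hL NR ((), fun i => ell (v i 0 0)) 3).eval (rt F ⌊w * J⌋₊ (v 0 0 0)) +
      ∑ l ∈ range 3, (PAr hL NR ((), fun i => ell (v i 0 0)) l).eval
        (rt F ⌊w * J⌋₊ (v 0 0 0)) * ov F c (H (slam F ⌊w * J⌋₊ (v 0 0 0))) (v 0 j 0) l| ≤ εR := by
  classical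
  obtain ⟨C₁, hC₁, hder⟩ := Pool.D2R.der_one (D + 1)
  obtain ⟨C₂, hC₂, hov⟩ := ov_near D
  obtain ⟨c₁, hc₁⟩ := pow_unbounded_of_one_lt C₁ (one_lt_two (α := ℝ))
  refine ⟨c₁ + C₂, by omega, ?_⟩
  intro m J F A hA c w t x' n nt H Hr hwx htx hx1 hW hnt hdH hHc δv El hLn L ell hL NR δ hδ hhL
    hNR Uv hUv hEl s Su Bc η₃ Lm εR hs hSu hδh hBc hδv hLm hη₃ hεR v hv hgood j
  obtain ⟨h1, h2, h3, h4, h5⟩ := ndQ_pos hA hv
  obtain ⟨k1, k2, k3⟩ := x0_T hA htx hx1 hv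
  have hn2 : (0 : ℝ) < 2 ^ (n 2 * J) := Real.rpow_pos_of_pos (by norm_num) _
  have hSu0 : 0 < Su := by rw [hSu]; exact div_pos (by norm_num) (Real.rpow_pos_of_pos (by norm_num) _)
  obtain ⟨θ, hθ⟩ : ∃ θ, θ = rt F ⌊w * J⌋₊ (v 0 0 0) := ⟨_, rfl⟩
  have hrt : ∀ i j, rt F ⌊w * J⌋₊ (v i j 0) = θ := fun i j => by
    rw [hθ]
    exact Pool.NDD66.rt_congr (k1 i j)
  have hθm : θ ∈ Set.Icc (0 : ℝ) 1 := by
    rw [hθ]
    have := rt_mem F ⌊w * J⌋₊ (v 0 0 0)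
    exact ⟨this.1, this.2⟩
  -- one chart
  have hcw : ∀ i j, cR F A w (v i j 0) = cR F A w (v 0 0 0) := by
    intro i j
    have h6 : ∀ j, cR F A w (v 0 j 0) = cR F A w (v 0 0 0) := fun j => by
      have h7 := det_rP (F := F) (c := c) (w := w) (n := n) (H := H)
        (p := fun ω => if A ω then 1 else 0) (A := A) (fun ω hω => by
          by_contra h8
          simp only [h8, if_false] at hω
          exact lt_irrefl _ hω) hwx hx1 (v 0 j 0) (v 0 0 0)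
        (by simp only [h1 0 j, if_true]; norm_num) (by simp only [h1 0 0, if_true]; norm_num)
        (h2 0 j)
      exact (Prod.ext_iff.1 (Prod.ext_iff.1 h7).1).1
    exact (congrArg (fun z => z.1.1) (h5 i j)).trans (h6 j)
  obtain ⟨ψ, hψe⟩ : ∃ ψ, ψ = H (slam F ⌊w * J⌋₊ (v 0 0 0)) := ⟨_, rfl⟩
  have hψ : ∀ i j, H (slam F ⌊w * J⌋₊ (v i j 0)) = ψ := fun i j => by
    rw [hψe]
    exact hHc _ _ (h1 i j) (h1 0 0) (hcw i j)
  rw [← hψe, ← hθ]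
  have hψd : ∀ l, (ψ l).totalDegree ≤ D := fun l => by rw [hψe]; exact hdH _ l
  obtain ⟨δh, hδhe⟩ : ∃ δh : ℝ, δh = (2 * D + 8) / 2 ^ (n 2 * J) := ⟨_, rfl⟩
  have hδh0 : 0 ≤ δh := by rw [hδhe]; positivity
  rw [← hδhe] at hδh hεR
  obtain ⟨hH, hhH⟩ : ∃ hH : Fin (2 * D + 1 + 1) → ℝ, hH = fun i => hh F c D w (n 2) H (v i 0 0) :=
    ⟨_, rfl⟩
  -- the heights of the other lines
  have hpar : ∀ i, |(hh F c D w (n 2) H (v i j 0) - hh F c D w (n 2) H (v 0 j 0)) -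
      (hH i - hH 0)| ≤ δh := by
    intro i
    have a1 : ∀ j', |(opl F c ⌊w * J⌋₊ H 2 (v i j' 0)).eval θ -
        (opl F c ⌊w * J⌋₊ H 2 (v 0 j' 0)).eval θ - (hh F c D w (n 2) H (v i j' 0) -
        hh F c D w (n 2) H (v 0 j' 0))| ≤ (D + 3) / 2 ^ (n 2 * J) := by
      intro j'
      have a2 := hgt_par hdH (congrArg (fun z => z.2.2.1) (h5 i j'))
        ((hrt i j').trans (hrt 0 j').symm)
      rw [hrt, hrt] at a2
      exact a2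
    have a3 : ∀ i', |(opl F c ⌊w * J⌋₊ H 2 (v i' j 0)).eval θ -
        (opl F c ⌊w * J⌋₊ H 2 (v i' 0 0)).eval θ| ≤ 1 / 2 ^ (n 2 * J) := by
      intro i'
      have a4 : hgC F c w H 2 (n 2) (v i' j 0) = hgC F c w H 2 (n 2) (v i' 0 0) :=
        congrArg (fun z => z.2.2) (h2 i' j)
      have a5 := hg_near hW.le a4
      rw [hrt, hrt] at a5
      exact a5
    have b1 := abs_le.1 (a1 j)
    have b2 := abs_le.1 (a1 0)
    have b3 := abs_le.1 (a3 i)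
    have b4 := abs_le.1 (a3 0)
    have e1 : (2 * (D : ℝ) + 8) / 2 ^ (n 2 * J) = 2 * ((D + 3) / 2 ^ (n 2 * J)) +
        2 * (1 / 2 ^ (n 2 * J)) := by ring
    rw [hhH, hδhe, e1, abs_le]
    constructor <;> linarith [b1.1, b1.2, b2.1, b2.2, b3.1, b3.2, b4.1, b4.2]
  -- the sheets
  obtain ⟨η₄, hη₄⟩ : ∃ η₄, η₄ = η₃ + D * ((2 * Su / s) ^ (D - 1) * δh * Bc) := ⟨_, rfl⟩
  rw [← hη₄] at hεR
  have hsheet := tup_q (D := D) (nP := fun i => opl F c ⌊w * J⌋₊ H 3 (v i j 0))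
    (cP := fun i => grP F c D₂ ⌊w * J⌋₊ H Hr (slam F ⌊w * J⌋₊ (v i j 0)) 2)
    (H := fun i => hh F c D w (n 2) H (v i j 0)) (h := hH) (η := η₃) (s := s) (Su := Su)
    (δh := δh) (Bc := Bc) hs hδh0 hδh (hgood j).1 (fun i τ hτ => hBc _ (h1 i j) τ hτ)
    (hgood j).2 hpar
  rw [← hη₄] at hsheet
  -- the divided difference
  have hinj : Function.Injective (fun k : Fin (D + 2) => hH (ti k)) := by
    intro k k' hkk
    by_contra hne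
    have h6 := ((hgood 0).1 (ti k) (ti k') fun h' => hne (ti_inj h')).1
    have h7 : hH (ti k) = hH (ti k') := hkk
    rw [hhH] at h7
    simp only at h7
    rw [h7, sub_self, abs_zero] at h6
    linarith
  have hLam : Lam (fun k : Fin (D + 2) => hH (ti k)) ≤ Lm := by
    rw [hLm]
    refine Lam_le hs (fun k k' hkk => ?_) (fun k k' => ?_)
    · have := ((hgood 0).1 (ti k) (ti k') fun h' => hkk (ti_inj h')).1
      rw [hhH]
      exact this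
    · by_cases hkk : k = k'
      · rw [hkk, sub_self, abs_zero]
        exact hSu0.le
      · have := ((hgood 0).1 (ti k) (ti k') fun h' => hkk (ti_inj h')).2
        rw [hhH]
        exact this
  have hLm0 : 0 ≤ Lm := (Finset.sum_nonneg fun _ _ => abs_nonneg _).trans hLam
  have hη₄0 : 0 ≤ η₄ := by
    obtain ⟨q, -, hq⟩ := hsheet 0 ⟨le_rfl, zero_le_one⟩
    exact (abs_nonneg _).trans (hq 0)
  obtain ⟨f, hf⟩ : ∃ f : Polynomial ℝ, f = ∑ k : Fin (D + 2),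
    Polynomial.C (mu (fun k => hH (ti k)) k) * opl F c ⌊w * J⌋₊ H 3 (v (ti k) j 0) := ⟨_, rfl⟩
  have hfd : f.natDegree ≤ D + 1 := by
    rw [hf]
    exact Polynomial.natDegree_sum_le_of_forall_le _ _ fun _ _ =>
      (Polynomial.natDegree_C_mul_le _ _).trans (opl_deg F c _ hdH _ _)
  have hf1 : ∀ τ ∈ Set.Icc (0 : ℝ) 1, |f.eval τ| ≤ Lm * η₄ := by
    intro τ hτ
    obtain ⟨q, hq1, hq2⟩ := hsheet τ hτ
    have h6 := Pool.AO64.dd_zero hq1 (fun k : Fin (D + 2) => hH (ti k)) hinj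
    have h6' : ∑ k, mu (fun k : Fin (D + 2) => hH (ti k)) k * q.eval (hH (ti k)) = 0 := h6
    have e1 : f.eval τ = ∑ k, mu (fun k : Fin (D + 2) => hH (ti k)) k *
        ((opl F c ⌊w * J⌋₊ H 3 (v (ti k) j 0)).eval τ - q.eval (hH (ti k))) := by
      rw [hf, Polynomial.eval_finsetSum]
      simp only [mul_sub, Finset.sum_sub_distrib, Polynomial.eval_mul, Polynomial.eval_C]
      rw [h6', sub_zero]
    rw [e1]
    refine (Finset.abs_sum_le_sum_abs _ _).trans ?_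
    have h7 : ∑ k, |mu (fun k : Fin (D + 2) => hH (ti k)) k *
        ((opl F c ⌊w * J⌋₊ H 3 (v (ti k) j 0)).eval τ - q.eval (hH (ti k)))| ≤
        Lam (fun k : Fin (D + 2) => hH (ti k)) * η₄ := by
      unfold Lam
      rw [Finset.sum_mul]
      refine Finset.sum_le_sum fun k _ => ?_
      rw [abs_mul]
      exact mul_le_mul_of_nonneg_left (hq2 k) (abs_nonneg _)
    exact h7.trans (mul_le_mul_of_nonneg_right hLam hη₄0)
  have hf2 := hder f (Lm * η₄) hfd hf1 θ (by rw [abs_of_nonneg hθm.1]; exact hθm.2)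
  -- the own velocities
  have hov3 : |∑ k : Fin (D + 2), mu (fun k => hL (ell (v (ti k) 0 0))) k *
      ov F c ψ (v (ti k) j 0) 3| ≤ 2 ^ (c₁ + C₂) * 2 ^ ⌊w * J⌋₊ * (Lm * η₄) := by
    have e1 : f.derivative.eval θ = 1 / 2 ^ ⌊w * J⌋₊ * ∑ k : Fin (D + 2),
        mu (fun k => hL (ell (v (ti k) 0 0))) k * ov F c ψ (v (ti k) j 0) 3 := by
      rw [hf, Polynomial.derivative_sum, Polynomial.eval_finsetSum, Finset.mul_sum]
      refine Finset.sum_congr rfl fun k _ => ?_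
      rw [Polynomial.derivative_C_mul, Polynomial.eval_mul, Polynomial.eval_C]
      have e2 : (Polynomial.derivative (opl F c ⌊w * J⌋₊ H 3 (v (ti k) j 0))).eval θ =
          1 / 2 ^ ⌊w * J⌋₊ * ov F c ψ (v (ti k) j 0) 3 := by
        rw [← hrt (ti k) j]
        unfold opl
        rw [op_der hW.le, hψ]
      rw [e2]
      have e3 : (fun k : Fin (D + 2) => hH (ti k)) = fun k => hL (ell (v (ti k) 0 0)) := by
        funext k'
        rw [hhL, hhH]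
      rw [e3]
      ring
    rw [e1, abs_mul, abs_of_pos (by positivity : (0 : ℝ) < 1 / 2 ^ ⌊w * J⌋₊),
      one_div_mul_eq_div, div_le_iff₀ (by positivity)] at hf2
    refine hf2.trans ?_
    have h6 : C₁ ≤ 2 ^ (c₁ + C₂) := hc₁.le.trans (pow_le_pow_right₀ (by norm_num) (by omega))
    calc C₁ * (Lm * η₄) * 2 ^ ⌊w * J⌋₊ ≤ 2 ^ (c₁ + C₂) * (Lm * η₄) * 2 ^ ⌊w * J⌋₊ :=
          mul_le_mul_of_nonneg_right (mul_le_mul_of_nonneg_right h6 (by positivity))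
            (by positivity)
      _ = _ := by ring
  have hnear : ∀ i, ∀ l ≤ 2, |ov F c ψ (v i j 0) l - ov F c ψ (v 0 j 0) l| ≤ δv l := by
    intro i l hl
    refine le_trans ?_ (hδv l hl)
    have hdl : 0 ≤ ((D : ℝ) + 2) / 2 ^ (n l * J) := by
      have : (0 : ℝ) < 2 ^ (n l * J) := Real.rpow_pos_of_pos (by norm_num) _
      positivity
    have h6 : |ov F c ψ (v i j 0) l - ov F c ψ (v 0 j 0) l| ≤
        2 ^ C₂ * 2 ^ ⌊w * J⌋₊ * (((D : ℝ) + 2) / 2 ^ (n l * J)) := by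
      have hx0 := h5 i j
      rcases Nat.lt_or_ge l 2 with hl2 | hl2
      · have h7 : pcC F c D w H l 0 (n l) (v i j 0) = pcC F c D w H l 0 (n l) (v 0 j 0) :=
          congrFun (congrArg (fun z => z.2.1) hx0) ⟨l, hl2⟩
        refine hov (κ := 0) hW.le hψd ((hrt i j).trans (hrt 0 j).symm) fun τ hτ => ?_
        have h8 := pc_near hdH h7 hτ
        unfold opl at h8
        rw [hψ, hψ] at h8
        rw [sub_zero]
        exact h8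
      · obtain rfl : l = 2 := by omega
        have h7 : pcC F c D w H 2 1 (n 2) (v i j 0) = pcC F c D w H 2 1 (n 2) (v 0 j 0) :=
          congrArg (fun z => z.2.2.1) hx0
        refine hov (κ := (opl F c ⌊w * J⌋₊ H 2 (v i j 0)).coeff 0 -
          (opl F c ⌊w * J⌋₊ H 2 (v 0 j 0)).coeff 0) hW.le hψd
          ((hrt i j).trans (hrt 0 j).symm) fun τ hτ => ?_
        have h8 := pc_near1 hdH h7 hτ
        have e1 : (op ⌊w * J⌋₊ c ψ (slam F ⌊w * J⌋₊ (v i j 0)) 2).eval τ -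
            (op ⌊w * J⌋₊ c ψ (slam F ⌊w * J⌋₊ (v 0 j 0)) 2).eval τ -
            ((opl F c ⌊w * J⌋₊ H 2 (v i j 0)).coeff 0 -
              (opl F c ⌊w * J⌋₊ H 2 (v 0 j 0)).coeff 0) =
            ((opl F c ⌊w * J⌋₊ H 2 (v i j 0)).eval τ -
              (opl F c ⌊w * J⌋₊ H 2 (v i j 0)).coeff 0) -
            ((opl F c ⌊w * J⌋₊ H 2 (v 0 j 0)).eval τ -
              (opl F c ⌊w * J⌋₊ H 2 (v 0 j 0)).coeff 0) := by
          have e2 : ∀ i', opl F c ⌊w * J⌋₊ H 2 (v i' j 0) =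
              op ⌊w * J⌋₊ c ψ (slam F ⌊w * J⌋₊ (v i' j 0)) 2 := fun i' => by
            unfold opl
            rw [hψ]
          rw [e2, e2]
          ring
        rw [e1]
        refine h8.trans (div_le_div_of_nonneg_right (by linarith) hn2.le)
    refine h6.trans (mul_le_mul_of_nonneg_right (mul_le_mul_of_nonneg_right
      (pow_le_pow_right₀ (by norm_num) (by omega)) (by positivity)) hdl)
  have hLam' : Lam (fun k : Fin (D + 2) => hL (ell (v (ti k) 0 0))) ≤ Lm := by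
    have e3 : (fun k : Fin (D + 2) => hL (ell (v (ti k) 0 0))) =
        fun k : Fin (D + 2) => hH (ti k) := by
      funext k'
      rw [hhL, hhH]
    rw [e3]
    exact hLam
  have key := rel_tup (SR := fun a b => rP F A c w x' n H a = rP F A c w x' n H b) hLn (hL := hL) (ell := ell) (NR := NR) hδ hNR (Λ := Unit) (ls := ())
    (v := fun i => v i 0 0) (ν := fun i => v i j 0) (ψ := ψ) (Lm := Lm)
    (εv := 2 ^ (c₁ + C₂) * 2 ^ ⌊w * J⌋₊ * (Lm * η₄)) (Uv := Uv) (fun i => h1 i 0)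
    (fun i => h1 i j) (fun i => (h2 i j).symm) (fun i => h3 i) (fun i => hψ i 0) hLam' hov3
    hnear hEl (fun l hl => by
      have := hUv _ (h1 0 j) l hl
      rw [hψ] at this
      exact this)
  rw [← hθ] at key
  exact key.trans hεR

/-- **The near-dead step, event level**: the divided difference of the slopes of the own lines of the
tuple, off a small mass of the copies. -/
theorem nd_evt (D D₂ : ℕ) : ∃ C : ℕ, 1 ≤ C ∧ ∀ {m J : ℕ} {F : Fam m J} {A : F.Ω → Prop}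
    (_ : 0 < Pe F.p A) {c : ℕ → Fin m} {w t x' : ℝ} {n : ℕ → ℝ} {nt e : ℝ}
    {H Hr : LnT F → ℕ → MvPolynomial (Option (Fin m)) ℝ} (_ : NdE F A c D w t x' n nt e H),
    w ≤ x' → t ≤ x' → x' ≤ 1 → ⌊w * J⌋₊ < J → nt ≤ n 2 →
    (∀ s l, (H s l).totalDegree ≤ D) →
    (∀ ω ω', A ω → A ω' → cR F A w ω = cR F A w ω' →
      H (slam F ⌊w * J⌋₊ ω) = H (slam F ⌊w * J⌋₊ ω')) →
    -- the codes
    ∀ {Kc : Type} (kc : F.Ω → Kc) {δ : ℕ → ℝ},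
    (∀ ω ω', A ω → A ω' → slam F ⌊w * J⌋₊ ω = slam F ⌊w * J⌋₊ ω' → kc ω = kc ω') →
    CH (Pool.Agent.H49.Ent.cond F.p A True) kc (xg F A c D w n nt H) ≤ e * J →
    (∀ ω ω', A ω → A ω' → elN F A c D w n nt H kc ω = elN F A c D w n nt H kc ω' → ∀ i,
      ∀ τ ∈ Set.Icc (0 : ℝ) 1, |(grP F c D₂ ⌊w * J⌋₊ H Hr (slam F ⌊w * J⌋₊ ω) i).eval τ -
        (grP F c D₂ ⌊w * J⌋₊ H Hr (slam F ⌊w * J⌋₊ ω') i).eval τ| ≤ δ i) →
    (∀ i, 0 ≤ δ i) →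
    -- the geometry
    ∀ {δn : ℕ → ℝ} {η η' : ℝ}, OwnE F A c D D₂ w t H Hr δn (3 / 2 ^ (nt * J)) η η' →
    (∀ l < 2, ((D : ℝ) + 2) / 2 ^ (n l * J) ≤ δn l) → ((D : ℝ) + 3) / 2 ^ (n 2 * J) ≤ δn 2 →
    0 ≤ η' → ∀ {Bn Bc : ℝ}, (∀ ω, A ω → ∀ τ ∈ Set.Icc (0 : ℝ) 1,
      |(opl F c ⌊w * J⌋₊ H 3 ω).eval τ| ≤ Bn ∧
      |(grP F c D₂ ⌊w * J⌋₊ H Hr (slam F ⌊w * J⌋₊ ω) 2).eval τ| ≤ Bc) →
    ∀ {δv : ℕ → ℝ} {El : ℝ}, LinE F A c D₂ ⌊w * J⌋₊ H Hr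
      (fun a b => rP F A c w x' n H a = rP F A c w x' n H b) δv El → 0 ≤ El →
    (∀ l ≤ 2, 2 ^ C * 2 ^ ⌊w * J⌋₊ * (((D : ℝ) + 2) / 2 ^ (n l * J)) ≤ δv l) →
    ∀ {Uv : ℕ → ℝ}, (∀ ω, A ω → ∀ l ≤ 2, |ov F c (H (slam F ⌊w * J⌋₊ ω)) ω l| ≤ Uv l) →
    -- the rows
    ∀ (B : F.Ω → Prop) (S : ℕ → _ × ℤ → Finset ℤ) (nr Xd Ks : ℕ) (N a b : ℕ → ℕ) (V : ℕ → ℝ)
      (K c₀ c₁ c₂ c₃ ρ : ℝ),
    (∀ k < nr, ∀ ω, A ω → B ω → ⌊2 ^ Xd * (opl F c ⌊w * J⌋₊ H 3 ω).eval 0⌋ / 2 ^ a k ∈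
      S k (xg F A c D w n nt H ω, ⌊2 ^ Xd * (opl F c ⌊w * J⌋₊ H 3 ω).eval 0⌋ / 2 ^ b k)) →
    (∀ k < nr, ∀ y, (S k y).card ≤ N k) →
    Pb (Pool.Agent.H49.Ent.cond F.p A True) (fun ω => ¬ B ω) ≤ c₀ → 1 ≤ Ks →
    (∀ j, Pb (ndQ F A c D w t x' n nt H) (fun v => ∃ i i', i ≠ i' ∧
      |pcC F c D w H 2 0 (n 2) (v i j 0) 0 - pcC F c D w H 2 0 (n 2) (v i' j 0) 0| ≤
        (Ks : ℤ)) ≤ c₁) →
    -- the numbers
    ∀ {s Su Qb η₁ η₂ η₃ Lm εR dm E ε : ℝ}, s = Ks / 2 ^ (n 2 * J) → Su = 3 / 2 ^ (nt * J) →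
    Qb = (Su / s) ^ (D - 1) * Su → η₁ = 2 * η + D * Qb * η' →
    η₂ = D * Qb * δ 2 + (D + 1) / 2 ^ (n 3 * J) → η₃ = (2 * K + 2 * V 0) / 2 ^ Xd + η₂ →
    0 < ρ → ρ < 1 → (C : ℝ) ≤ ρ ^ C * (2 * ((2 ^ (J - ⌊w * J⌋₊ - 1) : ℕ) : ℝ) + 1) → 0 ≤ K →
    0 ≤ V 0 → 2 ^ Xd * (η₁ + η₂) + 1 ≤ K →
    2 ^ Xd * (2 * ((3 * Bn + D * Qb * Bc) + η₂)) ≤ V nr →
    (∀ k < nr, a k ≤ b k ∧ K ≤ 2 ^ a k ∧ 0 < V k ∧ V (k + 1) ≤ 2 ^ b k ∧
      (C : ℝ) * N k * 2 ^ a k ≤ ρ ^ C * V k ∧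
      (C : ℝ) * N k ≤ ρ ^ C * ((2 ^ (J - ⌊w * J⌋₊ - 1) : ℕ) : ℝ)) →
    (2 * (D : ℝ) + 8) / 2 ^ (n 2 * J) ≤ Su → Lm = (D + 2) * (Su / s) ^ (D + 1) →
    2 ^ C * 2 ^ ⌊w * J⌋₊ * (Lm * (η₃ + D * ((2 * Su / s) ^ (D - 1) *
      ((2 * D + 8) / 2 ^ (n 2 * J)) * Bc))) + Lm * (El + δ 3 + ∑ l ∈ range 3, δ l * Uv l) ≤ εR →
    εR * E + Lm * δ 2 ≤ ε →
    -- general position and no relation
    Pb (cfg (Pool.Agent.H49.Ent.cond F.p A True) (rP F A c w x' n H) (slam F ⌊w * J⌋₊) 3 0)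
      (fun v => |det3o F c (H (slam F ⌊w * J⌋₊ (v 0 0))) (fun a => v a.succ 0)| < dm) ≤ c₂ →
    (∀ NR : ℕ → _ → Polynomial ℝ, (∀ i x, (NR i x).natDegree ≤ D₂ + 3 * D₂) →
      Pb (ndQ F A c D w t x' n nt H) (fun v => RelO F c A ⌊w * J⌋₊ H
        (fun a b => rP F A c w x' n H a = rP F A c w x' n H b) dm E
        (PAr (fun el => hLc J (n 2) (el.1.1.2 0)) NR
          ((), fun i => elN F A c D w n nt H kc (v i 0 0))) (v 0 0 0)) ≤ c₃) →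
    Pb (ndQ F A c D w t x' n nt H) (fun v => ¬ ((∀ i i', i ≠ i' →
        s ≤ |hh F c D w (n 2) H (v i 0 0) - hh F c D w (n 2) H (v i' 0 0)| ∧
          |hh F c D w (n 2) H (v i 0 0) - hh F c D w (n 2) H (v i' 0 0)| ≤ Su) ∧
      |∑ k : Fin (D + 2), mu (fun k => hh F c D w (n 2) H (v (ti k) 0 0)) k *
        (grP F c D₂ ⌊w * J⌋₊ H Hr (slam F ⌊w * J⌋₊ (v (ti k) 0 0)) 2).eval
          (rt F ⌊w * J⌋₊ (v 0 0 0))| ≤ ε)) ≤
      4 * ((2 * D + 2) * (c₀ + 3 * c₁ + nr * (((e * J + 2 * Real.log 2) +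
        ((2 * D + 1 : ℕ) : ℝ) * (11 * (e * J) + 3 * Real.log 5) + Real.log 2) /
          Real.log (1 / ρ)))) + c₂ + c₃ := by
  classical
  obtain ⟨C₁, hC₁, hlvl⟩ := nd_lvl D D₂
  obtain ⟨C₂, hC₂, hrel⟩ := tup_rel D D₂
  refine ⟨C₁ + C₂, by omega, ?_⟩
  intro m J F A hA c w t x' n nt e H Hr hE hwx htx hx1 hW hnt hdH hHc Kc kc δ hk1 hk2 hk3 hδ δn η η'
    hOwn hδn hδn2 hη' Bn Bc hBd δv El hLn hEl hδv Uv hUv B S nr Xd Ks N a b V K c₀ c₁ c₂ c₃ ρ hrow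
    hcard hB hKs hsp s Su Qb η₁ η₂ η₃ Lm εR dm E ε hs hSu hQb hη₁ hη₂ hη₃ hρ hρ1 hCM hK0 hV0 hK
    hV hnum hδh hLm hεR hε hdet hrec
  have hp := isLaw_cond F.isLaw hA
  have hql := cfg_law hp (rP F A c w x' n H) (slam F ⌊w * J⌋₊) 3 0
  have hQl : IsLaw (ndQ F A c D w t x' n nt H) := cpn_law hql _ _
  have hQ0 := hQl.nonneg
  have hn2 : (0 : ℝ) < 2 ^ (n 2 * J) := Real.rpow_pos_of_pos (by norm_num) _
  have hKs0 : (0 : ℝ) < Ks := by exact_mod_cast hKs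
  have hs0 : 0 < s := by rw [hs]; positivity
  have hSu0 : 0 < Su := by
    rw [hSu]
    exact div_pos (by norm_num) (Real.rpow_pos_of_pos (by norm_num) _)
  have hpw : ρ ^ (C₁ + C₂) ≤ ρ ^ C₁ := pow_le_pow_of_le_one hρ.le hρ1.le (by omega)
  have hC12 : (C₁ : ℝ) ≤ ((C₁ + C₂ : ℕ) : ℝ) := by
    push_cast
    linarith [Nat.cast_nonneg (α := ℝ) C₂]
  have hQb0 : 0 ≤ Qb := by rw [hQb]; positivity
  have hη₂0 : 0 ≤ η₂ := by
    rw [hη₂]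
    have h3 : (0 : ℝ) < 2 ^ (n 3 * J) := Real.rpow_pos_of_pos (by norm_num) _
    have := hδ 2
    positivity
  have hη₃0 : 0 ≤ η₃ := by rw [hη₃]; positivity
  have h1 := hlvl hA hE hwx htx hx1 hW hnt hdH kc hk1 hk2 hk3 hδ hOwn hδn hδn2 hη' hBd B S nr Xd
    Ks N a b V K c₀ c₁ ρ hrow hcard hB hKs hsp (Qb := Qb) (η₁ := η₁) (η₂ := η₂)
    (by rw [hQb, hs, hSu]) hη₁ hη₂ hρ hρ1
    (hC12.trans (hCM.trans (mul_le_mul_of_nonneg_right hpw (by positivity)))) hK0 hK hV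
    (fun k hk => by
      obtain ⟨g1, g2, g3, g4, g5, g6⟩ := hnum k hk
      refine ⟨g1, g2, g3, g4, ?_, ?_⟩
      · calc (C₁ : ℝ) * N k * 2 ^ a k ≤ ((C₁ + C₂ : ℕ) : ℝ) * N k * 2 ^ a k :=
              mul_le_mul_of_nonneg_right (mul_le_mul_of_nonneg_right hC12 (by positivity))
                (by positivity)
          _ ≤ ρ ^ (C₁ + C₂) * V k := g5
          _ ≤ ρ ^ C₁ * V k := mul_le_mul_of_nonneg_right hpw g3.le
      · calc (C₁ : ℝ) * N k ≤ ((C₁ + C₂ : ℕ) : ℝ) * N k :=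
              mul_le_mul_of_nonneg_right hC12 (by positivity)
          _ ≤ _ := g6
          _ ≤ _ := mul_le_mul_of_nonneg_right hpw (by positivity))
  -- representatives
  obtain ⟨NR, hNR1, hNR2⟩ := rep_poly (p := fun ω => if A ω then (1 : ℝ) else 0)
    (elN F A c D w n nt H kc) (slam F ⌊w * J⌋₊)
    (fun i s => grP F c D₂ ⌊w * J⌋₊ H Hr s i) (d := D₂ + 3 * D₂) (δ := δ)
    (fun i s => grP_deg F c D₂ ⌊w * J⌋₊ H Hr s i) (fun ω ω' hω hω' h => by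
      have g1 : A ω := by
        by_contra h8
        simp only [h8, if_false] at hω
        exact lt_irrefl _ hω
      have g2 : A ω' := by
        by_contra h8
        simp only [h8, if_false] at hω'
        exact lt_irrefl _ hω'
      exact hk3 ω ω' g1 g2 h)
  have h2 : Pb (ndQ F A c D w t x' n nt H) (fun v =>
      |det3o F c (H (slam F ⌊w * J⌋₊ (v 0 0 0))) (fun a => v 0 a.succ 0)| < dm) ≤ c₂ := by
    refine le_trans (le_of_eq ?_) hdet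
    exact Pool.MIC.Marg.Pb_eq (cpn_marg hql.nonneg (yN F A c D w t n nt H 3) (2 * D + 1) 0)
      (fun v : Fin (3 + 1) → Fin (0 + 1) → F.Ω =>
        |det3o F c (H (slam F ⌊w * J⌋₊ (v 0 0))) (fun a => v a.succ 0)| < dm)
  have h3 := hrec NR hNR1
  refine le_trans ?_ (add_le_add (add_le_add h1 h2) h3)
  refine le_trans ?_ (add_le_add (Pb_or hQ0 _ _) le_rfl)
  refine le_trans ?_ (Pb_or hQ0 _ _)
  refine Pool.XLF.Pb_le hQ0 fun v hv hnot => ?_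
  by_contra hne
  push Not at hne
  obtain ⟨⟨g1, g2⟩, g3⟩ := hne
  apply hnot
  rw [← hs, ← hSu] at g1
  refine ⟨(g1 0).1, ?_⟩
  obtain ⟨k1, k2, k3, k4, k5⟩ := ndQ_pos hA hv
  -- the relation
  have key := hrel hA hwx htx hx1 hW hnt hdH hHc (Hr := Hr) hLn (ell := elN F A c D w n nt H kc)
    (hL := fun el => hLc J (n 2) (el.1.1.2 0)) (NR := NR) (δ := δ) hδ (fun ω => rfl)
    (fun ω hω i τ hτ => hNR2 ω (by simp only [hω, if_true]; norm_num) i τ hτ) hUv hEl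
    (s := s) (Su := Su) (Bc := Bc) (η₃ := η₃) (Lm := Lm) (εR := εR) hs0 hSu hδh
    (fun ω hω τ hτ => (hBd ω hω τ hτ).2) (fun l hl => le_trans (mul_le_mul_of_nonneg_right
      (mul_le_mul_of_nonneg_right (pow_le_pow_right₀ (by norm_num) (by omega))
        (by positivity)) (by
          have : (0 : ℝ) < 2 ^ (n l * J) := Real.rpow_pos_of_pos (by norm_num) _
          positivity)) (hδv l hl)) hLm hη₃0 (by
      refine le_trans (add_le_add (mul_le_mul_of_nonneg_right (mul_le_mul_of_nonneg_right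
        (pow_le_pow_right₀ (by norm_num) (by omega)) (by positivity)) ?_) le_rfl) hεR
      have hBc0 : 0 ≤ Bc := (abs_nonneg _).trans (hBd _ (k1 0 0) 0 ⟨le_rfl, zero_le_one⟩).2
      have hLm0 : 0 ≤ Lm := by rw [hLm]; positivity
      positivity) v hv (fun j => by
      have := g1 j
      rw [hη₃]
      exact this)
  have h4 : |(PAr (fun el => hLc J (n 2) (el.1.1.2 0)) NR
      ((), fun i => elN F A c D w n nt H kc (v i 0 0)) 2).eval (rt F ⌊w * J⌋₊ (v 0 0 0))| ≤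
      εR * E := by
    by_contra hlt
    push Not at hlt
    apply g3
    refine ⟨fun a => v 0 a.succ 0, εR, fun a => ⟨k1 0 _, (k2 0 _).symm⟩, g2, fun a => key _, hlt⟩
  -- the divided difference
  have hLam : Lam (fun k : Fin (D + 2) => hh F c D w (n 2) H (v (ti k) 0 0)) ≤ Lm := by
    rw [hLm]
    refine Lam_le hs0 (fun k k' hkk => ?_) (fun k k' => ?_)
    · exact ((g1 0).1 (ti k) (ti k') fun h' => hkk (ti_inj h')).1
    · by_cases hkk : k = k'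
      · rw [hkk, sub_self, abs_zero]
        exact hSu0.le
      · exact ((g1 0).1 (ti k) (ti k') fun h' => hkk (ti_inj h')).2
  have hm := rt_mem F ⌊w * J⌋₊ (v 0 0 0)
  have h5 := PAr_near (D := D) (fun el => hLc J (n 2) (el.1.1.2 0)) (NR := NR)
    ((), fun i => elN F A c D w n nt H kc (v i 0 0)) 2
    (N := fun k => grP F c D₂ ⌊w * J⌋₊ H Hr (slam F ⌊w * J⌋₊ (v (ti k) 0 0)) 2) (δ := δ 2)
    (τ := rt F ⌊w * J⌋₊ (v 0 0 0)) (fun k => hNR2 _ (by simp only [k1 (ti k) 0, if_true]; norm_num)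
      2 _ ⟨hm.1, hm.2⟩)
  have h6 : |∑ k : Fin (D + 2), mu (fun k => hh F c D w (n 2) H (v (ti k) 0 0)) k *
        (grP F c D₂ ⌊w * J⌋₊ H Hr (slam F ⌊w * J⌋₊ (v (ti k) 0 0)) 2).eval
          (rt F ⌊w * J⌋₊ (v 0 0 0)) - (PAr (fun el => hLc J (n 2) (el.1.1.2 0)) NR
      ((), fun i => elN F A c D w n nt H kc (v i 0 0)) 2).eval (rt F ⌊w * J⌋₊ (v 0 0 0))| ≤
      Lm * δ 2 := h5.trans (mul_le_mul_of_nonneg_right hLam (hδ 2))
  have h7 := abs_le.1 h4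
  have h8 := abs_le.1 h6
  rw [abs_le]
  constructor <;> linarith [h7.1, h7.2, h8.1, h8.2]

end Pool.ND54
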