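import Pool.Agent.H54.ND.Own
import Pool.Agent.H42.NDC.Lit
import Pool.Agent.H44.V0P.Sm

/-!
# The entropy inequalities of a tuple of configurations

`yN`: the common datum of the copies: the time, the closed record of a later window, the near data of
all lines. `y_few`: it is few given the own data and the near velocities of the other lines. `uf_y`:
the far digits of the height of the point are full given it. `u0_y`: so are the far digits of the
constant of the path of any line.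
-/

set_option autoImplicit false

namespace Pool.ND54

open Finset Real MvPolynomial
open Pool.Agent.H49.Ent Pool.Agent.H32.Dense Pool.STK Pool.KA Pool.KSAT Pool.K2S Pool.PB Pool.S6C
open Pool.GEN hiding Det
open Pool.CHT Pool.D2R Pool.LA91 Pool.RCD
open Pool.PB.Trl (rt rt_mem t_rt)
open Pool.V0F (cR det_cR)
open Pool.V0Q (cl2_cR)
open Pool.NDC42

variable {m J : ℕ}

/-- Later closed records determine the earlier ones. -/
theorem cR_mono {F : Fam m J} {A : F.Ω → Prop} {w x : ℝ} (hwx : w ≤ x) (hx : x ≤ 1)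
    {p : F.Ω → ℝ} (hp : ∀ ω, 0 < p ω → A ω) : Det p (cR F A x) (cR F A w) := by
  obtain ⟨φ, hφ⟩ := vg_mono hwx hx J F
  exact det_cR ((cl2_cR A w).mono ⟨fun x => x, fun _ _ => rfl⟩ ⟨φ, fun ω _ => hφ ω⟩) hp

/-- **The common datum of the copies.** -/
noncomputable def yN (F : Fam m J) (A : F.Ω → Prop) (c : ℕ → Fin m) (D : ℕ) (w t : ℝ) (n : ℕ → ℝ)
    (nt : ℝ) (H : LnT F → ℕ → MvPolynomial (Option (Fin m)) ℝ) (k : ℕ)
    (v : Fin (k + 1) → Fin (0 + 1) → F.Ω) :=
  ((F.T (v 0 0), cR F A t (v 0 0)), fun j => x0 F A c D w n nt H (v j 0))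

/-- The digits of the height up to the level of `t`, from all digits. -/
theorem hg_coarse {F : Fam m J} {c : ℕ → Fin m} {w : ℝ}
    {H : LnT F → ℕ → MvPolynomial (Option (Fin m)) ℝ} {s s' : ℝ} (hs : s ≤ s') {ω ω' : F.Ω} {l : ℕ}
    (h : hgC F c w H l s' ω = hgC F c w H l s' ω') :
    |(hgC F c w H l s ω : ℝ) - hgC F c w H l s ω'| ≤ 1 := by
  unfold hgC at h ⊢
  obtain ⟨a, ha⟩ : ∃ a, a = ojet F (c l) 0 (H (slam F ⌊w * J⌋₊ ω) l) ω := ⟨_, rfl⟩
  obtain ⟨b, hb⟩ : ∃ b, b = ojet F (c l) 0 (H (slam F ⌊w * J⌋₊ ω') l) ω' := ⟨_, rfl⟩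
  rw [← ha, ← hb] at h ⊢
  have hp : (0 : ℝ) < 2 ^ (s * J) := Real.rpow_pos_of_pos (by norm_num) _
  have hp' : (0 : ℝ) < 2 ^ (s' * J) := Real.rpow_pos_of_pos (by norm_num) _
  have hle : (2 : ℝ) ^ (s * J) ≤ 2 ^ (s' * J) :=
    Real.rpow_le_rpow_of_exponent_le (by norm_num)
      (mul_le_mul_of_nonneg_right hs (Nat.cast_nonneg J))
  have h1 : |(2 : ℝ) ^ (s' * J) * a - 2 ^ (s' * J) * b| < 1 := by
    have h2 := Int.floor_le ((2 : ℝ) ^ (s' * J) * a)
    have h3 := Int.lt_floor_add_one ((2 : ℝ) ^ (s' * J) * a)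
    have h4 := Int.floor_le ((2 : ℝ) ^ (s' * J) * b)
    have h5 := Int.lt_floor_add_one ((2 : ℝ) ^ (s' * J) * b)
    rw [← h] at h4 h5
    rw [abs_lt]
    constructor <;> linarith
  have h2 : |(2 : ℝ) ^ (s * J) * a - 2 ^ (s * J) * b| < 1 := by
    rw [← mul_sub, abs_mul, abs_of_pos hp'] at h1
    rw [← mul_sub, abs_mul, abs_of_pos hp]
    exact lt_of_le_of_lt (mul_le_mul_of_nonneg_right hle (abs_nonneg _)) h1
  have h3 : |(⌊(2 : ℝ) ^ (s * J) * a⌋ : ℤ) - ⌊(2 : ℝ) ^ (s * J) * b⌋| ≤ 1 := by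
    have k1 := abs_lt.1 h2
    have k2 := Int.floor_le ((2 : ℝ) ^ (s * J) * a)
    have k3 := Int.lt_floor_add_one ((2 : ℝ) ^ (s * J) * a)
    have k4 := Int.floor_le ((2 : ℝ) ^ (s * J) * b)
    have k5 := Int.lt_floor_add_one ((2 : ℝ) ^ (s * J) * b)
    rw [abs_le]
    constructor
    · by_contra h6
      push Not at h6
      have h7 : (⌊(2 : ℝ) ^ (s * J) * a⌋ : ℤ) - ⌊(2 : ℝ) ^ (s * J) * b⌋ ≤ -2 := by omega
      have h8 : ((⌊(2 : ℝ) ^ (s * J) * a⌋ : ℤ) : ℝ) - (⌊(2 : ℝ) ^ (s * J) * b⌋ : ℤ) ≤ -2 := by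
        exact_mod_cast h7
      linarith
    · by_contra h6
      push Not at h6
      have h7 : 2 ≤ (⌊(2 : ℝ) ^ (s * J) * a⌋ : ℤ) - ⌊(2 : ℝ) ^ (s * J) * b⌋ := by omega
      have h8 : 2 ≤ ((⌊(2 : ℝ) ^ (s * J) * a⌋ : ℤ) : ℝ) - (⌊(2 : ℝ) ^ (s * J) * b⌋ : ℤ) := by
        exact_mod_cast h7
      linarith
  exact_mod_cast h3

/-- The near data are a function of the line. -/
theorem det_x0 {F : Fam m J} {A : F.Ω → Prop} {c : ℕ → Fin m} {D : ℕ} {w : ℝ} {n : ℕ → ℝ} {nt : ℝ}
    {H : LnT F → ℕ → MvPolynomial (Option (Fin m)) ℝ} {p : F.Ω → ℝ} (hp : ∀ ω, 0 < p ω → A ω) :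
    Det p (slam F ⌊w * J⌋₊) (x0 F A c D w n nt H) := by
  intro ω ω' hω hω' h
  have h1 : cR F A w ω = cR F A w ω' := by
    obtain ⟨-, ψ, hψ⟩ := cl2_cR (F := F) (J := J) A w
    have h2 : vg w J F ω = vg w J F ω' := h
    rw [hψ ω (hp ω hω), hψ ω' (hp ω' hω'), h2]
  have h2 : F.Z ω = F.Z ω' := congrArg (fun x => x.2.1) h
  have h3 : ∀ (l j₀ : ℕ) (s : ℝ), pcC F c D w H l j₀ s ω = pcC F c D w H l j₀ s ω' := by
    intro l j₀ s
    funext a
    unfold pcC Pool.AVG71.cod
    rw [h]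
  unfold x0
  rw [h1, h2, h3 2 1, h3 2 0]
  simp only [h3]

theorem det_xg {F : Fam m J} {A : F.Ω → Prop} {c : ℕ → Fin m} {D : ℕ} {w : ℝ} {n : ℕ → ℝ} {nt : ℝ}
    {H : LnT F → ℕ → MvPolynomial (Option (Fin m)) ℝ} {p : F.Ω → ℝ} (hp : ∀ ω, 0 < p ω → A ω) :
    Det p (slam F ⌊w * J⌋₊) (xg F A c D w n nt H) := by
  intro ω ω' hω hω' h
  have h1 := det_x0 (c := c) (D := D) (n := n) (nt := nt) (H := H) hp ω ω' hω hω' h
  have h3 : ∀ (l j₀ : ℕ) (s : ℝ), pcC F c D w H l j₀ s ω = pcC F c D w H l j₀ s ω' := by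
    intro l j₀ s
    funext a
    unfold pcC Pool.AVG71.cod
    rw [h]
  unfold xg xn
  rw [h1, h3 2 0, h3 3 1]

/-- The record of the point determines the time, the far digits, the closed records. -/
theorem det_rP {F : Fam m J} {A : F.Ω → Prop} {c : ℕ → Fin m} {w x x' : ℝ} {n : ℕ → ℝ}
    {H : LnT F → ℕ → MvPolynomial (Option (Fin m)) ℝ} {p : F.Ω → ℝ} (hp : ∀ ω, 0 < p ω → A ω)
    (hx : x ≤ x') (hx' : x' ≤ 1) :
    Det p (rP F A c w x' n H) (fun ω => ((cR F A x ω, F.W ω),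
      ((fun l : Fin 2 => hgC F c w H l (n l) ω), hgC F c w H 2 (n 2) ω))) := by
  intro ω ω' hω hω' h
  have h1 := Prod.ext_iff.1 h
  have h2 := Prod.ext_iff.1 h1.1
  refine Prod.ext (Prod.ext ?_ h2.2) h1.2
  exact cR_mono hx hx' hp ω ω' hω hω' h2.1

/-- **The common datum is few** given the own data and the near velocities of the other lines. -/
theorem y_few {F : Fam m J} {A : F.Ω → Prop} (hA : 0 < Pe F.p A) {c : ℕ → Fin m} {D : ℕ}
    {w t x' : ℝ} {n : ℕ → ℝ} {nt e : ℝ} {H : LnT F → ℕ → MvPolynomial (Option (Fin m)) ℝ}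
    (hn : nt ≤ n 2) (hwx : w ≤ x') (hx' : x' ≤ 1) {Y : Type} (ud : F.Ω → Y)
    (hx0 : CH (Pool.Agent.H49.Ent.cond F.p A True) (x0 F A c D w n nt H)
      (fun ω => ((cR F A w ω, F.W ω), ((fun l : Fin 2 => hgC F c w H l (n l) ω),
        (hgC F c w H 2 nt ω, ud ω)))) ≤ e * J)
    (ht : CH (Pool.Agent.H49.Ent.cond F.p A True)
      (fun ω => ((fun l : Fin 2 => hgC F c w H l (n l) ω), hgC F c w H 2 nt ω))
      (fun ω => (F.T ω, x0 F A c D w n nt H ω)) ≤ e * J) (k : ℕ) :
    CH (cfg (Pool.Agent.H49.Ent.cond F.p A True) (rP F A c w x' n H) (slam F ⌊w * J⌋₊) k 0)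
      (yN F A c D w t n nt H k) (fun v => ((F.T (v 0 0), (cR F A t (v 0 0),
        x0 F A c D w n nt H (v 0 0))), fun (j : Fin k) => ud (v j.succ 0))) ≤
      e * J + k * (e * J + Real.log 5) := by
  classical
  obtain ⟨p, hp⟩ : ∃ p, p = Pool.Agent.H49.Ent.cond F.p A True := ⟨_, rfl⟩
  have hpl : IsLaw p := by rw [hp]; exact isLaw_cond F.isLaw hA
  have hpA : ∀ ω, 0 < p ω → A ω := by
    intro ω hω
    by_contra h
    rw [hp] at hω
    unfold Pool.Agent.H49.Ent.cond at hω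
    rw [if_neg (by simpa using h)] at hω
    exact lt_irrefl _ hω
  rw [← hp] at hx0 ht ⊢
  obtain ⟨q, hq⟩ : ∃ q, q = cfg p (rP F A c w x' n H) (slam F ⌊w * J⌋₊) k 0 := ⟨_, rfl⟩
  have hql : IsLaw q := by rw [hq]; exact cfg_law hpl _ _ k 0
  have q0 := hql.nonneg
  have hpos : ∀ v, 0 < q v → (∀ j i, 0 < p (v j i)) ∧
      ∀ j, rP F A c w x' n H (v j 0) = rP F A c w x' n H (v 0 0) := fun v hv => by
    rw [hq] at hv
    exact ⟨(cfg_pos hpl _ _ hv).1, (cfg_pos hpl _ _ hv).2.2⟩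
  have hmg : ∀ j, Marg q p (fun v => v j 0) := fun j => by
    rw [hq]
    exact cfg_one hpl _ _ k 0 j 0
  rw [← hq]
  obtain ⟨u, hu⟩ : ∃ u, u = fun v : Fin (k + 1) → Fin (0 + 1) → F.Ω => ((F.T (v 0 0),
    (cR F A t (v 0 0), x0 F A c D w n nt H (v 0 0))), fun (j : Fin k) => ud (v j.succ 0)) :=
    ⟨_, rfl⟩
  obtain ⟨z, hz⟩ : ∃ z, z = fun v : Fin (k + 1) → Fin (0 + 1) → F.Ω =>
    ((fun l : Fin 2 => hgC F c w H l (n l) (v 0 0)), hgC F c w H 2 nt (v 0 0)) := ⟨_, rfl⟩
  rw [← hu]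
  have a1 : CH q z u ≤ e * J := by
    have h1 : CH q z u ≤ CH q z (fun v => (F.T (v 0 0), x0 F A c D w n nt H (v 0 0))) := by
      refine CH_mono_cond q0 fun v v' _ _ h => ?_
      rw [hu] at h
      have h' := Prod.ext_iff.1 (Prod.ext_iff.1 h).1
      have h'' := Prod.ext_iff.1 h'.2
      exact Prod.ext h'.1 h''.2
    have h2 : CH q z (fun v => (F.T (v 0 0), x0 F A c D w n nt H (v 0 0))) =
        CH p (fun ω => ((fun l : Fin 2 => hgC F c w H l (n l) ω), hgC F c w H 2 nt ω))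
          (fun ω => (F.T ω, x0 F A c D w n nt H ω)) := by
      rw [hz]
      exact (hmg 0).CH (fun ω => ((fun l : Fin 2 => hgC F c w H l (n l) ω), hgC F c w H 2 nt ω))
        (fun ω => (F.T ω, x0 F A c D w n nt H ω))
    rw [h2] at h1
    exact h1.trans ht
  have a2 := CH_le_add q0 (yN F A c D w t n nt H k) z u
  have a3 : CH q (yN F A c D w t n nt H k) (fun v => (z v, u v)) ≤ k * (e * J + Real.log 5) := by
    have h1 : CH q (yN F A c D w t n nt H k) (fun v => (z v, u v)) ≤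
        CH q (fun v => fun (j : Fin k) => x0 F A c D w n nt H (v j.succ 0))
          (fun v => (z v, u v)) := by
      have e1 : CH q (yN F A c D w t n nt H k) (fun v => (z v, u v)) ≤
          CH q (fun v => ((fun (j : Fin k) => x0 F A c D w n nt H (v j.succ 0)), u v))
            (fun v => (z v, u v)) := by
        refine CH_mono_left q0 fun v v' _ _ h => ?_
        have h' := Prod.ext_iff.1 (Prod.ext_iff.1 h).1
        have h0 := h'.2
        rw [hu] at h0
        have h1 := Prod.ext_iff.1 (Prod.ext_iff.1 h0).1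
        have h2 := Prod.ext_iff.1 h1.2
        refine Prod.ext (Prod.ext h1.1 h2.1) ?_
        funext j
        refine Fin.cases ?_ (fun i => ?_) j
        · exact h2.2
        · exact congrFun h'.1 i
      refine e1.trans ?_
      have e2 := CH_chain q0 (fun v (j : Fin k) => x0 F A c D w n nt H (v j.succ 0)) u
        (fun v => (z v, u v))
      have e3 : CH q u (fun v => (z v, u v)) = 0 :=
        CH_eq_zero q0 fun _ _ _ _ h => (Prod.ext_iff.1 h).2
      have e4 : CH q (fun v (j : Fin k) => x0 F A c D w n nt H (v j.succ 0))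
          (fun v => (u v, (z v, u v))) ≤ CH q (fun v (j : Fin k) => x0 F A c D w n nt H (v j.succ 0))
          (fun v => (z v, u v)) := CH_mono_cond q0 fun _ _ _ _ h => (Prod.ext_iff.1 h).2
      linarith
    refine h1.trans ((Pool.KS3.CH_pi_le q0 (fun v => fun (j : Fin k) =>
      x0 F A c D w n nt H (v j.succ 0)) (fun v => (z v, u v))).trans ?_)
    refine (Finset.sum_le_sum (g := fun _ => e * J + Real.log 5) fun j _ => ?_).trans ?_
    · -- one line
      have b1 := CH_le_add q0 (fun v => x0 F A c D w n nt H (v j.succ 0))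
        (fun v => hgC F c w H 2 nt (v j.succ 0)) (fun v => (z v, u v))
      have b2 : CH q (fun v => hgC F c w H 2 nt (v j.succ 0)) (fun v => (z v, u v)) ≤
          Real.log 5 := by
        have h2 := Pool.AVG5.CH_near hql (fun v (_ : Fin 1) => hgC F c w H 2 nt (v j.succ 0))
          (fun v => (z v, u v)) (D := 2) (by norm_num) (fun v v' hv hv' h i => by
            have h3 := hpos v hv
            have h4 := hpos v' hv'
            have h5 : hgC F c w H 2 nt (v 0 0) = hgC F c w H 2 nt (v' 0 0) := by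
              have h6 := (Prod.ext_iff.1 h).1
              rw [hz] at h6
              exact (Prod.ext_iff.1 h6).2
            have h7 := hg_coarse (l := 2) hn (congrArg (fun x => x.2.2) (h3.2 j.succ))
            have h8 := hg_coarse (l := 2) hn (congrArg (fun x => x.2.2) (h4.2 j.succ))
            rw [← h5] at h8
            have h9 := abs_le.1 h7
            have h10 := abs_le.1 h8
            rw [abs_le]
            constructor <;> linarith [h9.1, h9.2, h10.1, h10.2])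
        have h3 : (Fintype.card (Fin 1) : ℝ) * Real.log (2 * 2 + 1) = Real.log 5 := by
          rw [Fintype.card_fin]
          norm_num
        rw [h3] at h2
        refine le_trans (CH_mono_left q0 fun v v' _ _ h => ?_) h2
        exact congrFun (Prod.ext_iff.1 h).1 0
      have b3 : CH q (fun v => x0 F A c D w n nt H (v j.succ 0))
          (fun v => (hgC F c w H 2 nt (v j.succ 0), (z v, u v))) ≤ e * J := by
        have h2 : CH q (fun v => x0 F A c D w n nt H (v j.succ 0))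
            (fun v => (hgC F c w H 2 nt (v j.succ 0), (z v, u v))) ≤
            CH q (fun v => x0 F A c D w n nt H (v j.succ 0)) (fun v => ((cR F A w (v j.succ 0),
              F.W (v j.succ 0)), ((fun l : Fin 2 => hgC F c w H l (n l) (v j.succ 0)),
              (hgC F c w H 2 nt (v j.succ 0), ud (v j.succ 0))))) := by
          refine CH_mono_cond q0 fun v v' hv hv' h => ?_
          have h3 := hpos v hv
          have h4 := hpos v' hv'
          have k1 := Prod.ext_iff.1 h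
          have k2 := Prod.ext_iff.1 k1.2
          have k3 := k2.1
          have k4 := k2.2
          rw [hz] at k3
          rw [hu] at k4
          have k5 := Prod.ext_iff.1 k3
          have k6 := Prod.ext_iff.1 k4
          have k7 := Prod.ext_iff.1 k6.1
          have k8 := Prod.ext_iff.1 k7.2
          have h5 := det_rP (c := c) (w := w) (n := n) (H := H) hpA hwx hx' _ _ (h3.1 j.succ 0)
            (h3.1 0 0) (h3.2 j.succ)
          have h6 := det_rP (c := c) (w := w) (n := n) (H := H) hpA hwx hx' _ _ (h4.1 j.succ 0)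
            (h4.1 0 0) (h4.2 j.succ)
          have m1 := Prod.ext_iff.1 h5
          have m2 := Prod.ext_iff.1 h6
          have m3 := Prod.ext_iff.1 m1.1
          have m4 := Prod.ext_iff.1 m2.1
          have m5 := Prod.ext_iff.1 m1.2
          have m6 := Prod.ext_iff.1 m2.2
          simp only at k1 k5 k6 k7 k8 m3 m4 m5 m6
          have hc : cR F A w (v 0 0) = cR F A w (v' 0 0) := congrArg (fun x => x.1.1) k8.2
          have hZ : F.Z (v 0 0) = F.Z (v' 0 0) := congrArg (fun x => x.1.2) k8.2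
          have hW : F.W (v 0 0) = F.W (v' 0 0) := Prod.ext k7.1 hZ
          refine Prod.ext (Prod.ext ?_ ?_) (Prod.ext ?_ (Prod.ext k1.1 (congrFun k6.2 j)))
          · show cR F A w (v j.succ 0) = cR F A w (v' j.succ 0)
            rw [m3.1, m4.1, hc]
          · show F.W (v j.succ 0) = F.W (v' j.succ 0)
            rw [m3.2, m4.2, hW]
          · show (fun l : Fin 2 => hgC F c w H l (n l) (v j.succ 0)) =
              fun l : Fin 2 => hgC F c w H l (n l) (v' j.succ 0)
            rw [m5.1, m6.1, k5.1]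
        refine h2.trans (le_trans (le_of_eq ?_) hx0)
        exact (hmg j.succ).CH (x0 F A c D w n nt H) (fun ω => ((cR F A w ω, F.W ω),
          ((fun l : Fin 2 => hgC F c w H l (n l) ω), (hgC F c w H 2 nt ω, ud ω))))
      linarith
    · rw [Finset.sum_const, Finset.card_univ, Fintype.card_fin, nsmul_eq_mul]
  linarith

/-! ### Fullness given the common datum -/

section

variable {Ω R T Λ X U Y Z V V' S' : Type} [Fintype Ω]

/-- **The far digits of the point are full** given the common datum. -/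
theorem cfg_uf {p : Ω → ℝ} (hp : IsLaw p) (r : Ω → R) (l : Ω → Λ) (k : ℕ) (x : Ω → X) (t : Ω → T)
    (sT : Ω → S') (Uf : Ω → V) (ud : Ω → U) (zw : Ω → Z)
    (y : (Fin (k + 1) → Fin (0 + 1) → Ω) → Y) {e₀ e₂ : ℝ} (hrz : Det p r zw)
    (hxz : Det p (fun ω => (t ω, (sT ω, x ω))) zw) (h0 : CH p ud zw ≤ CH p ud r + e₀)
    (hy : CH (cfg p r l k 0) y (fun v => ((t (v 0 0), (sT (v 0 0), x (v 0 0))),
      fun (j : Fin k) => ud (v j.succ 0))) ≤ e₂) :
    CH p Uf (fun ω => (t ω, (sT ω, x ω))) - (k * e₀ + e₂) ≤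
      CH (cfg p r l k 0) (fun v => Uf (v 0 0)) y := by
  classical
  have hc := cfg_law hp r l k 0
  have c0 := hc.nonneg
  have hm := cfg_one hp r l k 0 0 0
  have h2 := cfg_free hp r l k 0 ud zw (fun _ => ()) (fun ω => (t ω, (sT ω, x ω))) (cn := 0)
    (en := 0) hrz hxz h0 (by
      rw [sub_zero]
      exact CH_nonneg hp.nonneg _ _) (le_of_eq (H_const hp.sum_one ()))
  have h3 := cfg_keep hc (fun v => Uf (v 0 0)) (fun v => (t (v 0 0), (sT (v 0 0), x (v 0 0))))
    (fun v => fun (j : Fin k) => (ud (v j.succ 0), fun (_ : Fin 0) => ())) y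
    (fun v => v 0 0) (e₁ := k * (e₀ + (0 : ℕ) * 0)) (e₂ := e₂) (fun v v' _ _ h => by
      have h' : v 0 0 = v' 0 0 := h
      show Uf (v 0 0) = Uf (v' 0 0)
      rw [h']) (fun v v' _ _ h => by
      have h' : v 0 0 = v' 0 0 := h
      show (t (v 0 0), (sT (v 0 0), x (v 0 0))) = (t (v' 0 0), (sT (v' 0 0), x (v' 0 0)))
      rw [h']) (by
      refine le_trans (CH_mono_cond c0 fun v v' _ _ h => ?_) hy
      have h' := Prod.ext_iff.1 h
      refine Prod.ext h'.1 ?_
      funext j'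
      exact (Prod.ext_iff.1 (congrFun h'.2 j')).1) h2
  have h4 : CH (cfg p r l k 0) (fun v => Uf (v 0 0))
      (fun v => (t (v 0 0), (sT (v 0 0), x (v 0 0)))) =
      CH p Uf (fun ω => (t ω, (sT ω, x ω))) := hm.CH Uf (fun ω => (t ω, (sT ω, x ω)))
  have h5 : (k : ℝ) * (e₀ + (0 : ℕ) * 0) = k * e₀ := by
    push_cast
    ring
  rw [h5] at h3
  linarith

/-- **The digits of the path of any line**, from which the far digits of the point follow. -/
theorem cfg_u0 {p : Ω → ℝ} (hp : IsLaw p) (r : Ω → R) (l : Ω → Λ) (k : ℕ) (j : Fin (k + 1))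
    (x : Ω → X) (t : Ω → T) (Uf : Ω → V) (U0 : Ω → V')
    (y : (Fin (k + 1) → Fin (0 + 1) → Ω) → Y) {eo : ℝ} (hrU : Det p r Uf) (hrt : Det p r t)
    (hyx : Det (cfg p r l k 0) y (fun v => x (v j 0)))
    (hyt : Det (cfg p r l k 0) y (fun v => t (v 0 0)))
    (ho : CH p Uf (fun ω => ((U0 ω, x ω), t ω)) ≤ eo) :
    CH (cfg p r l k 0) (fun v => Uf (v 0 0)) y - eo ≤
      CH (cfg p r l k 0) (fun v => U0 (v j 0)) y := by
  classical
  have hc := cfg_law hp r l k 0
  have c0 := hc.nonneg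
  have hj := cfg_one hp r l k 0 j 0
  have h6 : CH (cfg p r l k 0) (fun v => Uf (v 0 0)) (fun v => (U0 (v j 0), y v)) ≤ eo := by
    have e1 : CH (cfg p r l k 0) (fun v => Uf (v 0 0)) (fun v => (U0 (v j 0), y v)) ≤
        CH (cfg p r l k 0) (fun v => Uf (v 0 0))
          (fun v => ((U0 (v j 0), x (v j 0)), t (v j 0))) := by
      refine CH_mono_cond c0 fun v v' hv hv' h => ?_
      have h' := Prod.ext_iff.1 h
      have a1 := cfg_pos hp r l hv
      have a2 := cfg_pos hp r l hv'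
      refine Prod.ext (Prod.ext h'.1 (hyx _ _ hv hv' h'.2)) ?_
      show t (v j 0) = t (v' j 0)
      rw [hrt _ _ (a1.1 j 0) (a1.1 0 0) (a1.2.2 j), hrt _ _ (a2.1 j 0) (a2.1 0 0) (a2.2.2 j)]
      exact hyt _ _ hv hv' h'.2
    have e2 : CH (cfg p r l k 0) (fun v => Uf (v 0 0))
        (fun v => ((U0 (v j 0), x (v j 0)), t (v j 0))) ≤
        CH (cfg p r l k 0) (fun v => Uf (v j 0))
          (fun v => ((U0 (v j 0), x (v j 0)), t (v j 0))) := by
      refine CH_mono_left c0 fun v v' hv hv' h => ?_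
      have h' := Prod.ext_iff.1 h
      have a1 := cfg_pos hp r l hv
      have a2 := cfg_pos hp r l hv'
      show Uf (v 0 0) = Uf (v' 0 0)
      rw [← hrU _ _ (a1.1 j 0) (a1.1 0 0) (a1.2.2 j), ← hrU _ _ (a2.1 j 0) (a2.1 0 0) (a2.2.2 j)]
      exact h'.1
    have e3 : CH (cfg p r l k 0) (fun v => Uf (v j 0))
        (fun v => ((U0 (v j 0), x (v j 0)), t (v j 0))) =
        CH p Uf (fun ω => ((U0 ω, x ω), t ω)) := hj.CH Uf (fun ω => ((U0 ω, x ω), t ω))
    linarith
  have h7 := CH_le_add c0 (fun v => Uf (v 0 0)) (fun v => U0 (v j 0)) y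
  linarith

end

/-! ### The hypotheses of `nd_tup` -/

/-- The event of the support. -/
theorem cond_A {F : Fam m J} {A : F.Ω → Prop} {ω : F.Ω}
    (h : 0 < Pool.Agent.H49.Ent.cond F.p A True ω) : A ω := by
  by_contra h1
  unfold Pool.Agent.H49.Ent.cond at h
  rw [if_neg (by simpa using h1)] at h
  exact lt_irrefl _ h

/-- The closed record and the exact time from the own data. -/
theorem det_zw {F : Fam m J} {A : F.Ω → Prop} {c : ℕ → Fin m} {D : ℕ} {w : ℝ} {n : ℕ → ℝ} {nt : ℝ}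
    {H : LnT F → ℕ → MvPolynomial (Option (Fin m)) ℝ} {p : F.Ω → ℝ} {S' : Type} (sT : F.Ω → S') :
    Det p (fun ω => (F.T ω, (sT ω, x0 F A c D w n nt H ω))) (fun ω => (cR F A w ω, F.W ω)) := by
  intro ω ω' _ _ h
  have h1 := Prod.ext_iff.1 h
  have h2 := Prod.ext_iff.1 h1.2
  have h3 : cR F A w ω = cR F A w ω' := congrArg (fun x => x.1.1) h2.2
  have h4 : F.Z ω = F.Z ω' := congrArg (fun x => x.1.2) h2.2
  exact Prod.ext h3 (Prod.ext h1.1 h4)

/-- All codes of the path of `c 2` from the near data and the code of the constant. -/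
theorem det_xn {F : Fam m J} {A : F.Ω → Prop} {c : ℕ → Fin m} {D : ℕ} {w : ℝ} {n : ℕ → ℝ} {nt : ℝ}
    {H : LnT F → ℕ → MvPolynomial (Option (Fin m)) ℝ} {p : F.Ω → ℝ} :
    Det p (fun ω => (pcC F c D w H 2 0 (n 2) ω 0, x0 F A c D w n nt H ω))
      (xn F A c D w n nt H) := by
  intro ω ω' _ _ h
  have h1 := Prod.ext_iff.1 h
  refine Prod.ext h1.2 ?_
  show pcC F c D w H 2 0 (n 2) ω = pcC F c D w H 2 0 (n 2) ω'
  have h3 : pcC F c D w H 2 1 (n 2) ω = pcC F c D w H 2 1 (n 2) ω' :=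
    congrArg (fun x => x.2.2.1) h1.2
  funext a
  by_cases ha : (a : ℕ) = 0
  · have ha' : a = 0 := Fin.ext ha
    rw [ha']
    exact h1.1
  · have h4 := congrFun h3 a
    unfold pcC Pool.AVG71.cod at h4 ⊢
    have h5 : 1 ≤ (a : ℕ) := Nat.one_le_iff_ne_zero.2 ha
    rw [if_pos h5, if_pos h5] at h4
    rw [if_pos (Nat.zero_le _), if_pos (Nat.zero_le _)]
    exact h4

end Pool.ND54
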