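import Pool.Agent.H66.NDD.Ddx

/-!
# Auxiliary lines: the divided difference of the own paths

`Qk v h₀ k`: the integral from `h₀` of the `k`-th Lagrange polynomial of the nodes `v`. `quad`: the
increment of a polynomial of degree at most `D` from its derivative at `D` nodes. `aux_dd`: if the
increments `n i - n 0` are the increments of the quadrature with values `c k` of the derivative, then
the divided difference of order `D + 1` of the values `n i` vanishes.
-/

set_option autoImplicit false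

namespace Pool.ND54

open Finset Real Polynomial
open Pool.NDD66 (mu Lam)

/-- A primitive. -/
noncomputable def prim (P : Polynomial ℝ) : Polynomial ℝ :=
  ∑ n ∈ range (P.natDegree + 1), C (P.coeff n / (n + 1)) * X ^ (n + 1)

theorem prim_der (P : Polynomial ℝ) : derivative (prim P) = P := by
  unfold prim
  rw [derivative_sum]
  conv_rhs => rw [P.as_sum_range_C_mul_X_pow]
  refine Finset.sum_congr rfl fun n _ => ?_
  rw [derivative_C_mul, derivative_X_pow, ← mul_assoc, ← C_mul]
  congr 2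
  have : (n : ℝ) + 1 ≠ 0 := by positivity
  push_cast
  field_simp

theorem prim_deg (P : Polynomial ℝ) {N : ℕ} (h : P.natDegree ≤ N) : (prim P).natDegree ≤ N + 1 := by
  unfold prim
  refine natDegree_sum_le_of_forall_le _ _ fun n hn => ?_
  have h1 := Finset.mem_range.1 hn
  exact (natDegree_C_mul_X_pow_le _ _).trans (by omega)

/-- The integral from `h₀` of the Lagrange polynomial. -/
noncomputable def Qk {D : ℕ} (v : Fin D → ℝ) (h₀ : ℝ) (k : Fin D) : Polynomial ℝ :=
  prim (Lagrange.basis univ v k) - C ((prim (Lagrange.basis univ v k)).eval h₀)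

theorem Qk_zero {D : ℕ} (v : Fin D → ℝ) (h₀ : ℝ) (k : Fin D) : (Qk v h₀ k).eval h₀ = 0 := by
  unfold Qk
  rw [eval_sub, eval_C, sub_self]

theorem Qk_der {D : ℕ} (v : Fin D → ℝ) (h₀ : ℝ) (k : Fin D) :
    derivative (Qk v h₀ k) = Lagrange.basis univ v k := by
  unfold Qk
  rw [derivative_sub, derivative_C, sub_zero, prim_der]

theorem Qk_deg {D : ℕ} {v : Fin D → ℝ} (hv : Function.Injective v) (h₀ : ℝ) (k : Fin D) :
    (Qk v h₀ k).natDegree ≤ D := by
  unfold Qk
  have h1 : (Lagrange.basis univ v k).natDegree ≤ D - 1 := by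
    rw [Lagrange.natDegree_basis (hv.injOn) (mem_univ k), card_univ, Fintype.card_fin]
  have h2 := k.isLt
  refine (natDegree_sub_le _ _).trans (max_le ((prim_deg _ h1).trans (by omega)) ?_)
  rw [natDegree_C]
  exact Nat.zero_le _

/-- **Quadrature.** -/
theorem quad {D : ℕ} {v : Fin D → ℝ} (hv : Function.Injective v) (h₀ : ℝ) {S : Polynomial ℝ}
    (hS : S.natDegree ≤ D) (u : ℝ) :
    S.eval u - S.eval h₀ = ∑ k, (Qk v h₀ k).eval u * (derivative S).eval (v k) := by
  classical
  have hlt : (derivative S).degree < (univ : Finset (Fin D)).card := by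
    rw [card_univ, Fintype.card_fin]
    by_cases h0 : S = 0
    · rw [h0, derivative_zero, degree_zero]
      exact WithBot.bot_lt_coe D
    · refine (degree_derivative_lt h0).trans_le ?_
      rw [degree_eq_natDegree h0]
      exact_mod_cast hS
  have h1 := Lagrange.eq_interpolate (hv.injOn (s := (univ : Finset (Fin D)))) hlt
  obtain ⟨A, hA⟩ : ∃ A : Polynomial ℝ, A = S - ∑ k, C ((derivative S).eval (v k)) * Qk v h₀ k :=
    ⟨_, rfl⟩
  have h2 : derivative A = 0 := by
    rw [hA, derivative_sub, derivative_sum]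
    simp only [derivative_C_mul, Qk_der]
    rw [Lagrange.interpolate_apply] at h1
    rw [sub_eq_zero]
    exact h1
  have h3 := derivative_eq_zero.1 h2
  obtain ⟨a, ha⟩ := natDegree_eq_zero.1 h3
  have h4 : ∀ y, A.eval y = a := fun y => by rw [← ha, eval_C]
  have h5 : ∀ y, A.eval y = S.eval y - ∑ k, (derivative S).eval (v k) * (Qk v h₀ k).eval y := by
    intro y
    rw [hA, eval_sub, eval_finsetSum]
    simp only [eval_mul, eval_C]
  have h6 := (h4 u).trans (h4 h₀).symm
  rw [h5, h5] at h6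
  simp only [Qk_zero, mul_zero, Finset.sum_const_zero, sub_zero] at h6
  have h7 : ∑ k, (Qk v h₀ k).eval u * (derivative S).eval (v k) =
      ∑ k, (derivative S).eval (v k) * (Qk v h₀ k).eval u :=
    Finset.sum_congr rfl fun k _ => mul_comm _ _
  rw [h7]
  linarith

/-- The size of the weights. -/
theorem Qk_le {D : ℕ} {v : Fin D → ℝ} {h₀ u s W : ℝ} (hs : 0 < s)
    (h1 : ∀ k k', k ≠ k' → s ≤ |v k - v k'|) (h2 : ∀ k, |v k| ≤ W) (h3 : |h₀| ≤ W)
    (h4 : |u| ≤ W) (k : Fin D) : |(Qk v h₀ k).eval u| ≤ 2 * W * (2 * W / s) ^ (D - 1) := by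
  classical
  have hW : 0 ≤ W := (abs_nonneg _).trans h3
  have hb : ∀ y : ℝ, |y| ≤ W → |(Lagrange.basis univ v k).eval y| ≤ (2 * W / s) ^ (D - 1) := by
    intro y hy
    unfold Lagrange.basis
    rw [eval_prod, Finset.abs_prod]
    have hc : (univ.erase k).card = D - 1 := by
      rw [card_erase_of_mem (mem_univ k), card_univ, Fintype.card_fin]
    rw [← hc, ← Finset.prod_const]
    refine Finset.prod_le_prod (fun _ _ => abs_nonneg _) fun j hj => ?_
    have hjk : k ≠ j := (ne_of_mem_erase hj).symm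
    unfold Lagrange.basisDivisor
    rw [eval_mul, eval_C, eval_sub, eval_X, eval_C, abs_mul, abs_inv, ← div_eq_inv_mul]
    refine div_le_div₀ (by positivity) ?_ hs (h1 k j hjk)
    refine (abs_sub _ _).trans ?_
    linarith [h2 j]
  have hder : ∀ y ∈ Set.Icc (-W) W, HasDerivWithinAt (fun y => (Qk v h₀ k).eval y)
      ((Lagrange.basis univ v k).eval y) (Set.Icc (-W) W) y := by
    intro y _
    rw [← Qk_der v h₀ k]
    exact ((Qk v h₀ k).hasDerivAt y).hasDerivWithinAt
  have h5 := Convex.norm_image_sub_le_of_norm_hasDerivWithin_le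
    (f := fun y => (Qk v h₀ k).eval y) (f' := fun y => (Lagrange.basis univ v k).eval y)
    (C := (2 * W / s) ^ (D - 1)) (s := Set.Icc (-W) W) (x := h₀) (y := u) hder
    (fun y hy => by
      rw [Real.norm_eq_abs]
      exact hb y (abs_le.2 hy)) (convex_Icc _ _) (abs_le.1 h3) (abs_le.1 h4)
  rw [Real.norm_eq_abs, Real.norm_eq_abs] at h5
  simp only [Qk_zero, sub_zero] at h5
  refine h5.trans ?_
  rw [mul_comm]
  refine mul_le_mul_of_nonneg_right ?_ (by positivity)
  refine (abs_sub _ _).trans ?_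
  linarith

/-- **The divided difference of the own paths.** -/
theorem aux_dd {D : ℕ} {h : Fin (D + 2) → ℝ} (hh : Function.Injective h) {v : Fin D → ℝ}
    (hv : Function.Injective v) (n : Fin (D + 2) → ℝ) (c : Fin D → ℝ) {δ : ℝ}
    (hn : ∀ i, |n i - n 0 - ∑ k, (Qk v (h 0) k).eval (h i) * c k| ≤ δ) :
    |∑ i, mu h i * n i| ≤ Lam h * δ := by
  classical
  have h1 : ∀ P : Polynomial ℝ, P.natDegree ≤ D → ∑ i, mu h i * P.eval (h i) = 0 :=
    fun P hP => Pool.AO64.dd_zero hP h hh
  have h2 : ∑ i, mu h i = 0 := by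
    have := h1 (C 1) (by rw [natDegree_C]; exact Nat.zero_le _)
    simpa using this
  have e1 : ∑ i, mu h i * n i = ∑ i, mu h i *
      (n i - n 0 - ∑ k, (Qk v (h 0) k).eval (h i) * c k) := by
    have e2 : ∑ i, mu h i * (n i - n 0 - ∑ k, (Qk v (h 0) k).eval (h i) * c k) =
        ∑ i, mu h i * n i - (∑ i, mu h i) * n 0 -
          ∑ k, (∑ i, mu h i * (Qk v (h 0) k).eval (h i)) * c k := by
      have e3 : ∑ k, (∑ i, mu h i * (Qk v (h 0) k).eval (h i)) * c k =
          ∑ i, mu h i * ∑ k, (Qk v (h 0) k).eval (h i) * c k := by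
        simp only [Finset.sum_mul, Finset.mul_sum]
        rw [Finset.sum_comm]
        exact Finset.sum_congr rfl fun i _ => Finset.sum_congr rfl fun k _ => by ring
      rw [e3, Finset.sum_mul, ← Finset.sum_sub_distrib, ← Finset.sum_sub_distrib]
      exact Finset.sum_congr rfl fun i _ => by ring
    have e4 : ∑ k, (∑ i, mu h i * (Qk v (h 0) k).eval (h i)) * c k = 0 :=
      Finset.sum_eq_zero fun k _ => by rw [h1 _ (Qk_deg hv _ _), zero_mul]
    rw [e2, h2, e4]
    ring
  rw [e1]
  refine (Finset.abs_sum_le_sum_abs _ _).trans ?_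
  unfold Lam
  rw [Finset.sum_mul]
  refine Finset.sum_le_sum fun i _ => ?_
  rw [abs_mul]
  exact mul_le_mul_of_nonneg_left (hn i) (abs_nonneg _)

/-- **The relation at one time**: the points are on one chart. -/
theorem aux_at {D : ℕ} {h : Fin (D + 2) → ℝ} {v : Fin D → ℝ}
    (hv : Function.Injective v) (n : Fin (D + 2) → ℝ) (c : Fin D → ℝ) {S : Polynomial ℝ}
    (hS : S.natDegree ≤ D) {η₁ η₃ B : ℝ} (hn : ∀ i, |n i - S.eval (h i)| ≤ η₁)
    (hc : ∀ k, |c k - (derivative S).eval (v k)| ≤ η₃)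
    (hB : ∀ i k, |(Qk v (h 0) k).eval (h i)| ≤ B) (i : Fin (D + 2)) :
    |n i - n 0 - ∑ k, (Qk v (h 0) k).eval (h i) * c k| ≤ 2 * η₁ + D * (B * η₃) := by
  have h1 := quad hv (h 0) hS (h i)
  have e1 : n i - n 0 - ∑ k, (Qk v (h 0) k).eval (h i) * c k =
      (n i - S.eval (h i)) - (n 0 - S.eval (h 0)) -
        ∑ k, (Qk v (h 0) k).eval (h i) * (c k - (derivative S).eval (v k)) := by
    have e2 : ∑ k, (Qk v (h 0) k).eval (h i) * (c k - (derivative S).eval (v k)) =
        ∑ k, (Qk v (h 0) k).eval (h i) * c k -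
          ∑ k, (Qk v (h 0) k).eval (h i) * (derivative S).eval (v k) := by
      rw [← Finset.sum_sub_distrib]
      exact Finset.sum_congr rfl fun k _ => by ring
    rw [e2, ← h1]
    ring
  rw [e1]
  refine (abs_sub _ _).trans (add_le_add ((abs_sub _ _).trans ?_) ?_)
  · linarith [hn i, hn 0]
  · refine (Finset.abs_sum_le_sum_abs _ _).trans ?_
    refine (Finset.sum_le_sum (g := fun _ => B * η₃) fun k _ => ?_).trans (le_of_eq ?_)
    · rw [abs_mul]
      exact mul_le_mul (hB i k) (hc k) (abs_nonneg _) ((abs_nonneg _).trans (hB i k))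
    · rw [Finset.sum_const, card_univ, Fintype.card_fin, nsmul_eq_mul]

end Pool.ND54
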