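import Pool.Agent.H52.TIE.Few

/-!
# Copies of configurations

`cfg_gen`: the copies of a configuration given its near data `y`. If the near data `x` of the own
line is a function of the near data of the configuration and the line given `y` is as free as given
`x`, then everything in the first configuration is as free given all own lines as given its line.
`cfg_loss`: the line given `y`, from few values of `y`, the full time and the freedom of the other
lines. `pick`: one choice of the other lines for each own line.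
-/

set_option autoImplicit false

namespace Pool.ND54

open Finset Real
open Pool.Agent.H49.Ent Pool.Agent.H32.Dense Pool.STK
open Pool.BFL (Pb)
open Pool.K2S (cpn)
open Pool.CLU (cpn_law cpn_pos cpn_marg)
open Pool.H52.TIE (CH_cpn CH_cpn_zero)

section

variable {Ω T Λ X U Y S : Type} [Fintype Ω]

/-- The other copies given the whole first copy. -/
theorem cpn_tail {p : Ω → ℝ} (hp : IsLaw p) (r : Ω → Y) (V : Ω → S) (n : ℕ) :
    n * CH p V r ≤ CH (cpn p r n) (fun w (j : Fin n) => V (w j.succ)) (fun w => w 0) := by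
  classical
  have hq := cpn_law hp r n
  have q0 := hq.nonneg
  have a1 := Pool.TMS.cpn_times hp r (fun ω : Ω => ω) n
  -- all copies
  have a2 : CH (cpn p r n) (fun w i => w i) (fun w => r (w 0)) ≤
      CH (cpn p r n) (fun w => w 0) (fun w => r (w 0)) +
        CH (cpn p r n) (fun w (j : Fin n) => w j.succ) (fun w => w 0) := by
    have h1 := CH_chain q0 (fun w (j : Fin n) => w j.succ) (fun w => w 0) (fun w => r (w 0))
    have h2 : CH (cpn p r n) (fun w i => w i) (fun w => r (w 0)) ≤
        CH (cpn p r n) (fun w => ((fun (j : Fin n) => w j.succ), w 0)) (fun w => r (w 0)) := by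
      refine CH_mono_left q0 fun w w' _ _ h => ?_
      have h' := Prod.ext_iff.1 (Prod.ext_iff.1 h).1
      simp only at h'
      funext i
      refine Fin.cases ?_ (fun j => ?_) i
      · exact h'.2
      · exact congrFun h'.1 j
    have h3 : CH (cpn p r n) (fun w (j : Fin n) => w j.succ) (fun w => (w 0, r (w 0))) ≤
        CH (cpn p r n) (fun w (j : Fin n) => w j.succ) (fun w => w 0) :=
      CH_mono_cond q0 fun w w' _ _ h => (Prod.ext_iff.1 h).1
    linarith
  have a3 : CH (cpn p r n) (fun w => w 0) (fun w => r (w 0)) = CH p (fun ω => ω) r :=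
    CH_cpn hp r n 0 (fun ω => ω) r
  -- the tail
  have a4 : CH (cpn p r n) (fun w (j : Fin n) => w j.succ) (fun w => w 0) ≤
      CH (cpn p r n) (fun w (j : Fin n) => V (w j.succ)) (fun w => w 0) +
        n * CH p (fun ω => ω) (fun ω => (V ω, r ω)) := by
    refine (CH_le_add q0 _ (fun w (j : Fin n) => V (w j.succ)) _).trans ?_
    refine add_le_add le_rfl ?_
    refine (Pool.KS3.CH_pi_le q0 (fun w : Fin (n + 1) → Ω => fun (j : Fin n) => w j.succ)
      (fun w => ((fun (j : Fin n) => V (w j.succ)), w 0))).trans ?_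
    refine (Finset.sum_le_sum (g := fun _ => CH p (fun ω => ω) (fun ω => (V ω, r ω)))
      fun j _ => ?_).trans ?_
    · rw [← CH_cpn hp r n j.succ (fun ω => ω) (fun ω => (V ω, r ω))]
      refine CH_mono_cond q0 fun w w' hw hw' h => ?_
      have h1 := Prod.ext_iff.1 h
      simp only at h1
      have h2 := cpn_pos hp.nonneg r n w hw
      have h3 := cpn_pos hp.nonneg r n w' hw'
      refine Prod.ext (congrFun h1.1 j) ?_
      show r (w j.succ) = r (w' j.succ)
      rw [h2.2, h3.2, h1.2]
    · rw [Finset.sum_const, Finset.card_univ, Fintype.card_fin, nsmul_eq_mul]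
  have a5 : CH p (fun ω => ω) r = CH p V r + CH p (fun ω => ω) (fun ω => (V ω, r ω)) := by
    have h1 := CH_chain hp.nonneg (fun ω : Ω => ω) V r
    have h2 : CH p (fun ω => (ω, V ω)) r = CH p (fun ω => ω) r := by
      refine CH_congr hp.nonneg ?_ ?_ (fun _ _ _ _ h => h) (fun _ _ _ _ h => h)
      · exact fun ω ω' _ _ h => (Prod.ext_iff.1 (Prod.ext_iff.1 h).1).1
      · intro ω ω' _ _ h
        have h' : ω = ω' := (Prod.ext_iff.1 h).1
        rw [h']
    linarith
  have a6 : ((n : ℝ) + 1) * CH p (fun ω => ω) r ≤ CH p (fun ω => ω) r +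
      (CH (cpn p r n) (fun w (j : Fin n) => V (w j.succ)) (fun w => w 0) +
        n * CH p (fun ω => ω) (fun ω => (V ω, r ω))) := by
    rw [← a1]
    linarith
  have a7 : (n : ℝ) * CH p (fun ω => ω) r = n * CH p V r +
      n * CH p (fun ω => ω) (fun ω => (V ω, r ω)) := by
    rw [a5]
    ring
  linarith

/-- **Copies of configurations.** Everything in the first configuration is as free given all own
lines as given its own line. -/
theorem cfg_gen {q : Ω → ℝ} (hq : IsLaw q) (l : Ω → Λ) (x : Ω → X) (y : Ω → Y) (D : Ω → S)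
    (n : ℕ) (hyx : Det q y x) (hlx : Det q l x) :
    CH q D l - n * (CH q l x - CH q l y) ≤
      CH (cpn q y n) (fun w => D (w 0)) (fun w i => l (w i)) := by
  classical
  have hQ := cpn_law hq y n
  have Q0 := hQ.nonneg
  -- chain rules
  have b1 := CH_chain Q0 (fun w => D (w 0)) (fun w (i : Fin (n + 1)) => l (w i))
    (fun w => x (w 0))
  have b2 : CH (cpn q y n) (fun w => D (w 0))
      (fun w => ((fun (i : Fin (n + 1)) => l (w i)), x (w 0))) ≤
      CH (cpn q y n) (fun w => D (w 0)) (fun w i => l (w i)) :=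
    CH_mono_cond Q0 fun w w' _ _ h => (Prod.ext_iff.1 h).1
  have b3 : CH (cpn q y n) (fun w (i : Fin (n + 1)) => l (w i)) (fun w => x (w 0)) ≤
      (n + 1) * CH q l x := by
    refine (Pool.KS3.CH_pi_le Q0 (fun w : Fin (n + 1) → Ω => fun i => l (w i))
      (fun w => x (w 0))).trans ?_
    rw [Finset.sum_congr rfl fun i _ => CH_cpn_zero hq y n i l x hyx, Finset.sum_const,
      Finset.card_univ, Fintype.card_fin, nsmul_eq_mul]
    push_cast
    exact le_rfl
  -- the first configuration, then the others
  have b4 : CH (cpn q y n) (fun w => (((fun (j : Fin n) => l (w j.succ)), (D (w 0), l (w 0)))))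
      (fun w => x (w 0)) ≤
      CH (cpn q y n) (fun w => (D (w 0), (fun (i : Fin (n + 1)) => l (w i))))
      (fun w => x (w 0)) := by
    refine CH_mono_left Q0 fun w w' _ _ h => ?_
    have h' := Prod.ext_iff.1 (Prod.ext_iff.1 h).1
    simp only at h'
    refine Prod.ext ?_ (Prod.ext h'.1 (congrFun h'.2 0))
    funext j
    exact congrFun h'.2 j.succ
  have b5 := CH_chain Q0 (fun w (j : Fin n) => l (w j.succ)) (fun w => (D (w 0), l (w 0)))
    (fun w => x (w 0))
  have b6 : n * CH q l y ≤ CH (cpn q y n) (fun w (j : Fin n) => l (w j.succ))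
      (fun w => ((D (w 0), l (w 0)), x (w 0))) := by
    refine (cpn_tail hq y l n).trans (CH_mono_cond Q0 fun w w' _ _ h => ?_)
    have h' : w 0 = w' 0 := h
    rw [h']
  have b7 : CH (cpn q y n) (fun w => (D (w 0), l (w 0))) (fun w => x (w 0)) =
      CH q (fun ω => (D ω, l ω)) x :=
    CH_cpn hq y n 0 (fun ω => (D ω, l ω)) x
  have b8 := CH_chain hq.nonneg D l x
  have b9 : CH q D l ≤ CH q D (fun ω => (l ω, x ω)) := by
    refine CH_mono_cond hq.nonneg fun ω ω' hω hω' h => ?_
    exact Prod.ext h (hlx _ _ hω hω' h)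
  have b10 : (n : ℝ) * (CH q l x - CH q l y) = n * CH q l x - n * CH q l y := by ring
  rw [b10]
  linarith

/-- **The line given the near data of the configuration.** -/
theorem cfg_loss {q : Ω → ℝ} (hq : IsLaw q) (t : Ω → T) (l : Ω → Λ) (x : Ω → X) (u : Ω → U)
    (y : Ω → Y) {ct e e₁ e₂ : ℝ} (hlx : Det q l x)
    (hy : CH q y (fun v => (t v, (x v, u v))) ≤ e₂) (htx : CH q t x ≤ ct)
    (ht : ct - e ≤ CH q t l)
    (hu : CH q u (fun v => (t v, x v)) ≤ CH q u (fun v => (t v, l v)) + e₁) :
    CH q l x - CH q l y ≤ e + e₁ + e₂ := by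
  have q0 := hq.nonneg
  have a1 : CH q l (fun v => (y v, (t v, (x v, u v)))) ≤ CH q l y :=
    CH_mono_cond q0 fun _ _ _ _ h => (Prod.ext_iff.1 h).1
  have a2 := CH_le_add q0 l y (fun v => (t v, (x v, u v)))
  -- the time and the directions
  have a3 := CH_chain q0 l (fun v => (u v, t v)) x
  have a4 := CH_chain q0 (fun v => (u v, t v)) l x
  have a5 : CH q (fun v => (l v, (u v, t v))) x = CH q (fun v => ((u v, t v), l v)) x :=
    Pool.MIC.CH_swl q0 _ _ _
  have a6 := CH_chain q0 u t x
  have a7 : CH q (fun v => (u v, t v)) l ≤ CH q (fun v => (u v, t v)) (fun v => (l v, x v)) :=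
    CH_mono_cond q0 fun ω ω' hω hω' h => Prod.ext h (hlx _ _ hω hω' h)
  have a8 := CH_chain q0 u t l
  have a9 : CH q l (fun v => ((u v, t v), x v)) ≤ CH q l (fun v => (t v, (x v, u v))) :=
    CH_mono_cond q0 fun ω ω' _ _ h => by
      have h' := Prod.ext_iff.1 h
      have h'' := Prod.ext_iff.1 h'.1
      simp only at h' h''
      exact Prod.ext h''.2 (Prod.ext h'.2 h''.1)
  linarith

end

end Pool.ND54
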