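import Pool.Agent.H54.ND.Cfg
import Pool.Agent.H5.K2.SEP
import Pool.Agent.H42.D2.Span
import Pool.Agent.H46.MIC.Cpn
import Pool.Agent.H65.X.Xg

/-!
# The law of the configurations

`cfg p r l m k`: `m + 1` lines through one point, `k + 1` samples of every line. `v 0 0` is the own
sample, `v j 0` the sample of the `j`-th line at the point, `v j i` the other samples of this line.
`nd_law`: the copies of configurations given their near data. `cpn_det`: the directions of the lines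
through the point are in general position. `sep_cpn`: the copies are separated.
-/

set_option autoImplicit false

namespace Pool.ND54

open Finset Real
open Pool.Agent.H49.Ent Pool.Agent.H32.Dense Pool.STK
open Pool.BFL (Pb)
open Pool.K2S (cpn)
open Pool.CLU (cpn_law cpn_pos cpn_marg marg_cpn)
open Pool.H52.TIE (CH_cpn CH_cpn_zero)
open Pool.XLF (Pb_le Pb_cpn_at)

section

variable {Ω R T Λ X U Y S Z N' : Type} [Fintype Ω]

/-- **The law of the configurations.** -/
noncomputable def cfg (p : Ω → ℝ) (r : Ω → R) (l : Ω → Λ) (m k : ℕ) :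
    (Fin (m + 1) → Fin (k + 1) → Ω) → ℝ := cpn (cpn p l k) (fun v => r (v 0)) m

theorem cfg_law {p : Ω → ℝ} (hp : IsLaw p) (r : Ω → R) (l : Ω → Λ) (m k : ℕ) :
    IsLaw (cfg p r l m k) := cpn_law (cpn_law hp l k) _ m

theorem cfg_pos {p : Ω → ℝ} (hp : IsLaw p) (r : Ω → R) (l : Ω → Λ) {m k : ℕ}
    {v : Fin (m + 1) → Fin (k + 1) → Ω} (h : 0 < cfg p r l m k v) :
    (∀ j i, 0 < p (v j i)) ∧ (∀ j i, l (v j i) = l (v j 0)) ∧ ∀ j, r (v j 0) = r (v 0 0) := by
  have h1 := cpn_pos (cpn_law hp l k).nonneg (fun v => r (v 0)) m v h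
  exact ⟨fun j => (cpn_pos hp.nonneg l k (v j) (h1.1 j)).1,
    fun j => (cpn_pos hp.nonneg l k (v j) (h1.1 j)).2, h1.2⟩

/-- One line of the configuration. -/
theorem cfg_line {p : Ω → ℝ} (hp : IsLaw p) (r : Ω → R) (l : Ω → Λ) (m k : ℕ)
    (j : Fin (m + 1)) : Marg (cfg p r l m k) (cpn p l k) (fun v => v j) :=
  cpn_marg (cpn_law hp l k).nonneg _ m j

/-- One sample of the configuration. -/
theorem cfg_one {p : Ω → ℝ} (hp : IsLaw p) (r : Ω → R) (l : Ω → Λ) (m k : ℕ)
    (j : Fin (m + 1)) (i : Fin (k + 1)) : Marg (cfg p r l m k) p (fun v => v j i) :=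
  (cfg_line hp r l m k j).comp (cpn_marg hp.nonneg l k i)

/-- The samples at the point. -/
theorem cfg_heads {p : Ω → ℝ} (hp : IsLaw p) (r : Ω → R) (l : Ω → Λ) (m k : ℕ) :
    Marg (cfg p r l m k) (cpn p r m) (fun v j => v j 0) :=
  marg_cpn (cpn_marg hp.nonneg l k 0) r m

/-- **Freedom of the other lines.** The near directions of the other lines and the times of their
samples are as free given the own sample as given its near data. -/
theorem cfg_free {p : Ω → ℝ} (hp : IsLaw p) (r : Ω → R) (l : Ω → Λ) (m k : ℕ) (ud : Ω → U)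
    (zw : Ω → Z) (tn : Ω → N') (W : Ω → S) (hrz : Det p r zw) (hWz : Det p W zw)
    {cn en e₀ : ℝ} (h0 : CH p ud zw ≤ CH p ud r + e₀) (ht : cn - en ≤ CH p tn l)
    (htn : H p tn ≤ cn) :
    CH (cfg p r l m k) (fun v => fun (j : Fin m) => (ud (v j.succ 0),
      fun (i : Fin k) => tn (v j.succ i.succ))) (fun v => W (v 0 0)) ≤
    CH (cfg p r l m k) (fun v => fun (j : Fin m) => (ud (v j.succ 0),
      fun (i : Fin k) => tn (v j.succ i.succ))) (fun v => v 0 0) + m * (e₀ + k * en) := by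
  classical
  have hq := cpn_law hp l k
  have q0 := hq.nonneg
  have hc := cfg_law hp r l m k
  have c0 := hc.nonneg
  obtain ⟨V, hV⟩ : ∃ V : (Fin (k + 1) → Ω) → U × (Fin k → N'), V = fun v' =>
    (ud (v' 0), fun (i : Fin k) => tn (v' i.succ)) := ⟨_, rfl⟩
  have e1 : (fun (v : Fin (m + 1) → Fin (k + 1) → Ω) => fun (j : Fin m) => (ud (v j.succ 0),
      fun (i : Fin k) => tn (v j.succ i.succ))) = fun v (j : Fin m) => V (v j.succ) := by
    rw [hV]
  rw [e1]
  -- upper bound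
  have hHn : ∀ (i : Fin (k + 1)) (w : (Fin (k + 1) → Ω) → Z),
      CH (cpn p l k) (fun v' => tn (v' i)) w ≤ cn := by
    intro i w
    have h1 : CH (cpn p l k) (fun v' => tn (v' i)) w ≤
        CH (cpn p l k) (fun v' => tn (v' i)) (fun _ => ()) :=
      CH_mono_cond q0 fun _ _ _ _ _ => rfl
    have h2 : CH (cpn p l k) (fun v' => tn (v' i)) (fun _ => ()) = CH p tn (fun _ => ()) :=
      CH_cpn hp l k i tn (fun _ => ())
    have h3 : CH p tn (fun _ => ()) = H p tn := by
      unfold CH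
      rw [H_const hp.sum_one, sub_zero]
      exact H_congr hp.nonneg (fun _ _ _ _ h => Prod.ext h rfl)
        (fun _ _ _ _ h => (Prod.ext_iff.1 h).1)
    linarith
  have a1 : CH (cpn p l k) V (fun v' => zw (v' 0)) ≤ CH p ud zw + k * cn := by
    rw [hV]
    refine (CH_subadd q0 _ _ _).trans ?_
    have h1 : CH (cpn p l k) (fun v' => ud (v' 0)) (fun v' => zw (v' 0)) = CH p ud zw :=
      CH_cpn hp l k 0 ud zw
    rw [h1]
    refine add_le_add le_rfl ?_
    refine (Pool.KS3.CH_pi_le q0 (fun v' : Fin (k + 1) → Ω => fun (i : Fin k) => tn (v' i.succ))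
      (fun v' => zw (v' 0))).trans ?_
    refine (Finset.sum_le_sum (g := fun _ => cn) fun i _ => hHn i.succ _).trans ?_
    rw [Finset.sum_const, Finset.card_univ, Fintype.card_fin, nsmul_eq_mul]
  have a2 : CH (cfg p r l m k) (fun v (j : Fin m) => V (v j.succ)) (fun v => W (v 0 0)) ≤
      m * (CH p ud zw + k * cn) := by
    have h1 : CH (cfg p r l m k) (fun v (j : Fin m) => V (v j.succ)) (fun v => W (v 0 0)) ≤
        CH (cfg p r l m k) (fun v (j : Fin m) => V (v j.succ)) (fun v => zw (v 0 0)) :=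
      CH_mono_cond c0 fun v v' hv hv' h => hWz _ _ ((cfg_pos hp r l hv).1 0 0)
        ((cfg_pos hp r l hv').1 0 0) h
    refine h1.trans ?_
    refine (Pool.KS3.CH_pi_le c0 (fun v : Fin (m + 1) → Fin (k + 1) → Ω => fun (j : Fin m) =>
      V (v j.succ)) (fun v => zw (v 0 0))).trans ?_
    refine (Finset.sum_le_sum (g := fun _ => CH p ud zw + k * cn) fun j _ => ?_).trans ?_
    · have h2 : CH (cfg p r l m k) (fun v => V (v j.succ)) (fun v => zw (v 0 0)) =
          CH (cpn p l k) V (fun v' => zw (v' 0)) :=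
        CH_cpn_zero hq (fun v' => r (v' 0)) m j.succ V (fun v' => zw (v' 0))
          (fun v v' hv hv' h => hrz _ _ ((cpn_pos hp.nonneg l k v hv).1 0)
            ((cpn_pos hp.nonneg l k v' hv').1 0) h)
      rw [h2]
      exact a1
    · rw [Finset.sum_const, Finset.card_univ, Fintype.card_fin, nsmul_eq_mul]
  -- lower bound
  have b1 : CH p ud r + k * (cn - en) ≤ CH (cpn p l k) V (fun v' => r (v' 0)) := by
    have h1 := CH_chain q0 (fun v' (i : Fin k) => tn (v' i.succ)) (fun v' => ud (v' 0))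
      (fun v' => r (v' 0))
    have h2 : CH (cpn p l k) (fun v' => ((fun (i : Fin k) => tn (v' i.succ)), ud (v' 0)))
        (fun v' => r (v' 0)) = CH (cpn p l k) V (fun v' => r (v' 0)) := by
      rw [hV]
      exact Pool.MIC.CH_swl q0 _ _ _
    have h3 : CH (cpn p l k) (fun v' => ud (v' 0)) (fun v' => r (v' 0)) = CH p ud r :=
      CH_cpn hp l k 0 ud r
    have h4 : k * CH p tn l ≤ CH (cpn p l k) (fun v' (i : Fin k) => tn (v' i.succ))
        (fun v' => (ud (v' 0), r (v' 0))) := by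
      refine (cpn_tail hp l tn k).trans (CH_mono_cond q0 fun v v' _ _ h => ?_)
      have h' : v 0 = v' 0 := h
      rw [h']
    have h5 : (k : ℝ) * (cn - en) ≤ k * CH p tn l :=
      mul_le_mul_of_nonneg_left ht (Nat.cast_nonneg k)
    linarith
  have b2 : m * (CH p ud r + k * (cn - en)) ≤
      CH (cfg p r l m k) (fun v (j : Fin m) => V (v j.succ)) (fun v => v 0 0) := by
    refine (mul_le_mul_of_nonneg_left b1 (Nat.cast_nonneg m)).trans ?_
    refine (cpn_tail hq (fun v' => r (v' 0)) V m).trans (CH_mono_cond c0 fun v v' _ _ h => ?_)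
    have h' : v 0 = v' 0 := h
    show v 0 0 = v' 0 0
    rw [h']
  have b3 : (m : ℝ) * (CH p ud zw + k * cn) ≤
      m * (CH p ud r + k * (cn - en)) + m * (e₀ + k * en) := by
    rw [← mul_add]
    refine mul_le_mul_of_nonneg_left ?_ (Nat.cast_nonneg m)
    linarith
  linarith

/-- A variable of the own sample given the near data of the configuration. -/
theorem cfg_keep {q : Ω → ℝ} (hq : IsLaw q) (V : Ω → S) (w : Ω → T) (u : Ω → U) (y : Ω → Y)
    (D : Ω → R) {e₁ e₂ : ℝ} (hDV : Det q D V) (hDw : Det q D w)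
    (hy : CH q y (fun v => (w v, u v)) ≤ e₂) (hu : CH q u w ≤ CH q u D + e₁) :
    CH q V w - (e₁ + e₂) ≤ CH q V y := by
  have q0 := hq.nonneg
  have a1 : CH q V (fun v => (y v, (w v, u v))) ≤ CH q V y :=
    CH_mono_cond q0 fun _ _ _ _ h => (Prod.ext_iff.1 h).1
  have a2 := CH_le_add q0 V y (fun v => (w v, u v))
  have a3 := CH_chain q0 V u w
  have a4 := CH_chain q0 u V w
  have a5 : CH q (fun v => (V v, u v)) w = CH q (fun v => (u v, V v)) w :=
    Pool.MIC.CH_swl q0 _ _ _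
  have a6 : CH q u D ≤ CH q u (fun v => (V v, w v)) :=
    CH_mono_cond q0 fun v v' hv hv' h => Prod.ext (hDV v v' hv hv' h) (hDw v v' hv hv' h)
  have a7 : CH q V (fun v => (u v, w v)) = CH q V (fun v => (w v, u v)) :=
    Pool.MIC.CH_swc q0 _ _ _
  linarith

/-- **The copies of configurations.** -/
theorem nd_law {p : Ω → ℝ} (hp : IsLaw p) (r : Ω → R) (l : Ω → Λ) (m k n : ℕ) (t : Ω → T)
    (x : Ω → X) (ud : Ω → U) (zw : Ω → Z) (tn : Ω → N')
    (y : (Fin (m + 1) → Fin (k + 1) → Ω) → Y) {ct e cn en e₀ e₂ : ℝ}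
    (hlx : Det p l x) (hrz : Det p r zw) (hxz : Det p x zw)
    (hyx : Det (cfg p r l m k) y (fun v => x (v 0 0)))
    (htx : CH p t x ≤ ct) (ht : ct - e ≤ CH p t l)
    (h0 : CH p ud zw ≤ CH p ud r + e₀) (hn : cn - en ≤ CH p tn l) (htn : H p tn ≤ cn)
    (hy : CH (cfg p r l m k) y (fun v => ((t (v 0 0), x (v 0 0)), fun (j : Fin m) =>
      (ud (v j.succ 0), fun (i : Fin k) => tn (v j.succ i.succ)))) ≤ e₂)
    (D : (Fin (m + 1) → Fin (k + 1) → Ω) → S) :
    CH (cfg p r l m k) D (fun v => l (v 0 0)) - n * (e + m * (e₀ + k * en) + e₂) ≤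
      CH (cpn (cfg p r l m k) y n) (fun w => D (w 0)) (fun w i => l (w i 0 0)) := by
  classical
  have hc := cfg_law hp r l m k
  have c0 := hc.nonneg
  have hm := cfg_one hp r l m k 0 0
  have hlx' : Det (cfg p r l m k) (fun v => l (v 0 0)) (fun v => x (v 0 0)) :=
    fun v v' hv hv' h => hlx _ _ ((cfg_pos hp r l hv).1 0 0) ((cfg_pos hp r l hv').1 0 0) h
  have h1 := cfg_gen hc (fun v => l (v 0 0)) (fun v => x (v 0 0)) y D n hyx hlx'
  have h2 := cfg_free hp r l m k ud zw tn (fun ω => (t ω, x ω)) hrz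
    (fun ω ω' hω hω' h => hxz _ _ hω hω' (Prod.ext_iff.1 h).2) h0 hn htn
  have h3 : CH (cfg p r l m k) (fun v => fun (j : Fin m) => (ud (v j.succ 0),
      fun (i : Fin k) => tn (v j.succ i.succ))) (fun v => v 0 0) ≤
      CH (cfg p r l m k) (fun v => fun (j : Fin m) => (ud (v j.succ 0),
      fun (i : Fin k) => tn (v j.succ i.succ))) (fun v => (t (v 0 0), l (v 0 0))) := by
    refine CH_mono_cond c0 fun v v' _ _ h => ?_
    have h' : v 0 0 = v' 0 0 := h
    rw [h']
  have h4 : CH (cfg p r l m k) (fun v => t (v 0 0)) (fun v => x (v 0 0)) = CH p t x :=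
    hm.CH t x
  have h5 : CH (cfg p r l m k) (fun v => t (v 0 0)) (fun v => l (v 0 0)) = CH p t l :=
    hm.CH t l
  have h6 : CH (cfg p r l m k) y (fun v => (t (v 0 0), (x (v 0 0), fun (j : Fin m) =>
      (ud (v j.succ 0), fun (i : Fin k) => tn (v j.succ i.succ))))) ≤ e₂ := by
    refine le_trans (CH_mono_cond c0 fun v v' _ _ h => ?_) hy
    have h7 := Prod.ext_iff.1 h
    have h8 := Prod.ext_iff.1 h7.2
    exact Prod.ext (Prod.ext h7.1 h8.1) h8.2
  have h7 := cfg_loss hc (fun v => t (v 0 0)) (fun v => l (v 0 0)) (fun v => x (v 0 0))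
    (fun v => fun (j : Fin m) => (ud (v j.succ 0), fun (i : Fin k) => tn (v j.succ i.succ))) y
    (ct := ct) (e := e) (e₁ := m * (e₀ + k * en)) (e₂ := e₂) hlx' h6 (by rw [h4]; exact htx)
    (by rw [h5]; exact ht) (by linarith)
  have h8 := mul_le_mul_of_nonneg_left h7 (Nat.cast_nonneg n)
  linarith

/-! ### Separation -/

/-- **Two copies are rarely near.** -/
theorem sep_dbl {p : Ω → ℝ} (hp : IsLaw p) (c : Ω → ℤ) (y : Ω → Y) (F : Y → Finset ℤ)
    (N K : ℕ) {θ : ℝ} (hN : 1 ≤ N) (hF : ∀ ω, 0 < p ω → c ω ∈ F (y ω))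
    (hc : ∀ v, (F v).card ≤ N) (h : Real.log N - θ ≤ CH p c y) :
    Pb (dbl p y) (fun v => |c v.1 - c v.2| ≤ (K : ℤ)) * (Real.log N - Real.log (2 * K + 1)) ≤
      θ + Real.log 2 := by
  classical
  obtain ⟨A, hA⟩ : ∃ A : Ω × Ω → Prop, A = fun v : Ω × Ω => |c v.1 - c v.2| ≤ (K : ℤ) :=
    ⟨_, rfl⟩
  have hq : IsLaw (dbl p y) := ⟨dbl_nonneg hp.nonneg, by
    rw [(dbl_fst (b := y) hp.nonneg).sum, hp.sum_one]⟩
  rw [← CH_dbl_2 (b := y) hp.nonneg c c] at h
  rw [← hA]
  have h2 : CH (dbl p y) (fun v => c v.2) (fun v => (y v.2, c v.1)) ≤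
      CH (dbl p y) (fun v => c v.2) (fun v => (A v, (y v.2, c v.1))) + Real.log 2 := by
    have a1 := CH_le_add hq.nonneg (fun v => c v.2) A (fun v : Ω × Ω => (y v.2, c v.1))
    have a2 := Pool.MIC.CH_prop_le hq.nonneg hq.sum_one A (fun v : Ω × Ω => (y v.2, c v.1))
    linarith
  have hcell : ∀ v : Ω × Ω, A v → c v.2 ∈ Finset.Icc (c v.1 - K) (c v.1 + K) := by
    intro v hv
    rw [hA] at hv
    have := abs_le.1 hv
    rw [Finset.mem_Icc]
    constructor <;> linarith
  have hm2 := dbl_snd (b := y) hp.nonneg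
  have h3 := CH_le_card hq.nonneg hq.sum_one (fun v : Ω × Ω => c v.2)
    (fun v => (A v, (y v.2, c v.1)))
    (fun a => if a.1 then Finset.Icc (a.2.2 - K) (a.2.2 + K) else F a.2.1)
    (fun v hv => by
      by_cases hv' : A v
      · simp only [hv', if_true]
        exact hcell v hv'
      · simp only [hv', if_false]
        exact hF _ (hm2.pos hq.nonneg hv))
  have hlN : 0 ≤ Real.log N := Real.log_nonneg (by exact_mod_cast hN)
  have h4 : Ex (dbl p y) (fun v => Real.log
      (((if A v then Finset.Icc (c v.1 - K) (c v.1 + K) else F (y v.2)).card : ℕ) : ℝ)) ≤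
      Pb (dbl p y) A * Real.log (2 * K + 1) + (1 - Pb (dbl p y) A) * Real.log N := by
    have h5 : ∀ v : Ω × Ω, 0 < dbl p y v → Real.log
        (((if A v then Finset.Icc (c v.1 - K) (c v.1 + K) else F (y v.2)).card : ℕ) : ℝ) ≤
        (if A v then Real.log (2 * K + 1) - Real.log N else 0) + Real.log N := by
      intro v hv0
      by_cases hv : A v
      · rw [if_pos hv, if_pos hv, sub_add_cancel]
        have h6 : (Finset.Icc (c v.1 - K) (c v.1 + K)).card = 2 * K + 1 := by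
          rw [Int.card_Icc]
          omega
        rw [h6]
        push_cast
        exact le_rfl
      · rw [if_neg hv, if_neg hv, zero_add]
        have h6 : 0 < (F (y v.2)).card :=
          Finset.card_pos.2 ⟨_, hF _ (hm2.pos hq.nonneg hv0)⟩
        exact Real.log_le_log (by exact_mod_cast h6) (by exact_mod_cast hc _)
    refine (Ex_mono hq.nonneg h5).trans (le_of_eq ?_)
    rw [Ex_add, Ex_const hq.sum_one]
    have h6 : Ex (dbl p y) (fun v => if A v then Real.log (2 * K + 1) - Real.log N else 0) =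
        Pb (dbl p y) A * (Real.log (2 * K + 1) - Real.log N) := by
      unfold Ex Pb
      rw [Finset.sum_mul]
      refine Finset.sum_congr rfl fun v _ => ?_
      by_cases hv : A v
      · simp only [hv, if_true]
      · simp only [hv, if_false, mul_zero, zero_mul]
    rw [h6]
    ring
  have h5 := h.trans (h2.trans (add_le_add_left (h3.trans h4) _))
  nlinarith

/-- **The copies are separated.** -/
theorem sep_cpn {p : Ω → ℝ} (hp : IsLaw p) (c : Ω → ℤ) (y : Ω → Y) (F : Y → Finset ℤ)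
    (N K n : ℕ) {θ : ℝ} (hN : 1 ≤ N) (hF : ∀ ω, 0 < p ω → c ω ∈ F (y ω))
    (hc : ∀ v, (F v).card ≤ N) (h : Real.log N - θ ≤ CH p c y)
    (hNK : 0 ≤ Real.log N - Real.log (2 * K + 1)) :
    Pb (cpn p y n) (fun w => ∃ i j, i ≠ j ∧ |c (w i) - c (w j)| ≤ (K : ℤ)) *
      (Real.log N - Real.log (2 * K + 1)) ≤ (n + 1) ^ 2 * (θ + Real.log 2) := by
  classical
  have hq := cpn_law hp y n
  have h1 : Pb (cpn p y n) (fun w => ∃ i j, i ≠ j ∧ |c (w i) - c (w j)| ≤ (K : ℤ)) ≤
      ∑ s : Fin (n + 1) × Fin (n + 1), Pb (cpn p y n) (fun w => s.1 ≠ s.2 ∧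
        |c (w s.1) - c (w s.2)| ≤ (K : ℤ)) := by
    refine le_trans (Pb_le hq.nonneg (B := fun w => ∃ s : Fin (n + 1) × Fin (n + 1), s.1 ≠ s.2 ∧
      |c (w s.1) - c (w s.2)| ≤ (K : ℤ)) fun w _ hw => ?_) (Pool.MIC.Pb_exists_le hq.nonneg _)
    obtain ⟨i, j, hij⟩ := hw
    exact ⟨(i, j), hij⟩
  have hθ : 0 ≤ θ + Real.log 2 := by
    have h2 := sep_dbl hp c y F N K hN hF hc h
    have h3 : 0 ≤ Pb (dbl p y) (fun v => |c v.1 - c v.2| ≤ (K : ℤ)) :=
      Pool.MIC.Pb_nonneg (dbl_nonneg hp.nonneg) _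
    exact (mul_nonneg h3 hNK).trans h2
  have h2 : ∀ s : Fin (n + 1) × Fin (n + 1), Pb (cpn p y n) (fun w => s.1 ≠ s.2 ∧
      |c (w s.1) - c (w s.2)| ≤ (K : ℤ)) * (Real.log N - Real.log (2 * K + 1)) ≤
      θ + Real.log 2 := by
    intro s
    by_cases hs : s.1 = s.2
    · have h3 : Pb (cpn p y n) (fun w => s.1 ≠ s.2 ∧ |c (w s.1) - c (w s.2)| ≤ (K : ℤ)) = 0 := by
        unfold Pb
        refine Finset.sum_eq_zero fun w _ => if_neg fun h' => h'.1 hs
      rw [h3, zero_mul]
      exact hθ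
    · have h3 : Pb (cpn p y n) (fun w => s.1 ≠ s.2 ∧ |c (w s.1) - c (w s.2)| ≤ (K : ℤ)) ≤
          Pb (dbl p y) (fun v => |c v.1 - c v.2| ≤ (K : ℤ)) := by
        rw [← Pool.MIC.Marg.Pb_eq (Pool.MIC.cpn_pair hp.nonneg y n hs)
          (fun v : Ω × Ω => |c v.1 - c v.2| ≤ (K : ℤ))]
        exact Pb_le hq.nonneg fun w _ hw => hw.2
      exact (mul_le_mul_of_nonneg_right h3 hNK).trans (sep_dbl hp c y F N K hN hF hc h)
  refine (mul_le_mul_of_nonneg_right h1 hNK).trans ?_
  rw [Finset.sum_mul]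
  refine (Finset.sum_le_sum fun s _ => h2 s).trans (le_of_eq ?_)
  rw [Finset.sum_const, Finset.card_univ, Fintype.card_prod, Fintype.card_fin, nsmul_eq_mul]
  push_cast
  ring

/-! ### Directions in general position -/

/-- The first copy, then the others. -/
theorem cpn_cons (p : Ω → ℝ) (r : Ω → R) (m : ℕ) (w : Fin (m + 1) → Ω) :
    cpn p r m w = p (w 0) * ∏ j : Fin m, cond p r (r (w 0)) (w j.succ) := by
  classical
  unfold cpn
  by_cases h : ∀ i, r (w i) = r (w 0)
  · rw [if_pos h, Fin.prod_univ_succ, mul_div_assoc]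
    congr 1
    have h1 : ∀ j : Fin m, cond p r (r (w 0)) (w j.succ) =
        p (w j.succ) / law p r (r (w 0)) := fun j => by
      unfold Pool.Agent.H49.Ent.cond
      rw [if_pos (h j.succ)]
    rw [Finset.prod_congr rfl fun j _ => h1 j, Finset.prod_div_distrib, Finset.prod_const,
      Finset.card_univ, Fintype.card_fin]
  · rw [if_neg h]
    push Not at h
    obtain ⟨i, hi⟩ := h
    revert hi
    refine Fin.cases (fun hi => absurd rfl hi) (fun j hi => ?_) i
    have h1 : cond p r (r (w 0)) (w j.succ) = 0 := by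
      unfold Pool.Agent.H49.Ent.cond
      rw [if_neg hi]
    rw [Finset.prod_eq_zero (Finset.mem_univ j) h1, mul_zero]

open Classical in
theorem Pb_cpn_tail (p : Ω → ℝ) (r : Ω → R) (m : ℕ)
    (A : (Fin m → Ω) → Prop) : Pb (cpn p r m) (fun w => A fun j => w j.succ) =
      ∑ ω, p ω * ∑ g : Fin m → Ω, (∏ j, cond p r (r ω) (g j)) * (if A g then 1 else 0) := by
  unfold Pb
  have h1 : ∀ w : Fin (m + 1) → Ω, (if A (fun j => w j.succ) then cpn p r m w else 0) =
      p (w 0) * ((∏ j : Fin m, cond p r (r (w 0)) (w j.succ)) *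
        (if A (fun j => w j.succ) then 1 else 0)) := by
    intro w
    rw [cpn_cons p r m w]
    split_ifs <;> simp
  rw [Finset.sum_congr rfl fun w _ => h1 w]
  rw [← (Fin.consEquiv (fun _ : Fin (m + 1) => Ω)).sum_comp, Fintype.sum_prod_type]
  refine Finset.sum_congr rfl fun ω _ => ?_
  rw [Finset.mul_sum]
  refine Finset.sum_congr rfl fun g _ => ?_
  rfl

/-- **General position.** -/
theorem cpn_det {p : Ω → ℝ} (hp : IsLaw p) {d : ℕ} {V : Ω → Fin d → ℝ} {r : Ω → R} {η c : ℝ}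
    (h : Pool.D2Con.NoHyp p V r η c) (hη : 0 < η) :
    Pb (cpn p r d) (fun w => |(Matrix.of (fun i => V (w (Fin.succ i)))).det| < η ^ d) ≤
      d * c := by
  classical
  have h1 := Pool.D2Con.span_cop hp h hη
  have h2 := Pb_cpn_tail p r d (fun g : Fin d → Ω =>
    |(Matrix.of (fun i => V (g i))).det| < η ^ d)
  have h3 : Pb (cpn p r d) (fun w => |(Matrix.of (fun i => V (w (Fin.succ i)))).det| < η ^ d) =
      ∑ ω, p ω * ∑ g : Fin d → Ω, (∏ k, cond p r (r ω) (g k)) *
        (if |(Matrix.of (fun i => V (g i))).det| < η ^ d then 1 else 0) := by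
    rw [h2]
  rw [h3]
  refine le_trans (le_of_eq ?_) h1
  refine Finset.sum_congr rfl fun ω _ => ?_
  congr 1

end

end Pool.ND54
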