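import Pool.Agent.H54.ND.Rel

/-!
# The levels of the tuple, event level

`nd_lvl`: off a small mass of the copies, all lines of the tuple number `j` are in one sheet, for all
times of the window.
-/

set_option autoImplicit false

namespace Pool.ND54

open Finset Real MvPolynomial
open Pool.Agent.H49.Ent Pool.Agent.H32.Dense Pool.STK Pool.KA Pool.KSAT Pool.K2S Pool.PB Pool.S6C
open Pool.GEN hiding Det
open Pool.CHT Pool.D2R Pool.LA91 Pool.RCD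
open Pool.PB.Trl (rt rt_mem t_rt)
open Pool.V0F (cR det_cR)
open Pool.NDC42
open Pool.BFL (Pb)
open Pool.STB (Pb_mono Pb_or)
open Pool.CLU (cpn_law cpn_pos cpn_marg)
open Pool.NDD66 (op op_at op_deg op_der ov mu Lam Lam_le)

variable {m J : ℕ}

/-- The data of a line without its level: near data, the path of `c 3` without its constant, `kc`. -/
noncomputable def elN (F : Fam m J) (A : F.Ω → Prop) (c : ℕ → Fin m) (D : ℕ) (w : ℝ) (n : ℕ → ℝ)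
    (nt : ℝ) (H : LnT F → ℕ → MvPolynomial (Option (Fin m)) ℝ) {Kc : Type} (kc : F.Ω → Kc)
    (ω : F.Ω) := (xg F A c D w n nt H ω, kc ω)

/-- **Equal data of a line**: equal near data. -/
theorem x0_T {F : Fam m J} {A : F.Ω → Prop} (hA : 0 < Pe F.p A) {c : ℕ → Fin m} {D : ℕ}
    {w t x' : ℝ} {n : ℕ → ℝ} {nt : ℝ} {H : LnT F → ℕ → MvPolynomial (Option (Fin m)) ℝ}
    (htx : t ≤ x') (hx1 : x' ≤ 1)
    {v : Fin (2 * D + 1 + 1) → Fin (3 + 1) → Fin (0 + 1) → F.Ω}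
    (h : 0 < ndQ F A c D w t x' n nt H v) :
    (∀ i j, F.T (v i j 0) = F.T (v 0 0 0)) ∧ (∀ i j, cR F A t (v i j 0) = cR F A t (v 0 0 0)) ∧
    ∀ i j, F.W (v i j 0) = F.W (v i 0 0) := by
  classical
  obtain ⟨h1, h2, h3, h4, h5⟩ := ndQ_pos hA h
  have h6 : ∀ i j, cR F A t (v i j 0) = cR F A t (v i 0 0) ∧ F.W (v i j 0) = F.W (v i 0 0) := by
    intro i j
    have h7 := det_rP (F := F) (c := c) (w := w) (n := n) (H := H)
      (p := fun ω => if A ω then 1 else 0) (A := A) (fun ω hω => by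
        by_contra h8
        rw [if_neg h8] at hω
        exact lt_irrefl _ hω) htx hx1 (v i j 0) (v i 0 0)
      (by simp only [h1 i j, if_true]; norm_num) (by simp only [h1 i 0, if_true]; norm_num) (h2 i j)
    have h8 := Prod.ext_iff.1 (Prod.ext_iff.1 h7).1
    exact ⟨h8.1, h8.2⟩
  refine ⟨fun i j => ?_, fun i j => ?_, fun i j => (h6 i j).2⟩
  · have h7 : F.T (v i j 0) = F.T (v i 0 0) := congrArg Prod.fst (h6 i j).2
    rw [h7, h3]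
  · rw [(h6 i j).1, h4]

/-- **The levels of the tuple.** -/
theorem nd_lvl (D D₂ : ℕ) : ∃ C : ℕ, 1 ≤ C ∧ ∀ {m J : ℕ} {F : Fam m J} {A : F.Ω → Prop}
    (_ : 0 < Pe F.p A) {c : ℕ → Fin m} {w t x' : ℝ} {n : ℕ → ℝ} {nt e : ℝ}
    {H Hr : LnT F → ℕ → MvPolynomial (Option (Fin m)) ℝ} (_ : NdE F A c D w t x' n nt e H),
    w ≤ x' → t ≤ x' → x' ≤ 1 → ⌊w * J⌋₊ < J → nt ≤ n 2 →
    (∀ s l, (H s l).totalDegree ≤ D) → ∀ {Kc : Type} (kc : F.Ω → Kc) {δ : ℕ → ℝ},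
    (∀ ω ω', A ω → A ω' → slam F ⌊w * J⌋₊ ω = slam F ⌊w * J⌋₊ ω' → kc ω = kc ω') →
    CH (Pool.Agent.H49.Ent.cond F.p A True) kc (xg F A c D w n nt H) ≤ e * J →
    (∀ ω ω', A ω → A ω' → elN F A c D w n nt H kc ω = elN F A c D w n nt H kc ω' → ∀ i,
      ∀ τ ∈ Set.Icc (0 : ℝ) 1, |(grP F c D₂ ⌊w * J⌋₊ H Hr (slam F ⌊w * J⌋₊ ω) i).eval τ -
        (grP F c D₂ ⌊w * J⌋₊ H Hr (slam F ⌊w * J⌋₊ ω') i).eval τ| ≤ δ i) →
    (∀ i, 0 ≤ δ i) → ∀ {δn : ℕ → ℝ} {η η' : ℝ},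
    OwnE F A c D D₂ w t H Hr δn (3 / 2 ^ (nt * J)) η η' →
    (∀ l < 2, ((D : ℝ) + 2) / 2 ^ (n l * J) ≤ δn l) → ((D : ℝ) + 3) / 2 ^ (n 2 * J) ≤ δn 2 →
    0 ≤ η' → ∀ {Bn Bc : ℝ}, (∀ ω, A ω → ∀ τ ∈ Set.Icc (0 : ℝ) 1,
      |(opl F c ⌊w * J⌋₊ H 3 ω).eval τ| ≤ Bn ∧
      |(grP F c D₂ ⌊w * J⌋₊ H Hr (slam F ⌊w * J⌋₊ ω) 2).eval τ| ≤ Bc) →
    -- the rows
    ∀ (B : F.Ω → Prop) (S : ℕ → _ × ℤ → Finset ℤ) (nr Xd Ks : ℕ) (N a b : ℕ → ℕ) (V : ℕ → ℝ)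
      (K c₀ c₁ ρ : ℝ),
    (∀ k < nr, ∀ ω, A ω → B ω → ⌊2 ^ Xd * (opl F c ⌊w * J⌋₊ H 3 ω).eval 0⌋ / 2 ^ a k ∈
      S k (xg F A c D w n nt H ω, ⌊2 ^ Xd * (opl F c ⌊w * J⌋₊ H 3 ω).eval 0⌋ / 2 ^ b k)) →
    (∀ k < nr, ∀ y, (S k y).card ≤ N k) →
    Pb (Pool.Agent.H49.Ent.cond F.p A True) (fun ω => ¬ B ω) ≤ c₀ → 1 ≤ Ks →
    (∀ j, Pb (ndQ F A c D w t x' n nt H) (fun v => ∃ i i', i ≠ i' ∧
      |pcC F c D w H 2 0 (n 2) (v i j 0) 0 - pcC F c D w H 2 0 (n 2) (v i' j 0) 0| ≤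
        (Ks : ℤ)) ≤ c₁) →
    ∀ {Qb η₁ η₂ : ℝ}, Qb = ((3 / 2 ^ (nt * J)) / (Ks / 2 ^ (n 2 * J))) ^ (D - 1) *
      (3 / 2 ^ (nt * J)) → η₁ = 2 * η + D * Qb * η' → η₂ = D * Qb * δ 2 + (D + 1) / 2 ^ (n 3 * J) →
    0 < ρ → ρ < 1 → (C : ℝ) ≤ ρ ^ C * (2 * ((2 ^ (J - ⌊w * J⌋₊ - 1) : ℕ) : ℝ) + 1) → 0 ≤ K →
    2 ^ Xd * (η₁ + η₂) + 1 ≤ K → 2 ^ Xd * (2 * ((3 * Bn + D * Qb * Bc) + η₂)) ≤ V nr →
    (∀ k < nr, a k ≤ b k ∧ K ≤ 2 ^ a k ∧ 0 < V k ∧ V (k + 1) ≤ 2 ^ b k ∧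
      (C : ℝ) * N k * 2 ^ a k ≤ ρ ^ C * V k ∧
      (C : ℝ) * N k ≤ ρ ^ C * ((2 ^ (J - ⌊w * J⌋₊ - 1) : ℕ) : ℝ)) →
    Pb (ndQ F A c D w t x' n nt H) (fun v => ¬ ∀ j, ((∀ i i', i ≠ i' →
        Ks / 2 ^ (n 2 * J) ≤ |hh F c D w (n 2) H (v i j 0) - hh F c D w (n 2) H (v i' j 0)| ∧
          |hh F c D w (n 2) H (v i j 0) - hh F c D w (n 2) H (v i' j 0)| ≤ 3 / 2 ^ (nt * J)) ∧
      ∀ i, ∀ τ ∈ Set.Icc (0 : ℝ) 1, |(opl F c ⌊w * J⌋₊ H 3 (v i j 0)).eval τ -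
        (opl F c ⌊w * J⌋₊ H 3 (v 0 j 0)).eval τ - ∑ k : Fin D,
        (Pool.NDD66.Qk (fun k => hh F c D w (n 2) H (v (ai k) j 0))
          (hh F c D w (n 2) H (v 0 j 0)) k).eval (hh F c D w (n 2) H (v i j 0)) *
          (grP F c D₂ ⌊w * J⌋₊ H Hr (slam F ⌊w * J⌋₊ (v (ai k) j 0)) 2).eval τ| ≤
        (2 * K + 2 * V 0) / 2 ^ Xd + η₂)) ≤
      4 * ((2 * D + 2) * (c₀ + 3 * c₁ + nr * (((e * J + 2 * Real.log 2) +
        ((2 * D + 1 : ℕ) : ℝ) * (11 * (e * J) + 3 * Real.log 5) + Real.log 2) /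
          Real.log (1 / ρ)))) := by
  classical
  obtain ⟨C, hC, htup⟩ := nd_tup D (D + 4 * D₂ + 1) 3
  refine ⟨C, hC, ?_⟩
  intro m J F A hA c w t x' n nt e H Hr hE hwx htx hx1 hW hnt hdH Kc kc δ hk1 hk2 hk3 hδ δn η η'
    hOwn hδn hδn2 hη' Bn Bc hBd B S nr Xd Ks N a b V K c₀ c₁ ρ hrow hcard hB hKs hsp Qb η₁ η₂ hQb
    hη₁ hη₂ hρ hρ1 hCM hK0 hK hV hnum
  obtain ⟨W, hWe⟩ : ∃ W, W = ⌊w * J⌋₊ := ⟨_, rfl⟩
  obtain ⟨p, hpe⟩ : ∃ p, p = Pool.Agent.H49.Ent.cond F.p A True := ⟨_, rfl⟩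
  have hp : IsLaw p := by rw [hpe]; exact isLaw_cond F.isLaw hA
  have p0 := hp.nonneg
  have hpA : ∀ ω, 0 < p ω → A ω := fun ω hω => by
    rw [hpe] at hω
    exact cond_A hω
  obtain ⟨Y, ud, hf1, hf2, -⟩ := hE.fr
  have hn2 : (0 : ℝ) < 2 ^ (n 2 * J) := Real.rpow_pos_of_pos (by norm_num) _
  have hnt' : (0 : ℝ) < 2 ^ (nt * J) := Real.rpow_pos_of_pos (by norm_num) _
  have hKs0 : (0 : ℝ) < Ks := by exact_mod_cast hKs
  obtain ⟨q, hq⟩ : ∃ q, q = cfg p (rP F A c w x' n H) (slam F ⌊w * J⌋₊) 3 0 := ⟨_, rfl⟩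
  have hql : IsLaw q := by rw [hq]; exact cfg_law hp _ _ 3 0
  have hQ : ndQ F A c D w t x' n nt H = Pool.K2S.cpn (cfg p (rP F A c w x' n H)
      (slam F ⌊w * J⌋₊) 3 0) (yN F A c D w t n nt H 3) (2 * D + 1) := by
    unfold ndQ
    rw [hpe]
  have hQ0 : ∀ v, 0 ≤ ndQ F A c D w t x' n nt H v := by
    rw [hQ]
    exact (cpn_law (cfg_law hp _ _ 3 0) _ _).nonneg
  -- the entropy inequalities
  have e1 : CH p (elN F A c D w n nt H kc) (x0 F A c D w n nt H) ≤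
      (n 2 - nt) * Real.log 2 * J + (e * J + e * J) := by
    have h1 : CH p (elN F A c D w n nt H kc) (x0 F A c D w n nt H) ≤
        CH p (fun ω => (kc ω, xg F A c D w n nt H ω)) (x0 F A c D w n nt H) :=
      CH_mono_left p0 fun ω ω' _ _ h => by
        have h' := Prod.ext_iff.1 (Prod.ext_iff.1 h).1
        exact Prod.ext h'.2 h'.1
    have h2 := CH_chain p0 kc (xg F A c D w n nt H) (x0 F A c D w n nt H)
    have h3 : CH p kc (fun ω => (xg F A c D w n nt H ω, x0 F A c D w n nt H ω)) ≤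
        CH p kc (xg F A c D w n nt H) :=
      CH_mono_cond p0 fun _ _ _ _ h => (Prod.ext_iff.1 h).1
    have h4 := hE.xx
    rw [← hpe] at h4 hk2
    have h5 : ((n 2 - nt) * Real.log 2 + e) * J = (n 2 - nt) * Real.log 2 * J + e * J := by ring
    rw [h5] at h4
    linarith
  have e2 : CH p (hgC F c w H 2 (n 2)) (fun ω => (elN F A c D w n nt H kc ω, F.T ω)) ≤ e * J := by
    refine le_trans (CH_mono_cond p0 fun ω ω' _ _ h => ?_) (by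
      have := hE.hn
      rw [← hpe] at this
      exact this)
    have h' := Prod.ext_iff.1 h
    exact Prod.ext h'.2 (congrArg (fun z => z.1.1) h'.1)
  have e3 : (n 2 - nt) * Real.log 2 * J - e * J ≤ CH p (hgC F c w H 2 (n 2))
      (fun ω => (F.T ω, (cR F A t ω, x0 F A c D w n nt H ω))) := by
    have h1 := hE.fu
    rw [← hpe] at h1
    have h5 : ((n 2 - nt) * Real.log 2 - e) * J = (n 2 - nt) * Real.log 2 * J - e * J := by ring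
    rw [h5] at h1
    refine h1.trans (CH_mono_cond p0 fun ω ω' _ _ h => ?_)
    have h' := Prod.ext_iff.1 h
    have h'' := Prod.ext_iff.1 h'.1
    have hT : F.T ω = F.T ω' := (Prod.ext_iff.1 h''.2).1
    exact Prod.ext hT (Prod.ext h''.1 h'.2)
  have e5 : CH p ud (fun ω => (cR F A w ω, F.W ω)) ≤ CH p ud (rP F A c w x' n H) + e * J := by
    rw [hpe]
    exact hf1
  have e6 : CH (cfg p (rP F A c w x' n H) (slam F ⌊w * J⌋₊) 3 0) (yN F A c D w t n nt H 3)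
      (fun v => ((F.T (v 0 0), (cR F A t (v 0 0), x0 F A c D w n nt H (v 0 0))),
        fun (j : Fin 3) => ud (v j.succ 0))) ≤ e * J + ((3 : ℕ) : ℝ) * (e * J + Real.log 5) := by
    rw [hpe]
    exact y_few hA hnt hwx hx1 ud hf2 hE.ht 3
  have e7 : Real.log (2 * ((2 ^ (J - ⌊w * J⌋₊ - 1) : ℕ) : ℝ) + 1) - (e * J + 2 * Real.log 2) ≤
      CH p (ttw F ⌊w * J⌋₊) (slam F ⌊w * J⌋₊) := by
    rw [hpe]
    exact ttw_full F hA hW hE.tm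
  have hdrP := det_rP (F := F) (c := c) (w := w) (n := n) (H := H) hpA hwx hx1
  have main := htup hp (rP F A c w x' n H) (slam F ⌊w * J⌋₊) (elN F A c D w n nt H kc)
    (x0 F A c D w n nt H) F.T (cR F A t) (hgC F c w H 2 (n 2)) ud
    (fun ω => (cR F A w ω, F.W ω)) (yN F A c D w t n nt H 3)
    (cU := (n 2 - nt) * Real.log 2 * J) (ef := e * J + e * J) (eo := e * J) (eU := e * J)
    (e₀ := e * J) (e₂ := e * J + ((3 : ℕ) : ℝ) * (e * J + Real.log 5))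
    (fun ω ω' hω hω' h => (Prod.ext_iff.1 (hdrP ω ω' hω hω' h)).1)
    (det_zw (cR F A t))
    (fun ω ω' hω hω' h => (Prod.ext_iff.1 (Prod.ext_iff.1 (hdrP ω ω' hω hω' h)).2).2)
    (fun ω ω' hω hω' h => congrArg (fun z => z.1.2.1) (hdrP ω ω' hω hω' h))
    (fun ω ω' _ _ h => congrArg (fun z => z.1.1.1) h)
    (fun ω ω' hω hω' h => Prod.ext (det_xg hpA ω ω' hω hω' h)
      (hk1 ω ω' (hpA ω hω) (hpA ω' hω') h))
    (fun j v v' _ _ h => congrFun (Prod.ext_iff.1 h).2 j)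
    (fun v v' _ _ h => (Prod.ext_iff.1 (Prod.ext_iff.1 h).1).1)
    e1 e2 e3 e5 e6 (fun el => el.1) (ttw F ⌊w * J⌋₊)
    (fun s => op ⌊w * J⌋₊ c (H s) s 3) (fun s => grP F c D₂ ⌊w * J⌋₊ H Hr s 2)
    (fun el => hLc J (n 2) (el.1.1.2 0)) B S nr (2 ^ (J - ⌊w * J⌋₊ - 1)) Xd N a b V K
    (e * J + 2 * Real.log 2) c₀ c₁ ρ ((D + 1) / 2 ^ (n 3 * J)) (δ 2) η₁ (Ks / 2 ^ (n 2 * J))
    (3 / 2 ^ (nt * J)) Bn Bc Qb (Nat.one_le_two_pow) hρ hρ1 hCM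
    (fun ω _ => ttw_le F hW ω) e7
    (fun ω ω' _ _ h => by
      unfold ttw
      rw [h])
    (fun s => (op_deg ⌊w * J⌋₊ c (hdH s) s 3).trans (by omega))
    (fun s => (grP_deg F c D₂ ⌊w * J⌋₊ H Hr s 2).trans (by omega))
    (by positivity) (hδ 2) hK0 (by positivity) (by positivity) hQb
    (fun ω ω' hω hω' h τ hτ => by
      refine ⟨?_, hk3 ω ω' (hpA ω hω) (hpA ω' hω') h 2 τ hτ⟩
      have h3 : pcC F c D w H 3 1 (n 3) ω = pcC F c D w H 3 1 (n 3) ω' :=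
        congrArg (fun z => z.1.2) h
      have h4 := pc_near1 hdH h3 hτ
      have h5 : ∀ o : F.Ω, (op ⌊w * J⌋₊ c (H (slam F ⌊w * J⌋₊ o)) (slam F ⌊w * J⌋₊ o) 3).eval 0 =
          (opl F c ⌊w * J⌋₊ H 3 o).coeff 0 := fun o =>
        (Polynomial.coeff_zero_eq_eval_zero _).symm
      rw [h5, h5]
      exact h4)
    (fun j => ?_)
    (fun k hk ω hω hBω => hrow k hk ω (hpA ω hω) hBω) hcard (by rw [hpe]; exact hB)
    (by rw [← hη₂]; exact hK) (by rw [← hη₂]; exact hV)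
    (fun k hk => by
      have := hnum k hk
      push_cast at this ⊢
      exact this)
  · rw [← hQ, ← hη₂] at main
    refine main.trans (le_of_eq ?_)
    push_cast
    ring
  · -- the good event
    rw [← hQ]
    refine (Pool.XLF.Pb_le hQ0 fun v hv hnot => ?_).trans (hsp j)
    by_contra hne
    push Not at hne
    apply hnot
    obtain ⟨h1, h2, h3, h4, h5⟩ := ndQ_pos hA hv
    obtain ⟨k1, k2, k3⟩ := x0_T hA htx hx1 hv
    have hrt : ∀ i, rt F ⌊w * J⌋₊ (v i j 0) = rt F ⌊w * J⌋₊ (v 0 j 0) := fun i =>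
      Pool.NDD66.rt_congr ((k1 i j).trans (k1 0 j).symm)
    have hx0 : ∀ i i', x0 F A c D w n nt H (v i j 0) = x0 F A c D w n nt H (v i' j 0) :=
      fun i i' => (h5 i j).trans (h5 i' j).symm
    have hsep : ∀ i i', i ≠ i' → Ks / 2 ^ (n 2 * J) ≤
        |hLc J (n 2) (pcC F c D w H 2 0 (n 2) (v i j 0) 0) -
          hLc J (n 2) (pcC F c D w H 2 0 (n 2) (v i' j 0) 0)| ∧
        |hLc J (n 2) (pcC F c D w H 2 0 (n 2) (v i j 0) 0) -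
          hLc J (n 2) (pcC F c D w H 2 0 (n 2) (v i' j 0) 0)| ≤ 3 / 2 ^ (nt * J) := by
      intro i i' hii
      constructor
      · have h6 := hne i i' hii
        unfold hLc
        rw [← sub_div, abs_div, abs_of_pos hn2]
        refine div_le_div_of_nonneg_right ?_ hn2.le
        have h7 : ((Ks : ℤ) : ℝ) ≤ ((|pcC F c D w H 2 0 (n 2) (v i j 0) 0 -
          pcC F c D w H 2 0 (n 2) (v i' j 0) 0| : ℤ) : ℝ) := by exact_mod_cast h6.le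
        push_cast at h7
        exact h7
      · exact hLc_coarse hnt (congrArg (fun z => z.2.2.2) (hx0 i i'))
    have hle : ∀ i i', |hLc J (n 2) (pcC F c D w H 2 0 (n 2) (v i j 0) 0) -
          hLc J (n 2) (pcC F c D w H 2 0 (n 2) (v i' j 0) 0)| ≤ 3 / 2 ^ (nt * J) :=
      fun i i' => hLc_coarse hnt (congrArg (fun z => z.2.2.2) (hx0 i i'))
    obtain ⟨Qp, hQd, hQ1, hQ2⟩ := hOwn (0 : Fin (2 * D + 1 + 1)) (fun i => v i j 0)
      (fun i => hLc J (n 2) (pcC F c D w H 2 0 (n 2) (v i j 0) 0)) (fun i => h1 i j)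
      (fun i => (k1 i j).trans (k1 0 j).symm)
      (fun i => congrArg (fun z => z.1.1) (hx0 i 0))
      (fun i => (k2 i j).trans (k2 0 j).symm)
      (fun i l hl => by
        have h6 : pcC F c D w H l 0 (n l) (v i j 0) = pcC F c D w H l 0 (n l) (v 0 j 0) :=
          congrFun (congrArg (fun z => z.2.1) (hx0 i 0)) ⟨l, hl⟩
        have hm := rt_mem F ⌊w * J⌋₊ (v i j 0)
        have h7 := pc_near hdH h6 (τ := rt F ⌊w * J⌋₊ (v i j 0)) ⟨hm.1, hm.2⟩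
        show |(opl F c ⌊w * J⌋₊ H l (v i j 0)).eval (rt F ⌊w * J⌋₊ (v i j 0)) -
          (opl F c ⌊w * J⌋₊ H l (v 0 j 0)).eval (rt F ⌊w * J⌋₊ (v 0 j 0))| ≤ δn l
        rw [← hrt i]
        exact h7.trans (hδn l hl))
      (fun i => (hgt_par hdH (congrArg (fun z => z.2.2.1) (hx0 i 0)) (hrt i)).trans hδn2)
      (fun i => hle i 0)
    refine ⟨hsep, fun i τ hτ => hBd _ (h1 i j) τ hτ, fun i => ?_⟩
    have h6 := own_quad (h := fun i => hLc J (n 2) (pcC F c D w H 2 0 (n 2) (v i j 0) 0)) hQd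
      (by positivity : (0 : ℝ) < Ks / 2 ^ (n 2 * J)) (by positivity) hQb hη' hsep hQ1 hQ2 i
    rw [tu_ttw F hW, hη₁]
    have h7 : ∀ i, rt F ⌊w * J⌋₊ (v i j 0) = rt F ⌊w * J⌋₊ (v 0 0 0) := fun i =>
      Pool.NDD66.rt_congr (k1 i j)
    simp only [h7] at h6 ⊢
    exact h6

end Pool.ND54
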