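import Pool.Agent.H54.ND.Sup2

/-!
# The near-dead step, event level, with exponents

`nd_evx`: `nd_evt` with all numbers as exponents of `2 ^ J`.
-/

set_option autoImplicit false

namespace Pool.ND54

open Finset Real MvPolynomial
open Pool.Agent.H49.Ent Pool.Agent.H32.Dense Pool.STK Pool.KA Pool.KSAT Pool.K2S Pool.PB Pool.S6C
open Pool.GEN hiding Det
open Pool.CHT Pool.D2R Pool.LA91 Pool.RCD
open Pool.PB.Trl (rt rt_mem t_rt)
open Pool.V0F (cR det_cR)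
open Pool.NDC42
open Pool.BFL (Pb)
open Pool.NDD66 (ov mu det3o RelO)

/-! ### Powers -/

/-- `2 ^ (x J)`. -/
noncomputable def pw (J : ℕ) (x : ℝ) : ℝ := 2 ^ (x * J)

theorem pw_pos (J : ℕ) (x : ℝ) : 0 < pw J x := Real.rpow_pos_of_pos (by norm_num) _

theorem pw_add (J : ℕ) (x y : ℝ) : pw J (x + y) = pw J x * pw J y := by
  unfold pw
  rw [add_mul, Real.rpow_add (by norm_num)]

theorem pw_zero (J : ℕ) : pw J 0 = 1 := by
  unfold pw
  rw [zero_mul, Real.rpow_zero]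

theorem pw_neg (J : ℕ) (x : ℝ) : pw J (-x) = 1 / pw J x := by
  rw [eq_div_iff (pw_pos J x).ne', ← pw_add, neg_add_cancel, pw_zero]

theorem pw_le {J : ℕ} {x y : ℝ} (h : x ≤ y) : pw J x ≤ pw J y :=
  Real.rpow_le_rpow_of_exponent_le (by norm_num) (mul_le_mul_of_nonneg_right h (Nat.cast_nonneg J))

theorem pw_one {J : ℕ} {x : ℝ} (h : 0 ≤ x) : 1 ≤ pw J x := by
  rw [← pw_zero J]
  exact pw_le h

theorem pw_pow (J : ℕ) (x : ℝ) (n : ℕ) : pw J x ^ n = pw J (n * x) := by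
  unfold pw
  rw [← Real.rpow_natCast, ← Real.rpow_mul (by norm_num)]
  congr 1
  ring

/-- A constant is at most `2 ^ (σ J)` for large `J`. -/
theorem pw_big {σ : ℝ} (hσ : 0 < σ) (c : ℝ) : ∃ J₁ : ℕ, 1 ≤ J₁ ∧ ∀ J : ℕ, J₁ ≤ J → c ≤ pw J σ := by
  obtain ⟨J₁, hJ₁⟩ := exists_nat_ge (|c| / (σ * Real.log 2))
  have hl : 0 < Real.log 2 := Real.log_pos (by norm_num)
  refine ⟨J₁ + 1, by omega, fun J hJ => ?_⟩
  have h1 : (J₁ : ℝ) ≤ J := by exact_mod_cast (by omega : J₁ ≤ J)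
  have h2 := hJ₁.trans h1
  rw [div_le_iff₀ (by positivity)] at h2
  have h3 : pw J σ = Real.exp (σ * J * Real.log 2) := by
    unfold pw
    rw [Real.rpow_def_of_pos (by norm_num)]
    congr 1
    ring
  rw [h3]
  have h4 := Real.add_one_le_exp (σ * J * Real.log 2)
  have h5 := le_abs_self c
  linarith

/-- Powers of two with a floor in the exponent. -/
theorem pw_floor {J : ℕ} {x : ℝ} (hx : 0 ≤ x) : (2 : ℝ) ^ ⌊x * J⌋₊ ≤ pw J x ∧
    pw J x ≤ 2 * 2 ^ ⌊x * J⌋₊ := by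
  have h0 : 0 ≤ x * J := mul_nonneg hx (Nat.cast_nonneg J)
  have h1 := Nat.floor_le h0
  have h2 := (Nat.lt_floor_add_one (x * J)).le
  unfold pw
  constructor
  · rw [← Real.rpow_natCast]
    exact Real.rpow_le_rpow_of_exponent_le (by norm_num) h1
  · rw [← pow_succ', ← Real.rpow_natCast]
    exact Real.rpow_le_rpow_of_exponent_le (by norm_num) (by push_cast; exact h2)

theorem pw_sub {J Xd : ℕ} {x : ℝ} (hx : 0 ≤ x) (h : ⌊x * J⌋₊ ≤ Xd) :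
    (2 : ℝ) ^ Xd * pw J (-x) ≤ 2 ^ (Xd - ⌊x * J⌋₊) ∧
    (2 : ℝ) ^ (Xd - ⌊x * J⌋₊) ≤ 2 * (2 ^ Xd * pw J (-x)) := by
  obtain ⟨h1, h2⟩ := pw_floor (J := J) hx
  have h3 : (2 : ℝ) ^ Xd = 2 ^ (Xd - ⌊x * J⌋₊) * 2 ^ ⌊x * J⌋₊ := by
    rw [← pow_add, Nat.sub_add_cancel h]
  have hp := pw_pos J x
  have ha : (0 : ℝ) < 2 ^ (Xd - ⌊x * J⌋₊) := by positivity
  rw [pw_neg, mul_one_div, h3]
  constructor
  · rw [div_le_iff₀ hp]
    exact mul_le_mul_of_nonneg_left h1 ha.le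
  · rw [← mul_div_assoc, le_div_iff₀ hp]
    calc (2 : ℝ) ^ (Xd - ⌊x * J⌋₊) * pw J x ≤ 2 ^ (Xd - ⌊x * J⌋₊) * (2 * 2 ^ ⌊x * J⌋₊) :=
          mul_le_mul_of_nonneg_left h2 ha.le
      _ = _ := by ring

/-! ### The numbers -/

/-- The separation. -/
theorem num_sep {D J : ℕ} {κ n2 nt : ℝ} (hκ : 0 < κ) (hnt : nt + κ ≤ n2)
    (hJ : 2 * (D : ℝ) + 13 ≤ pw J (κ / 2)) {Ks : ℕ} (hKs : Ks = ⌈pw J (n2 - nt - κ)⌉₊) {s Su : ℝ}
    (hs : s = Ks / pw J n2) (hSu : Su = 3 / pw J nt) :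
    1 ≤ Ks ∧ Real.log (2 * Ks + 1) + κ / 2 * Real.log 2 * J ≤ (n2 - nt) * Real.log 2 * J ∧
    0 < s ∧ 0 < Su ∧ pw J (-(nt + κ)) ≤ s ∧ Su / s ≤ 3 * pw J κ ∧
    (2 * (D : ℝ) + 8) / pw J n2 ≤ Su := by
  have hlogP : ∀ x : ℝ, Real.log (pw J x) = x * Real.log 2 * J := fun x => by
    unfold pw
    rw [Real.log_rpow (by norm_num)]
    ring
  have hk0 : 1 ≤ pw J (n2 - nt - κ) := pw_one (by linarith)
  have hKs1 : 1 ≤ Ks := by
    rw [hKs]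
    exact Nat.one_le_iff_ne_zero.2 (Nat.ceil_pos.2 (pw_pos _ _)).ne'
  have hKs2 : pw J (n2 - nt - κ) ≤ Ks := by rw [hKs]; exact Nat.le_ceil _
  have hKs3 : (Ks : ℝ) ≤ 2 * pw J (n2 - nt - κ) := by
    rw [hKs]
    have := (Nat.ceil_lt_add_one (pw_pos J (n2 - nt - κ)).le).le
    linarith
  have hKsR : (0 : ℝ) < Ks := by exact_mod_cast hKs1
  have hD0 : (0 : ℝ) ≤ D := Nat.cast_nonneg D
  have hs0 : 0 < s := by rw [hs]; exact div_pos hKsR (pw_pos _ _)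
  have hSu0 : 0 < Su := by rw [hSu]; exact div_pos (by norm_num) (pw_pos _ _)
  have hSu' : Su = 3 * pw J (-nt) := by rw [hSu, pw_neg]; ring
  have hs' : pw J (-(nt + κ)) ≤ s := by
    rw [hs, le_div_iff₀ (pw_pos _ _), ← pw_add]
    refine le_trans (pw_le (by linarith)) hKs2
  refine ⟨hKs1, ?_, hs0, hSu0, hs', ?_, ?_⟩
  · have h1 : (2 : ℝ) * Ks + 1 ≤ 5 * pw J (n2 - nt - κ) := by linarith
    have h2 : Real.log (2 * Ks + 1) ≤ Real.log 5 + (n2 - nt - κ) * Real.log 2 * J := by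
      rw [← hlogP, ← Real.log_mul (by norm_num) (pw_pos _ _).ne']
      exact Real.log_le_log (by positivity) h1
    have h3 : Real.log 5 ≤ κ / 2 * Real.log 2 * J := by
      rw [← hlogP]
      exact Real.log_le_log (by norm_num) (by linarith)
    have e1 : (n2 - nt) * Real.log 2 * J = (n2 - nt - κ) * Real.log 2 * J +
      (κ / 2 * Real.log 2 * J + κ / 2 * Real.log 2 * J) := by ring
    rw [e1]
    linarith
  · rw [div_le_iff₀ hs0, hSu']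
    have h1 : pw J κ * pw J (-(nt + κ)) = pw J (-nt) := by
      rw [← pw_add]
      congr 1
      ring
    calc 3 * pw J (-nt) = 3 * (pw J κ * pw J (-(nt + κ))) := by rw [h1]
      _ ≤ 3 * (pw J κ * s) := mul_le_mul_of_nonneg_left
          (mul_le_mul_of_nonneg_left hs' (pw_pos _ _).le) (by norm_num)
      _ = 3 * pw J κ * s := by ring
  · rw [hSu']
    have h1 : (2 * (D : ℝ) + 8) / pw J n2 = (2 * D + 8) * pw J (-n2) := by rw [pw_neg]; ring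
    have h2 : (2 * (D : ℝ) + 8) * pw J (-n2) ≤ pw J (κ / 2) * pw J (-n2) :=
      mul_le_mul_of_nonneg_right (by linarith) (pw_pos _ _).le
    rw [← pw_add] at h2
    have h3 : pw J (κ / 2 + -n2) ≤ pw J (-nt) := pw_le (by linarith)
    have h4 := pw_pos J (-nt)
    rw [h1]
    linarith

/-- The precision of the relation at the own time. -/
theorem num_eta {D J : ℕ} {σ κ nt n3 ηb lb v0 vn : ℝ} (hσ : 0 < σ) (hκ : 0 < κ) {s Su Qb : ℝ}
    (hr0 : 0 < Su / s) (hrR : Su / s ≤ 3 * pw J κ) (hSu0 : 0 < Su) (hSu : Su = 3 / pw J nt)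
    (hQb : Qb = (Su / s) ^ (D - 1) * Su) {a₁ : ℝ} (ha₁ : a₁ = D * (3 ^ (D + 1)) + D + 3)
    (hJ : 20 * a₁ ≤ pw J σ) {η η' δ2 η₁ η₂ : ℝ} (hη' : 0 ≤ η') (hδ2 : 0 ≤ δ2)
    (x1 : η ≤ pw J (-ηb)) (x2 : η' ≤ pw J (nt - ηb)) (x3 : δ2 ≤ pw J (nt - ηb)) (x4 : ηb ≤ n3)
    (hη₁ : η₁ = 2 * η + D * Qb * η') (hη₂ : η₂ = D * Qb * δ2 + (D + 1) / pw J n3) {Xd : ℕ}
    (hX : pw J ηb ≤ 2 ^ Xd) {K : ℝ} (hK : K = 2 ^ Xd * pw J (D * κ - ηb + σ)) {Bn Bc : ℝ}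
    (hBc : 0 ≤ Bc) (x5 : Bn ≤ pw J (-lb)) (x6 : Bc ≤ pw J (nt - lb)) (x7 : lb ≤ ηb)
    (x8 : vn + D * κ + σ ≤ lb) (x9 : v0 + D * κ + σ ≤ ηb) :
    0 ≤ K ∧ 0 ≤ η₂ ∧ 2 ^ Xd * (η₁ + η₂) + 1 ≤ K ∧
    2 ^ Xd * (2 * ((3 * Bn + D * Qb * Bc) + η₂)) ≤ 2 ^ Xd * pw J (-vn) ∧
    (2 * K + 2 * (2 ^ Xd * pw J (-v0))) / 2 ^ Xd + η₂ ≤ (4 + a₁) * pw J (-v0) := by
  have hP0 := pw_pos J
  have hPa := pw_add J
  have hD0 : (0 : ℝ) ≤ D := Nat.cast_nonneg D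
  have hR1 : 1 ≤ 3 * pw J κ := by
    have := pw_one (J := J) hκ.le
    linarith
  have hDk : 0 ≤ (D : ℝ) * κ := by positivity
  have hrD : (Su / s) ^ (D - 1) ≤ 3 ^ D * pw J (D * κ) := by
    rw [← pw_pow, ← mul_pow]
    exact (pow_le_pow_left₀ hr0.le hrR _).trans (pow_le_pow_right₀ hR1 (by omega))
  have hSu' : Su = 3 * pw J (-nt) := by rw [hSu, pw_neg]; ring
  have hQb0 : 0 ≤ Qb := by rw [hQb]; positivity
  have hQb1 : Qb ≤ 3 ^ (D + 1) * pw J (D * κ - nt) := by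
    have e1 : (3 : ℝ) ^ (D + 1) * pw J (D * κ - nt) = 3 ^ D * pw J (D * κ) * (3 * pw J (-nt)) := by
      rw [sub_eq_add_neg, hPa, pow_succ]
      ring
    rw [hQb, e1, ← hSu']
    exact mul_le_mul_of_nonneg_right hrD hSu0.le
  have hQx : ∀ {y z : ℝ}, 0 ≤ y → y ≤ pw J z → Qb * y ≤ 3 ^ (D + 1) * pw J (D * κ - nt + z) := by
    intro y z hy h1
    have e1 : (3 : ℝ) ^ (D + 1) * pw J (D * κ - nt + z) =
        3 ^ (D + 1) * pw J (D * κ - nt) * pw J z := by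
      rw [hPa]
      ring
    rw [e1]
    exact mul_le_mul hQb1 h1 hy (by have := hP0 (D * κ - nt); positivity)
  have e2 : (D : ℝ) * κ - nt + (nt - ηb) = D * κ - ηb := by ring
  have hηb1 : pw J (-ηb) ≤ pw J (D * κ - ηb) := pw_le (by linarith)
  have hD3 : 0 ≤ (D : ℝ) * 3 ^ (D + 1) := by positivity
  have hη₁2 : η₁ ≤ a₁ * pw J (D * κ - ηb) := by
    have h1 := hQx hη' x2
    rw [e2] at h1
    have h2 := mul_le_mul_of_nonneg_left h1 hD0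
    have h3 : η₁ ≤ (2 + D * 3 ^ (D + 1)) * pw J (D * κ - ηb) := by
      rw [hη₁]
      have e3 : (2 + (D : ℝ) * 3 ^ (D + 1)) * pw J (D * κ - ηb) = 2 * pw J (D * κ - ηb) +
        D * (3 ^ (D + 1) * pw J (D * κ - ηb)) := by ring
      rw [e3, mul_assoc (D : ℝ)]
      linarith
    exact h3.trans (mul_le_mul_of_nonneg_right (by rw [ha₁]; linarith) (hP0 _).le)
  have hη₂2 : η₂ ≤ a₁ * pw J (D * κ - ηb) := by
    have h1 := hQx hδ2 x3
    rw [e2] at h1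
    have h2 := mul_le_mul_of_nonneg_left h1 hD0
    have h3 : ((D : ℝ) + 1) / pw J n3 ≤ (D + 1) * pw J (D * κ - ηb) := by
      have e4 : ((D : ℝ) + 1) / pw J n3 = (D + 1) * pw J (-n3) := by rw [pw_neg]; ring
      rw [e4]
      exact mul_le_mul_of_nonneg_left (pw_le (by linarith)) (by linarith)
    have h4 : η₂ ≤ (D * 3 ^ (D + 1) + D + 1) * pw J (D * κ - ηb) := by
      rw [hη₂]
      have e3 : ((D : ℝ) * 3 ^ (D + 1) + D + 1) * pw J (D * κ - ηb) =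
        D * (3 ^ (D + 1) * pw J (D * κ - ηb)) + (D + 1) * pw J (D * κ - ηb) := by ring
      rw [e3, mul_assoc (D : ℝ)]
      linarith
    exact h4.trans (mul_le_mul_of_nonneg_right (by rw [ha₁]; linarith) (hP0 _).le)
  have hη₂0 : 0 ≤ η₂ := by
    rw [hη₂]
    have := hP0 n3
    positivity
  have hX0 : (0 : ℝ) < 2 ^ Xd := by positivity
  have ha₁0 : 3 ≤ a₁ := by rw [ha₁]; linarith
  have hK0 : 0 ≤ K := by
    rw [hK]
    have := hP0 (D * κ - ηb + σ)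
    positivity
  refine ⟨hK0, hη₂0, ?_, ?_, ?_⟩
  · have h1 : η₁ + η₂ ≤ 2 * a₁ * pw J (D * κ - ηb) := by linarith
    have h2 : 4 * a₁ * pw J (D * κ - ηb) ≤ pw J (D * κ - ηb + σ) := by
      rw [hPa, mul_comm (pw J (D * κ - ηb))]
      exact mul_le_mul_of_nonneg_right (by linarith) (hP0 _).le
    have h3 : 2 ≤ 2 ^ Xd * pw J (D * κ - ηb + σ) := by
      have h4 : pw J ηb * pw J (D * κ - ηb + σ) ≤ 2 ^ Xd * pw J (D * κ - ηb + σ) :=
        mul_le_mul_of_nonneg_right hX (hP0 _).le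
      rw [← hPa] at h4
      have h5 : pw J σ ≤ pw J (ηb + (D * κ - ηb + σ)) := pw_le (by linarith)
      linarith
    have h4 : 2 ^ Xd * (η₁ + η₂) ≤ 2 ^ Xd * (pw J (D * κ - ηb + σ) / 2) :=
      mul_le_mul_of_nonneg_left (by linarith) hX0.le
    rw [hK]
    linarith
  · refine mul_le_mul_of_nonneg_left ?_ hX0.le
    have h1 := hQx hBc x6
    have e3 : (D : ℝ) * κ - nt + (nt - lb) = D * κ - lb := by ring
    rw [e3] at h1
    have h2 := mul_le_mul_of_nonneg_left h1 hD0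
    rw [← mul_assoc] at h2
    have h3 : pw J (-lb) ≤ pw J (D * κ - lb) := pw_le (by linarith)
    have h4 : pw J (D * κ - ηb) ≤ pw J (D * κ - lb) := pw_le (by linarith)
    have h4' := mul_le_mul_of_nonneg_left h4 (show 0 ≤ a₁ by linarith)
    have h5 : 2 * (3 * Bn + D * Qb * Bc + η₂) ≤ 20 * a₁ * pw J (D * κ - lb) := by
      have h6 : (D : ℝ) * (3 ^ (D + 1) * pw J (D * κ - lb)) ≤ a₁ * pw J (D * κ - lb) := by
        rw [← mul_assoc]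
        exact mul_le_mul_of_nonneg_right (by rw [ha₁]; linarith) (hP0 _).le
      have h7 : 3 * pw J (D * κ - lb) ≤ a₁ * pw J (D * κ - lb) :=
        mul_le_mul_of_nonneg_right ha₁0 (hP0 _).le
      have h8 := hP0 (D * κ - lb)
      have h9 : 0 ≤ a₁ * pw J (D * κ - lb) := by positivity
      linarith
    refine h5.trans ?_
    have h6 : 20 * a₁ * pw J (D * κ - lb) ≤ pw J σ * pw J (D * κ - lb) :=
      mul_le_mul_of_nonneg_right hJ (hP0 _).le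
    rw [← hPa] at h6
    exact h6.trans (pw_le (by linarith))
  · have h1 : (2 * K + 2 * (2 ^ Xd * pw J (-v0))) / 2 ^ Xd =
        2 * pw J (D * κ - ηb + σ) + 2 * pw J (-v0) := by
      rw [hK]
      field_simp
    rw [h1]
    have h2 : pw J (D * κ - ηb + σ) ≤ pw J (-v0) := pw_le (by linarith)
    have h3 : pw J (D * κ - ηb) ≤ pw J (-v0) := pw_le (by linarith)
    have h4 := mul_le_mul_of_nonneg_left h3 (show 0 ≤ a₁ by linarith)
    linarith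

/-- The rate and the number of times. -/
theorem num_rho {C J : ℕ} (hC : 1 ≤ C) {σ w : ℝ} (hσ : 0 < σ) (hw0 : 0 ≤ w) (hw1 : w + 2 * σ ≤ 1)
    (hJ1 : 1 ≤ J) (hJ : 2 * (C : ℝ) ≤ pw J σ) {ρ : ℝ} (hρ : ρ = pw J (-(σ / C))) :
    ⌊w * J⌋₊ < J ∧ 0 < ρ ∧ ρ < 1 ∧ ρ ^ C = pw J (-σ) ∧
    Real.log (1 / ρ) = σ / C * Real.log 2 * J ∧
    pw J (1 - w) ≤ 2 * ((2 ^ (J - ⌊w * J⌋₊ - 1) : ℕ) : ℝ) ∧
    (C : ℝ) ≤ ρ ^ C * (2 * ((2 ^ (J - ⌊w * J⌋₊ - 1) : ℕ) : ℝ) + 1) := by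
  have hP0 := pw_pos J
  have hPa := pw_add J
  have hC0 : (0 : ℝ) < C := by exact_mod_cast hC
  have hJ0 : (0 : ℝ) < J := by exact_mod_cast hJ1
  have hW : ⌊w * J⌋₊ < J := by
    rw [Nat.floor_lt (mul_nonneg hw0 hJ0.le)]
    have : w < 1 := by linarith
    nlinarith
  have hρ0 : 0 < ρ := by rw [hρ]; exact hP0 _
  have hρ1 : ρ < 1 := by
    rw [hρ, pw_neg, div_lt_one (hP0 _)]
    exact Real.one_lt_rpow (by norm_num) (by positivity)
  have hρC : ρ ^ C = pw J (-σ) := by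
    rw [hρ, pw_pow]
    congr 1
    field_simp
  have hlρ : Real.log (1 / ρ) = σ / C * Real.log 2 * J := by
    rw [hρ, pw_neg, one_div_one_div]
    unfold pw
    rw [Real.log_rpow (by norm_num)]
    ring
  have hM : pw J (1 - w) ≤ 2 * ((2 ^ (J - ⌊w * J⌋₊ - 1) : ℕ) : ℝ) := by
    have h1 : (2 : ℝ) ^ J = 2 ^ (J - ⌊w * J⌋₊ - 1) * 2 * 2 ^ ⌊w * J⌋₊ := by
      rw [← pow_succ, ← pow_add]
      congr 1
      omega
    have h2 : pw J 1 = 2 ^ J := by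
      unfold pw
      rw [one_mul, Real.rpow_natCast]
    have h3 := (pw_floor (J := J) hw0).1
    have h4 : pw J (1 - w) * pw J w = pw J 1 := by
      rw [← hPa]
      congr 1
      ring
    have h5 : pw J (1 - w) * pw J w ≤ 2 * (2 ^ (J - ⌊w * J⌋₊ - 1)) * pw J w := by
      rw [h4, h2, h1]
      calc (2 : ℝ) ^ (J - ⌊w * J⌋₊ - 1) * 2 * 2 ^ ⌊w * J⌋₊ ≤
          2 ^ (J - ⌊w * J⌋₊ - 1) * 2 * pw J w := mul_le_mul_of_nonneg_left h3 (by positivity)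
        _ = _ := by ring
    push_cast
    exact le_of_mul_le_mul_right h5 (hP0 w)
  refine ⟨hW, hρ0, hρ1, hρC, hlρ, hM, ?_⟩
  rw [hρC]
  have q1 : pw J σ ≤ pw J (-σ + (1 - w)) := pw_le (by linarith)
  rw [hPa (-σ)] at q1
  have q3 := mul_le_mul_of_nonneg_left hM (hP0 (-σ)).le
  have q4 := hP0 (-σ)
  have q5 : pw J (-σ) * (2 * ((2 ^ (J - ⌊w * J⌋₊ - 1) : ℕ) : ℝ) + 1) =
    pw J (-σ) * (2 * ((2 ^ (J - ⌊w * J⌋₊ - 1) : ℕ) : ℝ)) + pw J (-σ) := by ring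
  rw [q5]
  linarith

/-- The conditions of one block of rows. -/
theorem num_row {C D J : ℕ} {σ κ w h δ₂ ηb p₁ p₂ v v' : ℝ} (hJ1 : 1 ≤ J)
    (hJ : 2 * (C : ℝ) ≤ pw J σ) {ρC : ℝ} (hρC : ρC = pw J (-σ)) {Mt : ℝ}
    (hM : pw J (1 - w) ≤ 2 * Mt) (p1 : 0 ≤ p₁) (p2 : p₁ ≤ p₂) (p3 : p₂ + D * κ + σ ≤ ηb)
    (hDk : 0 ≤ D * κ + σ) (p4 : p₁ ≤ v') (p5 : v + 2 * σ + δ₂ / Real.log 2 ≤ p₁ + h * (p₂ - p₁))
    (p6 : (1 - h) * (p₂ - p₁) + δ₂ / Real.log 2 + 2 * σ + w ≤ 1) {Xd N a b : ℕ} {K V V' : ℝ}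
    (hXd : Xd = ⌈ηb * J⌉₊) (hK : K = 2 ^ Xd * pw J (D * κ - ηb + σ)) (ha : a = Xd - ⌊p₂ * J⌋₊)
    (hb : b = Xd - ⌊p₁ * J⌋₊) (hV : V = 2 ^ Xd * pw J (-v)) (hV' : V' = 2 ^ Xd * pw J (-v'))
    (hN : N = ⌊Real.exp (((1 - h) * (p₂ - p₁) * Real.log 2 + δ₂) * J)⌋₊) :
    a ≤ b ∧ K ≤ 2 ^ a ∧ 0 < V ∧ V' ≤ 2 ^ b ∧ (C : ℝ) * N * 2 ^ a ≤ ρC * V ∧
      (C : ℝ) * N ≤ ρC * Mt := by
  have hP0 := pw_pos J
  have hPa := pw_add J
  have hC0 : (0 : ℝ) ≤ C := Nat.cast_nonneg C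
  have hJ0 : (0 : ℝ) < J := by exact_mod_cast hJ1
  have hX0 : (0 : ℝ) < 2 ^ Xd := by positivity
  have hl2 : 0 < Real.log 2 := Real.log_pos (by norm_num)
  have hexp : ∀ x : ℝ, pw J x = Real.exp (x * Real.log 2 * J) := fun x => by
    unfold pw
    rw [Real.rpow_def_of_pos (by norm_num)]
    congr 1
    ring
  have hN1 : (N : ℝ) ≤ pw J ((1 - h) * (p₂ - p₁) + δ₂ / Real.log 2) := by
    rw [hN, hexp]
    refine (Nat.floor_le (Real.exp_pos _).le).trans (le_of_eq ?_)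
    congr 1
    field_simp
  have hP20 : 0 ≤ p₂ := p1.trans p2
  have hfl : ∀ y : ℝ, y ≤ ηb → ⌊y * J⌋₊ ≤ Xd := fun y hy => by
    rw [hXd]
    refine (Nat.floor_le_floor (mul_le_mul_of_nonneg_right hy hJ0.le)).trans ?_
    exact Nat.floor_le_ceil _
  have hf2 := hfl p₂ (by linarith)
  have hf1 := hfl p₁ (by linarith)
  obtain ⟨s1, s2⟩ := pw_sub (J := J) hP20 hf2
  obtain ⟨s3, s4⟩ := pw_sub (J := J) p1 hf1
  have hCN : (C : ℝ) * N ≤ C * pw J ((1 - h) * (p₂ - p₁) + δ₂ / Real.log 2) :=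
    mul_le_mul_of_nonneg_left hN1 hC0
  refine ⟨?_, ?_, ?_, ?_, ?_, ?_⟩
  · rw [ha, hb]
    have := Nat.floor_le_floor (mul_le_mul_of_nonneg_right p2 hJ0.le)
    omega
  · rw [hK, ha]
    refine le_trans (mul_le_mul_of_nonneg_left (pw_le (by linarith)) hX0.le) s1
  · rw [hV]
    exact mul_pos hX0 (hP0 _)
  · rw [hV', hb]
    exact (mul_le_mul_of_nonneg_left (pw_le (by linarith)) hX0.le).trans s3
  · rw [hρC, hV, ha]
    have q1 : (C : ℝ) * N * 2 ^ (Xd - ⌊p₂ * J⌋₊) ≤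
        C * pw J ((1 - h) * (p₂ - p₁) + δ₂ / Real.log 2) * (2 * (2 ^ Xd * pw J (-p₂))) :=
      mul_le_mul hCN s2 (by positivity) (mul_nonneg hC0 (hP0 _).le)
    refine q1.trans ?_
    have q2 : C * pw J ((1 - h) * (p₂ - p₁) + δ₂ / Real.log 2) * (2 * (2 ^ Xd * pw J (-p₂))) =
        2 ^ Xd * (2 * C) * pw J ((1 - h) * (p₂ - p₁) + δ₂ / Real.log 2 + -p₂) := by
      rw [hPa ((1 - h) * (p₂ - p₁) + δ₂ / Real.log 2) (-p₂)]
      ring
    have q3 : pw J (-σ) * (2 ^ Xd * pw J (-v)) = 2 ^ Xd * pw J (-σ + -v) := by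
      rw [hPa]
      ring
    rw [q2, q3]
    have q4 : (2 * (C : ℝ)) * pw J ((1 - h) * (p₂ - p₁) + δ₂ / Real.log 2 + -p₂) ≤
        pw J σ * pw J ((1 - h) * (p₂ - p₁) + δ₂ / Real.log 2 + -p₂) :=
      mul_le_mul_of_nonneg_right hJ (hP0 _).le
    rw [← hPa] at q4
    have q5 : pw J (σ + ((1 - h) * (p₂ - p₁) + δ₂ / Real.log 2 + -p₂)) ≤
        pw J (-σ + -v) := pw_le (by linarith)
    calc 2 ^ Xd * (2 * (C : ℝ)) * pw J ((1 - h) * (p₂ - p₁) + δ₂ / Real.log 2 + -p₂) =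
        2 ^ Xd * ((2 * (C : ℝ)) * pw J ((1 - h) * (p₂ - p₁) + δ₂ / Real.log 2 + -p₂)) := by
          ring
      _ ≤ _ := mul_le_mul_of_nonneg_left (q4.trans q5) hX0.le
  · rw [hρC]
    have q1 : (C : ℝ) * N * 2 ≤ pw J σ * pw J ((1 - h) * (p₂ - p₁) + δ₂ / Real.log 2) := by
      calc (C : ℝ) * N * 2 ≤ C * pw J ((1 - h) * (p₂ - p₁) + δ₂ / Real.log 2) * 2 :=
            mul_le_mul_of_nonneg_right hCN (by norm_num)
        _ = 2 * C * pw J ((1 - h) * (p₂ - p₁) + δ₂ / Real.log 2) := by ring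
        _ ≤ _ := mul_le_mul_of_nonneg_right hJ (hP0 _).le
    rw [← hPa] at q1
    have q2 : pw J (σ + ((1 - h) * (p₂ - p₁) + δ₂ / Real.log 2)) ≤ pw J (-σ + (1 - w)) :=
      pw_le (by linarith)
    rw [hPa (-σ)] at q2
    have q3 := mul_le_mul_of_nonneg_left hM (hP0 (-σ)).le
    linarith

/-- The final precisions. -/
theorem num_fin {C D J : ℕ} {σ κ w nt n2 lb ηc v0 Eb : ℝ} (hκ : 0 < κ) (hw0 : 0 ≤ w) {a₁ a₂ a₃ : ℝ}
    (ha₁ : a₁ = D * (3 ^ (D + 1)) + D + 3) (ha₂ : a₂ = (D + 2) * 3 ^ (D + 1))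
    (ha₃ : a₃ = 2 ^ C * a₂ * (4 + a₁ + D * (6 ^ D * (2 * D + 8))) + 5 * a₂) (hJ : a₃ ≤ pw J σ)
    {s Su Lm η₃ Bc El δ2 δ3 sU : ℝ} (hr0 : 0 < Su / s) (hrR : Su / s ≤ 3 * pw J κ)
    (hLm : Lm = (D + 2) * (Su / s) ^ (D + 1)) (hη₃ : η₃ ≤ (4 + a₁) * pw J (-v0)) (hBc : 0 ≤ Bc)
    (x6 : Bc ≤ pw J (nt - lb)) (x8 : v0 + nt + D * κ ≤ n2 + lb) (x9 : El ≤ pw J (w - v0))
    (x10 : δ3 ≤ pw J (w - v0)) (x11 : sU ≤ 3 * pw J (w - v0)) (x12 : δ2 ≤ pw J (nt - ηc)) :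
    2 ^ C * 2 ^ ⌊w * J⌋₊ * (Lm * (η₃ + D * ((2 * Su / s) ^ (D - 1) *
      ((2 * D + 8) / pw J n2) * Bc))) + Lm * (El + δ3 + sU) ≤
        pw J (w - v0 + (D + 1) * κ + σ) ∧
    pw J (w - v0 + (D + 1) * κ + σ) * pw J Eb + Lm * δ2 ≤
      pw J (w - v0 + Eb + (D + 1) * κ + σ) + pw J (nt - ηc + (D + 1) * κ + σ) := by
  have hP0 := pw_pos J
  have hPa := pw_add J
  have hD0 : (0 : ℝ) ≤ D := Nat.cast_nonneg D
  have hR1 : 1 ≤ 3 * pw J κ := by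
    have := pw_one (J := J) hκ.le
    linarith
  have ha₁0 : 0 ≤ a₁ := by rw [ha₁]; positivity
  have ha₂0 : 0 ≤ a₂ := by rw [ha₂]; positivity
  have hLm0 : 0 ≤ Lm := by rw [hLm]; positivity
  have hLm1 : Lm ≤ a₂ * pw J ((D + 1) * κ) := by
    have h1 : (Su / s) ^ (D + 1) ≤ 3 ^ (D + 1) * pw J ((D + 1) * κ) := by
      have h2 : pw J ((D + 1) * κ) = pw J κ ^ (D + 1) := by
        rw [pw_pow]
        congr 1
        push_cast
        ring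
      rw [h2, ← mul_pow]
      exact pow_le_pow_left₀ hr0.le hrR _
    rw [hLm, ha₂, mul_assoc]
    exact mul_le_mul_of_nonneg_left h1 (by linarith)
  have hT : D * ((2 * Su / s) ^ (D - 1) * ((2 * D + 8) / pw J n2) * Bc) ≤
      D * (6 ^ D * (2 * D + 8)) * pw J (-v0) := by
    have h1 : (2 * Su / s) ^ (D - 1) ≤ 6 ^ D * pw J (D * κ) := by
      have h2 : (6 : ℝ) ^ D * pw J (D * κ) = (6 * pw J κ) ^ D := by
        rw [mul_pow, pw_pow]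
      have h3 : 2 * Su / s = 2 * (Su / s) := by ring
      rw [h2, h3]
      refine (pow_le_pow_left₀ (by positivity) (show 2 * (Su / s) ≤ 6 * pw J κ by linarith)
        _).trans (pow_le_pow_right₀ (by linarith) (by omega))
    have h2 : (2 * (D : ℝ) + 8) / pw J n2 * Bc ≤ (2 * D + 8) * pw J (-n2 + (nt - lb)) := by
      rw [hPa, pw_neg, div_mul_eq_mul_div, mul_div_assoc, one_div_mul_eq_div]
      exact mul_le_mul_of_nonneg_left (div_le_div_of_nonneg_right x6 (hP0 _).le) (by linarith)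
    have h3 : (2 * Su / s) ^ (D - 1) * ((2 * D + 8) / pw J n2) * Bc ≤
        6 ^ D * pw J (D * κ) * ((2 * D + 8) * pw J (-n2 + (nt - lb))) := by
      rw [mul_assoc]
      exact mul_le_mul h1 h2 (by have := hP0 n2; positivity)
        (by have := hP0 (D * κ); positivity)
    have h4 : 6 ^ D * pw J (D * κ) * ((2 * D + 8) * pw J (-n2 + (nt - lb))) =
        6 ^ D * (2 * D + 8) * pw J (D * κ + (-n2 + (nt - lb))) := by
      rw [hPa (D * κ)]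
      ring
    rw [h4] at h3
    have h5 : pw J (D * κ + (-n2 + (nt - lb))) ≤ pw J (-v0) := pw_le (by linarith)
    have h6 := h3.trans (mul_le_mul_of_nonneg_left h5 (by positivity))
    have h7 := mul_le_mul_of_nonneg_left h6 hD0
    calc _ ≤ _ := h7
      _ = _ := by ring
  constructor
  · have h1 : η₃ + D * ((2 * Su / s) ^ (D - 1) * ((2 * D + 8) / pw J n2) * Bc) ≤
        (4 + a₁ + D * (6 ^ D * (2 * D + 8))) * pw J (-v0) := by
      rw [add_mul]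
      exact add_le_add hη₃ hT
    have h2 : Lm * (η₃ + D * ((2 * Su / s) ^ (D - 1) * ((2 * D + 8) / pw J n2) * Bc)) ≤
        a₂ * pw J ((D + 1) * κ) * ((4 + a₁ + D * (6 ^ D * (2 * D + 8))) * pw J (-v0)) := by
      refine (mul_le_mul_of_nonneg_left h1 hLm0).trans (mul_le_mul_of_nonneg_right hLm1 ?_)
      have := hP0 (-v0)
      positivity
    have h3 : (2 : ℝ) ^ C * 2 ^ ⌊w * J⌋₊ ≤ 2 ^ C * pw J w :=
      mul_le_mul_of_nonneg_left (pw_floor hw0).1 (by positivity)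
    have h4 : 2 ^ C * 2 ^ ⌊w * J⌋₊ * (Lm * (η₃ + D * ((2 * Su / s) ^ (D - 1) *
        ((2 * D + 8) / pw J n2) * Bc))) ≤ 2 ^ C * pw J w *
        (a₂ * pw J ((D + 1) * κ) * ((4 + a₁ + D * (6 ^ D * (2 * D + 8))) * pw J (-v0))) := by
      refine (mul_le_mul_of_nonneg_left h2 (by positivity)).trans
        (mul_le_mul_of_nonneg_right h3 ?_)
      have := hP0 (-v0)
      have := hP0 ((D + 1) * κ)
      positivity
    have h5 : 2 ^ C * pw J w *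
        (a₂ * pw J ((D + 1) * κ) * ((4 + a₁ + D * (6 ^ D * (2 * D + 8))) * pw J (-v0))) =
        2 ^ C * a₂ * (4 + a₁ + D * (6 ^ D * (2 * D + 8))) * pw J (w - v0 + (D + 1) * κ) := by
      rw [sub_eq_add_neg, hPa, hPa]
      ring
    have h6 : Lm * (El + δ3 + sU) ≤ a₂ * pw J ((D + 1) * κ) * (5 * pw J (w - v0)) := by
      refine (mul_le_mul_of_nonneg_left (show El + δ3 + sU ≤ 5 * pw J (w - v0) by linarith)
        hLm0).trans (mul_le_mul_of_nonneg_right hLm1 ?_)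
      have := hP0 (w - v0)
      positivity
    have h7 : a₂ * pw J ((D + 1) * κ) * (5 * pw J (w - v0)) =
        5 * a₂ * pw J (w - v0 + (D + 1) * κ) := by
      rw [hPa]
      ring
    have h8 : a₃ * pw J (w - v0 + (D + 1) * κ) ≤ pw J (w - v0 + (D + 1) * κ + σ) := by
      rw [hPa _ σ, mul_comm]
      exact mul_le_mul_of_nonneg_left hJ (hP0 _).le
    rw [ha₃, add_mul] at h8
    linarith
  · have h1 : Lm * δ2 ≤ pw J (nt - ηc + (D + 1) * κ + σ) := by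
      have h2 : Lm * δ2 ≤ a₂ * pw J ((D + 1) * κ) * pw J (nt - ηc) :=
        (mul_le_mul_of_nonneg_left x12 hLm0).trans (mul_le_mul_of_nonneg_right hLm1 (hP0 _).le)
      refine h2.trans ?_
      have h3 : a₂ ≤ pw J σ := by
        refine le_trans ?_ hJ
        rw [ha₃]
        have : 0 ≤ 2 ^ C * a₂ * (4 + a₁ + D * (6 ^ D * (2 * D + 8))) := by positivity
        linarith
      rw [hPa _ σ, hPa]
      calc a₂ * pw J ((D + 1) * κ) * pw J (nt - ηc) =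
          pw J (nt - ηc) * pw J ((D + 1) * κ) * a₂ := by ring
        _ ≤ _ := mul_le_mul_of_nonneg_left h3 (by
          have := hP0 (nt - ηc)
          have := hP0 ((D + 1) * κ)
          positivity)
    have h2 : pw J (w - v0 + (D + 1) * κ + σ) * pw J Eb =
        pw J (w - v0 + Eb + (D + 1) * κ + σ) := by
      rw [← hPa]
      congr 1
      ring
    rw [h2]
    linarith

end Pool.ND54
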