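import Pool.Agent.H54.ND.Evx

/-!
# The near-dead step, event level, with exponents: the theorem

`nd_evx`: `nd_evt` with all numbers as exponents of `2 ^ J`.
-/

set_option autoImplicit false

namespace Pool.ND54

open Finset Real MvPolynomial
open Pool.Agent.H49.Ent Pool.Agent.H32.Dense Pool.STK Pool.KA Pool.KSAT Pool.K2S Pool.PB Pool.S6C
open Pool.GEN hiding Det
open Pool.CHT Pool.D2R Pool.LA91 Pool.RCD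
open Pool.PB.Trl (rt rt_mem t_rt)
open Pool.V0F (cR det_cR)
open Pool.NDC42
open Pool.BFL (Pb)
open Pool.STB (Pb_mono)
open Pool.CLU (cpn_law)
open Pool.NDD66 (ov mu det3o RelO)

/-- The masses. -/
theorem num_mass {D nr C J : ℕ} {σ κ c₄ e c₀ c₁ c₂ c₃ ρ : ℝ} (hσ : 0 < σ) (hκ : 0 < κ)
    (hc₄ : 0 < c₄) (hC : 1 ≤ C) (hJ1 : 1 ≤ J) {c₅ c₆ c₇ : ℝ}
    (hc₅ : c₅ = 24 * (D + 1) * ((2 * D + 2) ^ 2 / (κ / 2 * Real.log 2)))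
    (hc₆ : c₆ = 8 * (D + 1) * (nr / (σ / C * Real.log 2)))
    (hc₇ : c₇ = c₅ * (3 * Real.log 5 + Real.log 3 + Real.log 2) +
      c₆ * (2 * Real.log 2 + (2 * D + 1) * (3 * Real.log 5) + Real.log 2))
    (hJ : c₇ / c₄ ≤ J) (hlρ : Real.log (1 / ρ) = σ / C * Real.log 2 * J)
    (hc₁ : c₁ = (2 * D + 2) ^ 2 * (9 * (e * J) + 3 * Real.log 5 +
      Real.log 3 + Real.log 2) / (κ / 2 * Real.log 2 * J)) :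
    4 * ((2 * D + 2) * (c₀ + 3 * c₁ + nr * (((e * J + 2 * Real.log 2) +
        ((2 * D + 1 : ℕ) : ℝ) * (11 * (e * J) + 3 * Real.log 5) + Real.log 2) /
          Real.log (1 / ρ)))) + c₂ + c₃ ≤
      8 * (D + 1) * c₀ + (9 * c₅ + c₆ * (1 + (2 * D + 1) * 11)) * e + c₄ + c₂ + c₃ := by
  have hl2 : 0 < Real.log 2 := Real.log_pos (by norm_num)
  have hJ0 : (0 : ℝ) < J := by exact_mod_cast hJ1
  have hC0 : (0 : ℝ) < C := by exact_mod_cast hC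
  have h1 : 4 * (2 * (D : ℝ) + 2) * (3 * c₁) =
      9 * c₅ * e + c₅ * (3 * Real.log 5 + Real.log 3 + Real.log 2) / J := by
    rw [hc₁, hc₅]
    field_simp
    ring
  have h2 : 4 * (2 * (D : ℝ) + 2) * (nr * (((e * J + 2 * Real.log 2) +
        ((2 * D + 1 : ℕ) : ℝ) * (11 * (e * J) + 3 * Real.log 5) + Real.log 2) /
          Real.log (1 / ρ))) = c₆ * (1 + (2 * D + 1) * 11) * e +
      c₆ * (2 * Real.log 2 + (2 * D + 1) * (3 * Real.log 5) + Real.log 2) / J := by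
    rw [hlρ, hc₆]
    push_cast
    field_simp
    ring
  have h3 : c₇ / J ≤ c₄ := by
    rw [div_le_iff₀ hJ0]
    rw [div_le_iff₀ hc₄] at hJ
    linarith
  have h4 : c₇ / J = c₅ * (3 * Real.log 5 + Real.log 3 + Real.log 2) / J +
      c₆ * (2 * Real.log 2 + (2 * D + 1) * (3 * Real.log 5) + Real.log 2) / J := by
    rw [hc₇, add_div]
  have h5 : 4 * ((2 * D + 2) * (c₀ + 3 * c₁ + nr * (((e * J + 2 * Real.log 2) +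
        ((2 * D + 1 : ℕ) : ℝ) * (11 * (e * J) + 3 * Real.log 5) + Real.log 2) /
          Real.log (1 / ρ)))) = 8 * (D + 1) * c₀ + 4 * (2 * (D : ℝ) + 2) * (3 * c₁) +
      4 * (2 * (D : ℝ) + 2) * (nr * (((e * J + 2 * Real.log 2) +
        ((2 * D + 1 : ℕ) : ℝ) * (11 * (e * J) + 3 * Real.log 5) + Real.log 2) /
          Real.log (1 / ρ))) := by ring
  rw [h5, h1, h2]
  linarith

/-- **The near-dead step, event level, with exponents.** -/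
theorem nd_evx (D D₂ nr : ℕ) {σ κ c₄ : ℝ} (hσ : 0 < σ) (hκ : 0 < κ) (hc₄ : 0 < c₄) :
    ∃ (C' : ℝ) (J₁ : ℕ), 0 ≤ C' ∧ 1 ≤ J₁ ∧ ∀ {m J : ℕ}, J₁ ≤ J → ∀ {F : Fam m J} {A : F.Ω → Prop}
    (_ : 0 < Pe F.p A) {c : ℕ → Fin m} {w t x' : ℝ} {n : ℕ → ℝ} {nt e : ℝ}
    {H Hr : LnT F → ℕ → MvPolynomial (Option (Fin m)) ℝ} (_ : NdE F A c D w t x' n nt e H),
    0 ≤ e → 0 ≤ w → w + 2 * σ ≤ 1 → w ≤ x' → t ≤ x' → x' ≤ 1 → nt + κ ≤ n 2 →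
    (∀ s l, (H s l).totalDegree ≤ D) →
    (∀ ω ω', A ω → A ω' → cR F A w ω = cR F A w ω' →
      H (slam F ⌊w * J⌋₊ ω) = H (slam F ⌊w * J⌋₊ ω')) →
    -- the codes
    ∀ {Kc : Type} (kc : F.Ω → Kc) {δ : ℕ → ℝ},
    (∀ ω ω', A ω → A ω' → slam F ⌊w * J⌋₊ ω = slam F ⌊w * J⌋₊ ω' → kc ω = kc ω') →
    CH (Pool.Agent.H49.Ent.cond F.p A True) kc (xg F A c D w n nt H) ≤ e * J →
    (∀ ω ω', A ω → A ω' → elN F A c D w n nt H kc ω = elN F A c D w n nt H kc ω' → ∀ i,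
      ∀ τ ∈ Set.Icc (0 : ℝ) 1, |(grP F c D₂ ⌊w * J⌋₊ H Hr (slam F ⌊w * J⌋₊ ω) i).eval τ -
        (grP F c D₂ ⌊w * J⌋₊ H Hr (slam F ⌊w * J⌋₊ ω') i).eval τ| ≤ δ i) →
    (∀ i, 0 ≤ δ i) →
    -- the geometry
    ∀ {δn : ℕ → ℝ} {η η' : ℝ}, OwnE F A c D D₂ w t H Hr δn (3 / 2 ^ (nt * J)) η η' →
    (∀ l < 2, ((D : ℝ) + 2) / 2 ^ (n l * J) ≤ δn l) → ((D : ℝ) + 3) / 2 ^ (n 2 * J) ≤ δn 2 →
    0 ≤ η' → ∀ {Bn Bc : ℝ}, (∀ ω, A ω → ∀ τ ∈ Set.Icc (0 : ℝ) 1,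
      |(opl F c ⌊w * J⌋₊ H 3 ω).eval τ| ≤ Bn ∧
      |(grP F c D₂ ⌊w * J⌋₊ H Hr (slam F ⌊w * J⌋₊ ω) 2).eval τ| ≤ Bc) →
    ∀ {δv : ℕ → ℝ} {El : ℝ}, LinE F A c D₂ ⌊w * J⌋₊ H Hr
      (fun a b => rP F A c w x' n H a = rP F A c w x' n H b) δv El → 0 ≤ El →
    (∀ l ≤ 2, pw J (w + σ - n l) ≤ δv l) →
    ∀ {Uv : ℕ → ℝ}, (∀ ω, A ω → ∀ l ≤ 2, |ov F c (H (slam F ⌊w * J⌋₊ ω)) ω l| ≤ Uv l) →
    -- the rows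
    ∀ (B : F.Ω → Prop) (S : ℕ → _ × ℤ → Finset ℤ) {h δ₂ ηb ηc lb Eb c₀ c₂ c₃ dm : ℝ}
      (P₁ P₂ vv : ℕ → ℝ), 0 ≤ ηb →
    (∀ k < nr, 0 ≤ P₁ k ∧ P₁ k ≤ P₂ k ∧ P₂ k + D * κ + σ ≤ ηb ∧ P₁ k ≤ vv (k + 1) ∧
      vv k + 2 * σ + δ₂ / Real.log 2 ≤ P₁ k + h * (P₂ k - P₁ k) ∧
      (1 - h) * (P₂ k - P₁ k) + δ₂ / Real.log 2 + 2 * σ + w ≤ 1) →
    (∀ ω, A ω → B ω → ∀ k < nr, ⌊2 ^ ⌈ηb * J⌉₊ * (opl F c ⌊w * J⌋₊ H 3 ω).eval 0⌋ /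
        2 ^ (⌈ηb * J⌉₊ - ⌊P₂ k * J⌋₊) ∈
      S k (xg F A c D w n nt H ω, ⌊2 ^ ⌈ηb * J⌉₊ * (opl F c ⌊w * J⌋₊ H 3 ω).eval 0⌋ /
        2 ^ (⌈ηb * J⌉₊ - ⌊P₁ k * J⌋₊))) →
    (∀ k < nr, ∀ y, ((S k y).card : ℝ) ≤
      Real.exp (((1 - h) * (P₂ k - P₁ k) * Real.log 2 + δ₂) * J)) →
    Pb (Pool.Agent.H49.Ent.cond F.p A True) (fun ω => ¬ B ω) ≤ c₀ →
    -- the exponents
    η ≤ pw J (-ηb) → η' ≤ pw J (nt - ηb) → δ 2 ≤ pw J (nt - ηc) → ηb ≤ ηc → ηb ≤ n 3 →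
    Bn ≤ pw J (-lb) → Bc ≤ pw J (nt - lb) → lb ≤ ηb → vv nr + D * κ + σ ≤ lb →
    vv 0 + D * κ + σ ≤ ηb → vv 0 + nt + D * κ ≤ n 2 + lb → El ≤ pw J (w - vv 0) →
    δ 3 ≤ pw J (w - vv 0) → (∀ l ≤ 2, δ l * Uv l ≤ pw J (w - vv 0)) →
    -- general position and no relation
    Pb (cfg (Pool.Agent.H49.Ent.cond F.p A True) (rP F A c w x' n H) (slam F ⌊w * J⌋₊) 3 0)
      (fun v => |det3o F c (H (slam F ⌊w * J⌋₊ (v 0 0))) (fun a => v a.succ 0)| < dm) ≤ c₂ →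
    (∀ NR : ℕ → _ → Polynomial ℝ, (∀ i x, (NR i x).natDegree ≤ D₂ + 3 * D₂) →
      Pb (ndQ F A c D w t x' n nt H) (fun v => RelO F c A ⌊w * J⌋₊ H
        (fun a b => rP F A c w x' n H a = rP F A c w x' n H b) dm (pw J Eb)
        (PAr (fun el => hLc J (n 2) (el.1.1.2 0)) NR
          ((), fun i => elN F A c D w n nt H kc (v i 0 0))) (v 0 0 0)) ≤ c₃) →
    Pb (ndQ F A c D w t x' n nt H) (fun v => ¬ ((∀ i i', i ≠ i' →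
        pw J (-(nt + κ)) ≤ |hh F c D w (n 2) H (v i 0 0) - hh F c D w (n 2) H (v i' 0 0)| ∧
          |hh F c D w (n 2) H (v i 0 0) - hh F c D w (n 2) H (v i' 0 0)| ≤ 3 * pw J (-nt)) ∧
      |∑ k : Fin (D + 2), mu (fun k => hh F c D w (n 2) H (v (ti k) 0 0)) k *
        (grP F c D₂ ⌊w * J⌋₊ H Hr (slam F ⌊w * J⌋₊ (v (ti k) 0 0)) 2).eval
          (rt F ⌊w * J⌋₊ (v 0 0 0))| ≤ pw J (w - vv 0 + Eb + (D + 1) * κ + σ) +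
            pw J (nt - ηc + (D + 1) * κ + σ))) ≤
      8 * (D + 1) * c₀ + C' * e + c₄ + c₂ + c₃ := by
  classical
  obtain ⟨C, hC, hevt⟩ := nd_evt D D₂
  have hl2 : 0 < Real.log 2 := Real.log_pos (by norm_num)
  -- the constants
  obtain ⟨a₁, ha₁⟩ : ∃ a₁ : ℝ, a₁ = D * (3 ^ (D + 1)) + D + 3 := ⟨_, rfl⟩
  obtain ⟨a₂, ha₂⟩ : ∃ a₂ : ℝ, a₂ = (D + 2) * 3 ^ (D + 1) := ⟨_, rfl⟩
  obtain ⟨a₃, ha₃⟩ : ∃ a₃ : ℝ, a₃ = 2 ^ C * a₂ * (4 + a₁ + D * (6 ^ D * (2 * D + 8))) + 5 * a₂ :=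
    ⟨_, rfl⟩
  have hD0 : (0 : ℝ) ≤ D := Nat.cast_nonneg D
  have ha₁0 : 0 ≤ a₁ := by rw [ha₁]; positivity
  have ha₂0 : 0 ≤ a₂ := by rw [ha₂]; positivity
  have ha₃0 : 0 ≤ a₃ := by rw [ha₃]; positivity
  obtain ⟨J₁, hJ₁, hb₁⟩ := pw_big hσ (2 * C + 20 * a₁ + a₃ + 2 ^ C * (D + 2))
  obtain ⟨J₂, hJ₂, hb₂⟩ := pw_big (show 0 < κ / 2 by linarith) (2 * D + 13)
  obtain ⟨c₅, hc₅⟩ : ∃ c₅ : ℝ, c₅ = 24 * (D + 1) * ((2 * D + 2) ^ 2 / (κ / 2 * Real.log 2)) :=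
    ⟨_, rfl⟩
  obtain ⟨c₆, hc₆⟩ : ∃ c₆ : ℝ, c₆ = 8 * (D + 1) * (nr / (σ / C * Real.log 2)) := ⟨_, rfl⟩
  obtain ⟨c₇, hc₇⟩ : ∃ c₇ : ℝ, c₇ = c₅ * (3 * Real.log 5 + Real.log 3 + Real.log 2) +
    c₆ * (2 * Real.log 2 + (2 * D + 1) * (3 * Real.log 5) + Real.log 2) := ⟨_, rfl⟩
  have hc₅0 : 0 ≤ c₅ := by rw [hc₅]; positivity
  have hc₆0 : 0 ≤ c₆ := by rw [hc₆]; positivity
  obtain ⟨J₃, hJ₃⟩ := exists_nat_ge (c₇ / c₄)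
  refine ⟨9 * c₅ + c₆ * (1 + (2 * D + 1) * 11), max (max J₁ J₂) (max J₃ 1), by positivity,
    (le_max_right _ _).trans (le_max_right _ _), ?_⟩
  intro m J hJ F A hA c w t x' n nt e H Hr hE he hw0 hw1 hwx htx hx1 hnt hdH hHc Kc kc δ hk1 hk2
    hk3 hδ δn η η' hOwn hδn hδn2 hη' Bn Bc hBd δv El hLn hEl hδv Uv hUv B S h δ₂ ηb ηc lb Eb c₀ c₂ c₃
    dm P₁ P₂ vv hηb hP hrow hcard hB x1 x2 x3 x3' x4 x5 x6 x7 x8 x9 x10 x11 x12 x13 hdet hrec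
  have hJa := hb₁ J ((le_max_left _ _).trans ((le_max_left _ _).trans hJ))
  have hJb := hb₂ J ((le_max_right _ _).trans ((le_max_left _ _).trans hJ))
  have hJ3 : c₇ / c₄ ≤ J := hJ₃.trans
    (by exact_mod_cast (le_max_left _ _).trans ((le_max_right _ _).trans hJ))
  have hJ4 : 1 ≤ J := (le_max_right _ _).trans ((le_max_right _ _).trans hJ)
  have hJ0 : (0 : ℝ) < J := by exact_mod_cast hJ4
  have hCn : (0 : ℝ) ≤ C := Nat.cast_nonneg C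
  have hCD : (0 : ℝ) ≤ 2 ^ C * (D + 2) := by positivity
  have g1 : 2 * (C : ℝ) ≤ pw J σ := by linarith
  have g2 : 20 * a₁ ≤ pw J σ := by linarith
  have g3 : a₃ ≤ pw J σ := by linarith
  have g4 : 2 ^ C * ((D : ℝ) + 2) ≤ pw J σ := by linarith
  -- an element of the class
  obtain ⟨ω₀, hω₀⟩ : ∃ ω, A ω := by
    by_contra hc
    push Not at hc
    have : Pe F.p A = 0 := by
      unfold Pe
      refine Finset.sum_eq_zero fun ω _ => ?_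
      simp [hc ω]
    linarith
  have hBc0 : 0 ≤ Bc := (abs_nonneg _).trans (hBd ω₀ hω₀ 0 ⟨le_refl _, zero_le_one⟩).2
  -- the numbers
  obtain ⟨ρ, hρ⟩ : ∃ ρ : ℝ, ρ = pw J (-(σ / C)) := ⟨_, rfl⟩
  obtain ⟨hW, hρ0, hρ1, hρC, hlρ, hM, hCM⟩ := num_rho hC hσ hw0 hw1 hJ4 g1 hρ
  obtain ⟨Ks, hKs⟩ : ∃ Ks : ℕ, Ks = ⌈pw J (n 2 - nt - κ)⌉₊ := ⟨_, rfl⟩
  obtain ⟨s, hs⟩ : ∃ s : ℝ, s = Ks / pw J (n 2) := ⟨_, rfl⟩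
  obtain ⟨Su, hSu⟩ : ∃ Su : ℝ, Su = 3 / pw J nt := ⟨_, rfl⟩
  obtain ⟨hKs1, hKsL, hs0, hSu0, hs', hrR, hδh⟩ := num_sep (D := D) hκ hnt hJb hKs hs hSu
  obtain ⟨Λ, hΛ⟩ : ∃ Λ : ℝ, Λ = κ / 2 * Real.log 2 * J := ⟨_, rfl⟩
  have hΛ0 : 0 < Λ := by rw [hΛ]; positivity
  rw [← hΛ] at hKsL
  obtain ⟨c₁, hc₁⟩ : ∃ c₁ : ℝ, c₁ = (2 * D + 2) ^ 2 * (9 * (e * J) + 3 * Real.log 5 +
    Real.log 3 + Real.log 2) / Λ := ⟨_, rfl⟩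
  have hnt' : nt ≤ n 2 := by linarith
  have hsp : ∀ j, Pb (ndQ F A c D w t x' n nt H) (fun v => ∃ i i', i ≠ i' ∧
      |pcC F c D w H 2 0 (n 2) (v i j 0) 0 - pcC F c D w H 2 0 (n 2) (v i' j 0) 0| ≤
        (Ks : ℤ)) ≤ c₁ := by
    intro j
    have h1 := sp_of hA hE hwx hx1 hnt' hΛ0.le hKsL j
    rw [hc₁, le_div_iff₀ hΛ0]
    exact h1
  obtain ⟨Qb, hQb⟩ : ∃ Qb : ℝ, Qb = (Su / s) ^ (D - 1) * Su := ⟨_, rfl⟩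
  obtain ⟨η₁, hη₁⟩ : ∃ η₁ : ℝ, η₁ = 2 * η + D * Qb * η' := ⟨_, rfl⟩
  obtain ⟨η₂, hη₂⟩ : ∃ η₂ : ℝ, η₂ = D * Qb * δ 2 + (D + 1) / pw J (n 3) := ⟨_, rfl⟩
  obtain ⟨Xd, hXd⟩ : ∃ Xd : ℕ, Xd = ⌈ηb * J⌉₊ := ⟨_, rfl⟩
  rw [← hXd] at hrow
  have hXP : pw J ηb ≤ 2 ^ Xd := by
    unfold pw
    rw [← Real.rpow_natCast, hXd]
    exact Real.rpow_le_rpow_of_exponent_le (by norm_num) (Nat.le_ceil _)
  obtain ⟨K, hK⟩ : ∃ K : ℝ, K = 2 ^ Xd * pw J (D * κ - ηb + σ) := ⟨_, rfl⟩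
  have hr0 : 0 < Su / s := div_pos hSu0 hs0
  obtain ⟨hK0, hη₂0, hK1, hVn, hη₃b⟩ := num_eta hσ hκ hr0 hrR hSu0 hSu hQb ha₁ g2 hη' (hδ 2) x1 x2
    (x3.trans (pw_le (by linarith))) x4 hη₁ hη₂ hXP hK hBc0 x5 x6 x7 x8 x9
  obtain ⟨a, ha⟩ : ∃ a : ℕ → ℕ, a = fun k => Xd - ⌊P₂ k * J⌋₊ := ⟨_, rfl⟩
  obtain ⟨b, hb⟩ : ∃ b : ℕ → ℕ, b = fun k => Xd - ⌊P₁ k * J⌋₊ := ⟨_, rfl⟩
  obtain ⟨N, hN⟩ : ∃ N : ℕ → ℕ, N = fun k =>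
    ⌊Real.exp (((1 - h) * (P₂ k - P₁ k) * Real.log 2 + δ₂) * J)⌋₊ := ⟨_, rfl⟩
  obtain ⟨V, hV⟩ : ∃ V : ℕ → ℝ, V = fun k => 2 ^ Xd * pw J (-(vv k)) := ⟨_, rfl⟩
  have hDk : 0 ≤ (D : ℝ) * κ + σ := by positivity
  have hnum : ∀ k < nr, a k ≤ b k ∧ K ≤ 2 ^ a k ∧ 0 < V k ∧ V (k + 1) ≤ 2 ^ b k ∧
      (C : ℝ) * N k * 2 ^ a k ≤ ρ ^ C * V k ∧
      (C : ℝ) * N k ≤ ρ ^ C * ((2 ^ (J - ⌊w * J⌋₊ - 1) : ℕ) : ℝ) := by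
    intro k hk
    obtain ⟨p1, p2, p3, p4, p5, p6⟩ := hP k hk
    exact num_row hJ4 g1 hρC hM p1 p2 p3 hDk p4 p5 p6 hXd hK (congrFun ha k) (congrFun hb k)
      (congrFun hV k) (congrFun hV (k + 1)) (congrFun hN k)
  obtain ⟨η₃, hη₃⟩ : ∃ η₃ : ℝ, η₃ = (2 * K + 2 * V 0) / 2 ^ Xd + η₂ := ⟨_, rfl⟩
  have hη₃b' : η₃ ≤ (4 + a₁) * pw J (-(vv 0)) := by
    rw [hη₃, hV]
    exact hη₃b
  obtain ⟨Lm, hLm⟩ : ∃ Lm : ℝ, Lm = (D + 2) * (Su / s) ^ (D + 1) := ⟨_, rfl⟩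
  have hsU : ∑ l ∈ range 3, δ l * Uv l ≤ 3 * pw J (w - vv 0) := by
    have h1 : ∑ l ∈ range 3, δ l * Uv l ≤ ∑ _l ∈ range 3, pw J (w - vv 0) :=
      Finset.sum_le_sum fun l hl => x13 l (by
        have := Finset.mem_range.1 hl
        omega)
    rw [Finset.sum_const, card_range, nsmul_eq_mul] at h1
    exact_mod_cast h1
  obtain ⟨y1, y2⟩ := num_fin (Eb := Eb) hκ hw0 ha₁ ha₂ ha₃ g3 hr0 hrR hLm hη₃b' hBc0 x6 x10 x11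
    x12 hsU x3
  have hδv' : ∀ l ≤ 2, 2 ^ C * 2 ^ ⌊w * J⌋₊ * (((D : ℝ) + 2) / 2 ^ (n l * J)) ≤ δv l := by
    intro l hl
    refine le_trans ?_ (hδv l hl)
    have e1 : ((D : ℝ) + 2) / 2 ^ (n l * J) = (D + 2) * pw J (-(n l)) := by
      rw [pw_neg]
      unfold pw
      ring
    have e2 : pw J (w + σ - n l) = pw J σ * (pw J w * pw J (-(n l))) := by
      rw [← pw_add, ← pw_add]
      congr 1
      ring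
    have hp := pw_pos J (-(n l))
    have hpw := pw_pos J w
    have e3 : (2 : ℝ) ^ C * 2 ^ ⌊w * J⌋₊ ≤ 2 ^ C * pw J w :=
      mul_le_mul_of_nonneg_left (pw_floor hw0).1 (by positivity)
    rw [e1, e2]
    calc (2 : ℝ) ^ C * 2 ^ ⌊w * J⌋₊ * ((D + 2) * pw J (-(n l))) ≤
        2 ^ C * pw J w * ((D + 2) * pw J (-(n l))) :=
          mul_le_mul_of_nonneg_right e3 (by positivity)
      _ = 2 ^ C * (D + 2) * (pw J w * pw J (-(n l))) := by ring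
      _ ≤ _ := mul_le_mul_of_nonneg_right g4 (by positivity)
  have hcard' : ∀ k < nr, ∀ y, (S k y).card ≤ N k := by
    intro k hk y
    rw [hN]
    exact Nat.le_floor (hcard k hk y)
  have hfin := hevt hA hE hwx htx hx1 hW hnt' hdH hHc kc hk1 hk2 hk3 hδ hOwn hδn hδn2 hη' hBd hLn
    hEl hδv' hUv B S nr Xd Ks N a b V K c₀ c₁ c₂ c₃ ρ
    (fun k hk ω h1 h2 => by rw [ha, hb]; exact hrow ω h1 h2 k hk) hcard' hB hKs1 hsp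
    (s := s) (Su := Su) (Qb := Qb) (η₁ := η₁) (η₂ := η₂) (η₃ := η₃) (Lm := Lm)
    (εR := pw J (w - vv 0 + (D + 1) * κ + σ)) (dm := dm) (E := pw J Eb)
    (ε := pw J (w - vv 0 + Eb + (D + 1) * κ + σ) + pw J (nt - ηc + (D + 1) * κ + σ))
    hs hSu hQb hη₁ hη₂ hη₃ hρ0 hρ1 hCM hK0 (by rw [hV]; have := pw_pos J (-(vv 0)); positivity)
    hK1 (by rw [hV]; exact hVn) hnum hδh hLm y1 y2 hdet hrec
  have hQ0 : ∀ v, 0 ≤ ndQ F A c D w t x' n nt H v :=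
    (cpn_law (cfg_law (isLaw_cond F.isLaw hA) (rP F A c w x' n H) (slam F ⌊w * J⌋₊) 3 0) _ _).nonneg
  refine (Pb_mono hQ0 ?_).trans (hfin.trans
    (num_mass hσ hκ hc₄ hC hJ4 hc₅ hc₆ hc₇ hJ3 hlρ (by rw [hc₁, hΛ])))
  intro v _ hv hv'
  refine hv ⟨fun i i' hi => ?_, hv'.2⟩
  obtain ⟨z1, z2⟩ := hv'.1 i i' hi
  refine ⟨hs'.trans z1, z2.trans (le_of_eq ?_)⟩
  rw [hSu, pw_neg]
  ring

end Pool.ND54
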