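import Pool.Agent.H54.ND.Cfg3

/-!
# General position of three lines over one near record

`nohyp_ent`: if the digits of the two components of the near velocity are full given `r`, then the
velocity lies near no line of the plane which is a function of `r`. `cfg_gp`: the determinant of the
velocities of three lines of a configuration is not small.
-/

set_option autoImplicit false

namespace Pool.ND54

open Finset Real
open Pool.Agent.H49.Ent Pool.Agent.H32.Dense Pool.STK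
open Pool.BFL (Pb)
open Pool.K2S (cpn)
open Pool.CLU (cpn_law cpn_pos cpn_marg)

section

variable {Ω R Λ Y T S : Type} [Fintype Ω]

/-- **Full digits**, few on an event. -/
theorem few_ev {p : Ω → ℝ} (hp : IsLaw p) (c : Ω → ℤ) (y : Ω → Y) (E : Ω → Prop)
    (f : Y → ℤ) (m R₀ : ℕ) (hR : ∀ ω, 0 < p ω → |c ω| ≤ (R₀ : ℤ))
    (hE : ∀ ω, 0 < p ω → E ω → |c ω - f (y ω)| ≤ (m : ℤ)) :
    CH p c y ≤ Real.log 2 + (Pb p E * Real.log (2 * m + 1) +
      (1 - Pb p E) * Real.log (2 * R₀ + 1)) := by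
  classical
  have h2 : CH p c y ≤ CH p c (fun ω => (E ω, y ω)) + Real.log 2 := by
    have a1 := CH_le_add hp.nonneg c E y
    have a2 := Pool.MIC.CH_prop_le hp.nonneg hp.sum_one E y
    linarith
  have h3 := CH_le_card hp.nonneg hp.sum_one c (fun ω => (E ω, y ω))
    (fun a => if a.1 then Finset.Icc (f a.2 - m) (f a.2 + m) else Finset.Icc (-(R₀ : ℤ)) R₀)
    (fun ω hω => by
      by_cases hv' : E ω
      · simp only [hv', if_true]
        have := abs_le.1 (hE ω hω hv')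
        rw [Finset.mem_Icc]
        constructor <;> linarith
      · simp only [hv', if_false]
        have := abs_le.1 (hR ω hω)
        rw [Finset.mem_Icc]
        exact this)
  have h4 : Ex p (fun ω => Real.log
      (((if E ω then Finset.Icc (f (y ω) - m) (f (y ω) + m) else
        Finset.Icc (-(R₀ : ℤ)) R₀).card : ℕ) : ℝ)) ≤
      Pb p E * Real.log (2 * m + 1) + (1 - Pb p E) * Real.log (2 * R₀ + 1) := by
    have h5 : ∀ ω : Ω, 0 < p ω → Real.log
        (((if E ω then Finset.Icc (f (y ω) - m) (f (y ω) + m) else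
          Finset.Icc (-(R₀ : ℤ)) R₀).card : ℕ) : ℝ) ≤
        (if E ω then Real.log (2 * m + 1) - Real.log (2 * R₀ + 1) else 0) +
          Real.log (2 * R₀ + 1) := by
      intro ω hω
      by_cases hv : E ω
      · rw [if_pos hv, if_pos hv, sub_add_cancel]
        have h6 : (Finset.Icc (f (y ω) - m) (f (y ω) + m)).card = 2 * m + 1 := by
          rw [Int.card_Icc]
          omega
        rw [h6]
        push_cast
        exact le_rfl
      · rw [if_neg hv, if_neg hv, zero_add]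
        have h6 : (Finset.Icc (-(R₀ : ℤ)) R₀).card = 2 * R₀ + 1 := by
          rw [Int.card_Icc]
          omega
        rw [h6]
        push_cast
        exact le_rfl
    refine (Ex_mono hp.nonneg h5).trans (le_of_eq ?_)
    rw [Ex_add, Ex_const hp.sum_one]
    have h6 : Ex p (fun ω => if E ω then Real.log (2 * m + 1) - Real.log (2 * R₀ + 1) else 0) =
        Pb p E * (Real.log (2 * m + 1) - Real.log (2 * R₀ + 1)) := by
      unfold Ex Pb
      rw [Finset.sum_mul]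
      refine Finset.sum_congr rfl fun v _ => ?_
      by_cases hv : E v
      · simp only [hv, if_true]
      · simp only [hv, if_false, mul_zero, zero_mul]
    rw [h6]
    ring
  linarith

/-- The strip. -/
theorem strip {n₀ n₁ n₂ a b N : ℝ} {K : ℕ} (hK : 1 ≤ K) (hN : 3 ≤ N) (hb : |b| ≤ K)
    (ha : |a| ≤ K) (h21 : |n₂| ≤ |n₁|)
    (hn : |n₀| = 1 ∨ |n₁| = 1 ∨ |n₂| = 1) (h : |n₀ + n₁ * a + n₂ * b| ≤ 1 / N) :
    |(⌊N * a⌋ - ⌊N * (-(n₀ + n₂ * ((⌊N * b⌋ : ℤ) / N)) / n₁)⌋ : ℤ)| ≤ ((4 * K + 2 : ℕ) : ℤ) := by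
  have hK0 : (1 : ℝ) ≤ K := by exact_mod_cast hK
  have hN0 : 0 < N := by linarith
  have h1N : 1 / N ≤ 1 / 3 := one_div_le_one_div_of_le (by norm_num) hN
  have hn1' : 1 / (4 * K) ≤ |n₁| := by
    by_contra hlt
    push Not at hlt
    have h4K : 1 / (4 * (K : ℝ)) ≤ 1 / 4 := one_div_le_one_div_of_le (by norm_num) (by linarith)
    rcases hn with h0 | h0 | h0
    · have e1 : |n₁ * a| ≤ 1 / 4 := by
        rw [abs_mul]
        calc |n₁| * |a| ≤ 1 / (4 * K) * K := mul_le_mul hlt.le ha (abs_nonneg _) (by positivity)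
          _ = 1 / 4 := by field_simp
      have e2 : |n₂ * b| ≤ 1 / 4 := by
        rw [abs_mul]
        calc |n₂| * |b| ≤ 1 / (4 * K) * K := mul_le_mul (h21.trans hlt.le) hb (abs_nonneg _)
              (by positivity)
          _ = 1 / 4 := by field_simp
      have e3 : |n₀| ≤ |n₀ + n₁ * a + n₂ * b| + |n₁ * a| + |n₂ * b| := by
        have e4 : n₀ = (n₀ + n₁ * a + n₂ * b) - n₁ * a - n₂ * b := by ring
        calc |n₀| = |(n₀ + n₁ * a + n₂ * b) - n₁ * a - n₂ * b| := by rw [← e4]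
          _ ≤ |(n₀ + n₁ * a + n₂ * b) - n₁ * a| + |n₂ * b| := abs_sub _ _
          _ ≤ _ := add_le_add (abs_sub _ _) le_rfl
      rw [h0] at e3
      linarith
    · rw [h0] at hlt
      linarith
    · linarith
  have hn10 : 0 < |n₁| := lt_of_lt_of_le (by positivity) hn1'
  have hne : n₁ ≠ 0 := abs_pos.1 hn10
  obtain ⟨B, hB⟩ : ∃ B : ℝ, B = ((⌊N * b⌋ : ℤ) : ℝ) / N := ⟨_, rfl⟩
  rw [← hB]
  have hbB : |b - B| ≤ 1 / N := by
    have h1 := Int.floor_le (N * b)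
    have h2 := Int.lt_floor_add_one (N * b)
    have e1 : b - B = (N * b - (⌊N * b⌋ : ℤ)) / N := by
      rw [hB]
      field_simp
    rw [e1, abs_div, abs_of_pos hN0]
    refine div_le_div_of_nonneg_right ?_ hN0.le
    rw [abs_le]
    constructor <;> linarith
  obtain ⟨cc, hcc⟩ : ∃ cc : ℝ, cc = -(n₀ + n₂ * B) / n₁ := ⟨_, rfl⟩
  rw [← hcc]
  have h1 : |N * a - N * cc| ≤ 4 * K + 1 := by
    have e1 : a - cc = (n₀ + n₁ * a + n₂ * b) / n₁ - n₂ / n₁ * (b - B) := by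
      rw [hcc]
      field_simp
      ring
    have e2 : |(n₀ + n₁ * a + n₂ * b) / n₁| ≤ 4 * K * (1 / N) := by
      rw [abs_div, div_le_iff₀ hn10]
      have : 1 ≤ 4 * K * |n₁| := by
        rw [div_le_iff₀ (by positivity)] at hn1'
        linarith
      calc _ ≤ 1 / N := h
        _ = 1 * (1 / N) := (one_mul _).symm
        _ ≤ 4 * K * |n₁| * (1 / N) := mul_le_mul_of_nonneg_right this (by positivity)
        _ = _ := by ring
    have e3 : |n₂ / n₁ * (b - B)| ≤ 1 / N := by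
      rw [abs_mul, abs_div]
      have : |n₂| / |n₁| ≤ 1 := (div_le_one hn10).2 h21
      calc _ ≤ 1 * (1 / N) := mul_le_mul this hbB (abs_nonneg _) (by norm_num)
        _ = _ := one_mul _
    rw [← mul_sub, abs_mul, abs_of_pos hN0, e1]
    have e4 := (abs_sub ((n₀ + n₁ * a + n₂ * b) / n₁) (n₂ / n₁ * (b - B))).trans (add_le_add e2 e3)
    calc N * _ ≤ N * (4 * K * (1 / N) + 1 / N) := mul_le_mul_of_nonneg_left e4 hN0.le
      _ = 4 * K + 1 := by field_simp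
  have k1 := abs_le.1 h1
  have k2 := Int.floor_le (N * a)
  have k3 := Int.lt_floor_add_one (N * a)
  have k4 := Int.floor_le (N * cc)
  have k5 := Int.lt_floor_add_one (N * cc)
  rw [abs_le]
  constructor
  · have h6 : (-(4 * K + 2 : ℝ)) < ((⌊N * a⌋ - ⌊N * cc⌋ : ℤ) : ℝ) := by
      push_cast
      linarith
    have h7 : (-((4 * K + 2 : ℕ) : ℤ)) < ⌊N * a⌋ - ⌊N * cc⌋ := by
      have : ((-((4 * K + 2 : ℕ) : ℤ) : ℤ) : ℝ) < ((⌊N * a⌋ - ⌊N * cc⌋ : ℤ) : ℝ) := by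
        push_cast at h6 ⊢
        exact h6
      exact_mod_cast this
    exact h7.le
  · have h6 : ((⌊N * a⌋ - ⌊N * cc⌋ : ℤ) : ℝ) < (4 * K + 2 : ℝ) := by
      push_cast
      linarith
    have h7 : ⌊N * a⌋ - ⌊N * cc⌋ < ((4 * K + 2 : ℕ) : ℤ) := by
      have : ((⌊N * a⌋ - ⌊N * cc⌋ : ℤ) : ℝ) < (((4 * K + 2 : ℕ) : ℤ) : ℝ) := by
        push_cast at h6 ⊢
        exact h6
      exact_mod_cast this
    exact h7.le

/-- **Near no line** which is a function of `r`. -/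
theorem nohyp_ent {p : Ω → ℝ} (hp : IsLaw p) {a b : Ω → ℝ} {r : Ω → R} {N θ : ℝ} {K : ℕ}
    (hN : 3 ≤ N) (hK : 1 ≤ K) (ha : ∀ ω, 0 < p ω → |a ω| ≤ K) (hb : ∀ ω, 0 < p ω → |b ω| ≤ K)
    (h : 2 * Real.log N - θ ≤ CH p (fun ω => (⌊N * a ω⌋, ⌊N * b ω⌋)) r) {c : ℝ}
    (hc : θ + Real.log 2 + 2 * Real.log (2 * K + 1) ≤
      c * (Real.log N - Real.log (8 * K + 5))) (hc0 : 0 < Real.log N - Real.log (8 * K + 5)) :
    Pool.D2Con.NoHyp p (fun ω => ![1, a ω, b ω]) r (1 / N) c := by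
  classical
  intro n hn
  have hN0 : 0 < N := by linarith
  have hK0 : (1 : ℝ) ≤ K := by exact_mod_cast hK
  obtain ⟨E, hE⟩ : ∃ E : Ω → Prop, E = fun ω => |∑ j, n (r ω) j * ![1, a ω, b ω] j| ≤ 1 / N :=
    ⟨_, rfl⟩
  rw [← hE]
  have hEv : ∀ ω, E ω → |n (r ω) 0 + n (r ω) 1 * a ω + n (r ω) 2 * b ω| ≤ 1 / N := by
    intro ω hω
    rw [hE] at hω
    have e1 : ∑ j, n (r ω) j * ![1, a ω, b ω] j =
        n (r ω) 0 + n (r ω) 1 * a ω + n (r ω) 2 * b ω := by
      rw [Fin.sum_univ_three]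
      simp
    simp only [e1] at hω
    exact hω
  have e0 : law p E True = Pb p E := by
    unfold law Pb
    refine Finset.sum_congr rfl fun ω _ => ?_
    by_cases h1 : E ω
    · rw [if_pos h1, if_pos (by simpa using h1)]
    · rw [if_neg h1, if_neg (by simpa using h1)]
  rw [e0]
  obtain ⟨sel, hsel⟩ : ∃ sel : R → Prop, sel = fun x => |n x 2| ≤ |n x 1| := ⟨_, rfl⟩
  obtain ⟨As, hAs⟩ : ∃ As : Ω → ℤ, As = fun ω => if sel (r ω) then ⌊N * a ω⌋ else ⌊N * b ω⌋ :=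
    ⟨_, rfl⟩
  obtain ⟨Bs, hBs⟩ : ∃ Bs : Ω → ℤ, Bs = fun ω => if sel (r ω) then ⌊N * b ω⌋ else ⌊N * a ω⌋ :=
    ⟨_, rfl⟩
  obtain ⟨R₀, hR₀⟩ : ∃ R₀ : ℕ, R₀ = ⌈N * K⌉₊ := ⟨_, rfl⟩
  have hfl : ∀ z : ℝ, |z| ≤ K → |(⌊N * z⌋ : ℤ)| ≤ (R₀ : ℤ) := by
    intro z hz
    have h1 := abs_le.1 hz
    have h2 : N * K ≤ R₀ := by rw [hR₀]; exact Nat.le_ceil _
    rw [abs_le]
    constructor
    · rw [Int.le_floor]
      push_cast
      nlinarith
    · have h3 : N * z ≤ R₀ := by nlinarith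
      have h4 : ((⌊N * z⌋ : ℤ) : ℝ) ≤ ((R₀ : ℤ) : ℝ) := by
        push_cast
        exact (Int.floor_le _).trans h3
      exact_mod_cast h4
  have hAR : ∀ ω, 0 < p ω → |As ω| ≤ (R₀ : ℤ) := by
    intro ω hω
    rw [hAs]
    show |if sel (r ω) then ⌊N * a ω⌋ else ⌊N * b ω⌋| ≤ (R₀ : ℤ)
    split_ifs
    · exact hfl _ (ha ω hω)
    · exact hfl _ (hb ω hω)
  have hBR : ∀ ω, 0 < p ω → |Bs ω| ≤ (R₀ : ℤ) := by
    intro ω hω
    rw [hBs]
    show |if sel (r ω) then ⌊N * b ω⌋ else ⌊N * a ω⌋| ≤ (R₀ : ℤ)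
    split_ifs
    · exact hfl _ (hb ω hω)
    · exact hfl _ (ha ω hω)
  have hR2 : (2 : ℝ) * R₀ + 1 ≤ N * (2 * K + 1) := by
    have h2 : (R₀ : ℝ) < N * K + 1 := by rw [hR₀]; exact Nat.ceil_lt_add_one (by positivity)
    nlinarith
  have hl0 : 0 ≤ Real.log (2 * (R₀ : ℝ) + 1) := Real.log_nonneg (by
    have : (0 : ℝ) ≤ R₀ := Nat.cast_nonneg _
    linarith)
  -- the two coordinates
  have g1 : CH p (fun ω => (⌊N * a ω⌋, ⌊N * b ω⌋)) r ≤
      CH p Bs r + CH p As (fun ω => (Bs ω, r ω)) := by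
    rw [← CH_chain hp.nonneg As Bs r]
    refine CH_mono_left hp.nonneg fun ω ω' _ _ h => ?_
    have h1 := Prod.ext_iff.1 h
    have h2 := Prod.ext_iff.1 h1.1
    have h3 : r ω = r ω' := h1.2
    have h4 : As ω = As ω' := h2.1
    have h5 : Bs ω = Bs ω' := h2.2
    rw [hAs] at h4
    rw [hBs] at h5
    simp only [← h3] at h4 h5
    by_cases hs : sel (r ω)
    · simp only [hs, if_true] at h4 h5
      exact Prod.ext h4 h5
    · simp only [hs, if_false] at h4 h5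
      exact Prod.ext h5 h4
  have g2 : CH p Bs r ≤ Real.log (2 * R₀ + 1) := by
    have h1 := CH_le_card hp.nonneg hp.sum_one Bs r (fun _ => Finset.Icc (-(R₀ : ℤ)) R₀)
      (fun ω hω => Finset.mem_Icc.2 (abs_le.1 (hBR ω hω)))
    refine h1.trans (le_of_eq ?_)
    have h6 : (Finset.Icc (-(R₀ : ℤ)) R₀).card = 2 * R₀ + 1 := by
      rw [Int.card_Icc]
      omega
    rw [h6, Ex_const hp.sum_one]
    push_cast
    rfl
  have g3 := few_ev hp As (fun ω => (Bs ω, r ω)) E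
    (fun z => if sel z.2 then ⌊N * (-(n z.2 0 + n z.2 2 * ((z.1 : ℤ) / N)) / n z.2 1)⌋ else
      ⌊N * (-(n z.2 0 + n z.2 1 * ((z.1 : ℤ) / N)) / n z.2 2)⌋) (4 * K + 2) R₀ hAR (by
    intro ω hω hEω
    have h1 := hEv ω hEω
    obtain ⟨-, j, hj⟩ := hn ω hω
    have hj' : |n (r ω) 0| = 1 ∨ |n (r ω) 1| = 1 ∨ |n (r ω) 2| = 1 := by
      fin_cases j
      · exact Or.inl hj
      · exact Or.inr (Or.inl hj)
      · exact Or.inr (Or.inr hj)
    rw [hAs, hBs]
    by_cases hs : sel (r ω)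
    · simp only [hs, if_true]
      have hs' : |n (r ω) 2| ≤ |n (r ω) 1| := by
        rw [hsel] at hs
        exact hs
      exact strip hK (by linarith) (hb ω hω) (ha ω hω) hs' hj' h1
    · simp only [hs, if_false]
      have hs' : |n (r ω) 1| ≤ |n (r ω) 2| := by
        rw [hsel] at hs
        exact (not_le.1 hs).le
      refine strip hK (by linarith) (ha ω hω) (hb ω hω) hs' ?_ ?_
      · rcases hj' with h2 | h2 | h2
        · exact Or.inl h2
        · exact Or.inr (Or.inr h2)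
        · exact Or.inr (Or.inl h2)
      · have e1 : n (r ω) 0 + n (r ω) 2 * b ω + n (r ω) 1 * a ω =
            n (r ω) 0 + n (r ω) 1 * a ω + n (r ω) 2 * b ω := by ring
        rw [e1]
        exact h1)
  have g4 : Real.log (2 * ((4 * K + 2 : ℕ) : ℝ) + 1) = Real.log (8 * K + 5) := by
    congr 1
    push_cast
    ring
  rw [g4] at g3
  have g5 : Real.log (2 * (R₀ : ℝ) + 1) ≤ Real.log N + Real.log (2 * K + 1) := by
    rw [← Real.log_mul (by positivity) (by positivity)]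
    exact Real.log_le_log (by positivity) hR2
  have g6 : Real.log N ≤ Real.log (2 * (R₀ : ℝ) + 1) := by
    refine Real.log_le_log hN0 ?_
    have h2 : N * K ≤ R₀ := by rw [hR₀]; exact Nat.le_ceil _
    nlinarith
  have hP0 : 0 ≤ Pb p E := Pool.MIC.Pb_nonneg hp.nonneg _
  have g7 : Pb p E * (Real.log N - Real.log (8 * K + 5)) ≤
      Pb p E * (Real.log (2 * (R₀ : ℝ) + 1) - Real.log (8 * K + 5)) :=
    mul_le_mul_of_nonneg_left (by linarith) hP0
  have g8 : Pb p E * (Real.log N - Real.log (8 * K + 5)) ≤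
      c * (Real.log N - Real.log (8 * K + 5)) := by nlinarith
  exact le_of_mul_le_mul_right g8 hc0

/-- **Three lines of a configuration in general position.** -/
theorem cfg_gp {p : Ω → ℝ} (hp : IsLaw p) {a b : Ω → ℝ} {r : Ω → R} (l : Ω → Λ) {N θ : ℝ} {K : ℕ}
    (hN : 3 ≤ N) (hK : 1 ≤ K) (ha : ∀ ω, 0 < p ω → |a ω| ≤ K) (hb : ∀ ω, 0 < p ω → |b ω| ≤ K)
    (h : 2 * Real.log N - θ ≤ CH p (fun ω => (⌊N * a ω⌋, ⌊N * b ω⌋)) r) {c : ℝ}
    (hc : θ + Real.log 2 + 2 * Real.log (2 * K + 1) ≤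
      c * (Real.log N - Real.log (8 * K + 5))) (hc0 : 0 < Real.log N - Real.log (8 * K + 5)) :
    Pb (cfg p r l 3 0) (fun v => |(a (v 1 0) - a (v 3 0)) * (b (v 2 0) - b (v 3 0)) -
      (a (v 2 0) - a (v 3 0)) * (b (v 1 0) - b (v 3 0))| < (1 / N) ^ 3) ≤ 3 * c := by
  classical
  have h1 := nohyp_ent hp hN hK ha hb h hc hc0
  have h2 := cpn_det hp h1 (by positivity)
  have h3 := Pool.MIC.Marg.Pb_eq (cfg_heads hp r l 3 0) (fun w : Fin (3 + 1) → Ω =>
    |(Matrix.of (fun i => ![1, a (w (Fin.succ i)), b (w (Fin.succ i))])).det| < (1 / N) ^ 3)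
  have h4 : ∀ v : Fin (3 + 1) → Fin (0 + 1) → Ω,
      (Matrix.of (fun i : Fin 3 => ![1, a (v (Fin.succ i) 0), b (v (Fin.succ i) 0)])).det =
      (a (v 1 0) - a (v 3 0)) * (b (v 2 0) - b (v 3 0)) -
      (a (v 2 0) - a (v 3 0)) * (b (v 1 0) - b (v 3 0)) := by
    intro v
    rw [Matrix.det_fin_three]
    simp only [Matrix.of_apply]
    have e1 : (Fin.succ (0 : Fin 3) : Fin 4) = 1 := rfl
    have e2 : (Fin.succ (1 : Fin 3) : Fin 4) = 2 := rfl
    have e3 : (Fin.succ (2 : Fin 3) : Fin 4) = 3 := rfl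
    rw [e1, e2, e3]
    simp
    ring
  have h5 : Pb (cfg p r l 3 0) (fun v => |(a (v 1 0) - a (v 3 0)) * (b (v 2 0) - b (v 3 0)) -
      (a (v 2 0) - a (v 3 0)) * (b (v 1 0) - b (v 3 0))| < (1 / N) ^ 3) =
      Pb (cfg p r l 3 0) (fun v => |(Matrix.of (fun i : Fin 3 =>
        ![1, a (v (Fin.succ i) 0), b (v (Fin.succ i) 0)])).det| < (1 / N) ^ 3) := by
    congr 1
    funext v
    rw [h4 v]
  rw [h5]
  refine (le_of_eq h3).trans ?_
  push_cast at h2
  exact h2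

end

end Pool.ND54
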