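import Pool.Agent.H54.ND.Tup

/-!
# The relation at the own time of a tuple

`own_q`: the samples `μ i` have the same time, the same charts `χ` of the window `t`, near own heights
over `ψ`, the heights of `c r` differing by `h i - h i₀`: the target and its derivative in the direction
`c r` are the values of one polynomial. `own_rel`: the quadrature form.
-/

set_option autoImplicit false

namespace Pool.ND54

open Finset Real MvPolynomial
open Pool.Agent.H49.Ent Pool.Agent.H32.Dense Pool.STK Pool.KA Pool.KSAT Pool.K2S Pool.PB Pool.S6C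
open Pool.GEN Pool.CHT Pool.D2R
open Pool.PB.Trl (rt rt_mem t_rt)
open Pool.NDD66 (op op_at op_deg ul ul_deg ul_eval ul_der rel_q Qk quad_err)

variable {m J : ℕ}

/-- **The path of the derivative** of the row label in the direction of `c r`, over the chart `ψ`. -/
noncomputable def cpp {ζ : Type} (w : ℕ) (c : ℕ → Fin m) (r : ℕ)
    (R : MvPolynomial (Option (Fin m)) ℝ) (s : ((Fin m → ℝ) × (Fin m → ℝ)) × ζ × ℕ) :
    Polynomial ℝ := MvPolynomial.aeval (lc w s) (pderiv (some (c r)) R)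

theorem cpp_deg {ζ : Type} (w : ℕ) (c : ℕ → Fin m) (r : ℕ) {D : ℕ}
    {R : MvPolynomial (Option (Fin m)) ℝ} (hR : R.totalDegree ≤ D)
    (s : ((Fin m → ℝ) × (Fin m → ℝ)) × ζ × ℕ) : (cpp w c r R s).natDegree ≤ D :=
  Pool.KBX.natDegree_aeval_le _ _ (natDegree_lc _ _)
    ((Pool.Agent.H50.PW.totalDegree_pderiv_le R (some (c r))).trans hR)

theorem cpp_at {F : Fam m J} {w : ℕ} (hw : w ≤ J) (c : ℕ → Fin m) (r : ℕ)
    (R : MvPolynomial (Option (Fin m)) ℝ) (ν : F.Ω) :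
    (cpp w c r R (slam F w ν)).eval (rt F w ν) = eval (bt F ν) (pderiv (some (c r)) R) := by
  unfold cpp
  rw [Pool.KBX.eval_aeval_poly]
  have e1 : (fun o => (lc w (slam F w ν) o).eval (rt F w ν)) = bt F ν :=
    funext fun o => eval_lc F hw ν o
  rw [e1]

/-- **The relation of the samples at one time.** -/
theorem own_q (D r : ℕ) : ∃ C : ℕ, 1 ≤ C ∧ ∀ {m J : ℕ} {F : Fam m J} {c : ℕ → Fin m}
    {w t k q B : ℕ} {gw gt : ℕ → ℕ} {ψ χ : ℕ → MvPolynomial (Option (Fin m)) ℝ} {ι : Type}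
    {R : ι → MvPolynomial (Option (Fin m)) ℝ} {h : ι → ℝ} {μ : ι → F.Ω} (i₀ : ι),
    Set.InjOn c (Set.Iio (r + 2)) → w ≤ J → t ≤ w + q → (∀ l ≤ r, gt l ≤ gw l + q) →
    (∀ l, (χ l).totalDegree ≤ D) → (∀ l, DepC c l (χ l)) →
    (∀ l, (ψ l).totalDegree ≤ D) → (∀ l, DepC c l (ψ l)) →
    (∀ i, ∀ l ≤ r + 1, |F.x (μ i) (c l) - eval (bt F (μ i)) (χ l)| ≤ 1 / 2 ^ gt l) →
    (∀ l ≤ r + 1, ∃ κ : ℝ, ∀ b, NBx c χ gt t (F.t (μ i₀)) l b →
      |eval b (χ l) - eval b (ψ l) - κ| ≤ 2 ^ k / 2 ^ gw l) →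
    (∀ i, F.T (μ i) = F.T (μ i₀)) →
    (∀ i, ∀ l < r, |(op w c ψ (slam F w (μ i)) l).eval (rt F w (μ i)) -
      (op w c ψ (slam F w (μ i₀)) l).eval (rt F w (μ i₀))| ≤ 1 / 2 ^ (gw l + B)) →
    (∀ i, |(op w c ψ (slam F w (μ i)) r).eval (rt F w (μ i)) -
      (op w c ψ (slam F w (μ i₀)) r).eval (rt F w (μ i₀)) - (h i - h i₀)| ≤
        1 / 2 ^ (gw r + B)) →
    (r + 2) * q + C * (k + 1) ≤ B →
    (∀ i, |eval (bt F (μ i)) (pderiv (some (c r)) (R i - χ (r + 1)))| ≤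
      2 ^ k * 2 ^ gt r / 2 ^ gt (r + 1)) →
    (∀ i, |h i - h i₀| ≤ 2 ^ k / 2 ^ gt r) →
    ∃ Q : Polynomial ℝ, Q.natDegree ≤ D ∧
      (∀ i, |(op w c ψ (slam F w (μ i)) (r + 1)).eval (rt F w (μ i)) - Q.eval (h i)| ≤
        2 ^ (C * (k + 1)) * (1 / 2 ^ gt (r + 1) + 2 ^ ((r + 2) * q) / 2 ^ (gw (r + 1) + B))) ∧
      ∀ i, |(cpp w c r (R i - ψ (r + 1)) (slam F w (μ i))).eval (rt F w (μ i)) -
        (Polynomial.derivative Q).eval (h i)| ≤ 2 ^ (C * (k + 1)) * 2 ^ gt r *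
        (1 / 2 ^ gt (r + 1) + 2 ^ ((r + 2) * q) / 2 ^ (gw (r + 1) + B)) := by
  classical
  obtain ⟨C, hC, hrel⟩ := rel_q D r
  refine ⟨C, hC, ?_⟩
  intro m J F c w t k q B gw gt ψ χ ι R h μ i₀ hc hwJ htq hg hχ hχd hψ hψd hpos hcmp hT hnear hnr
    hB hR hh
  have ht : ∀ i, F.t (μ i) = F.t (μ i₀) := fun i => by
    unfold Fam.t
    rw [hT i]
  have key := hrel (F := F) (c := c) (w := w) (t := t) (k := k) (q := q) (B := B) (gw := gw)
    (gt := gt) (ψ := ψ) (χ := fun _ => χ) (R := R) (y := fun i => h i - h i₀) (μ := μ)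
    (b := bt F (μ i₀)) i₀ hc htq hg (fun _ => hχ) (fun _ => hχd) hψ hψd hpos
    (fun i l hl => by
      obtain ⟨κ, h1⟩ := hcmp l hl
      exact ⟨κ, fun b hb => h1 b (by rw [← ht i]; exact hb)⟩)
    (fun i => by
      have e : bt F (μ i₀) none = F.t (μ i) := (ht i).symm
      rw [e, sub_self, abs_zero]
      positivity)
    (fun i l hl => by
      have h1 := hnear i l hl
      rw [op_at hwJ, op_at hwJ, abs_sub_comm] at h1
      exact h1)
    (fun i => by
      have h1 := hnr i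
      rw [op_at hwJ, op_at hwJ] at h1
      have e : bt F (μ i₀) (some (c r)) + (h i - h i₀) - eval (bt F (μ i₀)) (ψ r) -
          (F.x (μ i) (c r) - eval (bt F (μ i)) (ψ r)) =
          -(F.x (μ i) (c r) - eval (bt F (μ i)) (ψ r) -
            (F.x (μ i₀) (c r) - eval (bt F (μ i₀)) (ψ r)) - (h i - h i₀)) := by
        have : bt F (μ i₀) (some (c r)) = F.x (μ i₀) (c r) := rfl
        rw [this]
        ring
      rw [e, abs_neg]
      exact h1) hB hR hh (fun i z hz => by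
      rw [sub_self, abs_zero]
      positivity)
  obtain ⟨k1, k2⟩ := key
  refine ⟨(ul (bt F (μ i₀)) (some (c r)) (χ (r + 1) - ψ (r + 1))).comp
    (Polynomial.X + Polynomial.C (-h i₀)), ?_, fun i => ?_, fun i => ?_⟩
  · refine Polynomial.natDegree_comp_le.trans ?_
    rw [Polynomial.natDegree_X_add_C, mul_one]
    exact ul_deg _ _ ((totalDegree_sub _ _).trans (max_le (hχ _) (hψ _)))
  · rw [op_at hwJ, Polynomial.eval_comp, Polynomial.eval_add, Polynomial.eval_X,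
      Polynomial.eval_C, ← sub_eq_add_neg]
    exact k1 i
  · rw [cpp_at hwJ, Polynomial.derivative_comp, Polynomial.eval_mul, Polynomial.eval_comp,
      Polynomial.eval_add, Polynomial.eval_X, Polynomial.eval_C, ← sub_eq_add_neg]
    have e : Polynomial.eval (h i) (Polynomial.derivative (Polynomial.X +
        Polynomial.C (-h i₀))) = 1 := by
      rw [Polynomial.derivative_add, Polynomial.derivative_X, Polynomial.derivative_C, add_zero,
        Polynomial.eval_one]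
    rw [e, one_mul]
    exact k2 i

/-- **The quadrature form** at the own time. -/
theorem own_quad {D : ℕ} {Q : Polynomial ℝ} {nv cv h : Fin (2 * D + 1 + 1) → ℝ} {η η' s Su Qb : ℝ}
    (hQ : Q.natDegree ≤ D) (hs : 0 < s) (hSu : 0 ≤ Su) (hQb : Qb = (Su / s) ^ (D - 1) * Su)
    (hη' : 0 ≤ η')
    (hsep : ∀ i i', i ≠ i' → s ≤ |h i - h i'| ∧ |h i - h i'| ≤ Su)
    (h1 : ∀ i, |nv i - Q.eval (h i)| ≤ η)
    (h2 : ∀ i, |cv i - (Polynomial.derivative Q).eval (h i)| ≤ η') (i : Fin (2 * D + 1 + 1)) :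
    |nv i - nv 0 - ∑ k : Fin D, (Qk (fun k => h (ai k)) (h 0) k).eval (h i) * cv (ai k)| ≤
      2 * η + D * Qb * η' := by
  have hle : ∀ i j, |h i - h j| ≤ Su := by
    intro i j
    by_cases hij : i = j
    · rw [hij, sub_self, abs_zero]
      exact hSu
    · exact (hsep i j hij).2
  have hinj : Function.Injective (fun k : Fin D => h (ai k)) := by
    intro k k' hkk
    by_contra hne
    have h3 := (hsep (ai k) (ai k') fun h' => hne (ai_inj h')).1
    have h4 : h (ai k) = h (ai k') := hkk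
    rw [h4, sub_self, abs_zero] at h3
    linarith
  have key := quad_err hinj hQ (h1 i) (h1 0) (fun k => h2 (ai k))
  refine key.trans ?_
  have h3 : ∑ k : Fin D, |(Qk (fun k => h (ai k)) (h 0) k).eval (h i)| ≤ D * Qb := by
    refine (Finset.sum_le_sum (g := fun _ => Qb) fun k _ => ?_).trans (le_of_eq ?_)
    · rw [hQb]
      refine (Pool.NDD66.Qk_le (D := D) (y := fun k => h (ai k)) (S := Su) hs
        (fun k k' hkk => (hsep _ _ fun h' => hkk (ai_inj h')).1) (fun k => hle _ _)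
        (fun k => hle _ _) k).trans ?_
      exact mul_le_mul_of_nonneg_left (hle _ _) (by positivity)
    · rw [Finset.sum_const, Finset.card_univ, Fintype.card_fin, nsmul_eq_mul]
  have h4 := mul_le_mul_of_nonneg_right h3 hη'
  linarith

/-! ### The integer time of a window -/

/-- The integer time in the window. -/
def ttw (F : Fam m J) (w : ℕ) (ω : F.Ω) : ℤ :=
  ((F.T ω % 2 ^ (J - w) : ℕ) : ℤ) - ((2 ^ (J - w - 1) : ℕ) : ℤ)

theorem ttw_le (F : Fam m J) {w : ℕ} (hw : w < J) (ω : F.Ω) :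
    |ttw F w ω| ≤ ((2 ^ (J - w - 1) : ℕ) : ℤ) := by
  have h1 : F.T ω % 2 ^ (J - w) < 2 ^ (J - w) := Nat.mod_lt _ (by positivity)
  have h2 : 2 ^ (J - w) = 2 * 2 ^ (J - w - 1) := by
    rw [← pow_succ']
    congr 1
    omega
  unfold ttw
  rw [abs_le]
  rw [h2] at h1
  constructor
  · have : (0 : ℤ) ≤ ((F.T ω % 2 ^ (J - w) : ℕ) : ℤ) := Int.natCast_nonneg _
    linarith
  · have h3 : ((F.T ω % 2 ^ (J - w) : ℕ) : ℤ) < ((2 * 2 ^ (J - w - 1) : ℕ) : ℤ) := by
      rw [h2]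
      exact_mod_cast h1
    push_cast at h3 ⊢
    linarith

theorem tu_ttw (F : Fam m J) {w : ℕ} (hw : w < J) (ω : F.Ω) :
    tu (2 ^ (J - w - 1)) (ttw F w ω) = rt F w ω := by
  have h2 : (2 : ℕ) ^ (J - w) = 2 * 2 ^ (J - w - 1) := by
    rw [← pow_succ']
    congr 1
    omega
  unfold tu ttw rt
  have h3 : (((2 : ℕ) ^ (J - w) : ℕ) : ℝ) = 2 * (((2 : ℕ) ^ (J - w - 1) : ℕ) : ℝ) := by
    exact_mod_cast h2
  have h4 : (0 : ℝ) < (((2 : ℕ) ^ (J - w - 1) : ℕ) : ℝ) := by positivity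
  rw [h3]
  generalize F.T ω % 2 ^ (J - w) = x
  push_cast at h4 ⊢
  field_simp
  ring

theorem ttw_full (F : Fam m J) {A : F.Ω → Prop} (hA : 0 < Pe F.p A) {w e : ℝ}
    (hw1 : ⌊w * J⌋₊ < J)
    (h : ((1 - w) * Real.log 2 - e) * J ≤
      CH (Pool.Agent.H49.Ent.cond F.p A True) F.T (slam F ⌊w * J⌋₊)) :
    Real.log (2 * ((2 ^ (J - ⌊w * J⌋₊ - 1) : ℕ) : ℝ) + 1) - (e * J + 2 * Real.log 2) ≤
      CH (Pool.Agent.H49.Ent.cond F.p A True) (ttw F ⌊w * J⌋₊) (slam F ⌊w * J⌋₊) := by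
  obtain ⟨W, hW⟩ : ∃ W, W = ⌊w * J⌋₊ := ⟨_, rfl⟩
  have hWJ : w * J < W + 1 := by rw [hW]; exact Nat.lt_floor_add_one _
  rw [← hW] at h hw1 ⊢
  have hq := isLaw_cond F.isLaw hA
  have h2 : (2 : ℕ) ^ (J - W) = 2 * 2 ^ (J - W - 1) := by
    rw [← pow_succ']
    congr 1
    omega
  have h3 : (2 : ℝ) * ((2 ^ (J - W - 1) : ℕ) : ℝ) + 1 ≤ 2 ^ (J - W + 1) := by
    have h4 : (2 : ℝ) * ((2 ^ (J - W - 1) : ℕ) : ℝ) = 2 ^ (J - W) := by
      have : ((2 : ℕ) ^ (J - W) : ℕ) = ((2 * 2 ^ (J - W - 1) : ℕ) : ℕ) := h2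
      have h5 : (((2 : ℕ) ^ (J - W) : ℕ) : ℝ) = ((2 * 2 ^ (J - W - 1) : ℕ) : ℝ) := by
        exact_mod_cast this
      push_cast at h5 ⊢
      exact h5.symm
    rw [h4, pow_succ]
    have : (1 : ℝ) ≤ 2 ^ (J - W) := one_le_pow₀ (by norm_num)
    linarith
  have h4 : Real.log (2 * ((2 ^ (J - W - 1) : ℕ) : ℝ) + 1) ≤ ((1 - w) * J + 2) * Real.log 2 := by
    refine (Real.log_le_log (by positivity) h3).trans ?_
    rw [Real.log_pow]
    refine mul_le_mul_of_nonneg_right ?_ (Real.log_nonneg (by norm_num))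
    have h5 : ((J - W : ℕ) : ℝ) = (J : ℝ) - W := by
      rw [Nat.cast_sub hw1.le]
    push_cast
    rw [h5]
    linarith
  have h5 : CH (Pool.Agent.H49.Ent.cond F.p A True) F.T (slam F W) ≤
      CH (Pool.Agent.H49.Ent.cond F.p A True) (ttw F W) (slam F W) := by
    have h6 : CH (Pool.Agent.H49.Ent.cond F.p A True) (fun ω => (F.T ω, slam F W ω))
        (slam F W) ≤ CH (Pool.Agent.H49.Ent.cond F.p A True)
          (fun ω => (ttw F W ω, slam F W ω)) (slam F W) := by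
      refine CH_mono_left hq.nonneg fun ω ω' _ _ h7 => ?_
      have h8 := Prod.ext_iff.1 (Prod.ext_iff.1 h7).1
      simp only at h8
      have h9 : F.T1 W ω = F.T1 W ω' := congrArg (fun x => x.2.2) h8.2
      have h10 : F.T ω % 2 ^ (J - W) = F.T ω' % 2 ^ (J - W) := by
        have := h8.1
        unfold ttw at this
        have h11 : ((F.T ω % 2 ^ (J - W) : ℕ) : ℤ) = ((F.T ω' % 2 ^ (J - W) : ℕ) : ℤ) := by
          linarith
        exact_mod_cast h11
      unfold Fam.T1 at h9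
      refine Prod.ext ?_ h8.2
      show F.T ω = F.T ω'
      rw [← Nat.div_add_mod (F.T ω) (2 ^ (J - W)), h9, h10, Nat.div_add_mod]
    have h7 := CH_chain hq.nonneg F.T (slam F W) (slam F W)
    have h8 := CH_chain hq.nonneg (ttw F W) (slam F W) (slam F W)
    have h9 : CH (Pool.Agent.H49.Ent.cond F.p A True) (slam F W) (slam F W) = 0 :=
      CH_eq_zero hq.nonneg fun _ _ _ _ h => h
    have h10 : CH (Pool.Agent.H49.Ent.cond F.p A True) F.T (slam F W) ≤
        CH (Pool.Agent.H49.Ent.cond F.p A True) F.T (fun ω => (slam F W ω, slam F W ω)) :=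
      CH_mono_cond hq.nonneg fun _ _ _ _ h => Prod.ext h h
    have h11 : CH (Pool.Agent.H49.Ent.cond F.p A True) (ttw F W)
        (fun ω => (slam F W ω, slam F W ω)) ≤
        CH (Pool.Agent.H49.Ent.cond F.p A True) (ttw F W) (slam F W) :=
      CH_mono_cond hq.nonneg fun _ _ _ _ h => (Prod.ext_iff.1 h).1
    linarith
  have hJ0 : (0 : ℝ) ≤ J := Nat.cast_nonneg J
  have h6 : ((1 - w) * Real.log 2 - e) * J = (1 - w) * J * Real.log 2 - e * J := by ring
  rw [h6] at h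
  have h7 : ((1 - w) * J + 2) * Real.log 2 = (1 - w) * J * Real.log 2 + 2 * Real.log 2 := by ring
  linarith

end Pool.ND54
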