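import Pool.Agent.H54.ND.Rla

/-!
# The near-dead step, event level

`nd_evt`: for the copies of configurations (one point, its line and three more lines) over the common
datum `yN`: off a small mass, the divided difference of the slopes of the own lines vanishes.
`OwnE`, `LinE`: the geometric inputs: the relation at the own time over one chart of the window `t`,
and the linear relation of finitely many lines over one near record.
-/

set_option autoImplicit false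

namespace Pool.ND54

open Finset Real MvPolynomial
open Pool.Agent.H49.Ent Pool.Agent.H32.Dense Pool.STK Pool.KA Pool.KSAT Pool.K2S Pool.PB Pool.S6C
open Pool.GEN hiding Det
open Pool.CHT Pool.D2R Pool.LA91 Pool.RCD
open Pool.PB.Trl (rt rt_mem t_rt)
open Pool.V0F (cR det_cR)
open Pool.NDC42
open Pool.BFL (Pb)
open Pool.STB (Pb_mono Pb_or)
open Pool.CLU (cpn_law cpn_pos cpn_marg)
open Pool.NDD66 (op op_at op_deg op_der ov mu Lam Lam_le gA0 gA n0P njP n0P_deg njP_deg RelO det3o)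

variable {m J : ℕ}

/-- **The path polynomials of the gradient** of the row label of a line, over the labels `H`:
`0, 1, 2` the natural components, `3` the component of the time. -/
noncomputable def grP (F : Fam m J) (c : ℕ → Fin m) (D W : ℕ)
    (H Hr : LnT F → ℕ → MvPolynomial (Option (Fin m)) ℝ) (s : LnT F) (j : ℕ) : Polynomial ℝ :=
  MvPolynomial.aeval (lc W s) (if j = 3 then n0P c 3 (H s) (D + 3 * D) (Hr s 3 - H s 3) else
    njP c 3 (H s) (D + 3 * D) (Hr s 3 - H s 3) j)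

theorem grP_deg (F : Fam m J) (c : ℕ → Fin m) (D W : ℕ)
    (H Hr : LnT F → ℕ → MvPolynomial (Option (Fin m)) ℝ) (s : LnT F) (j : ℕ) :
    (grP F c D W H Hr s j).natDegree ≤ D + 3 * D := by
  unfold grP
  refine Pool.KBX.natDegree_aeval_le _ _ (natDegree_lc _ _) ?_
  split_ifs
  · exact n0P_deg _ _ _ _ _
  · exact njP_deg _ _ _ _ _ _

/-- **The relation at the own time**, for samples with the same charts of the windows `w`, `t`. -/
def OwnE (F : Fam m J) (A : F.Ω → Prop) (c : ℕ → Fin m) (D D₂ : ℕ) (w t : ℝ)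
    (H Hr : LnT F → ℕ → MvPolynomial (Option (Fin m)) ℝ) (δn : ℕ → ℝ) (Sh η η' : ℝ) : Prop :=
  ∀ {ι : Type} (i₀ : ι) (μ : ι → F.Ω) (h : ι → ℝ), (∀ i, A (μ i)) →
    (∀ i, F.T (μ i) = F.T (μ i₀)) → (∀ i, cR F A w (μ i) = cR F A w (μ i₀)) →
    (∀ i, cR F A t (μ i) = cR F A t (μ i₀)) →
    (∀ i, ∀ l < 2, |(opl F c ⌊w * J⌋₊ H l (μ i)).eval (rt F ⌊w * J⌋₊ (μ i)) -
      (opl F c ⌊w * J⌋₊ H l (μ i₀)).eval (rt F ⌊w * J⌋₊ (μ i₀))| ≤ δn l) →
    (∀ i, |(opl F c ⌊w * J⌋₊ H 2 (μ i)).eval (rt F ⌊w * J⌋₊ (μ i)) -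
      (opl F c ⌊w * J⌋₊ H 2 (μ i₀)).eval (rt F ⌊w * J⌋₊ (μ i₀)) - (h i - h i₀)| ≤ δn 2) →
    (∀ i, |h i - h i₀| ≤ Sh) →
    ∃ Q : Polynomial ℝ, Q.natDegree ≤ D ∧
      (∀ i, |(opl F c ⌊w * J⌋₊ H 3 (μ i)).eval (rt F ⌊w * J⌋₊ (μ i)) - Q.eval (h i)| ≤ η) ∧
      ∀ i, |(grP F c D₂ ⌊w * J⌋₊ H Hr (slam F ⌊w * J⌋₊ (μ i)) 2).eval (rt F ⌊w * J⌋₊ (μ i)) -
        (Polynomial.derivative Q).eval (h i)| ≤ η'

/-- **The linear relation of finitely many lines**: the lines `ν i` cross the lines `ω i` over one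
near record, and have near own velocities. -/
def LinE (F : Fam m J) (A : F.Ω → Prop) (c : ℕ → Fin m) (D W : ℕ)
    (H Hr : LnT F → ℕ → MvPolynomial (Option (Fin m)) ℝ) (SR : F.Ω → F.Ω → Prop) (δv : ℕ → ℝ)
    (El : ℝ) : Prop :=
  ∀ {ι : Type} [Fintype ι] (i₀ : ι) (lam : ι → ℝ) (ω ν : ι → F.Ω) (ω₀ : F.Ω)
    (ψ : ℕ → MvPolynomial (Option (Fin m)) ℝ) (ε : ℝ), (∀ i, A (ω i)) → (∀ i, A (ν i)) →
    (∀ i, SR (ω i) (ν i)) → (∀ i, F.T (ω i) = F.T ω₀) → (∀ i, H (slam F W (ω i)) = ψ) →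
    |∑ i, lam i * ov F c ψ (ν i) 3| ≤ ε →
    (∀ i, ∀ l ≤ 2, |ov F c ψ (ν i) l - ov F c ψ (ν i₀) l| ≤ δv l) →
    |(gA0 W c 3 D ψ lam (fun i => slam F W (ω i)) (fun i => Hr (slam F W (ω i)) 3)).eval
        (rt F W ω₀) +
      ∑ l ∈ range 3, (gA W c 3 D ψ lam (fun i => slam F W (ω i))
        (fun i => Hr (slam F W (ω i)) 3) l).eval (rt F W ω₀) * ov F c ψ (ν i₀) l| ≤
      ε + (∑ i, |lam i|) * El

/-- The constant of the path of `c 2`, from its code. -/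
noncomputable def hh (F : Fam m J) (c : ℕ → Fin m) (D : ℕ) (w : ℝ) (s : ℝ)
    (H : LnT F → ℕ → MvPolynomial (Option (Fin m)) ℝ) (ω : F.Ω) : ℝ :=
  hLc J s (pcC F c D w H 2 0 s ω 0)

/-- **The law of the copies.** -/
noncomputable def ndQ (F : Fam m J) (A : F.Ω → Prop) (c : ℕ → Fin m) (D : ℕ) (w t x' : ℝ)
    (n : ℕ → ℝ) (nt : ℝ) (H : LnT F → ℕ → MvPolynomial (Option (Fin m)) ℝ) :
    (Fin (2 * D + 1 + 1) → Fin (3 + 1) → Fin (0 + 1) → F.Ω) → ℝ :=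
  Pool.K2S.cpn (cfg (Pool.Agent.H49.Ent.cond F.p A True) (rP F A c w x' n H)
    (slam F ⌊w * J⌋₊) 3 0) (yN F A c D w t n nt H 3) (2 * D + 1)

/-- **The support of the law of the copies.** -/
theorem ndQ_pos {F : Fam m J} {A : F.Ω → Prop} (hA : 0 < Pe F.p A) {c : ℕ → Fin m} {D : ℕ}
    {w t x' : ℝ} {n : ℕ → ℝ} {nt : ℝ} {H : LnT F → ℕ → MvPolynomial (Option (Fin m)) ℝ}
    {v : Fin (2 * D + 1 + 1) → Fin (3 + 1) → Fin (0 + 1) → F.Ω}
    (h : 0 < ndQ F A c D w t x' n nt H v) :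
    (∀ i j, A (v i j 0)) ∧ (∀ i j, rP F A c w x' n H (v i j 0) = rP F A c w x' n H (v i 0 0)) ∧
    (∀ i, F.T (v i 0 0) = F.T (v 0 0 0)) ∧ (∀ i, cR F A t (v i 0 0) = cR F A t (v 0 0 0)) ∧
    ∀ i j, x0 F A c D w n nt H (v i j 0) = x0 F A c D w n nt H (v 0 j 0) := by
  have hp := isLaw_cond F.isLaw hA
  have h1 := cpn_pos (cfg_law hp (rP F A c w x' n H) (slam F ⌊w * J⌋₊) 3 0).nonneg
    (yN F A c D w t n nt H 3) (2 * D + 1) v h
  refine ⟨fun i j => cond_A ((cfg_pos hp _ _ (h1.1 i)).1 j 0),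
    fun i j => (cfg_pos hp _ _ (h1.1 i)).2.2 j, fun i => ?_, fun i => ?_, fun i j => ?_⟩
  · exact (Prod.ext_iff.1 (Prod.ext_iff.1 (h1.2 i)).1).1
  · exact (Prod.ext_iff.1 (Prod.ext_iff.1 (h1.2 i)).1).2
  · exact congrFun (Prod.ext_iff.1 (h1.2 i)).2 j

/-- The gradient combinations through `grP`. -/
theorem gA_grP {F : Fam m J} (c : ℕ → Fin m) (D W : ℕ)
    {H Hr : LnT F → ℕ → MvPolynomial (Option (Fin m)) ℝ} {ι : Type} [Fintype ι] (lam : ι → ℝ)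
    (ω : ι → F.Ω) {ψ : ℕ → MvPolynomial (Option (Fin m)) ℝ} (hψ : ∀ i, H (slam F W (ω i)) = ψ) :
    gA0 W c 3 D ψ lam (fun i => slam F W (ω i)) (fun i => Hr (slam F W (ω i)) 3) =
      ∑ i, Polynomial.C (lam i) * grP F c D W H Hr (slam F W (ω i)) 3 ∧
    ∀ l < 3, gA W c 3 D ψ lam (fun i => slam F W (ω i)) (fun i => Hr (slam F W (ω i)) 3) l =
      ∑ i, Polynomial.C (lam i) * grP F c D W H Hr (slam F W (ω i)) l := by
  constructor
  · unfold gA0 grP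
    refine Finset.sum_congr rfl fun i _ => ?_
    rw [if_pos rfl, hψ i]
  · intro l hl
    unfold gA grP
    refine Finset.sum_congr rfl fun i _ => ?_
    rw [if_neg (by omega), hψ i]

/-- **The relation of the three lines of a tuple.** -/
theorem rel_tup {F : Fam m J} {A : F.Ω → Prop} {c : ℕ → Fin m} {D D₂ W : ℕ}
    {H Hr : LnT F → ℕ → MvPolynomial (Option (Fin m)) ℝ} {SR : F.Ω → F.Ω → Prop} {δv : ℕ → ℝ}
    {El : ℝ} (hLn : LinE F A c D₂ W H Hr SR δv El) {L : Type} {hL : L → ℝ} {ell : F.Ω → L}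
    {NR : ℕ → L → Polynomial ℝ} {δ : ℕ → ℝ} (hδ : ∀ i, 0 ≤ δ i)
    (hNR : ∀ ω, A ω → ∀ i, ∀ τ ∈ Set.Icc (0 : ℝ) 1,
      |(grP F c D₂ W H Hr (slam F W ω) i).eval τ - (NR i (ell ω)).eval τ| ≤ δ i)
    {Λ : Type} {ls : Λ} {v ν : Fin (2 * D + 1 + 1) → F.Ω} {ψ : ℕ → MvPolynomial (Option (Fin m)) ℝ}
    {Lm εv : ℝ} {Uv : ℕ → ℝ} (hv : ∀ i, A (v i)) (hν : ∀ i, A (ν i)) (hSR : ∀ i, SR (v i) (ν i))
    (hT : ∀ i, F.T (v i) = F.T (v 0)) (hψ : ∀ i, H (slam F W (v i)) = ψ)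
    (hlm : Lam (fun k : Fin (D + 2) => hL (ell (v (ti k)))) ≤ Lm)
    (hov : |∑ k : Fin (D + 2), mu (fun k => hL (ell (v (ti k)))) k * ov F c ψ (ν (ti k)) 3| ≤ εv)
    (hnear : ∀ i, ∀ l ≤ 2, |ov F c ψ (ν i) l - ov F c ψ (ν 0) l| ≤ δv l) (hEl : 0 ≤ El)
    (hU : ∀ l ≤ 2, |ov F c ψ (ν 0) l| ≤ Uv l) :
    |(PAr hL NR (ls, fun i => ell (v i)) 3).eval (rt F W (v 0)) + ∑ l ∈ range 3,
      (PAr hL NR (ls, fun i => ell (v i)) l).eval (rt F W (v 0)) * ov F c ψ (ν 0) l| ≤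
      εv + Lm * (El + δ 3 + ∑ l ∈ range 3, δ l * Uv l) := by
  obtain ⟨lam, hlam⟩ : ∃ lam, lam = mu (fun k : Fin (D + 2) => hL (ell (v (ti k)))) := ⟨_, rfl⟩
  obtain ⟨θ, hθ⟩ : ∃ θ, θ = rt F W (v 0) := ⟨_, rfl⟩
  have hθm : θ ∈ Set.Icc (0 : ℝ) 1 := by
    rw [hθ]
    have := rt_mem F W (v 0)
    exact ⟨this.1, this.2⟩
  have h0 : (ti (0 : Fin (D + 2)) : Fin (2 * D + 1 + 1)) = 0 := rfl
  have h1 := hLn (ι := Fin (D + 2)) 0 lam (fun k => v (ti k)) (fun k => ν (ti k)) (v 0) ψ εv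
    (fun k => hv _) (fun k => hν _) (fun k => hSR _) (fun k => hT _) (fun k => hψ _) (by
      rw [hlam]
      exact hov) (fun k l hl => hnear _ l hl)
  obtain ⟨g0, g1⟩ := gA_grP (H := H) (Hr := Hr) c D₂ W lam (fun k => v (ti k)) (ψ := ψ)
    (fun k => hψ _)
  rw [g0, ← hθ] at h1
  have e2 : ∑ l ∈ range 3, (gA W c 3 D₂ ψ lam (fun k => slam F W (v (ti k)))
        (fun k => Hr (slam F W (v (ti k))) 3) l).eval θ * ov F c ψ (ν (ti 0)) l =
      ∑ l ∈ range 3, (∑ k : Fin (D + 2), Polynomial.C (lam k) *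
        grP F c D₂ W H Hr (slam F W (v (ti k))) l).eval θ * ov F c ψ (ν 0) l := by
    refine Finset.sum_congr rfl fun l hl => ?_
    rw [g1 l (Finset.mem_range.1 hl)]
    rfl
  rw [e2] at h1
  have hLam0 : 0 ≤ Lam (fun k : Fin (D + 2) => hL (ell (v (ti k)))) :=
    Finset.sum_nonneg fun _ _ => abs_nonneg _
  have h2 : ∀ i, |(∑ k : Fin (D + 2), Polynomial.C (lam k) *
      grP F c D₂ W H Hr (slam F W (v (ti k))) i).eval θ -
      (PAr hL NR (ls, fun i => ell (v i)) i).eval θ| ≤ Lm * δ i := by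
    intro i
    have h3 := PAr_near (D := D) hL (NR := NR) (ls, fun i => ell (v i)) i
      (N := fun k => grP F c D₂ W H Hr (slam F W (v (ti k))) i) (δ := δ i) (τ := θ)
      (fun k => hNR _ (hv _) i θ hθm)
    rw [Polynomial.eval_finsetSum]
    have e3 : ∑ k : Fin (D + 2), (Polynomial.C (lam k) *
        grP F c D₂ W H Hr (slam F W (v (ti k))) i).eval θ =
        ∑ k : Fin (D + 2), mu (fun k => hL (ell (v (ti k)))) k *
          (grP F c D₂ W H Hr (slam F W (v (ti k))) i).eval θ := by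
      refine Finset.sum_congr rfl fun k _ => ?_
      rw [Polynomial.eval_mul, Polynomial.eval_C, hlam]
    rw [e3]
    exact h3.trans (mul_le_mul_of_nonneg_right hlm (hδ i))
  have hLs : ∑ k, |lam k| ≤ Lm := by
    rw [hlam]
    exact hlm
  have h4 : (∑ k, |lam k|) * El ≤ Lm * El := mul_le_mul_of_nonneg_right hLs hEl
  obtain ⟨G, hG⟩ : ∃ G : ℕ → ℝ, G = fun i => (∑ k : Fin (D + 2), Polynomial.C (lam k) *
      grP F c D₂ W H Hr (slam F W (v (ti k))) i).eval θ := ⟨_, rfl⟩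
  obtain ⟨P, hP⟩ : ∃ P : ℕ → ℝ, P = fun i => (PAr hL NR (ls, fun i => ell (v i)) i).eval θ :=
    ⟨_, rfl⟩
  have hG' : ∀ i, (∑ k : Fin (D + 2), Polynomial.C (lam k) *
      grP F c D₂ W H Hr (slam F W (v (ti k))) i).eval θ = G i := fun i => by rw [hG]
  have hP' : ∀ i, (PAr hL NR (ls, fun i => ell (v i)) i).eval θ = P i := fun i => by rw [hP]
  rw [← hθ]
  simp only [hG', hP'] at h1 h2 ⊢
  have e4 : P 3 + ∑ l ∈ range 3, P l * ov F c ψ (ν 0) l =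
      (G 3 + ∑ l ∈ range 3, G l * ov F c ψ (ν 0) l) - (G 3 - P 3) -
        ∑ l ∈ range 3, (G l - P l) * ov F c ψ (ν 0) l := by
    have : ∑ l ∈ range 3, (G l - P l) * ov F c ψ (ν 0) l =
        ∑ l ∈ range 3, G l * ov F c ψ (ν 0) l - ∑ l ∈ range 3, P l * ov F c ψ (ν 0) l := by
      rw [← Finset.sum_sub_distrib]
      exact Finset.sum_congr rfl fun l _ => by ring
    rw [this]
    ring
  rw [e4]
  have h5 : |∑ l ∈ range 3, (G l - P l) * ov F c ψ (ν 0) l| ≤ Lm * ∑ l ∈ range 3, δ l * Uv l := by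
    rw [Finset.mul_sum]
    refine (Finset.abs_sum_le_sum_abs _ _).trans (Finset.sum_le_sum fun l hl => ?_)
    have hl' := Finset.mem_range.1 hl
    rw [abs_mul, ← mul_assoc]
    exact mul_le_mul (h2 l) (hU l (by omega)) (abs_nonneg _) ((abs_nonneg _).trans (h2 l))
  have h6 := (abs_sub (G 3 + ∑ l ∈ range 3, G l * ov F c ψ (ν 0) l - (G 3 - P 3))
    (∑ l ∈ range 3, (G l - P l) * ov F c ψ (ν 0) l)).trans (add_le_add
      ((abs_sub _ _).trans (add_le_add h1 (h2 3))) h5)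
  refine h6.trans ?_
  have e5 : εv + Lm * (El + δ 3 + ∑ l ∈ range 3, δ l * Uv l) =
      εv + Lm * El + Lm * δ 3 + Lm * ∑ l ∈ range 3, δ l * Uv l := by ring
  rw [e5]
  linarith

end Pool.ND54
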