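import Pool.Agent.H54.ND.Ent
import Pool.Agent.H54.ND.Gnp
import Pool.Agent.H54.OWN.Nfc
import Pool.Agent.H66.NDD.Ro
import Pool.Agent.H66.NDD.Prl

/-!
# Near paths from equal codes

`opl`: the own path over the labels of the window. `pc_near`, `pc_near1`: own paths with the same codes
are near. `hg_near`: own heights with the same digits are near. `hLc`: the constant of the path of
`c 2`, from its code.
-/

set_option autoImplicit false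

namespace Pool.ND54

open Finset Real MvPolynomial
open Pool.Agent.H49.Ent Pool.Agent.H32.Dense Pool.STK Pool.KA Pool.KSAT Pool.K2S Pool.PB Pool.S6C
open Pool.GEN hiding Det
open Pool.CHT Pool.D2R Pool.LA91 Pool.RCD
open Pool.PB.Trl (rt rt_mem t_rt)
open Pool.V0F (cR det_cR)
open Pool.NDC42
open Pool.NDD66 (op op_at op_deg op_der ov)

variable {m J : ℕ}

/-- **The own path** of `c l` over the labels `H` of the window `W`. -/
noncomputable def opl (F : Fam m J) (c : ℕ → Fin m) (W : ℕ)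
    (H : LnT F → ℕ → MvPolynomial (Option (Fin m)) ℝ) (l : ℕ) (ω : F.Ω) : Polynomial ℝ :=
  op W c (H (slam F W ω)) (slam F W ω) l

theorem opl_deg (F : Fam m J) (c : ℕ → Fin m) (W : ℕ) {D : ℕ}
    {H : LnT F → ℕ → MvPolynomial (Option (Fin m)) ℝ} (hH : ∀ s l, (H s l).totalDegree ≤ D)
    (l : ℕ) (ω : F.Ω) : (opl F c W H l ω).natDegree ≤ D + 1 := op_deg W c (hH _) _ _

theorem pc_eq {F : Fam m J} {c : ℕ → Fin m} {D : ℕ} {w : ℝ}
    {H : LnT F → ℕ → MvPolynomial (Option (Fin m)) ℝ} {l j₀ : ℕ} {s : ℝ} {ω ω' : F.Ω}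
    (h : pcC F c D w H l j₀ s ω = pcC F c D w H l j₀ s ω') {a : ℕ} (ha : a < D + 1 + 1)
    (hj : j₀ ≤ a) : |(opl F c ⌊w * J⌋₊ H l ω).coeff a - (opl F c ⌊w * J⌋₊ H l ω').coeff a| ≤
      1 / 2 ^ (s * J) := by
  have hp : (0 : ℝ) < 2 ^ (s * J) := Real.rpow_pos_of_pos (by norm_num) _
  have h1 := congrFun h ⟨a, ha⟩
  unfold pcC Pool.AVG71.cod at h1
  rw [if_pos hj, if_pos hj] at h1
  have h2 := Int.abs_sub_lt_one_of_floor_eq_floor h1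
  rw [← mul_sub, abs_mul, abs_of_pos hp] at h2
  rw [le_div_iff₀ hp, mul_comm]
  exact h2.le

/-- **Near own paths**, the orders `≥ j₀`. -/
theorem pc_sum {F : Fam m J} {c : ℕ → Fin m} {D : ℕ} {w : ℝ}
    {H : LnT F → ℕ → MvPolynomial (Option (Fin m)) ℝ} (hH : ∀ s l, (H s l).totalDegree ≤ D)
    {l : ℕ} {s : ℝ} {ω ω' : F.Ω}
    (h : ∀ a, 1 ≤ a → a < D + 1 + 1 → |(opl F c ⌊w * J⌋₊ H l ω).coeff a -
      (opl F c ⌊w * J⌋₊ H l ω').coeff a| ≤ 1 / 2 ^ (s * J)) {τ : ℝ} (hτ : τ ∈ Set.Icc (0 : ℝ) 1) :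
    |((opl F c ⌊w * J⌋₊ H l ω).eval τ - (opl F c ⌊w * J⌋₊ H l ω).coeff 0) -
      ((opl F c ⌊w * J⌋₊ H l ω').eval τ - (opl F c ⌊w * J⌋₊ H l ω').coeff 0)| ≤
      (D + 1) / 2 ^ (s * J) := by
  have hp : (0 : ℝ) < 2 ^ (s * J) := Real.rpow_pos_of_pos (by norm_num) _
  have key : ∀ ω : F.Ω, (opl F c ⌊w * J⌋₊ H l ω).eval τ - (opl F c ⌊w * J⌋₊ H l ω).coeff 0 =
      ∑ i ∈ range (D + 1), (opl F c ⌊w * J⌋₊ H l ω).coeff (i + 1) * τ ^ (i + 1) := by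
    intro ω
    rw [Polynomial.eval_eq_sum_range' (Nat.lt_succ_of_le (opl_deg F c _ hH l ω)),
      Finset.sum_range_succ', pow_zero, mul_one, add_sub_cancel_right]
  rw [key, key, ← Finset.sum_sub_distrib]
  refine (Finset.abs_sum_le_sum_abs _ _).trans ?_
  refine (Finset.sum_le_sum (g := fun _ => 1 / (2 : ℝ) ^ (s * J)) fun i hi => ?_).trans
    (le_of_eq ?_)
  · rw [Finset.mem_range] at hi
    rw [← sub_mul, abs_mul, abs_pow, abs_of_nonneg hτ.1]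
    calc _ ≤ 1 / (2 : ℝ) ^ (s * J) * 1 := mul_le_mul (h (i + 1) (by omega) (by omega))
          (pow_le_one₀ hτ.1 hτ.2) (by have := hτ.1; positivity) (by positivity)
      _ = _ := mul_one _
  · rw [Finset.sum_const, Finset.card_range, nsmul_eq_mul]
    push_cast
    ring

theorem pc_near1 {F : Fam m J} {c : ℕ → Fin m} {D : ℕ} {w : ℝ}
    {H : LnT F → ℕ → MvPolynomial (Option (Fin m)) ℝ} (hH : ∀ s l, (H s l).totalDegree ≤ D)
    {l : ℕ} {s : ℝ} {ω ω' : F.Ω} (h : pcC F c D w H l 1 s ω = pcC F c D w H l 1 s ω') {τ : ℝ}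
    (hτ : τ ∈ Set.Icc (0 : ℝ) 1) :
    |((opl F c ⌊w * J⌋₊ H l ω).eval τ - (opl F c ⌊w * J⌋₊ H l ω).coeff 0) -
      ((opl F c ⌊w * J⌋₊ H l ω').eval τ - (opl F c ⌊w * J⌋₊ H l ω').coeff 0)| ≤
      (D + 1) / 2 ^ (s * J) := pc_sum hH (fun _ ha1 ha => pc_eq h ha ha1) hτ

theorem pc_near {F : Fam m J} {c : ℕ → Fin m} {D : ℕ} {w : ℝ}
    {H : LnT F → ℕ → MvPolynomial (Option (Fin m)) ℝ} (hH : ∀ s l, (H s l).totalDegree ≤ D)
    {l : ℕ} {s : ℝ} {ω ω' : F.Ω} (h : pcC F c D w H l 0 s ω = pcC F c D w H l 0 s ω') {τ : ℝ}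
    (hτ : τ ∈ Set.Icc (0 : ℝ) 1) :
    |(opl F c ⌊w * J⌋₊ H l ω).eval τ - (opl F c ⌊w * J⌋₊ H l ω').eval τ| ≤
      (D + 2) / 2 ^ (s * J) := by
  have hp : (0 : ℝ) < 2 ^ (s * J) := Real.rpow_pos_of_pos (by norm_num) _
  have h1 := pc_sum (ω := ω) (ω' := ω') (l := l) (s := s) (c := c) (w := w) hH
    (fun _ _ ha => pc_eq h ha (Nat.zero_le _)) hτ
  have h2 := pc_eq h (a := 0) (by omega) le_rfl
  have e1 : (opl F c ⌊w * J⌋₊ H l ω).eval τ - (opl F c ⌊w * J⌋₊ H l ω').eval τ =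
      (((opl F c ⌊w * J⌋₊ H l ω).eval τ - (opl F c ⌊w * J⌋₊ H l ω).coeff 0) -
      ((opl F c ⌊w * J⌋₊ H l ω').eval τ - (opl F c ⌊w * J⌋₊ H l ω').coeff 0)) +
      ((opl F c ⌊w * J⌋₊ H l ω).coeff 0 - (opl F c ⌊w * J⌋₊ H l ω').coeff 0) := by ring
  rw [e1]
  refine (abs_add_le _ _).trans ((add_le_add h1 h2).trans (le_of_eq ?_))
  ring

/-- **Near own heights.** -/
theorem hg_near {F : Fam m J} {c : ℕ → Fin m} {w : ℝ}
    {H : LnT F → ℕ → MvPolynomial (Option (Fin m)) ℝ} (hw : ⌊w * J⌋₊ ≤ J) {l : ℕ} {s : ℝ}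
    {ω ω' : F.Ω} (h : hgC F c w H l s ω = hgC F c w H l s ω') :
    |(opl F c ⌊w * J⌋₊ H l ω).eval (rt F ⌊w * J⌋₊ ω) -
      (opl F c ⌊w * J⌋₊ H l ω').eval (rt F ⌊w * J⌋₊ ω')| ≤ 1 / 2 ^ (s * J) := by
  have hp : (0 : ℝ) < 2 ^ (s * J) := Real.rpow_pos_of_pos (by norm_num) _
  unfold hgC at h
  have h2 := Int.abs_sub_lt_one_of_floor_eq_floor h
  rw [← mul_sub, abs_mul, abs_of_pos hp] at h2
  unfold opl
  rw [op_at hw, op_at hw, ← Pool.OWN54.ojet_zero, ← Pool.OWN54.ojet_zero, le_div_iff₀ hp, mul_comm]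
  exact h2.le

/-- **The constant of the path of** `c 2`, from the code. -/
noncomputable def hLc (J : ℕ) (s : ℝ) (a : ℤ) : ℝ := (a : ℝ) / 2 ^ (s * J)

theorem hLc_near {F : Fam m J} {c : ℕ → Fin m} {D : ℕ} {w : ℝ}
    {H : LnT F → ℕ → MvPolynomial (Option (Fin m)) ℝ} {l : ℕ} {s : ℝ} (ω : F.Ω) :
    |(opl F c ⌊w * J⌋₊ H l ω).coeff 0 - hLc J s (pcC F c D w H l 0 s ω 0)| ≤
      1 / 2 ^ (s * J) := by
  have hp : (0 : ℝ) < 2 ^ (s * J) := Real.rpow_pos_of_pos (by norm_num) _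
  have e1 : pcC F c D w H l 0 s ω 0 = ⌊(2 : ℝ) ^ (s * J) * (opl F c ⌊w * J⌋₊ H l ω).coeff 0⌋ := by
    unfold pcC Pool.AVG71.cod
    rw [if_pos (Nat.zero_le _)]
    rfl
  unfold hLc
  rw [e1]
  have h1 := Int.floor_le ((2 : ℝ) ^ (s * J) * (opl F c ⌊w * J⌋₊ H l ω).coeff 0)
  have h2 := Int.lt_floor_add_one ((2 : ℝ) ^ (s * J) * (opl F c ⌊w * J⌋₊ H l ω).coeff 0)
  have e2 : (opl F c ⌊w * J⌋₊ H l ω).coeff 0 -
      ((⌊(2 : ℝ) ^ (s * J) * (opl F c ⌊w * J⌋₊ H l ω).coeff 0⌋ : ℤ) : ℝ) / 2 ^ (s * J) =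
      (2 ^ (s * J) * (opl F c ⌊w * J⌋₊ H l ω).coeff 0 -
        (⌊(2 : ℝ) ^ (s * J) * (opl F c ⌊w * J⌋₊ H l ω).coeff 0⌋ : ℤ)) / 2 ^ (s * J) := by
    field_simp
  rw [e2, abs_div, abs_of_pos hp]
  refine div_le_div_of_nonneg_right ?_ hp.le
  rw [abs_le]
  constructor <;> linarith

/-- The constants to the level `nt`, from the codes. -/
theorem hLc_coarse {F : Fam m J} {c : ℕ → Fin m} {D : ℕ} {w : ℝ}
    {H : LnT F → ℕ → MvPolynomial (Option (Fin m)) ℝ} {l : ℕ} {s nt : ℝ} (hs : nt ≤ s)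
    {ω ω' : F.Ω} (h : pcC F c D w H l 0 nt ω = pcC F c D w H l 0 nt ω') :
    |hLc J s (pcC F c D w H l 0 s ω 0) - hLc J s (pcC F c D w H l 0 s ω' 0)| ≤
      3 / 2 ^ (nt * J) := by
  have h1 := hLc_near (F := F) (c := c) (D := D) (w := w) (H := H) (l := l) (s := s) ω
  have h2 := hLc_near (F := F) (c := c) (D := D) (w := w) (H := H) (l := l) (s := s) ω'
  have h3 := pc_eq h (a := 0) (by omega) le_rfl
  have hp : (0 : ℝ) < 2 ^ (nt * J) := Real.rpow_pos_of_pos (by norm_num) _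
  have hle : (1 : ℝ) / 2 ^ (s * J) ≤ 1 / 2 ^ (nt * J) :=
    one_div_le_one_div_of_le hp (Real.rpow_le_rpow_of_exponent_le (by norm_num)
      (mul_le_mul_of_nonneg_right hs (Nat.cast_nonneg J)))
  have h4 := abs_le.1 h1
  have h5 := abs_le.1 h2
  have h6 := abs_le.1 h3
  have e1 : (3 : ℝ) / 2 ^ (nt * J) = 3 * (1 / 2 ^ (nt * J)) := by ring
  rw [e1, abs_le]
  constructor <;> linarith [h4.1, h4.2, h5.1, h5.2, h6.1, h6.2]

/-- **The heights at the own time and the constants** differ by the same number. -/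
theorem hgt_par {F : Fam m J} {c : ℕ → Fin m} {D : ℕ} {w : ℝ}
    {H : LnT F → ℕ → MvPolynomial (Option (Fin m)) ℝ} (hH : ∀ s l, (H s l).totalDegree ≤ D)
    {l : ℕ} {s : ℝ} {ω ω' : F.Ω} (h : pcC F c D w H l 1 s ω = pcC F c D w H l 1 s ω')
    (hrt : rt F ⌊w * J⌋₊ ω = rt F ⌊w * J⌋₊ ω') :
    |(opl F c ⌊w * J⌋₊ H l ω).eval (rt F ⌊w * J⌋₊ ω) -
      (opl F c ⌊w * J⌋₊ H l ω').eval (rt F ⌊w * J⌋₊ ω') -
      (hLc J s (pcC F c D w H l 0 s ω 0) - hLc J s (pcC F c D w H l 0 s ω' 0))| ≤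
      (D + 3) / 2 ^ (s * J) := by
  have h0 := rt_mem F ⌊w * J⌋₊ ω
  have h1 := pc_near1 hH h (τ := rt F ⌊w * J⌋₊ ω) ⟨h0.1, h0.2⟩
  have h2 := hLc_near (F := F) (c := c) (D := D) (w := w) (H := H) (l := l) (s := s) ω
  have h3 := hLc_near (F := F) (c := c) (D := D) (w := w) (H := H) (l := l) (s := s) ω'
  rw [← hrt]
  have e1 : ((D : ℝ) + 3) / 2 ^ (s * J) = (D + 1) / 2 ^ (s * J) + 1 / 2 ^ (s * J) +
      1 / 2 ^ (s * J) := by ring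
  have h4 := abs_le.1 h1
  have h5 := abs_le.1 h2
  have h6 := abs_le.1 h3
  rw [e1, abs_le]
  constructor <;> linarith [h4.1, h4.2, h5.1, h5.2, h6.1, h6.2]

end Pool.ND54
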