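import Pool.Agent.H77.ND.Two
import Pool.Agent.H66.NDD.Dda

/-!
# The level of a line from the relation at a full time

`lvl_one`: the constant `n₁` of a line is the value of a polynomial `R` at the own time; `R` is, up to
`δ`, a function of `W`; the time is full given `W`; the digits of the constant take few values given a
function of `W`: then `n₁` is the value of `R` at every time.
-/

set_option autoImplicit false

namespace Pool.ND54

open Finset Real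
open Pool.Agent.H49.Ent Pool.Agent.H32.Dense Pool.STK
open Pool.BFL (Pb)
open Pool.STB (Pb_mono Pb_or)
open Pool.K2S (cpn)

/-- The time in `[0, 1]` from the integer time in `[-M, M]`. -/
noncomputable def tu (M : ℕ) (t : ℤ) : ℝ := (1 + (t : ℝ) / M) / 2

theorem tu_mem {M : ℕ} (hM : 1 ≤ M) {t : ℤ} (h : |t| ≤ (M : ℤ)) : tu M t ∈ Set.Icc (0 : ℝ) 1 := by
  have hM0 : (0 : ℝ) < M := by exact_mod_cast hM
  have h1 : |(t : ℝ)| ≤ M := by exact_mod_cast h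
  have h2 : |(t : ℝ) / M| ≤ 1 := by
    rw [abs_div, abs_of_pos hM0, div_le_one hM0]
    exact h1
  rw [abs_le] at h2
  unfold tu
  constructor
  · linarith [h2.1]
  · linarith [h2.2]

/-- **The level of a line.** -/
theorem lvl_one (d : ℕ) : ∃ C : ℕ, 1 ≤ C ∧ ∀ (Ω Λ X : Type) [Fintype Ω] (q : Ω → ℝ)
    (W : Ω → Λ) (t : Ω → ℤ) (x : Λ → X) (R : Ω → Polynomial ℝ) (n₁ : Ω → ℝ) (Sep : Λ → Prop)
    (B : Ω → Prop) (S : ℕ → X × ℤ → Finset ℤ) (n M Xd : ℕ) (N a b : ℕ → ℕ)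
    (V : ℕ → ℝ) (K e c₀ c₁ ρ δ η Bd : ℝ), IsLaw q → 1 ≤ M → 0 < ρ → ρ < 1 →
    (C : ℝ) ≤ ρ ^ C * (2 * M + 1) →
    (∀ ω, 0 < q ω → |t ω| ≤ (M : ℤ)) →
    Real.log (2 * M + 1) - e ≤ CH q t W →
    (∀ ω, (R ω).natDegree ≤ d) → 0 ≤ δ → 0 ≤ K →
    (∀ ω ω', 0 < q ω → 0 < q ω' → W ω = W ω' → Sep (W ω) →
      ∀ τ ∈ Set.Icc (0 : ℝ) 1, |(R ω).eval τ - (R ω').eval τ| ≤ δ) →
    Pb q (fun ω => ¬ (Sep (W ω) ∧ (∀ τ ∈ Set.Icc (0 : ℝ) 1, |(R ω).eval τ| ≤ Bd) ∧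
      |n₁ ω - (R ω).eval (tu M (t ω))| ≤ η)) ≤ c₁ →
    (∀ k < n, ∀ ω, 0 < q ω → B ω →
      ⌊2 ^ Xd * n₁ ω⌋ / 2 ^ a k ∈ S k (x (W ω), ⌊2 ^ Xd * n₁ ω⌋ / 2 ^ b k)) →
    (∀ k < n, ∀ w, (S k w).card ≤ N k) → Pb q (fun ω => ¬ B ω) ≤ c₀ →
    2 ^ Xd * (η + δ) + 1 ≤ K → 2 ^ Xd * (2 * (Bd + δ)) ≤ V n →
    (∀ k < n, a k ≤ b k ∧ K ≤ 2 ^ a k ∧ 0 < V k ∧ V (k + 1) ≤ 2 ^ b k ∧
      (C : ℝ) * N k * 2 ^ a k ≤ ρ ^ C * V k ∧ (C : ℝ) * N k ≤ ρ ^ C * M) →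
    Pb q (fun ω => ¬ (Sep (W ω) ∧ ∀ τ ∈ Set.Icc (0 : ℝ) 1,
      |n₁ ω - (R ω).eval τ| ≤ (2 * K + 2 * V 0) / 2 ^ Xd + δ)) ≤
      c₀ + 3 * c₁ + n * ((e + Real.log 2) / Real.log (1 / ρ)) := by
  classical
  obtain ⟨C, hC, htwo⟩ := Pool.ND77.two_lineG d
  refine ⟨C, hC, ?_⟩
  intro Ω Λ X _ q W t x R n₁ Sep B S n M Xd N a b V K e c₀ c₁ ρ δ η Bd hql hM hρ hρ1 hCM htM hft
    hdeg hδ hK0 hrep hgood hrow hcard hB hK hV hnum
  have q0 := hql.nonneg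
  have hX0 : (0 : ℝ) < 2 ^ Xd := by positivity
  have hM0 : (0 : ℝ) < M := by exact_mod_cast hM
  -- the representative
  obtain ⟨P, hP⟩ : ∃ P : Λ → Polynomial ℝ, P = fun l =>
      if h : ∃ ω, 0 < q ω ∧ W ω = l ∧ Sep l then
        Polynomial.C (2 ^ Xd) * (R h.choose).comp (Polynomial.C (1 / 2) * Polynomial.X +
          Polynomial.C (1 / 2)) else 0 := ⟨_, rfl⟩
  have hPd : ∀ l, (P l).natDegree ≤ d := by
    intro l
    rw [hP]
    simp only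
    split_ifs with h
    · refine (Polynomial.natDegree_C_mul_le _ _).trans ?_
      refine Polynomial.natDegree_comp_le.trans ?_
      have h1 : (Polynomial.C (1 / 2 : ℝ) * Polynomial.X + Polynomial.C (1 / 2)).natDegree ≤ 1 := by
        refine (Polynomial.natDegree_add_le _ _).trans (max_le ?_ ?_)
        · exact (Polynomial.natDegree_C_mul_le _ _).trans Polynomial.natDegree_X_le
        · rw [Polynomial.natDegree_C]
          omega
      calc _ ≤ (R h.choose).natDegree * 1 := Nat.mul_le_mul_left _ h1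
        _ ≤ d := by rw [mul_one]; exact hdeg _
    · rw [Polynomial.natDegree_zero]
      omega
  have hPe : ∀ ω, 0 < q ω → Sep (W ω) → ∃ ω', 0 < q ω' ∧ W ω = W ω' ∧
      ∀ s : ℝ, (P (W ω)).eval s = 2 ^ Xd * (R ω').eval ((1 + s) / 2) := by
    intro ω hω hs
    have hex : ∃ ω', 0 < q ω' ∧ W ω' = W ω ∧ Sep (W ω) := ⟨ω, hω, rfl, hs⟩
    refine ⟨hex.choose, hex.choose_spec.1, hex.choose_spec.2.1.symm, fun s => ?_⟩
    rw [hP]
    simp only
    rw [dif_pos hex, Polynomial.eval_mul, Polynomial.eval_C, Polynomial.eval_comp,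
      Polynomial.eval_add, Polynomial.eval_mul, Polynomial.eval_C, Polynomial.eval_X]
    congr 2
    ring
  obtain ⟨Gd, hGd⟩ : ∃ Gd : Ω → Prop, Gd = fun ω => Sep (W ω) ∧
      (∀ τ ∈ Set.Icc (0 : ℝ) 1, |(R ω).eval τ| ≤ Bd) ∧
      |n₁ ω - (R ω).eval (tu M (t ω))| ≤ η := ⟨_, rfl⟩
  have hGc : Pb q (fun ω => ¬ Gd ω) ≤ c₁ := by
    rw [hGd]
    exact hgood
  have hfl : ∀ ω, |((⌊2 ^ Xd * n₁ ω⌋ : ℤ) : ℝ) - 2 ^ Xd * n₁ ω| ≤ 1 := by
    intro ω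
    rw [abs_le]
    constructor
    · linarith [(Int.sub_one_lt_floor (2 ^ Xd * n₁ ω)).le]
    · linarith [Int.floor_le (2 ^ Xd * n₁ ω)]
  -- the value at the own time
  have hnr : ∀ ω, 0 < q ω → Gd ω →
      |((⌊2 ^ Xd * n₁ ω⌋ : ℤ) : ℝ) - (P (W ω)).eval ((t ω : ℝ) / M)| ≤ K := by
    intro ω hω hg
    rw [hGd] at hg
    obtain ⟨g1, g2, g3⟩ := hg
    obtain ⟨ω', hω', hW, hev⟩ := hPe ω hω g1
    have h1 := hrep ω ω' hω hω' hW g1 (tu M (t ω)) (tu_mem hM (htM ω hω))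
    have h2 := hfl ω
    rw [hev]
    have e1 : (1 + (t ω : ℝ) / M) / 2 = tu M (t ω) := rfl
    rw [e1]
    have h3 : ((⌊2 ^ Xd * n₁ ω⌋ : ℤ) : ℝ) - 2 ^ Xd * (R ω').eval (tu M (t ω)) =
        (((⌊2 ^ Xd * n₁ ω⌋ : ℤ) : ℝ) - 2 ^ Xd * n₁ ω) +
          2 ^ Xd * ((n₁ ω - (R ω).eval (tu M (t ω))) +
            ((R ω).eval (tu M (t ω)) - (R ω').eval (tu M (t ω)))) := by ring
    rw [h3]
    refine (abs_add_le _ _).trans ?_
    have h4 : |2 ^ Xd * ((n₁ ω - (R ω).eval (tu M (t ω))) +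
            ((R ω).eval (tu M (t ω)) - (R ω').eval (tu M (t ω))))| ≤ 2 ^ Xd * (η + δ) := by
      rw [abs_mul, abs_of_pos hX0]
      exact mul_le_mul_of_nonneg_left ((abs_add_le _ _).trans (add_le_add g3 h1)) hX0.le
    linarith
  have htop : ∀ ω, 0 < q ω → Gd ω → ∀ s : ℝ, |s| ≤ 1 →
      |(P (W ω)).eval s - (P (W ω)).eval 0| ≤ V n := by
    intro ω hω hg s hs
    rw [hGd] at hg
    obtain ⟨g1, g2, g3⟩ := hg
    obtain ⟨ω', hω', hW, hev⟩ := hPe ω hω g1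
    have hb : ∀ s : ℝ, |s| ≤ 1 → |(R ω').eval ((1 + s) / 2)| ≤ Bd + δ := by
      intro s hs
      rw [abs_le] at hs
      have hm : (1 + s) / 2 ∈ Set.Icc (0 : ℝ) 1 := ⟨by linarith [hs.1], by linarith [hs.2]⟩
      have h1 := hrep ω ω' hω hω' hW g1 _ hm
      have h2 := g2 _ hm
      have h3 : (R ω').eval ((1 + s) / 2) = (R ω).eval ((1 + s) / 2) -
          ((R ω).eval ((1 + s) / 2) - (R ω').eval ((1 + s) / 2)) := by ring
      rw [h3]
      exact (abs_sub _ _).trans (add_le_add h2 h1)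
    rw [hev, hev, ← mul_sub, abs_mul, abs_of_pos hX0]
    refine (mul_le_mul_of_nonneg_left ((abs_sub _ _).trans (add_le_add (hb s hs)
      (hb 0 (by simp)))) hX0.le).trans ?_
    have : (Bd + δ) + (Bd + δ) = 2 * (Bd + δ) := by ring
    rw [this]
    exact hV
  -- the theorem
  have key := htwo Ω Λ X q W t x P (fun ω => ⌊2 ^ Xd * n₁ ω⌋) B S n M N a b V K e c₀ c₁ c₁ ρ
    hql hM hρ hρ1 hCM htM hft hPd
    ((Pb_mono q0 fun ω hω h hg => h (hnr ω hω hg)).trans hGc) hrow hcard hB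
    ((Pb_mono q0 fun ω hω h hg => h (htop ω hω hg)).trans hGc) hnum
  have h1 : Pb q (fun ω => ¬ (Sep (W ω) ∧ ∀ τ ∈ Set.Icc (0 : ℝ) 1,
      |n₁ ω - (R ω).eval τ| ≤ (2 * K + 2 * V 0) / 2 ^ Xd + δ)) ≤
      Pb q (fun ω => (¬ ∀ s : ℝ, |s| ≤ 1 → |(P (W ω)).eval s - (P (W ω)).eval 0| ≤ V 0) ∨
        ¬ Gd ω) := by
    refine Pb_mono q0 fun ω hω h => ?_
    by_contra hcon
    rw [not_or, not_not, not_not] at hcon
    obtain ⟨hc1, hc2⟩ := hcon
    apply h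
    have hg := hc2
    rw [hGd] at hg
    obtain ⟨g1, g2, g3⟩ := hg
    refine ⟨g1, fun τ hτ => ?_⟩
    obtain ⟨ω', hω', hW, hev⟩ := hPe ω hω g1
    have h2 := hnr ω hω hc2
    have h3 := hc1 (2 * τ - 1) (by
      rw [abs_le]
      constructor <;> linarith [hτ.1, hτ.2])
    have h4 := hc1 ((t ω : ℝ) / M) (by
      rw [abs_div, abs_of_pos hM0, div_le_one hM0]
      exact_mod_cast htM ω hω)
    have h5 := hrep ω ω' hω hω' hW g1 τ hτ
    have h6 := hfl ω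
    have e1 : (P (W ω)).eval (2 * τ - 1) = 2 ^ Xd * (R ω').eval τ := by
      rw [hev]
      congr 2
      ring
    rw [e1] at h3
    have h7 : |2 ^ Xd * (n₁ ω - (R ω').eval τ)| ≤ 1 + K + V 0 + V 0 := by
      have e2 : 2 ^ Xd * (n₁ ω - (R ω').eval τ) =
          -(((⌊2 ^ Xd * n₁ ω⌋ : ℤ) : ℝ) - 2 ^ Xd * n₁ ω) +
          (((⌊2 ^ Xd * n₁ ω⌋ : ℤ) : ℝ) - (P (W ω)).eval ((t ω : ℝ) / M)) +
          ((P (W ω)).eval ((t ω : ℝ) / M) - (P (W ω)).eval 0) -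
          (2 ^ Xd * (R ω').eval τ - (P (W ω)).eval 0) := by ring
      rw [e2]
      refine (abs_sub _ _).trans (add_le_add ((abs_add_le _ _).trans (add_le_add
        ((abs_add_le _ _).trans (add_le_add ?_ h2)) h4)) h3)
      rw [abs_neg]
      exact h6
    have h8 : |n₁ ω - (R ω').eval τ| ≤ (2 * K + 2 * V 0) / 2 ^ Xd := by
      rw [le_div_iff₀ hX0, mul_comm]
      rw [abs_mul, abs_of_pos hX0] at h7
      have h9 : 1 ≤ K := by
        have h10 : 0 ≤ 2 ^ Xd * (η + δ) := by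
          refine mul_nonneg hX0.le (add_nonneg ((abs_nonneg _).trans g3) hδ)
        linarith
      linarith
    have e3 : n₁ ω - (R ω).eval τ = (n₁ ω - (R ω').eval τ) -
        ((R ω).eval τ - (R ω').eval τ) := by ring
    rw [e3]
    exact (abs_sub _ _).trans (add_le_add h8 h5)
  have h2 := Pb_or q0 (fun ω => ¬ ∀ s : ℝ, |s| ≤ 1 →
    |(P (W ω)).eval s - (P (W ω)).eval 0| ≤ V 0) (fun ω => ¬ Gd ω)
  linarith

/-- The index of a line of the tuple. -/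
def ti {D : ℕ} (i : Fin (D + 2)) : Fin (2 * D + 1 + 1) := ⟨i.1, by have := i.2; omega⟩

/-- The index of an auxiliary line. -/
def ai {D : ℕ} (k : Fin D) : Fin (2 * D + 1 + 1) := ⟨D + 2 + k.1, by have := k.2; omega⟩

theorem ti_inj {D : ℕ} : Function.Injective (ti (D := D)) := by
  intro i j h
  have h' := congrArg Fin.val h
  exact Fin.ext h'

theorem ai_inj {D : ℕ} : Function.Injective (ai (D := D)) := by
  intro i j h
  have h' := congrArg Fin.val h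
  have h'' : D + 2 + i.1 = D + 2 + j.1 := h'
  exact Fin.ext (by omega)

/-- **The levels of the lines of a tuple**, with auxiliary lines. -/
theorem lvl_tup (D d : ℕ) : ∃ C : ℕ, 1 ≤ C ∧ ∀ (Ω Λ L X Y : Type) [Fintype Ω] (q : Ω → ℝ)
    (y : Ω → Y) (σ : Ω → Λ) (ell : Ω → L) (x : L → X) (t : Ω → ℤ) (nP cP : Λ → Polynomial ℝ)
    (hL : L → ℝ) (B : Ω → Prop) (S : ℕ → X × ℤ → Finset ℤ) (n M Xd : ℕ) (N a b : ℕ → ℕ)
    (V : ℕ → ℝ) (K e c₀ c₁ ρ δg δC η s Su Bn Bc Qb : ℝ), IsLaw q → 1 ≤ M → 0 < ρ → ρ < 1 →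
    (C : ℝ) ≤ ρ ^ C * (2 * M + 1) →
    (∀ ω, 0 < q ω → |t ω| ≤ (M : ℤ)) →
    Real.log (2 * M + 1) - e ≤ CH (cpn q y (2 * D + 1)) (fun w => t (w 0))
      (fun w => (σ (w 0), fun i => ell (w i))) →
    (∀ l, (nP l).natDegree ≤ d) → (∀ l, (cP l).natDegree ≤ d) → 0 ≤ δg → 0 ≤ δC → 0 ≤ K →
    0 < s → 0 ≤ Su → Qb = (Su / s) ^ (D - 1) * Su →
    (∀ ω ω', 0 < q ω → 0 < q ω' → ell ω = ell ω' → ∀ τ ∈ Set.Icc (0 : ℝ) 1,
      |((nP (σ ω)).eval τ - (nP (σ ω)).eval 0) - ((nP (σ ω')).eval τ - (nP (σ ω')).eval 0)| ≤ δg ∧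
      |(cP (σ ω)).eval τ - (cP (σ ω')).eval τ| ≤ δC) →
    Pb (cpn q y (2 * D + 1)) (fun w => ¬ ((∀ i j, i ≠ j →
        s ≤ |hL (ell (w i)) - hL (ell (w j))| ∧ |hL (ell (w i)) - hL (ell (w j))| ≤ Su) ∧
      (∀ i, ∀ τ ∈ Set.Icc (0 : ℝ) 1, |(nP (σ (w i))).eval τ| ≤ Bn ∧
        |(cP (σ (w i))).eval τ| ≤ Bc) ∧
      ∀ i, |(nP (σ (w i))).eval (tu M (t (w 0))) - (nP (σ (w 0))).eval (tu M (t (w 0))) -
        ∑ k : Fin D, (Pool.NDD66.Qk (fun k => hL (ell (w (ai k)))) (hL (ell (w 0))) k).eval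
          (hL (ell (w i))) * (cP (σ (w (ai k)))).eval (tu M (t (w 0)))| ≤ η)) ≤ c₁ →
    (∀ k < n, ∀ ω, 0 < q ω → B ω → ⌊2 ^ Xd * (nP (σ ω)).eval 0⌋ / 2 ^ a k ∈
      S k (x (ell ω), ⌊2 ^ Xd * (nP (σ ω)).eval 0⌋ / 2 ^ b k)) →
    (∀ k < n, ∀ w, (S k w).card ≤ N k) → Pb q (fun ω => ¬ B ω) ≤ c₀ →
    2 ^ Xd * (η + (D * Qb * δC + δg)) + 1 ≤ K →
    2 ^ Xd * (2 * ((3 * Bn + D * Qb * Bc) + (D * Qb * δC + δg))) ≤ V n →
    (∀ k < n, a k ≤ b k ∧ K ≤ 2 ^ a k ∧ 0 < V k ∧ V (k + 1) ≤ 2 ^ b k ∧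
      (C : ℝ) * N k * 2 ^ a k ≤ ρ ^ C * V k ∧ (C : ℝ) * N k ≤ ρ ^ C * M) →
    Pb (cpn q y (2 * D + 1)) (fun w => ¬ ((∀ i j, i ≠ j →
        s ≤ |hL (ell (w i)) - hL (ell (w j))| ∧ |hL (ell (w i)) - hL (ell (w j))| ≤ Su) ∧
      ∀ i, ∀ τ ∈ Set.Icc (0 : ℝ) 1, |(nP (σ (w i))).eval τ - (nP (σ (w 0))).eval τ -
        ∑ k : Fin D, (Pool.NDD66.Qk (fun k => hL (ell (w (ai k)))) (hL (ell (w 0))) k).eval
          (hL (ell (w i))) * (cP (σ (w (ai k)))).eval τ| ≤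
        (2 * K + 2 * V 0) / 2 ^ Xd + (D * Qb * δC + δg))) ≤
      (2 * D + 2) * (c₀ + 3 * c₁ + n * ((e + Real.log 2) / Real.log (1 / ρ))) := by
  classical
  obtain ⟨C, hC, hone⟩ := lvl_one d
  refine ⟨C, hC, ?_⟩
  intro Ω Λ L X Y _ q y σ ell x t nP cP hL B S n M Xd N a b V K e c₀ c₁ ρ δg δC η s Su Bn Bc Qb
    hql hM hρ hρ1 hCM htM hft hnd hcd hδg hδC hK0 hs hSu hQb hell hgood hrow hcard hB hK hV hnum
  obtain ⟨Q, hQ⟩ : ∃ Q, Q = cpn q y (2 * D + 1) := ⟨_, rfl⟩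
  have hQl : IsLaw Q := by rw [hQ]; exact Pool.CLU.cpn_law hql y _
  have Q0 := hQl.nonneg
  rw [← hQ] at hft hgood ⊢
  have hpos : ∀ w, 0 < Q w → ∀ i, 0 < q (w i) := by
    intro w hw
    rw [hQ] at hw
    exact (Pool.CLU.cpn_pos hql.nonneg y _ w hw).1
  -- the separated tuples
  obtain ⟨Sep, hSep⟩ : ∃ Sep : Λ × (Fin (2 * D + 1 + 1) → L) → Prop, Sep = fun l =>
      ∀ i j, i ≠ j → s ≤ |hL (l.2 i) - hL (l.2 j)| ∧ |hL (l.2 i) - hL (l.2 j)| ≤ Su := ⟨_, rfl⟩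
  obtain ⟨Qe, hQe⟩ : ∃ Qe : Λ × (Fin (2 * D + 1 + 1) → L) → Fin (2 * D + 1 + 1) → Fin D → ℝ,
      Qe = fun l i k => (Pool.NDD66.Qk (fun k => hL (l.2 (ai k))) (hL (l.2 0)) k).eval
        (hL (l.2 i)) := ⟨_, rfl⟩
  have hQb0 : 0 ≤ Qb := by rw [hQb]; positivity
  have hQbd : ∀ l, Sep l → ∀ i k, |Qe l i k| ≤ Qb := by
    intro l hl i k
    rw [hSep] at hl
    have hle : ∀ i j, |hL (l.2 i) - hL (l.2 j)| ≤ Su := by
      intro i j
      by_cases hij : i = j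
      · rw [hij, sub_self, abs_zero]
        exact hSu
      · exact (hl i j hij).2
    rw [hQe, hQb]
    refine (Pool.NDD66.Qk_le (D := D) (y := fun k => hL (l.2 (ai k))) (S := Su) hs
      (fun k k' hkk => (hl _ _ fun h => hkk (ai_inj h)).1) (fun k => hle _ _)
      (fun k => hle _ _) k).trans ?_
    exact mul_le_mul_of_nonneg_left (hle _ _) (by positivity)
  obtain ⟨W, hW⟩ : ∃ W : (Fin (2 * D + 1 + 1) → Ω) → Λ × (Fin (2 * D + 1 + 1) → L),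
      W = fun w => (σ (w 0), fun i => ell (w i)) := ⟨_, rfl⟩
  obtain ⟨R, hR⟩ : ∃ R : Fin (2 * D + 1 + 1) → (Fin (2 * D + 1 + 1) → Ω) → Polynomial ℝ,
      R = fun i w => nP (σ (w 0)) + ∑ k : Fin D, Polynomial.C (Qe (W w) i k) * cP (σ (w (ai k))) -
        (nP (σ (w i)) - Polynomial.C ((nP (σ (w i))).eval 0)) := ⟨_, rfl⟩
  have hRe : ∀ i w τ, (R i w).eval τ = (nP (σ (w 0))).eval τ +
      ∑ k : Fin D, Qe (W w) i k * (cP (σ (w (ai k)))).eval τ -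
        ((nP (σ (w i))).eval τ - (nP (σ (w i))).eval 0) := by
    intro i w τ
    rw [hR]
    simp only [Polynomial.eval_sub, Polynomial.eval_add, Polynomial.eval_C,
      Polynomial.eval_finsetSum, Polynomial.eval_mul]
  have hRd : ∀ i w, (R i w).natDegree ≤ d := by
    intro i w
    rw [hR]
    simp only
    refine (Polynomial.natDegree_sub_le _ _).trans (max_le ?_ ?_)
    · refine (Polynomial.natDegree_add_le _ _).trans (max_le (hnd _) ?_)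
      refine Polynomial.natDegree_sum_le_of_forall_le _ _ fun k _ => ?_
      exact (Polynomial.natDegree_C_mul_le _ _).trans (hcd _)
    · rw [Polynomial.natDegree_sub_C]
      exact hnd _
  have hWe : ∀ w, W w = (σ (w 0), fun i => ell (w i)) := fun w => by rw [hW]
  have hrep : ∀ i, ∀ w w', 0 < Q w → 0 < Q w' → W w = W w' → Sep (W w) →
      ∀ τ ∈ Set.Icc (0 : ℝ) 1, |(R i w).eval τ - (R i w').eval τ| ≤ D * Qb * δC + δg := by
    intro i w w' hw hw' hWW hsep τ hτ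
    have h1 : σ (w 0) = σ (w' 0) ∧ ∀ i, ell (w i) = ell (w' i) := by
      rw [hWe, hWe] at hWW
      exact ⟨(Prod.ext_iff.1 hWW).1, fun i => congrFun (Prod.ext_iff.1 hWW).2 i⟩
    rw [hRe, hRe, ← hWW, ← h1.1]
    have h2 := (hell _ _ (hpos w hw i) (hpos w' hw' i) (h1.2 i) τ hτ).1
    have h3 : |∑ k : Fin D, Qe (W w) i k * ((cP (σ (w (ai k)))).eval τ -
        (cP (σ (w' (ai k)))).eval τ)| ≤ D * Qb * δC := by
      refine (Finset.abs_sum_le_sum_abs _ _).trans ?_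
      refine (Finset.sum_le_sum (g := fun _ => Qb * δC) fun k _ => ?_).trans (le_of_eq ?_)
      · rw [abs_mul]
        exact mul_le_mul (hQbd _ hsep i k)
          (hell _ _ (hpos w hw _) (hpos w' hw' _) (h1.2 _) τ hτ).2 (abs_nonneg _) hQb0
      · rw [Finset.sum_const, Finset.card_univ, Fintype.card_fin, nsmul_eq_mul]
        ring
    have h4 : (nP (σ (w 0))).eval τ + ∑ k : Fin D, Qe (W w) i k * (cP (σ (w (ai k)))).eval τ -
        ((nP (σ (w i))).eval τ - (nP (σ (w i))).eval 0) -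
        ((nP (σ (w 0))).eval τ + ∑ k : Fin D, Qe (W w) i k * (cP (σ (w' (ai k)))).eval τ -
        ((nP (σ (w' i))).eval τ - (nP (σ (w' i))).eval 0)) =
        ∑ k : Fin D, Qe (W w) i k * ((cP (σ (w (ai k)))).eval τ -
        (cP (σ (w' (ai k)))).eval τ) - (((nP (σ (w i))).eval τ - (nP (σ (w i))).eval 0) -
        ((nP (σ (w' i))).eval τ - (nP (σ (w' i))).eval 0)) := by
      have h5 : ∑ k : Fin D, Qe (W w) i k * ((cP (σ (w (ai k)))).eval τ -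
          (cP (σ (w' (ai k)))).eval τ) = ∑ k : Fin D, Qe (W w) i k * (cP (σ (w (ai k)))).eval τ -
          ∑ k : Fin D, Qe (W w) i k * (cP (σ (w' (ai k)))).eval τ := by
        rw [← Finset.sum_sub_distrib]
        exact Finset.sum_congr rfl fun k _ => by ring
      rw [h5]
      ring
    rw [h4]
    exact (abs_sub _ _).trans (add_le_add h3 h2)
  -- one line
  have key : ∀ i, Pb Q (fun w => ¬ (Sep (W w) ∧ ∀ τ ∈ Set.Icc (0 : ℝ) 1,
      |(nP (σ (w i))).eval 0 - (R i w).eval τ| ≤ (2 * K + 2 * V 0) / 2 ^ Xd +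
        (D * Qb * δC + δg))) ≤
      c₀ + 3 * c₁ + n * ((e + Real.log 2) / Real.log (1 / ρ)) := by
    intro i
    refine hone (Fin (2 * D + 1 + 1) → Ω) (Λ × (Fin (2 * D + 1 + 1) → L)) X Q W
      (fun w => t (w 0)) (fun l => x (l.2 i)) (R i) (fun w => (nP (σ (w i))).eval 0) Sep
      (fun w => B (w i)) S n M Xd N a b V K e c₀ c₁ ρ (D * Qb * δC + δg) η
      (3 * Bn + D * Qb * Bc) hQl hM hρ hρ1 hCM (fun w hw => htM _ (hpos w hw 0))
      (by rw [hW]; exact hft) (hRd i) (by positivity) hK0 (hrep i) ?_ ?_ hcard ?_ hK hV hnum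
    · refine le_trans (Pb_mono Q0 fun w hw h => ?_) hgood
      intro hg
      apply h
      obtain ⟨g1, g2, g3⟩ := hg
      have hsep : Sep (W w) := by
        rw [hSep, hWe]
        exact g1
      refine ⟨hsep, fun τ hτ => ?_, ?_⟩
      · rw [hRe]
        have h0 : (0 : ℝ) ∈ Set.Icc (0 : ℝ) 1 := ⟨le_rfl, zero_le_one⟩
        have h3 : |∑ k : Fin D, Qe (W w) i k * (cP (σ (w (ai k)))).eval τ| ≤ D * Qb * Bc := by
          refine (Finset.abs_sum_le_sum_abs _ _).trans ?_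
          refine (Finset.sum_le_sum (g := fun _ => Qb * Bc) fun k _ => ?_).trans (le_of_eq ?_)
          · rw [abs_mul]
            exact mul_le_mul (hQbd _ hsep i k) (g2 _ τ hτ).2 (abs_nonneg _) hQb0
          · rw [Finset.sum_const, Finset.card_univ, Fintype.card_fin, nsmul_eq_mul]
            ring
        refine (abs_sub _ _).trans ?_
        have h4 := (abs_add_le ((nP (σ (w 0))).eval τ)
          (∑ k : Fin D, Qe (W w) i k * (cP (σ (w (ai k)))).eval τ))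
        have h5 := abs_sub ((nP (σ (w i))).eval τ) ((nP (σ (w i))).eval 0)
        linarith [(g2 0 τ hτ).1, (g2 i τ hτ).1, (g2 i 0 h0).1]
      · rw [hRe]
        have h3 := g3 i
        have h4 : (nP (σ (w i))).eval 0 - ((nP (σ (w 0))).eval (tu M (t (w 0))) +
            ∑ k : Fin D, Qe (W w) i k * (cP (σ (w (ai k)))).eval (tu M (t (w 0))) -
            ((nP (σ (w i))).eval (tu M (t (w 0))) - (nP (σ (w i))).eval 0)) =
            (nP (σ (w i))).eval (tu M (t (w 0))) - (nP (σ (w 0))).eval (tu M (t (w 0))) -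
            ∑ k : Fin D, Qe (W w) i k * (cP (σ (w (ai k)))).eval (tu M (t (w 0))) := by ring
        rw [h4, hQe, hWe]
        exact h3
    · intro k hk w hw hBw
      rw [hWe]
      exact hrow k hk _ (hpos w hw i) hBw
    · have h1 : Pb Q (fun w => ¬ B (w i)) = Pb q (fun ω => ¬ B ω) := by
        rw [hQ]
        exact Pool.MIC.Marg.Pb_eq (Pool.CLU.cpn_marg hql.nonneg y (2 * D + 1) i) (fun ω => ¬ B ω)
      rw [h1]
      exact hB
  -- all lines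
  have h1 : Pb Q (fun w => ¬ ((∀ i j, i ≠ j →
        s ≤ |hL (ell (w i)) - hL (ell (w j))| ∧ |hL (ell (w i)) - hL (ell (w j))| ≤ Su) ∧
      ∀ i, ∀ τ ∈ Set.Icc (0 : ℝ) 1, |(nP (σ (w i))).eval τ - (nP (σ (w 0))).eval τ -
        ∑ k : Fin D, (Pool.NDD66.Qk (fun k => hL (ell (w (ai k)))) (hL (ell (w 0))) k).eval
          (hL (ell (w i))) * (cP (σ (w (ai k)))).eval τ| ≤
        (2 * K + 2 * V 0) / 2 ^ Xd + (D * Qb * δC + δg))) ≤
      Pb Q (fun w => ∃ i, ¬ (Sep (W w) ∧ ∀ τ ∈ Set.Icc (0 : ℝ) 1,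
      |(nP (σ (w i))).eval 0 - (R i w).eval τ| ≤ (2 * K + 2 * V 0) / 2 ^ Xd +
        (D * Qb * δC + δg))) := by
    refine Pb_mono Q0 fun w hw h => ?_
    by_contra hcon
    push Not at hcon
    apply h
    refine ⟨?_, fun i τ hτ => ?_⟩
    · have h2 := (hcon 0).1
      rw [hSep, hWe] at h2
      exact h2
    · have h2 := (hcon i).2 τ hτ
      rw [hRe, hQe, hWe] at h2
      simp only at h2
      have h4 : (nP (σ (w i))).eval 0 - ((nP (σ (w 0))).eval τ +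
            ∑ k : Fin D, (Pool.NDD66.Qk (fun k => hL (ell (w (ai k)))) (hL (ell (w 0))) k).eval
              (hL (ell (w i))) * (cP (σ (w (ai k)))).eval τ -
            ((nP (σ (w i))).eval τ - (nP (σ (w i))).eval 0)) =
            (nP (σ (w i))).eval τ - (nP (σ (w 0))).eval τ -
            ∑ k : Fin D, (Pool.NDD66.Qk (fun k => hL (ell (w (ai k)))) (hL (ell (w 0))) k).eval
              (hL (ell (w i))) * (cP (σ (w (ai k)))).eval τ := by ring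
      rw [h4] at h2
      exact h2
  refine h1.trans ((Pool.MIC.Pb_exists_le Q0 _).trans ?_)
  refine (Finset.sum_le_sum fun i _ => key i).trans (le_of_eq ?_)
  rw [Finset.sum_const, Finset.card_univ, Fintype.card_fin, nsmul_eq_mul]
  push_cast
  ring

end Pool.ND54
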