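import Pool.Agent.H54.ND.Evt
import Pool.Agent.H66.NDD.Lev2

/-!
# Suppliers of the near-dead step

`ownE_of`: the relation at the own time, from one chart of the window `t`. `linE_of`: the linear
relation of finitely many lines, from the closed charts of one near ball.
-/

set_option autoImplicit false

namespace Pool.ND54

open Finset Real MvPolynomial
open Pool.Agent.H49.Ent Pool.Agent.H32.Dense Pool.STK Pool.KA Pool.KSAT Pool.K2S Pool.PB Pool.S6C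
open Pool.GEN hiding Det
open Pool.CHT Pool.D2R Pool.LA91 Pool.RCD
open Pool.PB.Trl (rt rt_mem t_rt)
open Pool.V0F (cR det_cR)
open Pool.NDC42
open Pool.NDD66 (op op_at op_deg op_der ov gA0 gA gA0_eval gA_eval n0P njP njP_eval ncp_last NrB
  row_rel2 lin_alg nct)

variable {m J : ℕ}

/-- The path of the last component is the path of the derivative. -/
theorem grP_two {F : Fam m J} {c : ℕ → Fin m} {D D₂ W : ℕ} (hDD : D ≤ D₂) (hW : W ≤ J)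
    (hc : Set.InjOn c (Set.Iio 3))
    {H Hr : LnT F → ℕ → MvPolynomial (Option (Fin m)) ℝ} (hH : ∀ s l, (H s l).totalDegree ≤ D)
    (hHd : ∀ s l, DepC c l (H s l)) (hR : ∀ s, (Hr s 3).totalDegree ≤ D₂)
    (hRd : ∀ s, DepC c 3 (Hr s 3)) (ν : F.Ω) :
    (grP F c D₂ W H Hr (slam F W ν) 2).eval (rt F W ν) =
      (cpp W c 2 (Hr (slam F W ν) 3 - H (slam F W ν) 3) (slam F W ν)).eval (rt F W ν) := by
  rw [cpp_at hW]
  unfold grP
  rw [if_neg (by norm_num), Pool.KBX.eval_aeval_poly]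
  have e1 : (fun o => (lc W (slam F W ν) o).eval (rt F W ν)) = bt F ν :=
    funext fun o => eval_lc F hW ν o
  have hd : DepC c 3 (Hr (slam F W ν) 3 - H (slam F W ν) 3) := fun b b' h1 h2 => by
    rw [map_sub, map_sub, hRd _ b b' h1 h2, hHd _ 3 b b' h1 h2]
  have hH' : ∀ l, (H (slam F W ν) l).totalDegree ≤ D₂ := fun l => (hH _ _).trans hDD
  rw [e1, njP_eval hc hH' (hHd _) ((totalDegree_sub _ _).trans (max_le (hR _) (hH' _))) hd _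
    (by norm_num), ncp_last hc (hHd _) hd]

/-- **The relation at the own time**, from one chart of the window `t`. -/
theorem ownE_of (D : ℕ) : ∃ C : ℕ, 1 ≤ C ∧ ∀ {D₂ m J : ℕ} {F : Fam m J} {A : F.Ω → Prop}
    {c : ℕ → Fin m} {w t : ℝ} {k q B : ℕ} {gw gt : ℕ → ℕ}
    {G : PtT F → ℕ → MvPolynomial (Option (Fin m)) ℝ}
    {H Hr : LnT F → ℕ → MvPolynomial (Option (Fin m)) ℝ} {δn : ℕ → ℝ} {Sh η η' : ℝ},
    D ≤ D₂ → Set.InjOn c (Set.Iio 4) → ⌊w * J⌋₊ ≤ J → ⌊t * J⌋₊ ≤ ⌊w * J⌋₊ + q → (∀ l ≤ 2, gt l ≤ gw l + q) →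
    (∀ s l, (G s l).totalDegree ≤ D) → (∀ s l, DepC c l (G s l)) →
    (∀ s l, (H s l).totalDegree ≤ D) → (∀ s l, DepC c l (H s l)) →
    (∀ s, (Hr s 3).totalDegree ≤ D₂) → (∀ s, DepC c 3 (Hr s 3)) →
    (∀ ω ω', A ω → A ω' → cR F A w ω = cR F A w ω' →
      H (slam F ⌊w * J⌋₊ ω) = H (slam F ⌊w * J⌋₊ ω')) →
    (∀ ω ω', A ω → A ω' → cR F A t ω = cR F A t ω' → ∀ l ≤ 3,
      G (ptr F J ω) l = G (ptr F J ω') l) →
    (∀ ω, A ω → ∀ l ≤ 3, |F.x ω (c l) - eval (bt F ω) (G (ptr F J ω) l)| ≤ 1 / 2 ^ gt l) →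
    (∀ ω, A ω → ∀ l ≤ 3, ∃ κ : ℝ, ∀ b, NBx c (G (ptr F J ω)) gt ⌊t * J⌋₊ (F.t ω) l b →
      |eval b (G (ptr F J ω) l) - eval b (H (slam F ⌊w * J⌋₊ ω) l) - κ| ≤ 2 ^ k / 2 ^ gw l) →
    (∀ ω, A ω → |eval (bt F ω) (pderiv (some (c 2)) (Hr (slam F ⌊w * J⌋₊ ω) 3 -
      G (ptr F J ω) 3))| ≤ 2 ^ k * 2 ^ gt 2 / 2 ^ gt 3) →
    4 * q + C * (k + 1) ≤ B → (∀ l ≤ 2, δn l ≤ 1 / 2 ^ (gw l + B)) → Sh ≤ 2 ^ k / 2 ^ gt 2 →
    2 ^ (C * (k + 1)) * (1 / 2 ^ gt 3 + 2 ^ (4 * q) / 2 ^ (gw 3 + B)) ≤ η →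
    2 ^ (C * (k + 1)) * 2 ^ gt 2 * (1 / 2 ^ gt 3 + 2 ^ (4 * q) / 2 ^ (gw 3 + B)) ≤ η' →
    OwnE F A c D D₂ w t H Hr δn Sh η η' := by
  classical
  obtain ⟨C, hC, hown⟩ := own_q D 2
  refine ⟨C, hC, ?_⟩
  intro D₂ m J F A c w t k q B gw gt G H Hr δn Sh η η' hDD hc hW htq hg hGd hGp hHd hHp hRd hRp hHc hGc
    hpos hcmp hR hB hδ hSh hη hη'
  intro ι i₀ μ h hA hT hcw hct h01 h2 hsh
  have hH0 : ∀ i, H (slam F ⌊w * J⌋₊ (μ i)) = H (slam F ⌊w * J⌋₊ (μ i₀)) := fun i =>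
    hHc _ _ (hA i) (hA i₀) (hcw i)
  obtain ⟨ψ, hψ⟩ : ∃ ψ, ψ = H (slam F ⌊w * J⌋₊ (μ i₀)) := ⟨_, rfl⟩
  obtain ⟨χ, hχ⟩ : ∃ χ, χ = G (ptr F J (μ i₀)) := ⟨_, rfl⟩
  have hGl : ∀ i, ∀ l ≤ 3, G (ptr F J (μ i)) l = χ l := fun i l hl => by
    rw [hχ]
    exact hGc _ _ (hA i) (hA i₀) (hct i) l hl
  have hHl : ∀ i, H (slam F ⌊w * J⌋₊ (μ i)) = ψ := fun i => by rw [hψ]; exact hH0 i
  obtain ⟨Q, hQ, q1, q2⟩ := hown (F := F) (c := c) (w := ⌊w * J⌋₊) (t := ⌊t * J⌋₊) (k := k) (q := q)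
    (B := B) (gw := gw) (gt := gt) (ψ := ψ) (χ := χ)
    (R := fun i => Hr (slam F ⌊w * J⌋₊ (μ i)) 3) (h := h) (μ := μ) i₀ hc hW htq hg
    (fun l => by rw [hχ]; exact hGd _ _) (fun l => by rw [hχ]; exact hGp _ _)
    (fun l => by rw [hψ]; exact hHd _ _) (fun l => by rw [hψ]; exact hHp _ _)
    (fun i l hl => by
      have h3 := hpos _ (hA i) l hl
      rw [hGl i l hl] at h3
      exact h3)
    (fun l hl => by
      have h3 := hcmp _ (hA i₀) l hl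
      rw [← hχ, ← hψ] at h3
      exact h3) hT
    (fun i l hl => by
      have h3 := h01 i l hl
      unfold opl at h3
      rw [hHl i, hHl i₀] at h3
      exact h3.trans (hδ l (by omega)))
    (fun i => by
      have h3 := h2 i
      unfold opl at h3
      rw [hHl i, hHl i₀] at h3
      exact h3.trans (hδ 2 le_rfl)) hB
    (fun i => by
      have h3 := hR _ (hA i)
      rw [hGl i 3 le_rfl] at h3
      exact h3) (fun i => (hsh i).trans hSh)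
  refine ⟨Q, hQ, fun i => ?_, fun i => ?_⟩
  · have h3 := q1 i
    unfold opl
    rw [hHl i]
    exact h3.trans hη
  · have h3 := q2 i
    rw [grP_two hDD hW (hc.mono fun y hy => by
      rw [Set.mem_Iio] at hy ⊢
      omega) hHd hHp hRd hRp, hHl i]
    exact h3.trans hη'


/-- **The linear relation of finitely many lines**, from the closed charts of one near ball; `γ l` the
size of the natural gradient of the row labels. -/
theorem linE_of (m D₂ : ℕ) : ∃ C : ℕ, 1 ≤ C ∧ ∀ {J : ℕ} {F : Fam m J} {A : F.Ω → Prop}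
    {c : ℕ → Fin m} {W a e k q X gr : ℕ} {g gw : ℕ → ℕ}
    {G : PtT F → ℕ → MvPolynomial (Option (Fin m)) ℝ}
    {Ha H Hr : LnT F → ℕ → MvPolynomial (Option (Fin m)) ℝ} {SR : F.Ω → F.Ω → Prop}
    {δv γ : ℕ → ℝ} {El : ℝ},
    Set.InjOn c (Set.Iio 4) → W ≤ J → a + 1 ≤ J → ChOK F c 4 (fun _ => D₂) a a e g A G Ha →
    (∀ l ≤ 3, e + g l + C * (k + 1) ≤ J) → (∀ s l, (H s l).totalDegree ≤ D₂) →
    (∀ s l, DepC c l (H s l)) → (∀ s, (Hr s 3).totalDegree ≤ D₂) → (∀ s, DepC c 3 (Hr s 3)) →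
    (∀ l ≤ 2, g l ≤ gw l + q) → gw 3 ≤ gr → gr ≤ g 3 → 3 * q + C * (k + 1) ≤ X →
    (∀ ω ν, A ω → A ν → SR ω ν → NrB F c 2 a a k X g gw A G Ha (H (slam F W ω)) ω ν) →
    (∀ ω, A ω → ∀ b, NBx c (G (ptr F J ω)) g a (F.t ω) 3 b →
      |eval b (G (ptr F J ω) 3) - eval b (Hr (slam F W ω) 3)| ≤ 2 ^ k / 2 ^ gr) →
    (∀ ω, A ω → ∀ l ≤ 2, |ncp c 3 (H (slam F W ω)) (Hr (slam F W ω) 3 - H (slam F W ω) 3)
      (bt F ω) l| ≤ γ l) →
    2 ^ (C * (k + 1)) * 2 ^ a * (1 / 2 ^ gr + 2 ^ (3 * q) / 2 ^ (gw 3 + X)) +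
      ∑ l ∈ range 3, γ l * δv l ≤ El →
    LinE F A c D₂ W H Hr SR δv El := by
  classical
  obtain ⟨C, hC, hrel⟩ := row_rel2 m D₂ 2
  refine ⟨C, hC, ?_⟩
  intro J F A c W a e k q X gr g gw G Ha H Hr SR δv γ El hc hW haJ hch hJ hHd hHp hRd hRp hg hgr
    hgr2 hX hSR hbox hgrd hEl ι _ i₀ lam ω ν ω₀ ψ ε hω hν hsr hT hψ hsum hnear
  have hc3 : Set.InjOn c (Set.Iio 3) := hc.mono fun y hy => by
    rw [Set.mem_Iio] at hy ⊢
    omega
  have hψd : ∀ l, (ψ l).totalDegree ≤ D₂ := fun l => by rw [← hψ i₀]; exact hHd _ _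
  have hψp : ∀ l, DepC c l (ψ l) := fun l => by rw [← hψ i₀]; exact hHp _ _
  have h1 := lin_alg i₀ lam (fun i => nct c 3 ψ (Hr (slam F W (ω i)) 3 - ψ 3)
      (bt F (ω i))) (fun i l => ncp c 3 ψ (Hr (slam F W (ω i)) 3 - ψ 3)
      (bt F (ω i)) l) (fun i l => ov F c ψ (ν i) l) 3 (ε := ε)
      (ε₀ := 2 ^ (C * (k + 1)) * 2 ^ a *
        (1 / 2 ^ gr + 2 ^ (3 * q) / 2 ^ (gw 3 + X)))
      (β := δv) (γ := γ)
      (fun i => hrel hc haJ hch hJ hψd hψp (hRd _) (hRp _) hg hgr hgr2 hX (ω i) (ν i) (by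
        have h := hSR _ _ (hω i) (hν i) (hsr i)
        rw [hψ i] at h
        exact h) (hbox _ (hω i)))
      hsum (fun i l hl => hnear i l (by omega))
      (fun i l hl => by
        have h := hgrd _ (hω i) l (by omega)
        rw [hψ i] at h
        exact h)
  rw [gA0_eval hW hc3 hψd hψp lam hT (fun i => hRd _) (fun i => hRp _)]
  have e1 : ∑ l ∈ range 3, (gA W c 3 D₂ ψ lam (fun i => slam F W (ω i))
        (fun i => Hr (slam F W (ω i)) 3) l).eval (rt F W ω₀) * ov F c ψ (ν i₀) l =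
      ∑ l ∈ range 3, (∑ i, lam i * ncp c 3 ψ
        (Hr (slam F W (ω i)) 3 - ψ 3) (bt F (ω i)) l) * ov F c ψ (ν i₀) l := by
    refine Finset.sum_congr rfl fun l hl => ?_
    rw [gA_eval hW hc3 hψd hψp lam hT (fun i => hRd _) (fun i => hRp _)
      (Finset.mem_range.1 hl)]
  rw [e1]
  exact h1.trans (add_le_add le_rfl (mul_le_mul_of_nonneg_left hEl
    (Finset.sum_nonneg fun i _ => abs_nonneg _)))

/-- **Two samples of one near ball**, from the record of the window of the ball, the time and the near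
heights. -/
theorem nrB_of {F : Fam m J} {A : F.Ω → Prop} {c : ℕ → Fin m} {w x' : ℝ} {a k X : ℕ}
    {g gw : ℕ → ℕ} {G : PtT F → ℕ → MvPolynomial (Option (Fin m)) ℝ}
    {Ha H : LnT F → ℕ → MvPolynomial (Option (Fin m)) ℝ} {SR : F.Ω → F.Ω → Prop} {dh : ℕ → ℝ}
    (hwx : w ≤ x') (hx1 : x' ≤ 1)
    (hHc : ∀ ω ω', A ω → A ω' → cR F A w ω = cR F A w ω' →
      H (slam F ⌊w * J⌋₊ ω) = H (slam F ⌊w * J⌋₊ ω'))
    (hGc : ∀ ω ω', A ω → A ω' → cR F A x' ω = cR F A x' ω' → ∀ l ≤ 3,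
      G (ptr F J ω) l = G (ptr F J ω') l)
    (hSR : ∀ ω ν, A ω → A ν → SR ω ν → cR F A x' ω = cR F A x' ν ∧ F.T ω = F.T ν ∧
      ∀ l ≤ 2, |(F.x ω (c l) - eval (bt F ω) (H (slam F ⌊w * J⌋₊ ω) l)) -
        (F.x ν (c l) - eval (bt F ν) (H (slam F ⌊w * J⌋₊ ν) l))| ≤ dh l)
    (hdv : ∀ ν, A ν → ∀ l ≤ 3, ∀ τ ∈ Set.Icc (0 : ℝ) 1,
      |(dv a (fun s _ => Ha s l) (c l) (slam F a ν)).eval τ| ≤ 2 ^ k / 2 ^ g l)
    (hcmp : ∀ ν, A ν → ∀ l ≤ 3, ∃ κ : ℝ, ∀ b, NBx c (G (ptr F J ν)) g a (F.t ν) l b →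
      |eval b (G (ptr F J ν) l) - eval b (H (slam F ⌊w * J⌋₊ ν) l) - κ| ≤ 2 ^ k / 2 ^ gw l)
    (hdh : ∀ l ≤ 2, dh l ≤ 1 / 2 ^ (gw l + X)) :
    ∀ ω ν, A ω → A ν → SR ω ν →
      NrB F c 2 a a k X g gw A G Ha (H (slam F ⌊w * J⌋₊ ω)) ω ν := by
  classical
  intro ω ν hω hν h
  obtain ⟨h1, h2, h3⟩ := hSR ω ν hω hν h
  have h4 : cR F A w ω = cR F A w ν := cR_mono hwx hx1 (p := fun ω => if A ω then (1 : ℝ) else 0)
    (fun ω hω => by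
      by_contra h8
      simp only [h8, if_false] at hω
      exact lt_irrefl _ hω) ω ν (by simp only [hω, if_true]; norm_num)
      (by simp only [hν, if_true]; norm_num) h1
  have h5 := hHc ω ν hω hν h4
  refine ⟨hω, hν, fun l hl => hGc ω ν hω hν h1 l hl, h2, fun l hl τ hτ => hdv ν hν l hl τ hτ,
    fun l hl => ?_, fun l hl => ?_⟩
  · obtain ⟨κ, h6⟩ := hcmp ν hν l hl
    refine ⟨κ, fun b hb => ?_⟩
    rw [h5]
    exact h6 b hb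
  · have h6 := h3 l hl
    rw [← h5] at h6
    exact h6.trans (hdh l hl)

/-- The relation of samples with the same record of the point. -/
theorem srP {F : Fam m J} {A : F.Ω → Prop} {c : ℕ → Fin m} {w x' : ℝ} {n : ℕ → ℝ}
    {H : LnT F → ℕ → MvPolynomial (Option (Fin m)) ℝ} {ω ν : F.Ω}
    (h : rP F A c w x' n H ω = rP F A c w x' n H ν) : cR F A x' ω = cR F A x' ν ∧ F.T ω = F.T ν ∧
      ∀ l ≤ 2, |(F.x ω (c l) - eval (bt F ω) (H (slam F ⌊w * J⌋₊ ω) l)) -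
        (F.x ν (c l) - eval (bt F ν) (H (slam F ⌊w * J⌋₊ ν) l))| ≤ 1 / 2 ^ (n l * J) := by
  have h1 := Prod.ext_iff.1 h
  have h2 := Prod.ext_iff.1 h1.1
  have h3 := Prod.ext_iff.1 h1.2
  refine ⟨h2.1, congrArg Prod.fst h2.2, fun l hl => ?_⟩
  have h4 : hgC F c w H l (n l) ω = hgC F c w H l (n l) ν := by
    rcases Nat.lt_or_ge l 2 with h5 | h5
    · exact congrFun h3.1 ⟨l, h5⟩
    · have h6 : l = 2 := by omega
      rw [h6]
      exact h3.2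
  unfold hgC at h4
  have h5 := Int.abs_sub_lt_one_of_floor_eq_floor h4
  have hp : (0 : ℝ) < 2 ^ (n l * J) := Real.rpow_pos_of_pos (by norm_num) _
  rw [← mul_sub, abs_mul, abs_of_pos hp, Pool.OWN54.ojet_zero, Pool.OWN54.ojet_zero] at h5
  rw [le_div_iff₀ hp, mul_comm]
  exact h5.le

end Pool.ND54
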