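import Pool.Agent.H54.ND.Evt

/-!
# Suppliers of the near-dead step: separation

`sp_of`: the order-zero codes of the path of `c 2` of two lines with the same number in two copies are
rarely near.
-/

set_option autoImplicit false

namespace Pool.ND54

open Finset Real MvPolynomial
open Pool.Agent.H49.Ent Pool.Agent.H32.Dense Pool.STK Pool.KA Pool.KSAT Pool.K2S Pool.PB Pool.S6C
open Pool.GEN hiding Det
open Pool.CHT Pool.D2R Pool.LA91 Pool.RCD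
open Pool.PB.Trl (rt rt_mem t_rt)
open Pool.V0F (cR det_cR)
open Pool.NDC42
open Pool.BFL (Pb)
open Pool.STB (Pb_mono Pb_or)
open Pool.CLU (cpn_law cpn_pos cpn_marg)
open Pool.NDD66 (ov det3o RelO)

variable {m J : ℕ}

/-- The fine digits from the coarse digits. -/
theorem fine_mem {R z z' : ℝ} (hR : 0 < R) (h : z' = R * z) :
    ⌊z'⌋ ∈ Finset.Icc ⌊R * (⌊z⌋ : ℝ)⌋ ⌊R * ((⌊z⌋ : ℝ) + 1)⌋ := by
  rw [Finset.mem_Icc, h]
  constructor
  · exact Int.floor_le_floor (mul_le_mul_of_nonneg_left (Int.floor_le _) hR.le)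
  · exact Int.floor_le_floor (mul_le_mul_of_nonneg_left (Int.lt_floor_add_one _).le hR.le)

theorem fine_card {R : ℝ} (a : ℤ) :
    (Finset.Icc ⌊R * (a : ℝ)⌋ ⌊R * ((a : ℝ) + 1)⌋).card ≤ ⌈R⌉₊ + 1 := by
  rw [Int.card_Icc]
  have h1 : ⌊R * ((a : ℝ) + 1)⌋ ≤ ⌊R * (a : ℝ)⌋ + (⌈R⌉₊ : ℤ) := by
    rw [← Int.floor_add_natCast]
    refine Int.floor_le_floor ?_
    have := Nat.le_ceil R
    linarith
  omega

/-- **Fullness of the far digits in a configuration**: of the own line, and of the order-zero code of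
the path of `c 2` of every line. -/
theorem cfg_U0 {F : Fam m J} {A : F.Ω → Prop} (hA : 0 < Pe F.p A) {c : ℕ → Fin m} {D : ℕ}
    {w t x' : ℝ} {n : ℕ → ℝ} {nt e : ℝ} {H : LnT F → ℕ → MvPolynomial (Option (Fin m)) ℝ}
    (hE : NdE F A c D w t x' n nt e H) (hwx : w ≤ x') (hx1 : x' ≤ 1) (hnt : nt ≤ n 2) (k : ℕ) :
    (n 2 - nt) * Real.log 2 * J - ((2 + 2 * k) * (e * J) + k * Real.log 5) ≤
      CH (cfg (Pool.Agent.H49.Ent.cond F.p A True) (rP F A c w x' n H) (slam F ⌊w * J⌋₊) k 0)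
        (fun v => hgC F c w H 2 (n 2) (v 0 0)) (yN F A c D w t n nt H k) ∧
    ∀ j, (n 2 - nt) * Real.log 2 * J - ((3 + 2 * k) * (e * J) + k * Real.log 5) ≤
      CH (cfg (Pool.Agent.H49.Ent.cond F.p A True) (rP F A c w x' n H) (slam F ⌊w * J⌋₊) k 0)
        (fun v => pcC F c D w H 2 0 (n 2) (v j 0) 0) (yN F A c D w t n nt H k) := by
  classical
  obtain ⟨p, hpe⟩ : ∃ p, p = Pool.Agent.H49.Ent.cond F.p A True := ⟨_, rfl⟩
  have hp : IsLaw p := by rw [hpe]; exact isLaw_cond F.isLaw hA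
  have p0 := hp.nonneg
  have hpA : ∀ ω, 0 < p ω → A ω := fun ω hω => by
    rw [hpe] at hω
    exact cond_A hω
  obtain ⟨Y, ud, hf1, hf2, -⟩ := hE.fr
  have hdrP := det_rP (F := F) (c := c) (w := w) (n := n) (H := H) hpA hwx hx1
  have h1 := cfg_uf hp (rP F A c w x' n H) (slam F ⌊w * J⌋₊) k (x0 F A c D w n nt H) F.T
    (cR F A t) (hgC F c w H 2 (n 2)) ud (fun ω => (cR F A w ω, F.W ω)) (yN F A c D w t n nt H k)
    (e₀ := e * J) (e₂ := e * J + (k : ℝ) * (e * J + Real.log 5))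
    (fun ω ω' hω hω' h => (Prod.ext_iff.1 (hdrP ω ω' hω hω' h)).1) (det_zw (cR F A t))
    (by rw [hpe]; exact hf1) (by
      rw [hpe]
      exact y_few hA hnt hwx hx1 ud hf2 hE.ht k)
  have h2 : (n 2 - nt) * Real.log 2 * J - e * J ≤ CH p (hgC F c w H 2 (n 2))
      (fun ω => (F.T ω, (cR F A t ω, x0 F A c D w n nt H ω))) := by
    have h1 := hE.fu
    rw [← hpe] at h1
    have h5 : ((n 2 - nt) * Real.log 2 - e) * J = (n 2 - nt) * Real.log 2 * J - e * J := by ring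
    rw [h5] at h1
    refine h1.trans (CH_mono_cond p0 fun ω ω' _ _ h => ?_)
    have h' := Prod.ext_iff.1 h
    have h'' := Prod.ext_iff.1 h'.1
    have hT : F.T ω = F.T ω' := (Prod.ext_iff.1 h''.2).1
    exact Prod.ext hT (Prod.ext h''.1 h'.2)
  have h3 : (n 2 - nt) * Real.log 2 * J - ((2 + 2 * k) * (e * J) + k * Real.log 5) ≤
      CH (cfg p (rP F A c w x' n H) (slam F ⌊w * J⌋₊) k 0)
        (fun v => hgC F c w H 2 (n 2) (v 0 0)) (yN F A c D w t n nt H k) := by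
    have e1 : (2 + 2 * (k : ℝ)) * (e * J) + k * Real.log 5 =
        e * J + (k * (e * J) + (e * J + (k : ℝ) * (e * J + Real.log 5))) := by ring
    rw [e1]
    linarith
  rw [hpe] at h3
  refine ⟨h3, fun j => ?_⟩
  have h4 := cfg_u0 hp (rP F A c w x' n H) (slam F ⌊w * J⌋₊) k j (x0 F A c D w n nt H) F.T
    (hgC F c w H 2 (n 2)) (fun ω => pcC F c D w H 2 0 (n 2) ω 0) (yN F A c D w t n nt H k)
    (eo := e * J)
    (fun ω ω' hω hω' h => (Prod.ext_iff.1 (Prod.ext_iff.1 (hdrP ω ω' hω hω' h)).2).2)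
    (fun ω ω' hω hω' h => congrArg (fun z => z.1.2.1) (hdrP ω ω' hω hω' h))
    (fun v v' _ _ h => congrFun (Prod.ext_iff.1 h).2 j)
    (fun v v' _ _ h => (Prod.ext_iff.1 (Prod.ext_iff.1 h).1).1)
    (by
      have h5 := hE.hn
      rw [← hpe] at h5
      refine le_trans (CH_mono_cond p0 fun ω ω' hω hω' h => ?_) h5
      have h' := Prod.ext_iff.1 h
      exact Prod.ext h'.2 (det_xn ω ω' hω hω' h'.1))
  rw [hpe] at h4
  have e1 : (3 + 2 * (k : ℝ)) * (e * J) + k * Real.log 5 =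
      ((2 + 2 * k) * (e * J) + k * Real.log 5) + e * J := by ring
  rw [e1]
  linarith

/-- **Separation** of the order-zero codes. -/
theorem sp_of {F : Fam m J} {A : F.Ω → Prop} (hA : 0 < Pe F.p A) {c : ℕ → Fin m} {D : ℕ}
    {w t x' : ℝ} {n : ℕ → ℝ} {nt e : ℝ} {H : LnT F → ℕ → MvPolynomial (Option (Fin m)) ℝ}
    (hE : NdE F A c D w t x' n nt e H) (hwx : w ≤ x') (hx1 : x' ≤ 1) (hnt : nt ≤ n 2) {Ks : ℕ}
    {Λ : ℝ} (hΛ : 0 ≤ Λ) (hKs : Real.log (2 * Ks + 1) + Λ ≤ (n 2 - nt) * Real.log 2 * J)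
    (j : Fin (3 + 1)) :
    Pb (ndQ F A c D w t x' n nt H) (fun v => ∃ i i', i ≠ i' ∧
      |pcC F c D w H 2 0 (n 2) (v i j 0) 0 - pcC F c D w H 2 0 (n 2) (v i' j 0) 0| ≤ (Ks : ℤ)) * Λ ≤
      (2 * D + 2) ^ 2 * (9 * (e * J) + 3 * Real.log 5 + Real.log 3 + Real.log 2) := by
  classical
  have hp : IsLaw (Pool.Agent.H49.Ent.cond F.p A True) := isLaw_cond F.isLaw hA
  have hql := cfg_law hp (rP F A c w x' n H) (slam F ⌊w * J⌋₊) 3 0
  obtain ⟨-, hU⟩ := cfg_U0 hA hE hwx hx1 hnt (t := t) 3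
  have hU := hU j
  obtain ⟨R, hR⟩ : ∃ R : ℝ, R = 2 ^ ((n 2 - nt) * J) := ⟨_, rfl⟩
  have hR1 : 1 ≤ R := by
    rw [hR]
    exact Real.one_le_rpow (by norm_num) (mul_nonneg (by linarith) (Nat.cast_nonneg J))
  have hR0 : 0 < R := by linarith
  have hlR : Real.log R = (n 2 - nt) * Real.log 2 * J := by
    rw [hR, Real.log_rpow (by norm_num)]
    ring
  obtain ⟨N, hN⟩ : ∃ N : ℕ, N = ⌈R⌉₊ + 1 := ⟨_, rfl⟩
  have hN1 : R ≤ N := by
    rw [hN]
    push_cast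
    have := Nat.le_ceil R
    linarith
  have hN2 : (N : ℝ) ≤ 3 * R := by
    rw [hN]
    push_cast
    have := (Nat.ceil_lt_add_one hR0.le).le
    linarith
  have hlN : Real.log N ≤ (n 2 - nt) * Real.log 2 * J + Real.log 3 := by
    rw [← hlR, add_comm, ← Real.log_mul (by norm_num) hR0.ne']
    exact Real.log_le_log (by linarith) hN2
  have hlN' : (n 2 - nt) * Real.log 2 * J ≤ Real.log N := by
    rw [← hlR]
    exact Real.log_le_log hR0 hN1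
  have hmain := sep_cpn hql (fun v => pcC F c D w H 2 0 (n 2) (v j 0) 0) (yN F A c D w t n nt H 3)
    (fun y => Finset.Icc ⌊R * (((y.2 j).2.2.2 0 : ℤ) : ℝ)⌋ ⌊R * ((((y.2 j).2.2.2 0 : ℤ) : ℝ) + 1)⌋)
    N Ks (2 * D + 1) (θ := 9 * (e * J) + 3 * Real.log 5 + Real.log 3)
    (by rw [hN]; omega)
    (fun v _ => by
      show pcC F c D w H 2 0 (n 2) (v j 0) 0 ∈ Finset.Icc
        ⌊R * ((pcC F c D w H 2 0 nt (v j 0) 0 : ℤ) : ℝ)⌋
        ⌊R * (((pcC F c D w H 2 0 nt (v j 0) 0 : ℤ) : ℝ) + 1)⌋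
      unfold pcC Pool.AVG71.cod
      rw [if_pos (Nat.zero_le _), if_pos (Nat.zero_le _)]
      refine fine_mem hR0 ?_
      rw [hR, ← mul_assoc, ← Real.rpow_add (by norm_num)]
      congr 2
      ring)
    (fun y => by
      rw [hN]
      exact fine_card _)
    (by
      push_cast at hU
      linarith)
    (by linarith)
  have h0 : 0 ≤ Pb (ndQ F A c D w t x' n nt H) (fun v => ∃ i i', i ≠ i' ∧
      |pcC F c D w H 2 0 (n 2) (v i j 0) 0 - pcC F c D w H 2 0 (n 2) (v i' j 0) 0| ≤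
        (Ks : ℤ)) :=
    Pool.MIC.Pb_nonneg (cpn_law hql _ _).nonneg _
  refine (mul_le_mul_of_nonneg_left (show Λ ≤ Real.log N - Real.log (2 * Ks + 1) by linarith)
    h0).trans ?_
  have e1 : ((((2 * D + 1 : ℕ) : ℝ) + 1) ^ 2) = (2 * (D : ℝ) + 2) ^ 2 := by
    push_cast
    ring
  rw [e1] at hmain
  refine le_trans hmain (le_of_eq (by ring))

/-- **General position of the three lines**, from the fullness of the own velocities. -/
theorem det_of {F : Fam m J} {A : F.Ω → Prop} (hA : 0 < Pe F.p A) {c : ℕ → Fin m}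
    {w x' : ℝ} {n : ℕ → ℝ} {H : LnT F → ℕ → MvPolynomial (Option (Fin m)) ℝ}
    (hwx : w ≤ x') (hx1 : x' ≤ 1)
    (hHc : ∀ ω ω', A ω → A ω' → cR F A w ω = cR F A w ω' →
      H (slam F ⌊w * J⌋₊ ω) = H (slam F ⌊w * J⌋₊ ω')) {u₀ u₁ N θ cc dm : ℝ} {K : ℕ}
    (hu₀ : 0 < u₀) (hu₁ : 0 < u₁) (hN : 3 ≤ N) (hK : 1 ≤ K)
    (hb : ∀ ω, A ω → |u₀ * ov F c (H (slam F ⌊w * J⌋₊ ω)) ω 0| ≤ K ∧
      |u₁ * ov F c (H (slam F ⌊w * J⌋₊ ω)) ω 1| ≤ K)
    (hf : 2 * Real.log N - θ ≤ CH (Pool.Agent.H49.Ent.cond F.p A True)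
      (fun ω => (⌊N * (u₀ * ov F c (H (slam F ⌊w * J⌋₊ ω)) ω 0)⌋,
        ⌊N * (u₁ * ov F c (H (slam F ⌊w * J⌋₊ ω)) ω 1)⌋)) (rP F A c w x' n H))
    (hc : θ + Real.log 2 + 2 * Real.log (2 * K + 1) ≤
      cc * (Real.log N - Real.log (8 * K + 5))) (hc0 : 0 < Real.log N - Real.log (8 * K + 5))
    (hdm : u₀ * u₁ * dm ≤ (1 / N) ^ 3) :
    Pb (cfg (Pool.Agent.H49.Ent.cond F.p A True) (rP F A c w x' n H) (slam F ⌊w * J⌋₊) 3 0)
      (fun v => |det3o F c (H (slam F ⌊w * J⌋₊ (v 0 0))) (fun a => v a.succ 0)| < dm) ≤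
      3 * cc := by
  classical
  have hp : IsLaw (Pool.Agent.H49.Ent.cond F.p A True) := isLaw_cond F.isLaw hA
  have hql := cfg_law hp (rP F A c w x' n H) (slam F ⌊w * J⌋₊) 3 0
  have key := cfg_gp hp (a := fun ω => u₀ * ov F c (H (slam F ⌊w * J⌋₊ ω)) ω 0)
    (b := fun ω => u₁ * ov F c (H (slam F ⌊w * J⌋₊ ω)) ω 1) (r := rP F A c w x' n H)
    (slam F ⌊w * J⌋₊) hN hK (fun ω hω => (hb ω (cond_A hω)).1) (fun ω hω => (hb ω (cond_A hω)).2)
    hf hc hc0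
  refine (Pool.XLF.Pb_le hql.nonneg fun v hv h => ?_).trans key
  have h1 := cfg_pos hp (rP F A c w x' n H) (slam F ⌊w * J⌋₊) hv
  have hdrP := det_rP (F := F) (c := c) (w := w) (n := n) (H := H)
    (p := Pool.Agent.H49.Ent.cond F.p A True) (fun ω hω => cond_A hω) hwx hx1
  have h2 : ∀ j, H (slam F ⌊w * J⌋₊ (v j 0)) = H (slam F ⌊w * J⌋₊ (v 0 0)) := fun j =>
    hHc _ _ (cond_A (h1.1 j 0)) (cond_A (h1.1 0 0))
      (congrArg (fun z => z.1.1) (hdrP _ _ (h1.1 j 0) (h1.1 0 0) (h1.2.2 j)))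
  obtain ⟨ψ, hψ⟩ : ∃ ψ, ψ = H (slam F ⌊w * J⌋₊ (v 0 0)) := ⟨_, rfl⟩
  simp only [h2]
  rw [← hψ] at h ⊢
  have h : |(ov F c ψ (v 1 0) 0 - ov F c ψ (v 3 0) 0) *
    (ov F c ψ (v 2 0) 1 - ov F c ψ (v 3 0) 1) - (ov F c ψ (v 2 0) 0 - ov F c ψ (v 3 0) 0) *
    (ov F c ψ (v 1 0) 1 - ov F c ψ (v 3 0) 1)| < dm := h
  obtain ⟨Δ, hΔ⟩ : ∃ Δ, Δ = (ov F c ψ (v 1 0) 0 - ov F c ψ (v 3 0) 0) *
    (ov F c ψ (v 2 0) 1 - ov F c ψ (v 3 0) 1) - (ov F c ψ (v 2 0) 0 - ov F c ψ (v 3 0) 0) *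
    (ov F c ψ (v 1 0) 1 - ov F c ψ (v 3 0) 1) := ⟨_, rfl⟩
  rw [← hΔ] at h
  have e4 : (u₀ * ov F c ψ (v 1 0) 0 - u₀ * ov F c ψ (v 3 0) 0) *
      (u₁ * ov F c ψ (v 2 0) 1 - u₁ * ov F c ψ (v 3 0) 1) -
      (u₀ * ov F c ψ (v 2 0) 0 - u₀ * ov F c ψ (v 3 0) 0) *
      (u₁ * ov F c ψ (v 1 0) 1 - u₁ * ov F c ψ (v 3 0) 1) = u₀ * u₁ * Δ := by
    rw [hΔ]
    ring
  rw [e4, abs_mul, abs_of_pos (mul_pos hu₀ hu₁)]
  exact lt_of_lt_of_le (mul_lt_mul_of_pos_left h (mul_pos hu₀ hu₁)) hdm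

/-- **The entropy hypothesis of the no-relation theorem**, for the law of the copies. -/
theorem rec_ent {F : Fam m J} {A : F.Ω → Prop} (hA : 0 < Pe F.p A) {c : ℕ → Fin m} {D : ℕ}
    {w t x' : ℝ} {n : ℕ → ℝ} {nt e : ℝ} {H : LnT F → ℕ → MvPolynomial (Option (Fin m)) ℝ}
    (hE : NdE F A c D w t x' n nt e H) (hwx : w ≤ x') (hx1 : x' ≤ 1) (hnt : nt ≤ n 2)
    {Kc : Type} (kc : F.Ω → Kc)
    (hk1 : ∀ ω ω', A ω → A ω' → slam F ⌊w * J⌋₊ ω = slam F ⌊w * J⌋₊ ω' → kc ω = kc ω')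
    (hk2 : CH (Pool.Agent.H49.Ent.cond F.p A True) kc (xg F A c D w n nt H) ≤ e * J) :
    CH (ndQ F A c D w t x' n nt H) (fun v => v 0 0 0) (fun v => slam F ⌊w * J⌋₊ (v 0 0 0)) ≤
      CH (ndQ F A c D w t x' n nt H) (fun v => v 0 0 0)
        (fun v => (((), fun i => elN F A c D w n nt H kc (v i 0 0)),
          slam F ⌊w * J⌋₊ (v 0 0 0))) +
      (2 * D + 1) * (11 * (e * J) + 3 * Real.log 5) := by
  classical
  obtain ⟨p, hpe⟩ : ∃ p, p = Pool.Agent.H49.Ent.cond F.p A True := ⟨_, rfl⟩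
  have hp : IsLaw p := by rw [hpe]; exact isLaw_cond F.isLaw hA
  have p0 := hp.nonneg
  have hpA : ∀ ω, 0 < p ω → A ω := fun ω hω => by
    rw [hpe] at hω
    exact cond_A hω
  obtain ⟨Y, ud, hf1, hf2, -⟩ := hE.fr
  have hQ : ndQ F A c D w t x' n nt H = Pool.K2S.cpn (cfg p (rP F A c w x' n H)
      (slam F ⌊w * J⌋₊) 3 0) (yN F A c D w t n nt H 3) (2 * D + 1) := by
    unfold ndQ
    rw [hpe]
  have hql := cfg_law hp (rP F A c w x' n H) (slam F ⌊w * J⌋₊) 3 0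
  have e1 : CH p (elN F A c D w n nt H kc) (x0 F A c D w n nt H) ≤
      (n 2 - nt) * Real.log 2 * J + (e * J + e * J) := by
    have h1 : CH p (elN F A c D w n nt H kc) (x0 F A c D w n nt H) ≤
        CH p (fun ω => (kc ω, xg F A c D w n nt H ω)) (x0 F A c D w n nt H) :=
      CH_mono_left p0 fun ω ω' _ _ h => by
        have h' := Prod.ext_iff.1 (Prod.ext_iff.1 h).1
        exact Prod.ext h'.2 h'.1
    have h2 := CH_chain p0 kc (xg F A c D w n nt H) (x0 F A c D w n nt H)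
    have h3 : CH p kc (fun ω => (xg F A c D w n nt H ω, x0 F A c D w n nt H ω)) ≤
        CH p kc (xg F A c D w n nt H) :=
      CH_mono_cond p0 fun _ _ _ _ h => (Prod.ext_iff.1 h).1
    have h4 := hE.xx
    rw [← hpe] at h4 hk2
    have h5 : ((n 2 - nt) * Real.log 2 + e) * J = (n 2 - nt) * Real.log 2 * J + e * J := by ring
    rw [h5] at h4
    linarith
  have e2 : CH p (hgC F c w H 2 (n 2)) (fun ω => (elN F A c D w n nt H kc ω, F.T ω)) ≤ e * J := by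
    refine le_trans (CH_mono_cond p0 fun ω ω' _ _ h => ?_) (by
      have := hE.hn
      rw [← hpe] at this
      exact this)
    have h' := Prod.ext_iff.1 h
    exact Prod.ext h'.2 (congrArg (fun z => z.1.1) h'.1)
  have e3 : (n 2 - nt) * Real.log 2 * J - e * J ≤ CH p (hgC F c w H 2 (n 2))
      (fun ω => (F.T ω, (cR F A t ω, x0 F A c D w n nt H ω))) := by
    have h1 := hE.fu
    rw [← hpe] at h1
    have h5 : ((n 2 - nt) * Real.log 2 - e) * J = (n 2 - nt) * Real.log 2 * J - e * J := by ring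
    rw [h5] at h1
    refine h1.trans (CH_mono_cond p0 fun ω ω' _ _ h => ?_)
    have h' := Prod.ext_iff.1 h
    have h'' := Prod.ext_iff.1 h'.1
    have hT : F.T ω = F.T ω' := (Prod.ext_iff.1 h''.2).1
    exact Prod.ext hT (Prod.ext h''.1 h'.2)
  have hdrP := det_rP (F := F) (c := c) (w := w) (n := n) (H := H) hpA hwx hx1
  have main := nd_full hp (rP F A c w x' n H) (slam F ⌊w * J⌋₊) 3 (2 * D + 1) 0
    (elN F A c D w n nt H kc)
    (x0 F A c D w n nt H) F.T (cR F A t) (hgC F c w H 2 (n 2)) ud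
    (fun ω => (cR F A w ω, F.W ω)) (yN F A c D w t n nt H 3)
    (cU := (n 2 - nt) * Real.log 2 * J) (ef := e * J + e * J) (eo := e * J) (eU := e * J)
    (e₀ := e * J) (e₂ := e * J + ((3 : ℕ) : ℝ) * (e * J + Real.log 5))
    (fun ω ω' hω hω' h => (Prod.ext_iff.1 (hdrP ω ω' hω hω' h)).1)
    (det_zw (cR F A t))
    (fun ω ω' hω hω' h => (Prod.ext_iff.1 (Prod.ext_iff.1 (hdrP ω ω' hω hω' h)).2).2)
    (fun ω ω' hω hω' h => congrArg (fun z => z.1.2.1) (hdrP ω ω' hω hω' h))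
    (fun ω ω' _ _ h => congrArg (fun z => z.1.1.1) h)
    (fun ω ω' hω hω' h => Prod.ext (det_xg hpA ω ω' hω hω' h)
      (hk1 ω ω' (hpA ω hω) (hpA ω' hω') h))
    (fun v v' _ _ h => congrFun (Prod.ext_iff.1 h).2 0)
    (fun v v' _ _ h => (Prod.ext_iff.1 (Prod.ext_iff.1 h).1).1)
    e1 e2 e3 (by rw [hpe]; exact hf1) (by
      rw [hpe]
      exact y_few hA hnt hwx hx1 ud hf2 hE.ht 3) (fun ω => ω)
  rw [← hQ] at main
  have hmg : Marg (ndQ F A c D w t x' n nt H) p (fun v => v 0 0 0) := by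
    rw [hQ]
    exact (cpn_marg hql.nonneg (yN F A c D w t n nt H 3) (2 * D + 1) 0).comp
      (cfg_one hp (rP F A c w x' n H) (slam F ⌊w * J⌋₊) 3 0 0 0)
  have h1 : CH (ndQ F A c D w t x' n nt H) (fun v => v 0 0 0)
      (fun v => slam F ⌊w * J⌋₊ (v 0 0 0)) = CH p (fun ω => ω) (slam F ⌊w * J⌋₊) :=
    hmg.CH (fun ω => ω) (slam F ⌊w * J⌋₊)
  have h2 : CH (ndQ F A c D w t x' n nt H) (fun v => v 0 0 0)
      (fun v => (slam F ⌊w * J⌋₊ (v 0 0 0), fun i => elN F A c D w n nt H kc (v i 0 0))) ≤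
      CH (ndQ F A c D w t x' n nt H) (fun v => v 0 0 0)
        (fun v => (((), fun i => elN F A c D w n nt H kc (v i 0 0)),
          slam F ⌊w * J⌋₊ (v 0 0 0))) := by
    refine CH_mono_cond (by
      rw [hQ]
      exact (cpn_law hql _ _).nonneg) fun v v' _ _ h => ?_
    have h' := Prod.ext_iff.1 h
    exact Prod.ext (Prod.ext rfl h'.2) h'.1
  rw [h1]
  have e4 : ((2 * D + 1 : ℕ) : ℝ) * (e * J + e * J + e * J + e * J + ((3 : ℕ) : ℝ) * (e * J) +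
      (e * J + ((3 : ℕ) : ℝ) * (e * J + Real.log 5))) =
      (2 * D + 1) * (11 * (e * J) + 3 * Real.log 5) := by
    push_cast
    ring
  rw [e4] at main
  linarith

/-- **The law of a line of the copies.** -/
theorem rec_law {F : Fam m J} {A : F.Ω → Prop} (hA : 0 < Pe F.p A) (c : ℕ → Fin m) (D : ℕ)
    (w t x' : ℝ) (n : ℕ → ℝ) (nt : ℝ) (H : LnT F → ℕ → MvPolynomial (Option (Fin m)) ℝ)
    (ω : F.Ω) : law (ndQ F A c D w t x' n nt H) (fun v => v 0 0 0) ω * Pe F.p A ≤ F.p ω := by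
  classical
  have hp : IsLaw (Pool.Agent.H49.Ent.cond F.p A True) := isLaw_cond F.isLaw hA
  have hql := cfg_law hp (rP F A c w x' n H) (slam F ⌊w * J⌋₊) 3 0
  have hmg : Marg (ndQ F A c D w t x' n nt H) (Pool.Agent.H49.Ent.cond F.p A True)
      (fun v => v 0 0 0) := by
    unfold ndQ
    exact (cpn_marg hql.nonneg (yN F A c D w t n nt H 3) (2 * D + 1) 0).comp
      (cfg_one hp (rP F A c w x' n H) (slam F ⌊w * J⌋₊) 3 0 0 0)
  have h1 : law (ndQ F A c D w t x' n nt H) (fun v => v 0 0 0) ω =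
      Pool.Agent.H49.Ent.cond F.p A True ω := by
    rw [← hmg ω]
    unfold Pool.Agent.H49.Ent.law
    rfl
  rw [h1]
  unfold Pool.Agent.H49.Ent.cond
  by_cases h : A ω
  · rw [if_pos (by simpa using h)]
    have h2 : law F.p A True = Pe F.p A := rfl
    rw [h2, div_mul_cancel₀ _ hA.ne']
  · rw [if_neg (by simpa using h), zero_mul]
    exact F.isLaw.nonneg ω

/-- **The hypothesis on the relations**, from the no-relation theorem. -/
theorem rec_of {F : Fam m J} {A A₀ : F.Ω → Prop} (hA : 0 < Pe F.p A) {c : ℕ → Fin m} {D : ℕ}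
    {w t x' : ℝ} {n : ℕ → ℝ} {nt e : ℝ} {H : LnT F → ℕ → MvPolynomial (Option (Fin m)) ℝ}
    (hE : NdE F A c D w t x' n nt e H) (hwx : w ≤ x') (hx1 : x' ≤ 1) (hnt : nt ≤ n 2)
    {Kc : Type} (kc : F.Ω → Kc)
    (hk1 : ∀ ω ω', A ω → A ω' → slam F ⌊w * J⌋₊ ω = slam F ⌊w * J⌋₊ ω' → kc ω = kc ω')
    (hk2 : CH (Pool.Agent.H49.Ent.cond F.p A True) kc (xg F A c D w n nt H) ≤ e * J)
    {SR : F.Ω → F.Ω → Prop} {dm E e₀ c₃ Mq : ℝ} {D₂ D₃ : ℕ} (hD₂ : D₂ + 3 * D₂ ≤ D₃)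
    (hM : Pe F.p A₀ ≤ Mq * Pe F.p A)
    (he : (2 * D + 1) * (11 * (e * J) + 3 * Real.log 5) ≤ e₀ * J)
    (hR : ∀ (Ω₃ 𝒯 : Type) [Fintype Ω₃] (Q : Ω₃ → ℝ) (om : Ω₃ → F.Ω)
        (tp : Ω₃ → 𝒯) (PA : 𝒯 → ℕ → Polynomial ℝ), IsLaw Q →
      (∀ t l, (PA t l).natDegree ≤ D₃) → (∀ ω, law Q om ω * Pe F.p A₀ ≤ Mq * F.p ω) →
      CH Q om (fun x => slam F ⌊w * J⌋₊ (om x)) ≤
        CH Q om (fun x => (tp x, slam F ⌊w * J⌋₊ (om x))) + e₀ * J →
      law Q (fun x => A (om x) ∧ RelO F c A ⌊w * J⌋₊ H SR dm E (PA (tp x)) (om x)) True < c₃)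
    (NR : ℕ → _ → Polynomial ℝ) (hNR : ∀ i x, (NR i x).natDegree ≤ D₂ + 3 * D₂) :
    Pb (ndQ F A c D w t x' n nt H) (fun v => RelO F c A ⌊w * J⌋₊ H SR dm E
      (PAr (fun el => hLc J (n 2) (el.1.1.2 0)) NR
        ((), fun i => elN F A c D w n nt H kc (v i 0 0))) (v 0 0 0)) ≤ c₃ := by
  classical
  have hp : IsLaw (Pool.Agent.H49.Ent.cond F.p A True) := isLaw_cond F.isLaw hA
  have hql := cfg_law hp (rP F A c w x' n H) (slam F ⌊w * J⌋₊) 3 0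
  have hQl : IsLaw (ndQ F A c D w t x' n nt H) := cpn_law hql _ _
  have h1 := hR _ _ (ndQ F A c D w t x' n nt H) (fun v => v 0 0 0)
    (fun v => ((), fun i => elN F A c D w n nt H kc (v i 0 0)))
    (fun tp l => PAr (fun el => hLc J (n 2) (el.1.1.2 0)) NR tp l) hQl
    (fun tp l => (PAr_deg _ hNR tp l).trans hD₂) (fun ω => ?_) (by
      have h2 := rec_ent hA hE hwx hx1 hnt kc hk1 hk2 (t := t)
      linarith)
  · refine le_trans ?_ h1.le
    have e1 : law (ndQ F A c D w t x' n nt H) (fun v => A (v 0 0 0) ∧ RelO F c A ⌊w * J⌋₊ H SR dm E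
      (PAr (fun el => hLc J (n 2) (el.1.1.2 0)) NR
        ((), fun i => elN F A c D w n nt H kc (v i 0 0))) (v 0 0 0)) True =
        Pb (ndQ F A c D w t x' n nt H) (fun v => A (v 0 0 0) ∧ RelO F c A ⌊w * J⌋₊ H SR dm E
      (PAr (fun el => hLc J (n 2) (el.1.1.2 0)) NR
        ((), fun i => elN F A c D w n nt H kc (v i 0 0))) (v 0 0 0)) := by
      unfold Pb Pool.Agent.H49.Ent.law
      refine Finset.sum_congr rfl fun v _ => ?_
      congr 1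
      exact propext ⟨fun h => of_eq_true h, fun h => eq_true h⟩
    rw [e1]
    exact Pool.XLF.Pb_le hQl.nonneg fun v hv h => ⟨(ndQ_pos hA hv).1 0 0, h⟩
  · have h2 := rec_law hA c D w t x' n nt H ω
    have h3 : 0 ≤ law (ndQ F A c D w t x' n nt H) (fun v => v 0 0 0) ω :=
      law_nonneg hQl.nonneg _ _
    have h4 : 0 ≤ Mq := by
      by_contra h5
      push Not at h5
      have h6 : 0 ≤ Pe F.p A₀ := law_nonneg F.isLaw.nonneg _ _
      have h7 : Mq * Pe F.p A < 0 := mul_neg_of_neg_of_pos h5 hA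
      linarith
    calc law (ndQ F A c D w t x' n nt H) (fun v => v 0 0 0) ω * Pe F.p A₀ ≤
          law (ndQ F A c D w t x' n nt H) (fun v => v 0 0 0) ω * (Mq * Pe F.p A) :=
          mul_le_mul_of_nonneg_left hM h3
      _ = Mq * (law (ndQ F A c D w t x' n nt H) (fun v => v 0 0 0) ω * Pe F.p A) := by ring
      _ ≤ Mq * F.p ω := mul_le_mul_of_nonneg_left h2 h4

end Pool.ND54
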