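import Pool.Agent.H54.ND.Stp
import Pool.Agent.H54.ND.Cfg3

/-!
# The levels of all lines of a tuple of configurations

`nd_full`: the own time is full given a line and the level-free data of all lines number `j` of the
tuple. `nd_tup`: `lvl_tup` for every line number `j`. `hgt_move`: common heights for all numbers `j`.
-/

set_option autoImplicit false

namespace Pool.ND54

open Finset Real
open Pool.Agent.H49.Ent Pool.Agent.H32.Dense Pool.STK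
open Pool.BFL (Pb)
open Pool.STB (Pb_mono Pb_or)
open Pool.K2S (cpn)
open Pool.CLU (cpn_law cpn_pos cpn_marg)

section

variable {Ω R T Λ X U Y S Z N' L V S' X' : Type} [Fintype Ω]

/-- **The own data of a line are free given the line and the level-free data of the other lines.** -/
theorem nd_full {p : Ω → ℝ} (hp : IsLaw p) (r : Ω → R) (l : Ω → Λ) (m n : ℕ)
    (j : Fin (m + 1)) (ell : Ω → L) (x : Ω → X) (t : Ω → T) (sT : Ω → S') (Uf : Ω → V)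
    (ud : Ω → U) (zw : Ω → Z) (y : (Fin (m + 1) → Fin (0 + 1) → Ω) → Y)
    {cU ef eo eU e₀ e₂ : ℝ} (hrz : Det p r zw)
    (hxz : Det p (fun ω => (t ω, (sT ω, x ω))) zw) (hrU : Det p r Uf)
    (hrt : Det p r t) (hex : Det p ell x) (hle : Det p l ell)
    (hyx : Det (cfg p r l m 0) y (fun v => x (v j 0)))
    (hyt : Det (cfg p r l m 0) y (fun v => t (v 0 0)))
    (hf : CH p ell x ≤ cU + ef) (ho : CH p Uf (fun ω => (ell ω, t ω)) ≤ eo)
    (hU : cU - eU ≤ CH p Uf (fun ω => (t ω, (sT ω, x ω))))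
    (h0 : CH p ud zw ≤ CH p ud r + e₀)
    (hy : CH (cfg p r l m 0) y (fun v => ((t (v 0 0), (sT (v 0 0), x (v 0 0))),
      fun (j : Fin m) => ud (v j.succ 0))) ≤ e₂)
    (D : Ω → S) :
    CH p D l - n * (ef + eo + eU + m * e₀ + e₂) ≤
      CH (cpn (cfg p r l m 0) y n) (fun w => D (w 0 j 0))
        (fun w => (l (w 0 j 0), fun i => ell (w i j 0))) := by
  have hc := cfg_law hp r l m 0
  have c0 := hc.nonneg
  have h1 := nd_law2 hp r l m 0 n j ell x t sT Uf ud zw (fun _ => ()) y (cU := cU) (ef := ef)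
    (eo := eo) (eU := eU) (cn := 0) (en := 0) (e₀ := e₀) (e₂ := e₂) hrz hxz hrU hrt hex hyx hyt hf
    ho hU h0 (by
      rw [sub_zero]
      exact CH_nonneg hp.nonneg _ _) (le_of_eq (H_const hp.sum_one ())) (by
      refine le_trans (CH_mono_cond c0 fun v v' _ _ h => ?_) hy
      have h' := Prod.ext_iff.1 h
      refine Prod.ext h'.1 ?_
      funext j'
      exact (Prod.ext_iff.1 (congrFun h'.2 j')).1) (fun v => D (v j 0)) (fun v => l (v j 0))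
  have hj := cfg_one hp r l m 0 j 0
  have h2 : CH p D l ≤ CH (cfg p r l m 0) (fun v => D (v j 0))
      (fun v => (l (v j 0), ell (v j 0))) := by
    rw [hj.CH D (fun ω => (l ω, ell ω))]
    exact CH_mono_cond hp.nonneg fun ω ω' hω hω' h => Prod.ext h (hle _ _ hω hω' h)
  have h3 : (n : ℝ) * (ef + eo + eU + m * (e₀ + (0 : ℕ) * 0) + e₂) =
      n * (ef + eo + eU + m * e₀ + e₂) := by
    push_cast
    ring
  rw [h3] at h1
  linarith

/-- **The levels of all lines of a tuple of configurations.** -/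
theorem nd_tup (D d m : ℕ) : ∃ C : ℕ, 1 ≤ C ∧ ∀ {Ω R T Λ X U Y Z L V S' X' : Type} [Fintype Ω]
    {p : Ω → ℝ} (_ : IsLaw p) (r : Ω → R) (l : Ω → Λ)
    (ell : Ω → L) (x : Ω → X) (t : Ω → T) (sT : Ω → S') (Uf : Ω → V)
    (ud : Ω → U) (zw : Ω → Z) (y : (Fin (m + 1) → Fin (0 + 1) → Ω) → Y)
    {cU ef eo eU e₀ e₂ : ℝ} (_ : Det p r zw)
    (_ : Det p (fun ω => (t ω, (sT ω, x ω))) zw) (_ : Det p r Uf)
    (_ : Det p r t) (_ : Det p ell x) (_ : Det p l ell)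
    (_ : ∀ j, Det (cfg p r l m 0) y (fun v => x (v j 0)))
    (_ : Det (cfg p r l m 0) y (fun v => t (v 0 0)))
    (_ : CH p ell x ≤ cU + ef) (_ : CH p Uf (fun ω => (ell ω, t ω)) ≤ eo)
    (_ : cU - eU ≤ CH p Uf (fun ω => (t ω, (sT ω, x ω))))
    (_ : CH p ud zw ≤ CH p ud r + e₀)
    (_ : CH (cfg p r l m 0) y (fun v => ((t (v 0 0), (sT (v 0 0), x (v 0 0))),
      fun (j : Fin m) => ud (v j.succ 0))) ≤ e₂)
    -- the rows and the paths
    (xr : L → X') (tt : Ω → ℤ) (nP cP : Λ → Polynomial ℝ)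
    (hL : L → ℝ) (B : Ω → Prop) (S : ℕ → X' × ℤ → Finset ℤ) (n M Xd : ℕ) (N a b : ℕ → ℕ)
    (V : ℕ → ℝ) (K eT c₀ c₁ ρ δg δC η s Su Bn Bc Qb : ℝ), 1 ≤ M → 0 < ρ → ρ < 1 →
    (C : ℝ) ≤ ρ ^ C * (2 * M + 1) →
    (∀ ω, 0 < p ω → |tt ω| ≤ (M : ℤ)) → Real.log (2 * M + 1) - eT ≤ CH p tt l → Det p t tt →
    (∀ l, (nP l).natDegree ≤ d) → (∀ l, (cP l).natDegree ≤ d) → 0 ≤ δg → 0 ≤ δC → 0 ≤ K →
    0 < s → 0 ≤ Su → Qb = (Su / s) ^ (D - 1) * Su →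
    (∀ ω ω', 0 < p ω → 0 < p ω' → ell ω = ell ω' → ∀ τ ∈ Set.Icc (0 : ℝ) 1,
      |((nP (l ω)).eval τ - (nP (l ω)).eval 0) - ((nP (l ω')).eval τ - (nP (l ω')).eval 0)| ≤ δg ∧
      |(cP (l ω)).eval τ - (cP (l ω')).eval τ| ≤ δC) →
    (∀ j, Pb (cpn (cfg p r l m 0) y (2 * D + 1)) (fun w => ¬ ((∀ i i', i ≠ i' →
        s ≤ |hL (ell (w i j 0)) - hL (ell (w i' j 0))| ∧
          |hL (ell (w i j 0)) - hL (ell (w i' j 0))| ≤ Su) ∧
      (∀ i, ∀ τ ∈ Set.Icc (0 : ℝ) 1, |(nP (l (w i j 0))).eval τ| ≤ Bn ∧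
        |(cP (l (w i j 0))).eval τ| ≤ Bc) ∧
      ∀ i, |(nP (l (w i j 0))).eval (tu M (tt (w 0 j 0))) -
        (nP (l (w 0 j 0))).eval (tu M (tt (w 0 j 0))) -
        ∑ k : Fin D, (Pool.NDD66.Qk (fun k => hL (ell (w (ai k) j 0))) (hL (ell (w 0 j 0))) k).eval
          (hL (ell (w i j 0))) * (cP (l (w (ai k) j 0))).eval (tu M (tt (w 0 j 0)))| ≤ η)) ≤ c₁) →
    (∀ k < n, ∀ ω, 0 < p ω → B ω → ⌊2 ^ Xd * (nP (l ω)).eval 0⌋ / 2 ^ a k ∈
      S k (xr (ell ω), ⌊2 ^ Xd * (nP (l ω)).eval 0⌋ / 2 ^ b k)) →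
    (∀ k < n, ∀ w, (S k w).card ≤ N k) → Pb p (fun ω => ¬ B ω) ≤ c₀ →
    2 ^ Xd * (η + (D * Qb * δC + δg)) + 1 ≤ K →
    2 ^ Xd * (2 * ((3 * Bn + D * Qb * Bc) + (D * Qb * δC + δg))) ≤ V n →
    (∀ k < n, a k ≤ b k ∧ K ≤ 2 ^ a k ∧ 0 < V k ∧ V (k + 1) ≤ 2 ^ b k ∧
      (C : ℝ) * N k * 2 ^ a k ≤ ρ ^ C * V k ∧ (C : ℝ) * N k ≤ ρ ^ C * M) →
    Pb (cpn (cfg p r l m 0) y (2 * D + 1)) (fun w => ¬ ∀ j, ((∀ i i', i ≠ i' →
        s ≤ |hL (ell (w i j 0)) - hL (ell (w i' j 0))| ∧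
          |hL (ell (w i j 0)) - hL (ell (w i' j 0))| ≤ Su) ∧
      ∀ i, ∀ τ ∈ Set.Icc (0 : ℝ) 1, |(nP (l (w i j 0))).eval τ - (nP (l (w 0 j 0))).eval τ -
        ∑ k : Fin D, (Pool.NDD66.Qk (fun k => hL (ell (w (ai k) j 0))) (hL (ell (w 0 j 0))) k).eval
          (hL (ell (w i j 0))) * (cP (l (w (ai k) j 0))).eval τ| ≤
        (2 * K + 2 * V 0) / 2 ^ Xd + (D * Qb * δC + δg))) ≤
      (m + 1) * ((2 * D + 2) * (c₀ + 3 * c₁ + n * ((eT + ((2 * D + 1 : ℕ) : ℝ) *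
        (ef + eo + eU + m * e₀ + e₂) + Real.log 2) / Real.log (1 / ρ)))) := by
  classical
  obtain ⟨C, hC, hlt⟩ := lvl_tup D d
  refine ⟨C, hC, ?_⟩
  intro Ω R T Λ X U Y Z L V S' X' _ p hp r l ell x t sT Uf ud zw y cU ef eo eU e₀ e₂ hrz hxz hrU
    hrt hex hle hyx hyt hf ho hU h0 hy xr tt nP cP hL B S n M Xd N a b Vn K eT c₀ c₁ ρ δg δC η s Su
    Bn Bc Qb hM hρ hρ1 hCM htM hfT htt hnd hcd hδg hδC hK0 hs hSu hQb hell hgood hrow hcard hB hK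
    hV hnum
  have hc := cfg_law hp r l m 0
  obtain ⟨Q, hQ⟩ : ∃ Q, Q = cpn (cfg p r l m 0) y (2 * D + 1) := ⟨_, rfl⟩
  have Q0 : ∀ w, 0 ≤ Q w := by rw [hQ]; exact (cpn_law hc y _).nonneg
  have key : ∀ j, Pb Q (fun w => ¬ ((∀ i i', i ≠ i' →
        s ≤ |hL (ell (w i j 0)) - hL (ell (w i' j 0))| ∧
          |hL (ell (w i j 0)) - hL (ell (w i' j 0))| ≤ Su) ∧
      ∀ i, ∀ τ ∈ Set.Icc (0 : ℝ) 1, |(nP (l (w i j 0))).eval τ - (nP (l (w 0 j 0))).eval τ -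
        ∑ k : Fin D, (Pool.NDD66.Qk (fun k => hL (ell (w (ai k) j 0))) (hL (ell (w 0 j 0))) k).eval
          (hL (ell (w i j 0))) * (cP (l (w (ai k) j 0))).eval τ| ≤
        (2 * K + 2 * Vn 0) / 2 ^ Xd + (D * Qb * δC + δg))) ≤
      (2 * D + 2) * (c₀ + 3 * c₁ + n * ((eT + ((2 * D + 1 : ℕ) : ℝ) *
        (ef + eo + eU + m * e₀ + e₂) + Real.log 2) / Real.log (1 / ρ))) := by
    intro j
    have hpos : ∀ v, 0 < cfg p r l m 0 v → 0 < p (v j 0) := fun v hv => (cfg_pos hp r l hv).1 j 0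
    have hfull := nd_full hp r l m (2 * D + 1) j ell x t sT Uf ud zw y hrz hxz hrU hrt hex hle
      (hyx j) hyt hf ho hU h0 hy tt
    rw [hQ]
    refine hlt _ Λ L X' Y (cfg p r l m 0) y (fun v => l (v j 0)) (fun v => ell (v j 0)) xr
      (fun v => tt (v j 0)) nP cP hL (fun v => B (v j 0)) S n M Xd N a b Vn K
      (eT + ((2 * D + 1 : ℕ) : ℝ) * (ef + eo + eU + m * e₀ + e₂)) c₀ c₁ ρ δg δC η s Su Bn Bc Qb
      hc hM hρ hρ1 hCM (fun v hv => htM _ (hpos v hv)) (by linarith) hnd hcd hδg hδC hK0 hs hSu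
      hQb (fun v v' hv hv' => hell _ _ (hpos v hv) (hpos v' hv')) (hgood j)
      (fun k hk v hv => hrow k hk _ (hpos v hv)) hcard ?_ hK hV hnum
    rw [Pool.MIC.Marg.Pb_eq (cfg_one hp r l m 0 j 0) (fun ω => ¬ B ω)]
    exact hB
  rw [← hQ]
  refine le_trans (Pb_mono Q0 (B := fun w => ∃ j : Fin (m + 1), ¬ ((∀ i i', i ≠ i' →
        s ≤ |hL (ell (w i j 0)) - hL (ell (w i' j 0))| ∧
          |hL (ell (w i j 0)) - hL (ell (w i' j 0))| ≤ Su) ∧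
      ∀ i, ∀ τ ∈ Set.Icc (0 : ℝ) 1, |(nP (l (w i j 0))).eval τ - (nP (l (w 0 j 0))).eval τ -
        ∑ k : Fin D, (Pool.NDD66.Qk (fun k => hL (ell (w (ai k) j 0))) (hL (ell (w 0 j 0))) k).eval
          (hL (ell (w i j 0))) * (cP (l (w (ai k) j 0))).eval τ| ≤
        (2 * K + 2 * Vn 0) / 2 ^ Xd + (D * Qb * δC + δg))) fun w _ h => not_forall.1 h) ?_
  refine (Pool.MIC.Pb_exists_le Q0 _).trans ?_
  refine (Finset.sum_le_sum fun j _ => key j).trans (le_of_eq ?_)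
  rw [Finset.sum_const, Finset.card_univ, Fintype.card_fin, nsmul_eq_mul]
  push_cast
  ring

end

/-! ### Common heights -/

theorem Qk_sub {D : ℕ} (y : Fin D → ℝ) (x₀ x x' : ℝ) (k : Fin D) :
    (Pool.NDD66.Qk y x₀ k).eval x - (Pool.NDD66.Qk y x₀ k).eval x' =
      (Pool.NDD66.Qk y x' k).eval x := by
  unfold Pool.NDD66.Qk
  simp only [Polynomial.eval_sub, Polynomial.eval_C]
  ring

/-- **Other heights with the same differences.** -/
theorem hgt_move {D : ℕ} {ι : Type} {y : Fin D → ℝ} {P H h : ι → ℝ} {i₀ : ι} {Cv : Fin D → ℝ}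
    {η s Su δh Bc : ℝ} (hs : 0 < s) (hSu : 0 ≤ Su) (hδ : 0 ≤ δh) (hδS : δh ≤ Su)
    (h1 : ∀ k k', k ≠ k' → s ≤ |y k - y k'|) (h2 : ∀ i k, |H i - y k| ≤ Su)
    (hC : ∀ k, |Cv k| ≤ Bc)
    (hrel : ∀ i, |P i - P i₀ - ∑ k, (Pool.NDD66.Qk y (H i₀) k).eval (H i) * Cv k| ≤ η)
    (hpar : ∀ i, |(H i - H i₀) - (h i - h i₀)| ≤ δh) :
    ∃ q : Polynomial ℝ, q.natDegree ≤ D ∧
      ∀ i, |P i - q.eval (h i)| ≤ η + D * ((2 * Su / s) ^ (D - 1) * δh * Bc) := by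
  refine ⟨(Pool.NDD66.qN y (H i₀) (P i₀) Cv).comp (Polynomial.X + Polynomial.C (H i₀ - h i₀)),
    ?_, fun i => ?_⟩
  · refine Polynomial.natDegree_comp_le.trans ?_
    rw [Polynomial.natDegree_X_add_C, mul_one]
    exact Pool.NDD66.qN_deg _ _ _ _
  · rw [Polynomial.eval_comp, Polynomial.eval_add, Polynomial.eval_X, Polynomial.eval_C,
      Pool.NDD66.qN_eval]
    obtain ⟨z, hz⟩ : ∃ z, z = h i + (H i₀ - h i₀) := ⟨_, rfl⟩
    rw [← hz]
    have hzH : |H i - z| ≤ δh := by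
      rw [hz]
      have h3 := hpar i
      have e : H i - (h i + (H i₀ - h i₀)) = (H i - H i₀) - (h i - h i₀) := by ring
      rw [e]
      exact h3
    have h3 : |∑ k, ((Pool.NDD66.Qk y (H i₀) k).eval (H i) -
        (Pool.NDD66.Qk y (H i₀) k).eval z) * Cv k| ≤
        D * ((2 * Su / s) ^ (D - 1) * δh * Bc) := by
      refine (Finset.abs_sum_le_sum_abs _ _).trans ?_
      refine (Finset.sum_le_sum (g := fun _ => (2 * Su / s) ^ (D - 1) * δh * Bc)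
        fun k _ => ?_).trans (le_of_eq ?_)
      · rw [abs_mul, Qk_sub]
        refine mul_le_mul ?_ (hC k) (abs_nonneg _) (by positivity)
        refine (Pool.NDD66.Qk_le (D := D) (y := y) (S := 2 * Su) hs h1
          (fun k' => (h2 i k').trans (by linarith)) (fun k' => ?_) k).trans
          (mul_le_mul_of_nonneg_left hzH (by positivity))
        have e : z - y k' = (H i - y k') - (H i - z) := by ring
        rw [e]
        exact (abs_sub _ _).trans (by linarith [h2 i k'])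
      · rw [Finset.sum_const, Finset.card_univ, Fintype.card_fin, nsmul_eq_mul]
    have h4 : P i - (P i₀ + ∑ k, (Pool.NDD66.Qk y (H i₀) k).eval z * Cv k) =
        (P i - P i₀ - ∑ k, (Pool.NDD66.Qk y (H i₀) k).eval (H i) * Cv k) +
        ∑ k, ((Pool.NDD66.Qk y (H i₀) k).eval (H i) -
        (Pool.NDD66.Qk y (H i₀) k).eval z) * Cv k := by
      have h5 : ∑ k, ((Pool.NDD66.Qk y (H i₀) k).eval (H i) -
        (Pool.NDD66.Qk y (H i₀) k).eval z) * Cv k =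
          ∑ k, (Pool.NDD66.Qk y (H i₀) k).eval (H i) * Cv k -
          ∑ k, (Pool.NDD66.Qk y (H i₀) k).eval z * Cv k := by
        rw [← Finset.sum_sub_distrib]
        exact Finset.sum_congr rfl fun k _ => by ring
      rw [h5]
      ring
    rw [h4]
    exact (abs_add_le _ _).trans (add_le_add (hrel i) h3)

theorem ti_zero {D : ℕ} : ti (0 : Fin (D + 2)) = 0 := rfl

/-- **The lines of a tuple are in one sheet at every time**: the form for `dd_all`. -/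
theorem tup_q {D : ℕ} {nP cP : Fin (2 * D + 1 + 1) → Polynomial ℝ} {H h : Fin (2 * D + 1 + 1) → ℝ}
    {η s Su δh Bc : ℝ} (hs : 0 < s) (hδ : 0 ≤ δh) (hδS : δh ≤ Su)
    (hsep : ∀ i i', i ≠ i' → s ≤ |H i - H i'| ∧ |H i - H i'| ≤ Su)
    (hC : ∀ i, ∀ τ ∈ Set.Icc (0 : ℝ) 1, |(cP i).eval τ| ≤ Bc)
    (hrel : ∀ i, ∀ τ ∈ Set.Icc (0 : ℝ) 1, |(nP i).eval τ - (nP 0).eval τ -
      ∑ k : Fin D, (Pool.NDD66.Qk (fun k => H (ai k)) (H 0) k).eval (H i) *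
        (cP (ai k)).eval τ| ≤ η)
    (hpar : ∀ i, |(H i - H 0) - (h i - h 0)| ≤ δh) :
    ∀ τ ∈ Set.Icc (0 : ℝ) 1, ∃ q : Polynomial ℝ, q.natDegree ≤ D ∧
      ∀ i : Fin (D + 2), |(nP (ti i)).eval τ - q.eval (h (ti i))| ≤
        η + D * ((2 * Su / s) ^ (D - 1) * δh * Bc) := by
  intro τ hτ
  have hSu : 0 ≤ Su := hδ.trans hδS
  refine hgt_move (i₀ := 0) (P := fun i => (nP (ti i)).eval τ) (H := fun i => H (ti i))
    (h := fun i => h (ti i)) (y := fun k => H (ai k)) (Cv := fun k => (cP (ai k)).eval τ) hs hSu hδ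
    hδS (fun k k' hkk => (hsep _ _ fun h' => hkk (ai_inj h')).1) (fun i k => ?_)
    (fun k => hC _ τ hτ) (fun i => hrel (ti i) τ hτ) (fun i => hpar (ti i))
  by_cases hik : ti i = ai k
  · show |H (ti i) - H (ai k)| ≤ Su
    rw [hik, sub_self, abs_zero]
    exact hSu
  · exact (hsep _ _ hik).2

/-! ### Representatives -/

/-- **Representatives of path polynomials.** -/
theorem rep_poly {Ω Λ L : Type} {p : Ω → ℝ} (ell : Ω → L) (l : Ω → Λ)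
    (NJ : ℕ → Λ → Polynomial ℝ) {d : ℕ} {δ : ℕ → ℝ} (hd : ∀ i x, (NJ i x).natDegree ≤ d)
    (hcl : ∀ ω ω', 0 < p ω → 0 < p ω' → ell ω = ell ω' → ∀ i, ∀ τ ∈ Set.Icc (0 : ℝ) 1,
      |(NJ i (l ω)).eval τ - (NJ i (l ω')).eval τ| ≤ δ i) :
    ∃ NR : ℕ → L → Polynomial ℝ, (∀ i x, (NR i x).natDegree ≤ d) ∧ ∀ ω, 0 < p ω → ∀ i,
      ∀ τ ∈ Set.Icc (0 : ℝ) 1, |(NJ i (l ω)).eval τ - (NR i (ell ω)).eval τ| ≤ δ i := by
  classical
  refine ⟨fun i x => if h : ∃ ω, 0 < p ω ∧ ell ω = x then NJ i (l h.choose) else 0, fun i x => ?_,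
    fun ω hω i τ hτ => ?_⟩
  · simp only
    split_ifs with h
    · exact hd _ _
    · rw [Polynomial.natDegree_zero]
      omega
  · have hex : ∃ ω', 0 < p ω' ∧ ell ω' = ell ω := ⟨ω, hω, rfl⟩
    simp only
    rw [dif_pos hex]
    exact hcl _ _ hω hex.choose_spec.1 hex.choose_spec.2.symm i τ hτ

/-- The combination of the representatives, with the weights of the heights. -/
noncomputable def PAr {Λ L : Type} {D : ℕ} (hL : L → ℝ) (NR : ℕ → L → Polynomial ℝ)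
    (tp : Λ × (Fin (2 * D + 1 + 1) → L)) (i : ℕ) : Polynomial ℝ :=
  ∑ k : Fin (D + 2), Polynomial.C (Pool.NDD66.mu (fun k => hL (tp.2 (ti k))) k) *
    NR i (tp.2 (ti k))

theorem PAr_deg {Λ L : Type} {D d : ℕ} (hL : L → ℝ) {NR : ℕ → L → Polynomial ℝ}
    (hd : ∀ i x, (NR i x).natDegree ≤ d) (tp : Λ × (Fin (2 * D + 1 + 1) → L)) (i : ℕ) :
    (PAr hL NR tp i).natDegree ≤ d :=
  Polynomial.natDegree_sum_le_of_forall_le _ _ fun _ _ =>
    (Polynomial.natDegree_C_mul_le _ _).trans (hd _ _)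

theorem PAr_near {Λ L : Type} {D : ℕ} (hL : L → ℝ) {NR : ℕ → L → Polynomial ℝ}
    (tp : Λ × (Fin (2 * D + 1 + 1) → L)) (i : ℕ) {N : Fin (D + 2) → Polynomial ℝ} {δ τ : ℝ}
    (h : ∀ k, |(N k).eval τ - (NR i (tp.2 (ti k))).eval τ| ≤ δ) :
    |∑ k : Fin (D + 2), Pool.NDD66.mu (fun k => hL (tp.2 (ti k))) k * (N k).eval τ -
      (PAr hL NR tp i).eval τ| ≤ Pool.NDD66.Lam (fun k : Fin (D + 2) => hL (tp.2 (ti k))) * δ := by
  unfold PAr Pool.NDD66.Lam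
  rw [Polynomial.eval_finsetSum, ← Finset.sum_sub_distrib, Finset.sum_mul]
  refine (Finset.abs_sum_le_sum_abs _ _).trans (Finset.sum_le_sum fun k _ => ?_)
  rw [Polynomial.eval_mul, Polynomial.eval_C, ← mul_sub, abs_mul]
  exact mul_le_mul_of_nonneg_left (h k) (abs_nonneg _)

end Pool.ND54
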